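import Pool.Agent.Pend.Targets

/-!
Targets for the project Pend, second part: classes defined by excluded minors.
Proofs: `Blueprint.lean.txt`.
-/

set_option autoImplicit false

namespace Pool.Agent.Pend

open Finset Classical Filter Topology

/-- `H` is a minor of `G`: there are pairwise disjoint connected vertex sets `f a` of `G`, one for
each vertex `a` of `H`, and an edge between `f a` and `f b` for each edge `ab` of `H`. -/
def Minor {W V : Type} (H : SimpleGraph W) (G : SimpleGraph V) : Prop :=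
  ∃ f : W → Set V, (∀ a, (G.induce (f a)).Connected) ∧ (∀ a b, a ≠ b → Disjoint (f a) (f b)) ∧
    ∀ a b, H.Adj a b → ∃ x ∈ f a, ∃ y ∈ f b, G.Adj x y

/-- `H` is 2-connected: at least three vertices, and `H - v` is connected for all `v`. -/
def TwoConn {W : Type} (H : SimpleGraph W) : Prop :=
  3 ≤ Nat.card W ∧ ∀ v : W, (H.induce {w | w ≠ v}).Connected

/-- The graphs without a minor in the family `F`. -/
def FreeOf (F : (W : Type) → SimpleGraph W → Prop) (V : Type) (G : SimpleGraph V) : Prop :=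
  ∀ (W : Type) (H : SimpleGraph W), F W H → ¬ Minor H G

/-- Twice the number of edges. -/
noncomputable def eo {V : Type} [Fintype V] (G : SimpleGraph V) : ℕ :=
  (univ.filter (fun p : V × V => G.Adj p.1 p.2)).card

/-- The number of graphs on `n` labelled vertices without `K_t` minor. -/
noncomputable def pt (t n : ℕ) : ℕ :=
  ((univ : Finset (SimpleGraph (Fin n))).filter
    (fun G => ¬ Minor (⊤ : SimpleGraph (Fin t)) G)).card

/-- MTRANS: the minor relation is transitive. -/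
def T_MTRANS : Prop := ∀ (W U V : Type) (A : SimpleGraph W) (B : SimpleGraph U)
  (G : SimpleGraph V), Minor A B → Minor B G → Minor A G

/-- MSUB: subgraphs are minors. -/
def T_MSUB : Prop := ∀ (U V : Type) (A : SimpleGraph U) (G : SimpleGraph V) (φ : U → V),
  Function.Injective φ → (∀ a b, A.Adj a b → G.Adj (φ a) (φ b)) → Minor A G

/-- MADER: graphs without `K_t` minor have few edges. -/
def T_MADER : Prop := ∀ (t : ℕ) (V : Type) [Fintype V] (G : SimpleGraph V),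
  ¬ Minor (⊤ : SimpleGraph (Fin t)) G → eo G ≤ 2 ^ t * Fintype.card V

/-- CLQN: graphs without `K_t` minor have few cliques. -/
def T_CLQN : Prop := ∀ (t : ℕ) (V : Type) [Fintype V] (G : SimpleGraph V),
  ¬ Minor (⊤ : SimpleGraph (Fin t)) G →
  ((univ : Finset (Finset V)).filter (fun S : Finset V => G.IsClique (S : Set V))).card ≤
    1 + 2 ^ (2 ^ t) * Fintype.card V

/-- TWINS: many elements with few values give many disjoint pairs with the same value. -/
def T_TWINS : Prop := ∀ (V : Type) [Fintype V] (β : Type) (c : V → β) (X : Finset V)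
  (T : Finset β) (s : ℕ), (∀ x ∈ X, c x ∈ T) → T.card + 2 * s ≤ X.card →
  ∃ (D : Finset V) (φ : V → V), D ⊆ X ∧ D.card = s ∧ Set.InjOn φ D ∧
    ∀ v ∈ D, φ v ∈ X ∧ φ v ∉ D ∧ c (φ v) = c v

/-- STRUCT: a large matching or many pairs of twins. -/
def T_STRUCT : Prop := ∀ (t s : ℕ) (V : Type) [Fintype V] (G : SimpleGraph V),
  ¬ Minor (⊤ : SimpleGraph (Fin t)) G →
  1 + s * (4 + 2 * 2 ^ t + 2 * 2 ^ (2 ^ t)) ≤ Fintype.card V →
  ∃ (D : Finset V) (φ : V → V), D.card = s ∧ Set.InjOn φ D ∧ (∀ v ∈ D, φ v ∉ D) ∧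
    ((∀ v ∈ D, G.Adj v (φ v)) ∨ (∀ v ∈ D, ∀ w, (G.Adj v w ↔ G.Adj (φ v) w)))

/-- CNTM: graphs with a given matching. -/
def T_CNTM : Prop := ∀ (t n : ℕ) (D : Finset (Fin n)) (φ : Fin n → Fin n),
  Set.InjOn φ D → (∀ v ∈ D, φ v ∉ D) →
  ((univ : Finset (SimpleGraph (Fin n))).filter (fun G =>
    ¬ Minor (⊤ : SimpleGraph (Fin t)) G ∧ ∀ v ∈ D, G.Adj v (φ v))).card ≤
    2 ^ (4 * 2 ^ t * n) * pt t (n - D.card)

/-- CNTT: graphs with given twins. -/
def T_CNTT : Prop := ∀ (t n : ℕ) (D : Finset (Fin n)) (φ : Fin n → Fin n),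
  (∀ v ∈ D, φ v ∉ D) →
  ((univ : Finset (SimpleGraph (Fin n))).filter (fun G =>
    ¬ Minor (⊤ : SimpleGraph (Fin t)) G ∧ ∀ v ∈ D, ∀ w, (G.Adj v w ↔ G.Adj (φ v) w))).card ≤
    pt t (n - D.card)

/-- RECUR: the recursion. -/
def T_RECUR : Prop := ∀ t n s : ℕ, 1 + s * (4 + 2 * 2 ^ t + 2 * 2 ^ (2 ^ t)) ≤ n →
  pt t n ≤ n.choose s * n ^ s * (2 ^ (4 * 2 ^ t * n) + 1) * pt t (n - s)

/-- SMNUM: the recursion implies exponential growth. -/
def T_SMNUM : Prop := ∀ (p : ℕ → ℕ) (c A : ℕ), 2 ≤ c → p 0 ≤ 1 →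
  (∀ n s : ℕ, 1 + s * c ≤ n → p n ≤ n.choose s * n ^ s * (2 ^ (A * n) + 1) * p (n - s)) →
  ∃ K : ℝ, ∀ n, (p n : ℝ) ≤ K ^ n * (n.factorial : ℝ)

/-- BRS: excluded 2-connected minors give bridge stable classes. -/
def T_BRS : Prop := ∀ (F : (W : Type) → SimpleGraph W → Prop),
  (∀ (W : Type) (H : SimpleGraph W), F W H → TwoConn H) → BridgeStable (FreeOf F)

/-- LFS: excluded minors with minimum degree at least 2 give leaf stable classes. -/
def T_LFS : Prop := ∀ (F : (W : Type) → SimpleGraph W → Prop),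
  (∀ (W : Type) (H : SimpleGraph W), F W H → ∀ v, ∃ a b, a ≠ b ∧ H.Adj v a ∧ H.Adj v b) →
  LeafStable (FreeOf F)

/-- KUR: K5 and K33 are 2-connected. -/
def T_KUR : Prop := TwoConn (⊤ : SimpleGraph (Fin 5)) ∧
  TwoConn (completeBipartiteGraph (Fin 3) (Fin 3))

/-- MAING: excluded minors with minimum degree at least 2, for almost all `n`. -/
def T_MAING : Prop := ∀ (F : (W : Type) → SimpleGraph W → Prop),
  (∀ (W : Type) (H : SimpleGraph W), F W H → Finite W ∧
    ∀ v, ∃ a b, a ≠ b ∧ H.Adj v a ∧ H.Adj v b) → (∃ W H, F W H) →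
  ∀ ε η : ℝ, 0 < ε → 0 < η → ∃ N₀ : ℕ, ∀ N, N₀ ≤ N →
  (((range N).filter (fun n : ℕ => ε * ((cc (FreeOf F) (Fin n)).card : ℝ) <
    ((univ.filter (fun G : SimpleGraph (Fin n) => FreeOf F (Fin n) G ∧ ¬ Rec G)).card : ℝ))).card
      : ℝ) ≤ η * N

/-- MAINF: almost all graphs without minors in a family of 2-connected graphs are
reconstructible. -/
def T_MAINF : Prop := ∀ (F : (W : Type) → SimpleGraph W → Prop),
  (∀ (W : Type) (H : SimpleGraph W), F W H → TwoConn H) → (∃ W H, F W H) →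
  ∀ ε : ℝ, 0 < ε → ∃ n₀ : ℕ, ∀ n, n₀ ≤ n →
  ((univ.filter (fun G : SimpleGraph (Fin n) => FreeOf F (Fin n) G ∧ ¬ Rec G)).card : ℝ) ≤
    ε * ((cc (FreeOf F) (Fin n)).card : ℝ)

end Pool.Agent.Pend
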