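import Pool.Agent.Pend.Targets2

/-!
MSUB: subgraphs are minors.
-/

set_option autoImplicit false

namespace Pool.Agent.Pend

open Finset Classical Filter Topology

/-- MSUB. -/
theorem p_MSUB : T_MSUB := by
  intro U V A G φ hφ hadj
  refine ⟨fun a => {φ a}, ?_, ?_, ?_⟩
  · intro a
    have : Subsingleton (({φ a} : Set V) : Type) := by
      rw [Set.subsingleton_coe]; exact Set.subsingleton_singleton
    have hne : Nonempty (({φ a} : Set V) : Type) := ⟨⟨φ a, rfl⟩⟩
    exact SimpleGraph.IsTree.of_subsingleton.connected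
  · intro a b hab
    rw [Set.disjoint_singleton]
    exact fun h => hab (hφ h)
  · intro a b hab
    exact ⟨φ a, rfl, φ b, rfl, hadj a b hab⟩

end Pool.Agent.Pend
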