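import Pool.Agent.Pend.Targets2

/-!
# CNTM: the number of graphs with a given matching
-/

set_option autoImplicit false

namespace Pool.Agent.Pend

open Finset Classical

namespace CNTM_

variable {n N : ℕ}

/-- the quotient graph -/
def Qg (p : Fin n → Fin N) (G : SimpleGraph (Fin n)) : SimpleGraph (Fin N) where
  Adj a b := a ≠ b ∧ ∃ x y, p x = a ∧ p y = b ∧ G.Adj x y
  symm := ⟨fun _ _ h => ⟨h.1.symm, by
    obtain ⟨_, x, y, h1, h2, h3⟩ := h
    exact ⟨y, x, h2, h1, h3.symm⟩⟩⟩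
  loopless := ⟨fun _ h => h.1 rfl⟩

lemma Qg_adj (p : Fin n → Fin N) (G : SimpleGraph (Fin n)) (a b : Fin N) :
    (Qg p G).Adj a b ↔ a ≠ b ∧ ∃ x y, p x = a ∧ p y = b ∧ G.Adj x y := Iff.rfl

lemma minor (D : Finset (Fin n)) (φ : Fin n → Fin n) (p : Fin n → Fin N)
    (hp1 : ∀ x y, p x = p y → x = y ∨ (x ∈ D ∧ φ x = y) ∨ (y ∈ D ∧ φ y = x))
    (hp2 : Function.Surjective p) (G : SimpleGraph (Fin n)) (hG : ∀ v ∈ D, G.Adj v (φ v)) :
    Minor (Qg p G) G := by
  refine ⟨fun a => {x | p x = a}, ?_, ?_, ?_⟩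
  · intro a
    obtain ⟨x₀, hx₀⟩ := hp2 a
    rw [SimpleGraph.connected_iff_exists_forall_reachable]
    refine ⟨⟨x₀, hx₀⟩, ?_⟩
    rintro ⟨w, hw⟩
    have hw' : p w = a := hw
    rcases hp1 x₀ w (hx₀.trans hw'.symm) with h | ⟨h1, h2⟩ | ⟨h1, h2⟩
    · subst h
      exact SimpleGraph.Reachable.refl _
    · apply SimpleGraph.Adj.reachable
      rw [SimpleGraph.comap_adj]
      show G.Adj x₀ w
      rw [← h2]
      exact hG _ h1
    · apply SimpleGraph.Adj.reachable
      rw [SimpleGraph.comap_adj]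
      show G.Adj x₀ w
      rw [← h2]
      exact (hG _ h1).symm
  · intro a b hab
    rw [Set.disjoint_left]
    intro v h1 h2
    exact hab (h1.symm.trans h2)
  · intro a b hab
    obtain ⟨_, x, y, h1, h2, h3⟩ := hab
    exact ⟨x, h1, y, h2, h3⟩

lemma fibre (D : Finset (Fin n)) (φ : Fin n → Fin n) (p : Fin n → Fin N)
    (hp1 : ∀ x y, p x = p y → x = y ∨ (x ∈ D ∧ φ x = y) ∨ (y ∈ D ∧ φ y = x))
    (hp3 : ∀ a, ((univ : Finset (Fin n)).filter (fun x => p x = a)).card ≤ 2)
    (S : Finset (SimpleGraph (Fin n))) (hS : ∀ G ∈ S, ∀ v ∈ D, G.Adj v (φ v))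
    (K : SimpleGraph (Fin N)) (hK : ∀ G ∈ S, Qg p G = K) : S.card ≤ 2 ^ (4 * eo K) := by
  obtain ⟨R, hR⟩ : ∃ R : Finset (Fin n × Fin n), ∀ q, q ∈ R ↔ K.Adj (p q.1) (p q.2) :=
    ⟨univ.filter (fun q => K.Adj (p q.1) (p q.2)), fun q => by simp⟩
  have hRcard : R.card ≤ 4 * eo K := by
    unfold eo
    refine card_le_mul_card_image_of_maps_to (f := fun q : Fin n × Fin n => (p q.1, p q.2))
      ?_ 4 ?_
    · intro q hq
      rw [hR] at hq
      rw [mem_filter]
      exact ⟨mem_univ _, hq⟩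
    · rintro ⟨a, b⟩ _
      have h1 : (R.filter (fun q => (p q.1, p q.2) = (a, b))) ⊆
          ((univ : Finset (Fin n)).filter (fun x => p x = a)) ×ˢ
          ((univ : Finset (Fin n)).filter (fun x => p x = b)) := by
        intro q hq
        rw [mem_filter] at hq
        rw [mem_product, mem_filter, mem_filter]
        have h2 := hq.2
        rw [Prod.mk.injEq] at h2
        exact ⟨⟨mem_univ _, h2.1⟩, ⟨mem_univ _, h2.2⟩⟩
      refine (card_le_card h1).trans ?_
      rw [card_product]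
      have h3 := Nat.mul_le_mul (hp3 a) (hp3 b)
      omega
  have hinj : S.card ≤ R.powerset.card := by
    refine card_le_card_of_injOn (fun G : SimpleGraph (Fin n) =>
      (univ : Finset (Fin n × Fin n)).filter (fun q => G.Adj q.1 q.2 ∧ p q.1 ≠ p q.2)) ?_ ?_
    · intro G hG
      rw [mem_coe, mem_powerset]
      intro q hq
      rw [mem_filter] at hq
      rw [hR, ← hK G hG, Qg_adj]
      exact ⟨hq.2.2, q.1, q.2, rfl, rfl, hq.2.1⟩
    · intro G hG G' hG' h
      ext x y
      by_cases hxy : p x = p y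
      · rcases hp1 x y hxy with h1 | ⟨h1, h2⟩ | ⟨h1, h2⟩
        · subst h1
          exact ⟨fun h2 => absurd rfl h2.ne, fun h2 => absurd rfl h2.ne⟩
        · subst h2
          exact ⟨fun _ => hS G' hG' x h1, fun _ => hS G hG x h1⟩
        · subst h2
          exact ⟨fun _ => (hS G' hG' y h1).symm, fun _ => (hS G hG y h1).symm⟩
      · have h1 : ((x, y) : Fin n × Fin n) ∈ (univ : Finset (Fin n × Fin n)).filter
            (fun q => G.Adj q.1 q.2 ∧ p q.1 ≠ p q.2) ↔ (x, y) ∈ (univ : Finset (Fin n × Fin n)).filter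
            (fun q => G'.Adj q.1 q.2 ∧ p q.1 ≠ p q.2) := by
          have h' : (univ : Finset (Fin n × Fin n)).filter
            (fun q => G.Adj q.1 q.2 ∧ p q.1 ≠ p q.2) = (univ : Finset (Fin n × Fin n)).filter
            (fun q => G'.Adj q.1 q.2 ∧ p q.1 ≠ p q.2) := h
          rw [h']
        rw [mem_filter, mem_filter] at h1
        exact ⟨fun h2 => (h1.mp ⟨mem_univ _, h2, hxy⟩).2.1,
          fun h2 => (h1.mpr ⟨mem_univ _, h2, hxy⟩).2.1⟩
  rw [card_powerset] at hinj
  exact hinj.trans (Nat.pow_le_pow_right (by norm_num) hRcard)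

lemma exists_p (D : Finset (Fin n)) (φ : Fin n → Fin n) (hφ : Set.InjOn φ D)
    (hφ' : ∀ v ∈ D, φ v ∉ D) :
    ∃ p : Fin n → Fin (n - D.card),
      (∀ x y, p x = p y → x = y ∨ (x ∈ D ∧ φ x = y) ∨ (y ∈ D ∧ φ y = x)) ∧
      Function.Surjective p ∧
      ∀ a, ((univ : Finset (Fin n)).filter (fun x => p x = a)).card ≤ 2 := by
  have hcard : Fintype.card {v // v ∉ D} = n - D.card := by
    rw [Fintype.card_subtype_compl, Fintype.card_fin, Fintype.card_coe]
  obtain ⟨e⟩ : Nonempty ({v // v ∉ D} ≃ Fin (n - D.card)) := ⟨Fintype.equivFinOfCardEq hcard⟩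
  obtain ⟨π, hπ⟩ : ∃ π : Fin n → {v // v ∉ D}, ∀ x, (π x : Fin n) = if x ∈ D then φ x else x :=
    ⟨fun x => ⟨if x ∈ D then φ x else x, by
      split_ifs with h
      · exact hφ' x h
      · exact h⟩, fun _ => rfl⟩
  refine ⟨fun x => e (π x), ?_, ?_, ?_⟩
  · intro x y hxy
    have h1 : π x = π y := e.injective hxy
    have h2 := congrArg Subtype.val h1
    rw [hπ, hπ] at h2
    by_cases hx : x ∈ D
    · rw [if_pos hx] at h2
      by_cases hy : y ∈ D
      · rw [if_pos hy] at h2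
        exact Or.inl (hφ hx hy h2)
      · rw [if_neg hy] at h2
        exact Or.inr (Or.inl ⟨hx, h2⟩)
    · rw [if_neg hx] at h2
      by_cases hy : y ∈ D
      · rw [if_pos hy] at h2
        exact Or.inr (Or.inr ⟨hy, h2.symm⟩)
      · rw [if_neg hy] at h2
        exact Or.inl h2
  · intro a
    refine ⟨(e.symm a : Fin n), ?_⟩
    have h1 : π (e.symm a : Fin n) = e.symm a := by
      apply Subtype.ext
      rw [hπ, if_neg (e.symm a).2]
    show e (π (e.symm a : Fin n)) = a
    rw [h1, e.apply_symm_apply]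
  · intro a
    have h1 : ((univ : Finset (Fin n)).filter (fun x => e (π x) = a)) ⊆
        insert (e.symm a : Fin n) (D.filter (fun v => φ v = (e.symm a : Fin n))) := by
      intro x hx
      rw [mem_filter] at hx
      have h2 : π x = e.symm a := by rw [← hx.2, e.symm_apply_apply]
      have h3 := congrArg Subtype.val h2
      rw [hπ] at h3
      rw [mem_insert, mem_filter]
      by_cases hx' : x ∈ D
      · rw [if_pos hx'] at h3
        exact Or.inr ⟨hx', h3⟩
      · rw [if_neg hx'] at h3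
        exact Or.inl h3
    refine (card_le_card h1).trans ((card_insert_le _ _).trans ?_)
    have h4 : (D.filter (fun v => φ v = (e.symm a : Fin n))).card ≤ 1 := by
      rw [card_le_one]
      intro x hx y hy
      rw [mem_filter] at hx hy
      exact hφ hx.1 hy.1 (hx.2.trans hy.2.symm)
    omega

end CNTM_

open CNTM_ in
/-- CNTM -/
theorem p_CNTM (h1 : T_MADER) (h2 : T_MTRANS) : T_CNTM := by
  intro t n D φ hφ hφ'
  obtain ⟨p, hp1, hp2, hp3⟩ := exists_p D φ hφ hφ'
  unfold pt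
  refine card_le_mul_card_image_of_maps_to (f := fun G => Qg p G) ?_ _ ?_
  · intro G hG
    rw [mem_filter] at hG ⊢
    refine ⟨mem_univ _, fun h => hG.2.1 (h2 _ _ _ _ _ _ h (minor D φ p hp1 hp2 G hG.2.2))⟩
  · intro K hK
    rw [mem_filter] at hK
    refine (fibre D φ p hp1 hp3 _ ?_ K ?_).trans ?_
    · intro G hG
      rw [mem_filter, mem_filter] at hG
      exact hG.1.2.2
    · intro G hG
      rw [mem_filter] at hG
      exact hG.2
    · apply Nat.pow_le_pow_right (by norm_num)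
      have h3 := h1 t (Fin (n - D.card)) K hK.2
      rw [Fintype.card_fin] at h3
      have h4 : 2 ^ t * (n - D.card) ≤ 2 ^ t * n := Nat.mul_le_mul_left _ (Nat.sub_le _ _)
      calc 4 * eo K ≤ 4 * (2 ^ t * n) := by omega
        _ = 4 * 2 ^ t * n := by ring

end Pool.Agent.Pend
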