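import Pool.Agent.Pend.Targets

set_option autoImplicit false

namespace Pool.Agent.Pend

open Finset Classical Filter Topology

namespace AINEQ_

theorem nat_sq (m : ℕ) : m ^ 2 = m * (m - 1) + m := by
  cases m with
  | zero => rfl
  | succ k =>
    have h : k + 1 - 1 = k := rfl
    rw [h]
    ring

/-- the inequality between the numbers -/
theorem final (n f c0 c1 c2 : ℝ) (hn : 0 ≤ n) (hf : 0 < f)
    (h : ((n + 2) * (n + 1) * c1) ^ 2 ≤
      c2 * ((n + 2) * (n + 1) * n ^ 2 * c0 + (n + 2) * (n + 1) * c1)) :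
    (n + 1) ^ 2 * (c1 / ((n + 1) * f)) ^ 2 ≤
      c2 / ((n + 2) * ((n + 1) * f)) * (n ^ 2 * (c0 / f) + (n + 1) * (c1 / ((n + 1) * f))) := by
  have hA : (0 : ℝ) < (n + 2) * (n + 1) := by positivity
  have h' : (n + 2) * (n + 1) * c1 ^ 2 ≤ c2 * (n ^ 2 * c0 + c1) := by
    have h3 : ((n + 2) * (n + 1)) * ((n + 2) * (n + 1) * c1 ^ 2) ≤
        ((n + 2) * (n + 1)) * (c2 * (n ^ 2 * c0 + c1)) := by
      calc ((n + 2) * (n + 1)) * ((n + 2) * (n + 1) * c1 ^ 2)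
          = ((n + 2) * (n + 1) * c1) ^ 2 := by ring
        _ ≤ c2 * ((n + 2) * (n + 1) * n ^ 2 * c0 + (n + 2) * (n + 1) * c1) := h
        _ = ((n + 2) * (n + 1)) * (c2 * (n ^ 2 * c0 + c1)) := by ring
    exact le_of_mul_le_mul_left h3 hA
  have hn1 : n + 1 ≠ 0 := by positivity
  have hn2 : n + 2 ≠ 0 := by positivity
  have hf' : f ≠ 0 := hf.ne'
  have e1 : (n + 1) ^ 2 * (c1 / ((n + 1) * f)) ^ 2 =
      ((n + 2) * (n + 1) * c1 ^ 2) / ((n + 2) * (n + 1) * f ^ 2) := by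
    field_simp
  have e2 : c2 / ((n + 2) * ((n + 1) * f)) *
      (n ^ 2 * (c0 / f) + (n + 1) * (c1 / ((n + 1) * f))) =
      (c2 * (n ^ 2 * c0 + c1)) / ((n + 2) * (n + 1) * f ^ 2) := by
    field_simp
  rw [e1, e2]
  exact div_le_div_of_nonneg_right h' (by positivity)

end AINEQ_

theorem p_AINEQ (h1 : T_L1) (h2 : T_L2) : T_AINEQ := by
  intro C hC n hn
  have e1 := h1 C hC (n + 1) (by omega)
  have e2 := h2 C hC n hn
  have cs := sq_sum_le_card_mul_sum_sq (s := cc C (Fin (n + 2)))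
    (f := fun G => ((lv G : ℕ) : ℝ))
  have e3 : ∑ G ∈ cc C (Fin (n + 2)), ((lv G : ℕ) : ℝ)
      = ((n : ℝ) + 2) * ((n : ℝ) + 1) * (cnt C (n + 1) : ℝ) := by
    have h3 : ((∑ G ∈ cc C (Fin (n + 1 + 1)), lv G : ℕ) : ℝ)
        = (((n + 1 + 1) * (n + 1) * cnt C (n + 1) : ℕ) : ℝ) := by
      rw [e1]
    push_cast at h3
    have h4 : ((n : ℝ) + 1 + 1) = (n : ℝ) + 2 := by ring
    rw [h4] at h3
    exact h3
  have e4 : ∑ G ∈ cc C (Fin (n + 2)), ((lv G : ℕ) : ℝ) ^ 2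
      = ((n : ℝ) + 2) * ((n : ℝ) + 1) * (n : ℝ) ^ 2 * (cnt C n : ℝ)
        + ((n : ℝ) + 2) * ((n : ℝ) + 1) * (cnt C (n + 1) : ℝ) := by
    have h5 : ∀ G ∈ cc C (Fin (n + 2)), ((lv G : ℕ) : ℝ) ^ 2
        = ((lv G * (lv G - 1) : ℕ) : ℝ) + ((lv G : ℕ) : ℝ) := by
      intro G _
      have := AINEQ_.nat_sq (lv G)
      exact_mod_cast this
    rw [Finset.sum_congr rfl h5, Finset.sum_add_distrib, e3]
    have h6 : ∑ G ∈ cc C (Fin (n + 2)), ((lv G * (lv G - 1) : ℕ) : ℝ)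
        = (((n + 2) * (n + 1) * n ^ 2 * cnt C n : ℕ) : ℝ) := by
      rw [← e2]
      push_cast
      rfl
    rw [h6]
    push_cast
    rfl
  rw [e3, e4] at cs
  have hcard : ((cc C (Fin (n + 2))).card : ℝ) = (cnt C (n + 2) : ℝ) := rfl
  rw [hcard] at cs
  have fin := AINEQ_.final (n : ℝ) (n.factorial : ℝ) (cnt C n : ℝ) (cnt C (n + 1) : ℝ)
    (cnt C (n + 2) : ℝ) (Nat.cast_nonneg n) (by exact_mod_cast Nat.factorial_pos n) cs
  have f1 : (((n + 1).factorial : ℕ) : ℝ) = ((n : ℝ) + 1) * (n.factorial : ℝ) := by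
    rw [Nat.factorial_succ]
    push_cast
    ring
  have f2 : (((n + 2).factorial : ℕ) : ℝ) = ((n : ℝ) + 2) * (((n : ℝ) + 1) * (n.factorial : ℝ)) := by
    have : (n + 2).factorial = (n + 2) * (n + 1).factorial := Nat.factorial_succ (n + 1)
    rw [this]
    push_cast
    rw [f1]
  unfold aa
  rw [f1, f2]
  exact fin

end Pool.Agent.Pend
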