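import Pool.Agent.Pend.Targets

set_option autoImplicit false

namespace Pool.Agent.Pend

open Finset Classical Filter Topology

namespace ASY_

theorem up (a : ℕ → ℝ) (R : ℝ) (hR : 0 ≤ R) (n m : ℕ)
    (h : ∀ j, n ≤ j → j < n + m → a (j + 1) ≤ R * a j) : a (n + m) ≤ R ^ m * a n := by
  induction m with
  | zero => simp
  | succ m ih =>
    have h1 := ih (fun j h1 h2 => h j h1 (by omega))
    have h2 := h (n + m) (by omega) (by omega)
    calc a (n + (m + 1)) = a (n + m + 1) := by rw [add_assoc]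
      _ ≤ R * a (n + m) := h2
      _ ≤ R * (R ^ m * a n) := mul_le_mul_of_nonneg_left h1 hR
      _ = R ^ (m + 1) * a n := by ring

theorem down (a : ℕ → ℝ) (R : ℝ) (hR : 0 ≤ R) (n q : ℕ) (hq : q ≤ n)
    (h : ∀ j, n ≤ j + q → j < n → R * a j ≤ a (j + 1)) : R ^ q * a (n - q) ≤ a n := by
  induction q with
  | zero => simp
  | succ q ih =>
    have h1 := ih (by omega) (fun j h1 h2 => h j (by omega) h2)
    have h2 := h (n - (q + 1)) (by omega) (by omega)
    have e : n - (q + 1) + 1 = n - q := by omega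
    rw [e] at h2
    calc R ^ (q + 1) * a (n - (q + 1)) = R ^ q * (R * a (n - (q + 1))) := by ring
      _ ≤ R ^ q * a (n - q) := mul_le_mul_of_nonneg_left h2 (pow_nonneg hR _)
      _ ≤ a n := h1

theorem fact_le (K : ℕ) (hK : 1 ≤ K) :
    (K.factorial : ℝ) * Real.exp K ≤ Real.exp 1 * K * (K : ℝ) ^ K := by
  induction K, hK using Nat.le_induction with
  | base => simp
  | succ K hK ih =>
    have hK0 : (0 : ℝ) < K := by exact_mod_cast hK
    have h1 : Real.exp 1 * (K : ℝ) ^ (K + 1) ≤ ((K : ℝ) + 1) ^ (K + 1) := by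
      have h2 := Real.one_sub_inv_le_log_of_pos (show (0 : ℝ) < ((K : ℝ) + 1) / K by positivity)
      have h3 : 1 ≤ ((K : ℝ) + 1) * Real.log (((K : ℝ) + 1) / K) := by
        have h4 : 1 - (((K : ℝ) + 1) / K)⁻¹ = 1 / ((K : ℝ) + 1) := by
          field_simp; ring
        rw [h4] at h2
        calc (1 : ℝ) = ((K : ℝ) + 1) * (1 / ((K : ℝ) + 1)) := by field_simp
          _ ≤ _ := mul_le_mul_of_nonneg_left h2 (by positivity)
      have h5 : Real.exp 1 ≤ (((K : ℝ) + 1) / K) ^ (K + 1) := by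
        calc Real.exp 1 ≤ Real.exp (((K : ℝ) + 1) * Real.log (((K : ℝ) + 1) / K)) :=
              Real.exp_le_exp.mpr h3
          _ = (((K : ℝ) + 1) / K) ^ (K + 1) := by
              rw [show ((K : ℝ) + 1) = ((K + 1 : ℕ) : ℝ) by push_cast; ring, Real.exp_nat_mul,
                Real.exp_log (by positivity)]
      calc Real.exp 1 * (K : ℝ) ^ (K + 1) ≤ (((K : ℝ) + 1) / K) ^ (K + 1) * (K : ℝ) ^ (K + 1) :=
            mul_le_mul_of_nonneg_right h5 (by positivity)
        _ = ((K : ℝ) + 1) ^ (K + 1) := by rw [← mul_pow]; field_simp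
    rw [Nat.factorial_succ]
    push_cast
    rw [Real.exp_add]
    calc ((K : ℝ) + 1) * K.factorial * (Real.exp K * Real.exp 1)
        = ((K : ℝ) + 1) * Real.exp 1 * (K.factorial * Real.exp K) := by ring
      _ ≤ ((K : ℝ) + 1) * Real.exp 1 * (Real.exp 1 * K * (K : ℝ) ^ K) :=
          mul_le_mul_of_nonneg_left ih (by positivity)
      _ = Real.exp 1 * ((K : ℝ) + 1) * (Real.exp 1 * (K : ℝ) ^ (K + 1)) := by ring
      _ ≤ Real.exp 1 * ((K : ℝ) + 1) * ((K : ℝ) + 1) ^ (K + 1) :=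
          mul_le_mul_of_nonneg_left h1 (by positivity)

theorem exp34 : Real.exp (34 / 100) ≤ 100 / 71 := by
  have h := Real.exp_bound' (show (0 : ℝ) ≤ 34 / 100 by norm_num) (by norm_num)
    (show 0 < 5 by norm_num)
  refine h.trans ?_
  norm_num [Finset.sum_range_succ, Nat.factorial]

theorem small (A c ε : ℝ) (hc : 0 < c) (hε : 0 < ε) :
    ∀ᶠ L : ℝ in atTop, A * L ^ 3 * Real.exp (-(c * L)) ≤ ε := by
  have h1 := (Real.tendsto_pow_mul_exp_neg_atTop_nhds_zero 3).comp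
    (tendsto_id.const_mul_atTop hc)
  have h2 : Tendsto (fun L : ℝ => (A / c ^ 3) * ((c * L) ^ 3 * Real.exp (-(c * L)))) atTop
      (𝓝 ((A / c ^ 3) * 0)) := Tendsto.const_mul _ h1
  rw [mul_zero] at h2
  filter_upwards [h2.eventually_le_const hε] with L hL
  refine le_trans (le_of_eq ?_) hL
  field_simp

theorem large (n₀ : ℕ) : ∀ᶠ n : ℕ in atTop, 30 * Real.log n + n₀ + 2 ≤ n := by
  have h1 := (Real.isLittleO_log_id_atTop.bound (show (0 : ℝ) < 1 / 60 by norm_num))
  have h2 := tendsto_natCast_atTop_atTop (R := ℝ)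
  filter_upwards [h2.eventually h1, h2.eventually (eventually_ge_atTop (2 * ((n₀ : ℝ) + 2))),
    h2.eventually (eventually_ge_atTop 1)] with n h3 h4 h5
  have h6 : |Real.log n| ≤ 1 / 60 * |(n : ℝ)| := by simpa using h3
  rw [abs_of_nonneg (Real.log_nonneg h5), abs_of_nonneg (by positivity)] at h6
  linarith

theorem expsplit (L κ x : ℝ) :
    Real.exp (2 * L + κ - x) = Real.exp L ^ 2 * Real.exp κ * Real.exp (-x) := by
  rw [← Real.exp_nat_mul, ← Real.exp_add, ← Real.exp_add]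
  congr 1

theorem expo1 (g L κ G c : ℝ) (hg : 34 / 100 ≤ g) (hG : g ≤ G) (hL : 0 ≤ L)
    (hc : c = 2 / 100 / (G + 1)) (hκ0 : 0 ≤ κ) (hκ : κ ≤ L / (2 * (g - 27 / 100)) + 1) :
    2 * κ * (g + 1 / 100) - κ - L ≤ 2 * G - c * L := by
  obtain ⟨D, rfl⟩ : ∃ D, g = D + 27 / 100 := ⟨g - 27 / 100, by ring⟩
  have e0 : D + 27 / 100 - 27 / 100 = D := by ring
  rw [e0] at hκ
  have hD : 0 < D := by linarith
  have hG0 : 0 < G + 1 := by linarith
  have hc1 : c ≤ 1 := by
    rw [hc, div_le_one hG0]; linarith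
  have hcD : c ≤ 2 / 100 / D := by
    rw [hc]; exact div_le_div_of_nonneg_left (by norm_num) hD (by linarith)
  have e1 : 2 * κ * (D + 27 / 100 + 1 / 100) - κ - L = 2 * κ * (D - 22 / 100) - L := by ring
  rw [e1]
  rcases le_or_gt D (22 / 100) with h | h
  · have : 2 * κ * (D - 22 / 100) ≤ 0 := mul_nonpos_of_nonneg_of_nonpos (by linarith) (by linarith)
    nlinarith
  · have h1 : 2 * κ * (D - 22 / 100) ≤ (L / D + 2) * (D - 22 / 100) := by
      apply mul_le_mul_of_nonneg_right _ (by linarith)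
      have : L / (2 * D) = L / D / 2 := by field_simp
      rw [this] at hκ
      linarith
    have h2 : (L / D + 2) * (D - 22 / 100) =
        L - 22 / 100 * (L / D) + 2 * (D - 22 / 100) := by
      field_simp
    have h3 : c * L ≤ 2 / 100 * (L / D) := by
      calc c * L ≤ 2 / 100 / D * L := mul_le_mul_of_nonneg_right hcD hL
        _ = _ := by ring
    have h4 : 0 ≤ L / D := by positivity
    linarith

theorem expo3 (g L κ G c q : ℝ) (hg : 34 / 100 ≤ g) (hG : g ≤ G) (hL : 0 ≤ L)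
    (hc : c = 2 / 100 / (G + 1)) (hκ : L / (2 * (g - 27 / 100)) ≤ κ) (hq : 4 * κ - 1 ≤ q) :
    2 * L + κ - q * (g - 1 / 100) ≤ G - c * L := by
  obtain ⟨D, rfl⟩ : ∃ D, g = D + 27 / 100 := ⟨g - 27 / 100, by ring⟩
  have e0 : D + 27 / 100 - 27 / 100 = D := by ring
  rw [e0] at hκ
  have hD : 0 < D := by linarith
  have hG0 : 0 < G + 1 := by linarith
  have hcD : c ≤ 2 / 100 / D := by
    rw [hc]; exact div_le_div_of_nonneg_left (by norm_num) hD (by linarith)
  have h1 : (4 * κ - 1) * (D + 26 / 100) ≤ q * (D + 26 / 100) :=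
    mul_le_mul_of_nonneg_right hq (by linarith)
  have h2 : 4 * (L / (2 * D)) * (D + 1 / 100) ≤ 4 * κ * (D + 1 / 100) := by
    apply mul_le_mul_of_nonneg_right _ (by linarith)
    linarith
  have h3 : 4 * (L / (2 * D)) * (D + 1 / 100) =
      2 * L + 2 / 100 * (L / D) := by
    field_simp; ring
  have h4 : c * L ≤ 2 / 100 * (L / D) := by
    calc c * L ≤ 2 / 100 / D * L := mul_le_mul_of_nonneg_right hcD hL
      _ = _ := by ring
  nlinarith

theorem core (a φ : ℕ → ℝ) (n₀ : ℕ) (h0 : ∀ n, 0 ≤ a n)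
    (h1 : ∀ n, n₀ ≤ n → 0 < a n ∧ a n ≤ 71 / 100 * a (n + 1))
    (h2 : ∀ k : ℕ, φ k ≤ ((k : ℝ) + 3) ^ (k + 3) / ((k + 3).factorial : ℝ))
    (h3 : ∀ k : ℕ,
      ((k : ℝ) + 3) ^ (k + 3) / ((k + 3).factorial : ℝ) / (2 * ((k : ℝ) + 3)) ^ 2 ≤ φ k)
    (δ G c A : ℝ) (hδ : 0 < δ) (hG : G = |Real.log (1 / δ)| + 1) (hc : c = 2 / 100 / (G + 1))
    (hA : A = 4 * Real.exp 1 * 9 ^ 3 * Real.exp (2 * G) + 19 / δ + 3 * 19 ^ 3 * Real.exp G)
    (n : ℕ) (hgood : Good a δ n) (hw : 30 * Real.log n + n₀ + 2 ≤ n) (hL10 : 10 ≤ Real.log n)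
    (hL6 : 6 * G ≤ Real.log n) : ∃ k : ℕ, 4 * (k + 3) + 2 ≤ n ∧
    a (n + 2 * (k + 3)) / ((n : ℝ) * φ k) + (2 * ((k : ℝ) + 3) + 1) * a (n + 1) / (n : ℝ) +
      (n : ℝ) ^ 2 * (2 * ((k : ℝ) + 3) + 1) ^ 3 * φ k *
        (a (n - (4 * (k + 3) - 1)) + a (n - 4 * (k + 3)) + a (n - (4 * (k + 3) + 1))) ≤
      A * Real.log n ^ 3 * Real.exp (-(c * Real.log n)) * a n := by
  set L := Real.log n with hLdef
  have hL0 : 0 < L := by linarith
  have hn0 : (0 : ℝ) < n := by
    have : (0 : ℝ) ≤ n₀ := by positivity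
    linarith
  have hpos : ∀ j : ℕ, (n : ℝ) ≤ (j : ℝ) + 30 * L → n₀ ≤ j := by
    intro j hj
    have : (n₀ : ℝ) ≤ j := by linarith
    exact_mod_cast this
  have hpn : n₀ ≤ n := hpos n (by linarith)
  have an : 0 < a n := (h1 n hpn).1
  have an1 : 0 < a (n + 1) := (h1 (n + 1) (by omega)).1
  set g := Real.log (a (n + 1) / a n) with hg
  have hr : 0 < a (n + 1) / a n := by positivity
  have hexpg : Real.exp g = a (n + 1) / a n := Real.exp_log hr
  have g34 : 34 / 100 ≤ g := by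
    rw [hg, Real.le_log_iff_exp_le hr]
    refine exp34.trans ?_
    rw [le_div_iff₀ an]
    have := (h1 n hpn).2
    linarith
  have gG : g ≤ G - 1 := by
    have h4 := (hgood n n (by linarith) (by linarith) (by linarith) (by linarith)).1
    have h5 : a (n + 1) / a n ≤ 1 / δ := by
      rw [div_le_div_iff₀ an hδ]; linarith
    have h6 : g ≤ Real.log (1 / δ) := Real.log_le_log hr h5
    have h7 := le_abs_self (Real.log (1 / δ))
    rw [hG]; linarith
  have hGpos : 1 ≤ G := by rw [hG]; have := abs_nonneg (Real.log (1 / δ)); linarith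
  have hup : ∀ j : ℕ, (n : ℝ) ≤ (j : ℝ) + 30 * L → (j : ℝ) ≤ n + 30 * L →
      a (j + 1) ≤ Real.exp (g + 1 / 100) * a j := by
    intro j hj1 hj2
    have h4 := (hgood n j (by linarith) (by linarith) hj1 hj2).2
    have h5 : a (j + 1) ≤ Real.exp (1 / 100) * (a j * a (n + 1)) / a n := by
      rw [le_div_iff₀ an]; linarith
    refine h5.trans (le_of_eq ?_)
    rw [Real.exp_add, hexpg]
    field_simp
  have hdn : ∀ j : ℕ, (n : ℝ) ≤ (j : ℝ) + 30 * L → (j : ℝ) ≤ n + 30 * L →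
      Real.exp (g - 1 / 100) * a j ≤ a (j + 1) := by
    intro j hj1 hj2
    have h4 := (hgood j n hj1 hj2 (by linarith) (by linarith)).2
    have h5 : Real.exp (g - 1 / 100) * a j = a j * a (n + 1) / a n / Real.exp (1 / 100) := by
      rw [Real.exp_sub, hexpg]; field_simp
    rw [h5, div_le_iff₀ (Real.exp_pos _), div_le_iff₀ an]
    linarith
  have hD : 7 / 100 ≤ g - 27 / 100 := by linarith
  have hD0 : 0 < g - 27 / 100 := by linarith
  obtain ⟨K, hKdef⟩ : ∃ K, K = ⌈L / (2 * (g - 27 / 100))⌉₊ := ⟨_, rfl⟩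
  have hK1 : L / (2 * (g - 27 / 100)) ≤ K := by rw [hKdef]; exact Nat.le_ceil _
  have hK2 : (K : ℝ) ≤ L / (2 * (g - 27 / 100)) + 1 := by
    rw [hKdef]; exact (Nat.ceil_lt_add_one (by positivity)).le
  have hK3 : L / (2 * (g - 27 / 100)) ≤ L / (14 / 100) :=
    div_le_div_of_nonneg_left hL0.le (by norm_num) (by linarith)
  have hK4 : (K : ℝ) ≤ L / (14 / 100) + 1 := by linarith
  have hK5 : (3 : ℝ) ≤ K := by
    refine le_trans ?_ hK1
    rw [le_div_iff₀ (by linarith)]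
    linarith
  have hK6 : 3 ≤ K := by exact_mod_cast hK5
  obtain ⟨k, rfl⟩ : ∃ k, K = k + 3 := ⟨K - 3, by omega⟩
  have hcast : ((k + 3 : ℕ) : ℝ) = (k : ℝ) + 3 := by push_cast; ring
  rw [hcast] at hK1 hK2 hK4 hK5
  set κ : ℝ := (k : ℝ) + 3 with hκ
  have hκ0 : 0 < κ := by linarith
  have hLd : L / (14 / 100) = 50 / 7 * L := by field_simp; norm_num
  rw [hLd] at hK4
  have hκ30 : 4 * κ + 1 ≤ 30 * L := by linarith
  have hκ9 : κ ≤ 9 * L := by linarith
  have hκ19 : 2 * κ + 1 ≤ 19 * L := by linarith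
  have hnL : (n : ℝ) = Real.exp L := by rw [hLdef, Real.exp_log hn0]
  have hbig : (4 * (k + 3) + 2 : ℕ) ≤ n := by
    have : ((4 * (k + 3) + 2 : ℕ) : ℝ) ≤ n := by
      push_cast
      have : (0 : ℝ) ≤ n₀ := by positivity
      rw [hκ] at hκ30
      linarith
    exact_mod_cast this
  refine ⟨k, hbig, ?_⟩
  have hf0 : (0 : ℝ) < ((k + 3).factorial : ℝ) := by exact_mod_cast Nat.factorial_pos _
  have hφ1 : φ k ≤ Real.exp κ := (h2 k).trans (Real.pow_div_factorial_le_exp κ hκ0.le (k + 3))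
  have hφ2 : Real.exp κ / (Real.exp 1 * κ * (2 * κ) ^ 2) ≤ φ k := by
    refine le_trans ?_ (h3 k)
    have h4 := fact_le (k + 3) (by omega)
    rw [hcast] at h4
    rw [← div_div]
    apply div_le_div_of_nonneg_right _ (by positivity)
    rw [div_le_div_iff₀ (by positivity) hf0]
    linarith
  have hφ0 : 0 < φ k := lt_of_lt_of_le (by positivity) hφ2
  -- term 1
  have T1 : a (n + 2 * (k + 3)) / ((n : ℝ) * φ k) ≤
      4 * Real.exp 1 * κ ^ 3 * Real.exp (2 * G - c * L) * a n := by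
    have h4 := up a (Real.exp (g + 1 / 100)) (Real.exp_pos _).le n (2 * (k + 3))
      (fun j hj1 hj2 => hup j (by
          have : (n : ℝ) ≤ j := by exact_mod_cast hj1
          linarith) (by
          have : (j : ℝ) < n + 2 * (k + 3) := by exact_mod_cast hj2
          linarith))
    rw [← Real.exp_nat_mul] at h4
    have e1 : ((2 * (k + 3) : ℕ) : ℝ) * (g + 1 / 100) = 2 * κ * (g + 1 / 100) := by
      push_cast; ring
    rw [e1] at h4
    have h5 : (n : ℝ) * (Real.exp κ / (Real.exp 1 * κ * (2 * κ) ^ 2)) ≤ n * φ k :=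
      mul_le_mul_of_nonneg_left hφ2 hn0.le
    have h6 : 0 < (n : ℝ) * (Real.exp κ / (Real.exp 1 * κ * (2 * κ) ^ 2)) := by positivity
    calc a (n + 2 * (k + 3)) / ((n : ℝ) * φ k)
        ≤ Real.exp (2 * κ * (g + 1 / 100)) * a n /
            ((n : ℝ) * (Real.exp κ / (Real.exp 1 * κ * (2 * κ) ^ 2))) := by
          apply div_le_div₀ (by positivity) h4 h6 h5
      _ = 4 * Real.exp 1 * κ ^ 3 * Real.exp (2 * κ * (g + 1 / 100) - κ - L) * a n := by
          rw [hnL, Real.exp_sub, Real.exp_sub]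
          field_simp
          try ring
      _ ≤ _ := by
          have h7 := expo1 g L κ G c g34 (by linarith) hL0.le hc hκ0.le hK2
          apply mul_le_mul_of_nonneg_right _ an.le
          apply mul_le_mul_of_nonneg_left (Real.exp_le_exp.mpr h7) (by positivity)
  have hc0 : 0 < c := by rw [hc]; positivity
  have hc1 : c ≤ 1 := by
    rw [hc, div_le_one (by linarith)]; linarith
  have T2 : (2 * κ + 1) * a (n + 1) / (n : ℝ) ≤
      19 / δ * L * Real.exp (-(c * L)) * a n := by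
    have h4 := (hgood n n (by linarith) (by linarith) (by linarith) (by linarith)).1
    have h5 : a (n + 1) ≤ a n / δ := by rw [le_div_iff₀ hδ]; linarith
    have h6 : Real.exp (-L) ≤ Real.exp (-(c * L)) := by
      apply Real.exp_le_exp.mpr; nlinarith
    calc (2 * κ + 1) * a (n + 1) / (n : ℝ) ≤ (19 * L) * (a n / δ) / n := by
          apply div_le_div_of_nonneg_right _ hn0.le
          exact mul_le_mul hκ19 h5 an1.le (by positivity)
      _ = 19 / δ * L * Real.exp (-L) * a n := by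
          rw [hnL, Real.exp_neg]; field_simp
      _ ≤ _ := by
          apply mul_le_mul_of_nonneg_right _ an.le
          exact mul_le_mul_of_nonneg_left h6 (by positivity)
  have T3 : ∀ q : ℕ, q ≤ 4 * (k + 3) + 1 → 4 * (k + 3) - 1 ≤ q →
      (n : ℝ) ^ 2 * (2 * κ + 1) ^ 3 * φ k * a (n - q) ≤
        (2 * κ + 1) ^ 3 * Real.exp (G - c * L) * a n := by
    intro q hq1 hq2
    have hq1' : (q : ℝ) ≤ 4 * κ + 1 := by
      have : (q : ℝ) ≤ ((4 * (k + 3) + 1 : ℕ) : ℝ) := by exact_mod_cast hq1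
      push_cast at this
      rw [hκ]; linarith
    have hq2' : 4 * κ - 1 ≤ (q : ℝ) := by
      have h4 : 4 * (k + 3) ≤ q + 1 := by omega
      have : ((4 * (k + 3) : ℕ) : ℝ) ≤ ((q + 1 : ℕ) : ℝ) := by exact_mod_cast h4
      push_cast at this
      rw [hκ]; linarith
    have h4 := down a (Real.exp (g - 1 / 100)) (Real.exp_pos _).le n q (by omega)
      (fun j hj1 hj2 => hdn j (by
          have : (n : ℝ) ≤ j + q := by exact_mod_cast hj1
          linarith) (by
          have : (j : ℝ) < n := by exact_mod_cast hj2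
          linarith))
    rw [← Real.exp_nat_mul] at h4
    have h5 : a (n - q) ≤ Real.exp (-((q : ℝ) * (g - 1 / 100))) * a n := by
      rw [Real.exp_neg, ← div_eq_inv_mul, le_div_iff₀ (Real.exp_pos _)]
      linarith
    calc (n : ℝ) ^ 2 * (2 * κ + 1) ^ 3 * φ k * a (n - q)
        ≤ (n : ℝ) ^ 2 * (2 * κ + 1) ^ 3 * Real.exp κ *
            (Real.exp (-((q : ℝ) * (g - 1 / 100))) * a n) := by
          apply mul_le_mul _ h5 (h0 _) (by positivity)
          exact mul_le_mul_of_nonneg_left hφ1 (by positivity)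
      _ = (2 * κ + 1) ^ 3 * Real.exp (2 * L + κ - q * (g - 1 / 100)) * a n := by
          rw [hnL, expsplit]
          ring
      _ ≤ _ := by
          have h7 := expo3 g L κ G c q g34 (by linarith) hL0.le hc hK1 hq2'
          apply mul_le_mul_of_nonneg_right _ an.le
          apply mul_le_mul_of_nonneg_left (Real.exp_le_exp.mpr h7) (by positivity)
  have T3a := T3 (4 * (k + 3) - 1) (by omega) le_rfl
  have T3b := T3 (4 * (k + 3)) (by omega) (by omega)
  have T3c := T3 (4 * (k + 3) + 1) le_rfl (by omega)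
  have hL1 : (1 : ℝ) ≤ L := by linarith
  have hLL : L ≤ L ^ 3 := by nlinarith [sq_nonneg L, mul_pos hL0 hL0]
  have e2 : Real.exp (2 * G - c * L) = Real.exp (2 * G) * Real.exp (-(c * L)) := by
    rw [← Real.exp_add]; ring_nf
  have e3 : Real.exp (G - c * L) = Real.exp G * Real.exp (-(c * L)) := by
    rw [← Real.exp_add]; ring_nf
  have F1 : 4 * Real.exp 1 * κ ^ 3 * Real.exp (2 * G - c * L) * a n ≤
      4 * Real.exp 1 * 9 ^ 3 * Real.exp (2 * G) * (L ^ 3 * Real.exp (-(c * L)) * a n) := by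
    have : κ ^ 3 ≤ (9 * L) ^ 3 := pow_le_pow_left₀ hκ0.le hκ9 3
    calc 4 * Real.exp 1 * κ ^ 3 * Real.exp (2 * G - c * L) * a n
        ≤ 4 * Real.exp 1 * (9 * L) ^ 3 * Real.exp (2 * G - c * L) * a n := by
          apply mul_le_mul_of_nonneg_right _ an.le
          apply mul_le_mul_of_nonneg_right _ (Real.exp_pos _).le
          exact mul_le_mul_of_nonneg_left this (by positivity)
      _ = _ := by rw [e2]; ring
  have F2 : 19 / δ * L * Real.exp (-(c * L)) * a n ≤
      19 / δ * (L ^ 3 * Real.exp (-(c * L)) * a n) := by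
    calc 19 / δ * L * Real.exp (-(c * L)) * a n
        = 19 / δ * (L * Real.exp (-(c * L)) * a n) := by ring
      _ ≤ _ := by
          apply mul_le_mul_of_nonneg_left _ (by positivity)
          apply mul_le_mul_of_nonneg_right _ an.le
          exact mul_le_mul_of_nonneg_right hLL (Real.exp_pos _).le
  have F3 : (2 * κ + 1) ^ 3 * Real.exp (G - c * L) * a n ≤
      19 ^ 3 * Real.exp G * (L ^ 3 * Real.exp (-(c * L)) * a n) := by
    have : (2 * κ + 1) ^ 3 ≤ (19 * L) ^ 3 := pow_le_pow_left₀ (by positivity) hκ19 3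
    calc (2 * κ + 1) ^ 3 * Real.exp (G - c * L) * a n
        ≤ (19 * L) ^ 3 * Real.exp (G - c * L) * a n := by
          apply mul_le_mul_of_nonneg_right _ an.le
          exact mul_le_mul_of_nonneg_right this (Real.exp_pos _).le
      _ = _ := by rw [e3]; ring
  have e4 : (n : ℝ) ^ 2 * (2 * κ + 1) ^ 3 * φ k *
        (a (n - (4 * (k + 3) - 1)) + a (n - 4 * (k + 3)) + a (n - (4 * (k + 3) + 1))) =
      (n : ℝ) ^ 2 * (2 * κ + 1) ^ 3 * φ k * a (n - (4 * (k + 3) - 1)) +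
      (n : ℝ) ^ 2 * (2 * κ + 1) ^ 3 * φ k * a (n - 4 * (k + 3)) +
      (n : ℝ) ^ 2 * (2 * κ + 1) ^ 3 * φ k * a (n - (4 * (k + 3) + 1)) := by ring
  rw [e4]
  have e5 : A * L ^ 3 * Real.exp (-(c * L)) * a n =
      4 * Real.exp 1 * 9 ^ 3 * Real.exp (2 * G) * (L ^ 3 * Real.exp (-(c * L)) * a n) +
      19 / δ * (L ^ 3 * Real.exp (-(c * L)) * a n) +
      3 * (19 ^ 3 * Real.exp G * (L ^ 3 * Real.exp (-(c * L)) * a n)) := by
    rw [hA]; ring
  rw [e5]
  linarith

end ASY_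

theorem p_ASY : T_ASY := by
  intro a φ n₀ h0 h1 h2 h3 δ ε hδ hε
  have hG1 : 0 < |Real.log (1 / δ)| + 1 + 1 := by positivity
  have hc : 0 < 2 / 100 / (|Real.log (1 / δ)| + 1 + 1) := by positivity
  have hlog := Real.tendsto_log_atTop.comp (tendsto_natCast_atTop_atTop (R := ℝ))
  have E1 := hlog.eventually (ASY_.small
    (4 * Real.exp 1 * 9 ^ 3 * Real.exp (2 * (|Real.log (1 / δ)| + 1)) + 19 / δ +
      3 * 19 ^ 3 * Real.exp (|Real.log (1 / δ)| + 1)) _ ε hc hε)
  have E2 := hlog.eventually (eventually_ge_atTop (10 : ℝ))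
  have E3 := hlog.eventually (eventually_ge_atTop (6 * (|Real.log (1 / δ)| + 1)))
  have E4 := ASY_.large n₀
  obtain ⟨n₁, hn₁⟩ := Filter.eventually_atTop.mp (E1.and (E2.and (E3.and E4)))
  refine ⟨n₁, fun n hn hgood => ?_⟩
  obtain ⟨e1, e2, e3, e4⟩ := hn₁ n hn
  obtain ⟨k, hk, hle⟩ := ASY_.core a φ n₀ h0 h1 h2 h3 δ _ _ _ hδ rfl rfl rfl n hgood e4 e2 e3
  refine ⟨k, hk, hle.trans ?_⟩
  exact mul_le_mul_of_nonneg_right e1 (h0 n)

end Pool.Agent.Pend
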