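import Pool.Agent.Pend.Targets

/-!
BL: bridge stable classes are leaf stable.
-/

set_option autoImplicit false

namespace Pool.Agent.Pend

open Finset Classical

namespace BL_

theorem pnd_leaf {V : Type} (G : SimpleGraph V) (v u : V) (h : Lf G v u) :
    Pnd G {v} v u := by
  have hadj : G.Adj v u := (h u).mpr rfl
  refine ⟨Finset.mem_singleton_self v, ?_, ?_⟩
  · rw [Finset.mem_singleton]
    exact hadj.ne'
  · intro a ha b _
    rw [Finset.mem_singleton] at ha
    subst ha
    rw [h b]
    simp

theorem one_iso {V : Type} (G : SimpleGraph V) (v : V) :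
    Nonempty ((⊥ : SimpleGraph Unit) ≃g G.induce (({v} : Finset V) : Set V)) := by
  have hv : v ∈ (({v} : Finset V) : Set V) := by simp
  have hall : ∀ x : (({v} : Finset V) : Set V), x = ⟨v, hv⟩ := by
    intro x
    apply Subtype.ext
    have hx := x.2
    rwa [Finset.mem_coe, Finset.mem_singleton] at hx
  refine ⟨⟨⟨fun _ => ⟨v, hv⟩, fun _ => (), fun _ => rfl, fun x => (hall x).symm⟩, ?_⟩⟩
  intro a b
  constructor
  · intro hab
    exact absurd hab (SimpleGraph.irrefl _)
  · intro hab
    exact absurd hab (by simp)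

end BL_

theorem p_BL : T_BL := by
  intro C hC
  refine ⟨hC.iso, ?_⟩
  intro V _ G v u hG h
  have : Fintype V := Fintype.ofFinite V
  have hb := hC.bridge V G {v} v u hG (BL_.pnd_leaf G v u h)
  have h1 : C (({v} : Finset V) : Set V) (G.induce (({v} : Finset V) : Set V)) :=
    hC.iso _ _ _ _ (BL_.one_iso G v) hC.one
  have hset : ((({v} : Finset V)ᶜ : Finset V) : Set V) = {w | w ≠ v} := by
    ext w
    simp
  rw [hset] at hb
  rw [hb]
  exact ⟨fun hh => hh.2, fun hh => ⟨h1, hh⟩⟩

end Pool.Agent.Pend
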