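import Pool.Agent.Pend.Targets2

/-!
# BRS: excluded 2-connected minors give bridge stable classes
-/

set_option autoImplicit false

namespace Pool.Agent.Pend

open Finset Classical

namespace BRS_

/-- a model of `H` in `G` -/
def Model {W V : Type} (H : SimpleGraph W) (G : SimpleGraph V) (f : W → Set V) : Prop :=
  (∀ a, (G.induce (f a)).Connected) ∧ (∀ a b, a ≠ b → Disjoint (f a) (f b)) ∧
    ∀ a b, H.Adj a b → ∃ x ∈ f a, ∃ y ∈ f b, G.Adj x y

/-- the only edge between `S` and its complement is `r x` -/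
def Br {V : Type} (G : SimpleGraph V) (S : Set V) (r x : V) : Prop :=
  r ∈ S ∧ x ∉ S ∧ ∀ a ∈ S, ∀ b, b ∉ S → G.Adj a b → a = r ∧ b = x

lemma Br.symm {V : Type} {G : SimpleGraph V} {S : Set V} {r x : V} (h : Br G S r x) :
    Br G Sᶜ x r := by
  refine ⟨h.2.1, fun h' => h' h.1, fun a ha b hb hab => ?_⟩
  have hb' : b ∈ S := by
    by_contra hcon
    exact hb hcon
  have h1 := h.2.2 b hb' a ha hab.symm
  exact ⟨h1.2, h1.1⟩

lemma bdy {W : Type} (K : SimpleGraph W) (hK : K.Connected) (P : Set W) (a b : W) (ha : a ∈ P)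
    (hb : b ∉ P) : ∃ u v, K.Adj u v ∧ u ∈ P ∧ v ∉ P := by
  obtain ⟨p⟩ := hK.preconnected a b
  obtain ⟨d, _, h1, h2⟩ := p.exists_boundary_dart P ha hb
  exact ⟨d.fst, d.snd, d.adj, h1, h2⟩

/-- a connected set which meets both sides contains both ends of the bridge -/
lemma both {V : Type} {G : SimpleGraph V} {S : Set V} {r x : V} (h : Br G S r x) (T : Set V)
    (hT : (G.induce T).Connected) (a b : V) (ha : a ∈ T) (ha' : a ∈ S) (hb : b ∈ T)
    (hb' : b ∉ S) : r ∈ T ∧ x ∈ T := by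
  obtain ⟨u, v, huv, hu, hv⟩ := bdy (G.induce T) hT {t | (t : V) ∈ S} ⟨a, ha⟩ ⟨b, hb⟩ ha' hb'
  have h1 := h.2.2 u hu v hv huv
  exact ⟨h1.1 ▸ u.2, h1.2 ▸ v.2⟩

/-- the part of a connected set on one side -/
lemma part {V : Type} {G : SimpleGraph V} {S : Set V} {r x : V} (h : Br G S r x) (T : Set V)
    (hT : (G.induce T).Connected) (hr : r ∈ T) : (G.induce (T ∩ S)).Connected := by
  obtain ⟨g, hg⟩ : ∃ g : T → (T ∩ S : Set V), ∀ t : T, (g t : V) = if (t : V) ∈ S then (t : V) else r :=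
    ⟨fun t => ⟨if (t : V) ∈ S then (t : V) else r, by
      split_ifs with h1
      · exact ⟨t.2, h1⟩
      · exact ⟨hr, h.1⟩⟩, fun _ => rfl⟩
  have hstep : ∀ t t' : T, (G.induce T).Adj t t' → (G.induce (T ∩ S)).Reachable (g t) (g t') := by
    intro t t' htt
    have htt' : G.Adj (t : V) (t' : V) := htt
    by_cases h1 : (t : V) ∈ S
    · by_cases h2 : (t' : V) ∈ S
      · apply SimpleGraph.Adj.reachable
        rw [SimpleGraph.comap_adj]
        show G.Adj (g t : V) (g t' : V)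
        rw [hg, hg, if_pos h1, if_pos h2]
        exact htt'
      · have h3 : g t = g t' := by
          apply Subtype.ext
          rw [hg, hg, if_pos h1, if_neg h2]
          exact (h.2.2 _ h1 _ h2 htt').1
        rw [h3]
    · by_cases h2 : (t' : V) ∈ S
      · have h3 : g t = g t' := by
          apply Subtype.ext
          rw [hg, hg, if_neg h1, if_pos h2]
          exact (h.2.2 _ h2 _ h1 htt'.symm).1.symm
        rw [h3]
      · have h3 : g t = g t' := by
          apply Subtype.ext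
          rw [hg, hg, if_neg h1, if_neg h2]
        rw [h3]
  have hwalk : ∀ (t t' : T) (_ : (G.induce T).Walk t t'),
      (G.induce (T ∩ S)).Reachable (g t) (g t') := by
    intro t t' p
    induction p with
    | nil => exact SimpleGraph.Reachable.refl _
    | cons hadj _ ih => exact (hstep _ _ hadj).trans ih
  rw [SimpleGraph.connected_iff_exists_forall_reachable]
  refine ⟨⟨r, hr, h.1⟩, ?_⟩
  rintro ⟨w, hw⟩
  obtain ⟨p⟩ := hT.preconnected ⟨r, hr⟩ ⟨w, hw.1⟩
  have h1 := hwalk _ _ p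
  have h2 : g ⟨r, hr⟩ = ⟨r, hr, h.1⟩ := by
    apply Subtype.ext
    rw [hg, if_pos h.1]
  have h3 : g ⟨w, hw.1⟩ = ⟨w, hw⟩ := by
    apply Subtype.ext
    rw [hg, if_pos hw.2]
  rw [h2, h3] at h1
  exact h1

/-- case 1: one branch set crosses, the others are in `S` -/
lemma case1 {W V : Type} {H : SimpleGraph W} {G : SimpleGraph V} {S : Set V} {r x : V}
    (h : Br G S r x) (f : W → Set V) (hf : Model H G f) (h₀ : W) (hr : r ∈ f h₀)
    (hall : ∀ w, w ≠ h₀ → f w ⊆ S) : ∃ f', Model H G f' ∧ ∀ w, f' w ⊆ S := by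
  obtain ⟨f1, f2, f3⟩ := hf
  have hrn : ∀ w, w ≠ h₀ → r ∉ f w := fun w hw hrw =>
    Set.disjoint_left.mp (f2 w h₀ hw) hrw hr
  obtain ⟨f', hf'⟩ : ∃ f' : W → Set V, f' = Function.update f h₀ (f h₀ ∩ S) := ⟨_, rfl⟩
  have e0 : f' h₀ = f h₀ ∩ S := by rw [hf', Function.update_self]
  have e1 : ∀ w, w ≠ h₀ → f' w = f w := fun w hw => by rw [hf', Function.update_of_ne hw]
  have esub : ∀ w, f' w ⊆ f w := by
    intro w
    by_cases hw : w = h₀
    · rw [hw, e0]
      exact Set.inter_subset_left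
    · rw [e1 w hw]
  refine ⟨f', ⟨?_, ?_, ?_⟩, ?_⟩
  · intro w
    by_cases hw : w = h₀
    · rw [hw, e0]
      exact part h _ (f1 h₀) hr
    · rw [e1 w hw]
      exact f1 w
  · intro a b hab
    exact (f2 a b hab).mono (esub a) (esub b)
  · intro a b hab
    obtain ⟨u, hu, v, hv, huv⟩ := f3 a b hab
    by_cases ha : a = h₀
    · have hb : b ≠ h₀ := by
        rintro rfl
        exact hab.ne ha
      refine ⟨u, ?_, v, ?_, huv⟩
      · rw [ha, e0]
        refine ⟨ha ▸ hu, ?_⟩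
        by_contra hcon
        have h1 := h.2.2 v (hall b hb hv) u hcon huv.symm
        exact hrn b hb (h1.1 ▸ hv)
      · rw [e1 b hb]
        exact hv
    · by_cases hb : b = h₀
      · refine ⟨u, ?_, v, ?_, huv⟩
        · rw [e1 a ha]
          exact hu
        · rw [hb, e0]
          refine ⟨hb ▸ hv, ?_⟩
          by_contra hcon
          have h1 := h.2.2 u (hall a ha hu) v hcon huv
          exact hrn a ha (h1.1 ▸ hu)
      · refine ⟨u, ?_, v, ?_, huv⟩
        · rw [e1 a ha]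
          exact hu
        · rw [e1 b hb]
          exact hv
  · intro w
    by_cases hw : w = h₀
    · rw [hw, e0]
      exact Set.inter_subset_right
    · rw [e1 w hw]
      exact hall w hw

/-- case 2: two branch sets in `S` and one in the complement -/
lemma case2 {W V : Type} {H : SimpleGraph W} {G : SimpleGraph V} {S : Set V} {r x : V}
    (h : Br G S r x) (f : W → Set V) (hf : Model H G f)
    (hH : ∀ v : W, (H.induce {w | w ≠ v}).Connected) (hall : ∀ w, f w ⊆ S ∨ f w ⊆ Sᶜ)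
    (p₀ p₁ q₀ : W) (hne : p₀ ≠ p₁) (hp₀ : f p₀ ⊆ S) (hp₁ : f p₁ ⊆ S) (hq₀ : f q₀ ⊆ Sᶜ) :
    False := by
  obtain ⟨f1, f2, f3⟩ := hf
  have hnon : ∀ w, (f w).Nonempty := by
    intro w
    obtain ⟨⟨v, hv⟩⟩ := (f1 w).nonempty
    exact ⟨v, hv⟩
  have hnot : ∀ w, f w ⊆ Sᶜ → ¬ f w ⊆ S := by
    intro w h1 h2
    obtain ⟨v, hv⟩ := hnon w
    exact h1 hv (h2 hv)
  -- the vertex which is removed
  obtain ⟨v, hv, hv'⟩ : ∃ v, f v ⊆ S ∧ ∀ w, r ∈ f w → f w ⊆ S → w = v := by
    by_cases hex : ∃ w, r ∈ f w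
    · obtain ⟨w, hw⟩ := hex
      refine ⟨w, ?_, ?_⟩
      · rcases hall w with h1 | h1
        · exact h1
        · exact absurd h.1 (h1 hw)
      · intro w' hw' _
        by_contra hcon
        exact Set.disjoint_left.mp (f2 w' w hcon) hw' hw
    · exact ⟨p₀, hp₀, fun w hw _ => absurd ⟨w, hw⟩ hex⟩
  obtain ⟨p, hp, hpv⟩ : ∃ p, f p ⊆ S ∧ p ≠ v := by
    by_cases h1 : p₀ = v
    · refine ⟨p₁, hp₁, ?_⟩
      rw [← h1]
      exact hne.symm
    · exact ⟨p₀, hp₀, h1⟩
  have hqv : q₀ ≠ v := by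
    rintro rfl
    exact hnot _ hq₀ hv
  obtain ⟨a, b, hab, ha, hb⟩ := bdy (H.induce {w | w ≠ v}) (hH v)
    {w | f (w : W) ⊆ S} ⟨p, hpv⟩ ⟨q₀, hqv⟩ hp (hnot _ hq₀)
  obtain ⟨u, hu, z, hz, huz⟩ := f3 _ _ hab
  have hb' : f (b : W) ⊆ Sᶜ := (hall (b : W)).resolve_left hb
  have h1 := h.2.2 u (ha hu) z (hb' hz) huz
  exact a.2 (hv' _ (h1.1 ▸ hu) ha)

/-- all branch sets on one side -/
lemma core {W V : Type} {H : SimpleGraph W} {G : SimpleGraph V} {S : Set V} {r x : V}
    (h : Br G S r x) (f : W → Set V) (hf : Model H G f) (hH : TwoConn H) :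
    (∃ f', Model H G f' ∧ ∀ w, f' w ⊆ S) ∨ ∃ f', Model H G f' ∧ ∀ w, f' w ⊆ Sᶜ := by
  obtain ⟨hcard, hH⟩ := hH
  have hf' := hf
  obtain ⟨f1, f2, f3⟩ := hf
  have hnon : ∀ w, (f w).Nonempty := by
    intro w
    obtain ⟨⟨v, hv⟩⟩ := (f1 w).nonempty
    exact ⟨v, hv⟩
  have hnot : ∀ w, f w ⊆ Sᶜ → ¬ f w ⊆ S := by
    intro w h1 h2
    obtain ⟨v, hv⟩ := hnon w
    exact h1 hv (h2 hv)
  have hcase : ∀ w, f w ⊆ S ∨ f w ⊆ Sᶜ ∨ (r ∈ f w ∧ x ∈ f w) := by
    intro w
    by_cases h1 : f w ⊆ S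
    · exact Or.inl h1
    · by_cases h2 : f w ⊆ Sᶜ
      · exact Or.inr (Or.inl h2)
      · rw [Set.not_subset] at h1 h2
        obtain ⟨b, hb, hb'⟩ := h1
        obtain ⟨a, ha, ha'⟩ := h2
        exact Or.inr (Or.inr (both h (f w) (f1 w) a b ha (not_not.mp ha') hb hb'))
  by_cases hex : ∃ h₀, r ∈ f h₀ ∧ x ∈ f h₀
  · obtain ⟨h₀, hr, hx⟩ := hex
    have hrn : ∀ w, w ≠ h₀ → r ∉ f w := fun w hw hrw =>
      Set.disjoint_left.mp (f2 w h₀ hw) hrw hr
    have hall : ∀ w, w ≠ h₀ → f w ⊆ S ∨ f w ⊆ Sᶜ := by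
      intro w hw
      rcases hcase w with h1 | h1 | h1
      · exact Or.inl h1
      · exact Or.inr h1
      · exact absurd h1.1 (hrn w hw)
    by_cases hP : ∀ w, w ≠ h₀ → f w ⊆ S
    · exact Or.inl (case1 h f hf' h₀ hr hP)
    · right
      refine case1 h.symm f hf' h₀ hx ?_
      push Not at hP
      obtain ⟨q, hq, hq'⟩ := hP
      intro w hw
      by_contra hcon
      have hw' : f w ⊆ S := (hall w hw).resolve_right hcon
      obtain ⟨a, b, hab, ha, hb⟩ := bdy (H.induce {w | w ≠ h₀}) (hH h₀)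
        {w | f (w : W) ⊆ S} ⟨w, hw⟩ ⟨q, hq⟩ hw' hq'
      obtain ⟨u, hu, z, hz, huz⟩ := f3 _ _ hab
      have hb' : f (b : W) ⊆ Sᶜ := (hall (b : W) b.2).resolve_left hb
      have h1 := h.2.2 u (ha hu) z (hb' hz) huz
      exact hrn _ a.2 (h1.1 ▸ hu)
  · push Not at hex
    have hall : ∀ w, f w ⊆ S ∨ f w ⊆ Sᶜ := by
      intro w
      rcases hcase w with h1 | h1 | h1
      · exact Or.inl h1
      · exact Or.inr h1
      · exact absurd h1.2 (hex w h1.1)
    by_cases hP : ∀ w, f w ⊆ S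
    · exact Or.inl ⟨f, hf', hP⟩
    by_cases hQ : ∀ w, f w ⊆ Sᶜ
    · exact Or.inr ⟨f, hf', hQ⟩
    exfalso
    push Not at hP hQ
    obtain ⟨q₀, hq₀⟩ := hP
    obtain ⟨p₀, hp₀⟩ := hQ
    have hq₀' : f q₀ ⊆ Sᶜ := (hall q₀).resolve_left hq₀
    have hp₀' : f p₀ ⊆ S := (hall p₀).resolve_right hp₀
    obtain ⟨w, hw1, hw2⟩ : ∃ w, w ≠ p₀ ∧ w ≠ q₀ := by
      by_contra hcon
      push Not at hcon
      have h1 : (Set.univ : Set W) ⊆ {p₀, q₀} := by
        intro w _
        by_cases h2 : w = p₀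
        · exact Or.inl h2
        · exact Or.inr (hcon w h2)
      have h2 := Set.ncard_le_ncard h1 (Set.toFinite _)
      rw [Set.ncard_univ] at h2
      have h3 : ({p₀, q₀} : Set W).ncard ≤ 2 := by
        refine (Set.ncard_insert_le _ _).trans ?_
        rw [Set.ncard_singleton]
      omega
    rcases hall w with h1 | h1
    · exact case2 h f hf' hH hall p₀ w q₀ hw1.symm hp₀' h1 hq₀'
    · refine case2 h.symm f hf' hH ?_ q₀ w p₀ hw2.symm hq₀' h1 ?_
      · intro z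
        rw [compl_compl]
        exact (hall z).symm
      · rw [compl_compl]
        exact hp₀'

/-- pulling a model back to an induced subgraph -/
lemma pull {W V : Type} {H : SimpleGraph W} {G : SimpleGraph V} (S : Set V) (f : W → Set V)
    (hf : Model H G f) (hS : ∀ w, f w ⊆ S) : Minor H (G.induce S) := by
  obtain ⟨f1, f2, f3⟩ := hf
  refine ⟨fun w => {v : S | (v : V) ∈ f w}, ?_, ?_, ?_⟩
  · intro w
    have e : G.induce (f w) ≃g (G.induce S).induce {v : S | (v : V) ∈ f w} :=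
      { toFun := fun v => ⟨⟨v, hS w v.2⟩, v.2⟩
        invFun := fun v => ⟨v.1, v.2⟩
        left_inv := fun _ => rfl
        right_inv := fun _ => rfl
        map_rel_iff' := Iff.rfl }
    exact e.connected_iff.mp (f1 w)
  · intro a b hab
    rw [Set.disjoint_left]
    intro v h1 h2
    exact Set.disjoint_left.mp (f2 a b hab) h1 h2
  · intro a b hab
    obtain ⟨u, hu, v, hv, huv⟩ := f3 a b hab
    exact ⟨⟨u, hS a hu⟩, hu, ⟨v, hS b hv⟩, hv, huv⟩

end BRS_

open BRS_ in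
/-- BRS -/
theorem p_BRS (h1 : T_MTRANS) (h2 : T_MSUB) : T_BRS := by
  intro F hF
  refine ⟨?_, ?_, ?_⟩
  · rintro V W G K ⟨e⟩ hG U H hUH hmin
    refine hG U H hUH (h1 _ _ _ _ _ _ hmin (h2 _ _ _ _ e.symm e.symm.injective ?_))
    intro a b hab
    exact e.symm.map_rel_iff.mpr hab
  · intro W H hWH hmin
    obtain ⟨f, f1, f2, _⟩ := hmin
    have hcard := (hF W H hWH).1
    have hsub : Subsingleton W := by
      refine ⟨fun a b => ?_⟩
      by_contra hab
      obtain ⟨⟨u, hu⟩⟩ := (f1 a).nonempty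
      obtain ⟨⟨v, hv⟩⟩ := (f1 b).nonempty
      have : u = v := Subsingleton.elim _ _
      subst this
      exact Set.disjoint_left.mp (f2 a b hab) hu hv
    have h3 : Nat.card W ≤ 1 := Finite.card_le_one_iff_subsingleton.mpr hsub
    omega
  · intro V _ G A r x _ hP
    constructor
    · intro hG
      refine ⟨?_, ?_⟩
      · intro W H hWH hmin
        refine hG W H hWH (h1 _ _ _ _ _ _ hmin (h2 _ _ _ _ Subtype.val Subtype.val_injective ?_))
        intro a b hab
        exact hab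
      · intro W H hWH hmin
        refine hG W H hWH (h1 _ _ _ _ _ _ hmin (h2 _ _ _ _ Subtype.val Subtype.val_injective ?_))
        intro a b hab
        exact hab
    · rintro ⟨hA, hA'⟩ W H hWH ⟨f, hf⟩
      have hBr : Br G (A : Set V) r x := by
        refine ⟨hP.1, hP.2.1, fun a ha b hb hab => ?_⟩
        exact (hP.2.2 a ha b hb).mp hab
      rcases core hBr f hf (hF W H hWH) with ⟨f', hf', hS⟩ | ⟨f', hf', hS⟩
      · exact hA W H hWH (pull _ f' hf' hS)
      · refine hA' W H hWH (pull _ f' hf' ?_)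
        intro w
        rw [coe_compl]
        exact hS w

end Pool.Agent.Pend
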