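import Pool.Agent.Pend.Targets

/-!
CARDF: the number of rooted caterpillars on a set.
-/

set_option autoImplicit false

namespace Pool.Agent.Pend

open Finset Classical

namespace CARDF_

theorem cat_iff {U V : Type} [Fintype U] (k : ℕ) (ι : U ↪ V) (T : SimpleGraph V) (r : U) :
    Cat k (T.comap ι) (univ : Finset U) r ↔ Cat k T ((univ : Finset U).map ι) (ι r) := by
  unfold Cat
  rw [Finset.card_map]
  refine and_congr_right fun _ => ?_
  constructor
  · rintro ⟨s, hs, -, h1, h2, h3⟩
    refine ⟨fun i => ι (s i), fun i j hij => hs (ι.injective hij), fun i => ?_, ?_, ?_, ?_⟩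
    · exact Finset.mem_map_of_mem ι (Finset.mem_univ _)
    · rw [← h1]
    · intro i j
      exact h2 i j
    · intro w hw hne
      obtain ⟨w, -, rfl⟩ := Finset.mem_map.1 hw
      obtain ⟨i, hi⟩ := h3 w (Finset.mem_univ w) (fun i hi => hne i (congrArg ι hi))
      refine ⟨i, fun u hu => ?_⟩
      obtain ⟨u, -, rfl⟩ := Finset.mem_map.1 hu
      rw [ι.injective.eq_iff]
      exact hi u (Finset.mem_univ u)
  · rintro ⟨s, hs, h0, h1, h2, h3⟩
    have h4 : ∀ i, ∃ u, ι u = s i := by
      intro i
      obtain ⟨u, -, hu⟩ := Finset.mem_map.1 (h0 i)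
      exact ⟨u, hu⟩
    choose s' hs' using h4
    refine ⟨s', fun i j hij => hs (by rw [← hs', ← hs', hij]), fun i => Finset.mem_univ _, ?_,
      ?_, ?_⟩
    · apply ι.injective
      rw [hs', h1]
    · intro i j
      have := h2 i j
      rw [← hs', ← hs'] at this
      exact this
    · intro w _ hne
      obtain ⟨i, hi⟩ := h3 (ι w) (Finset.mem_map_of_mem ι (Finset.mem_univ _))
        (fun i hi => hne i (ι.injective (by rw [hs', hi])))
      refine ⟨i, fun u _ => ?_⟩
      have := hi (ι u) (Finset.mem_map_of_mem ι (Finset.mem_univ _))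
      rw [← hs', ι.injective.eq_iff] at this
      exact this

end CARDF_

/-- CARDF: the number of rooted caterpillars on a set. -/
theorem p_CARDF : T_CARDF := by
  intro V _ k W hW
  have e : Fin (2 * (k + 3)) ≃ {x // x ∈ W} :=
    Fintype.equivOfCardEq (by rw [Fintype.card_fin, Fintype.card_coe, hW])
  let ι : Fin (2 * (k + 3)) ↪ V := e.toEmbedding.trans (Function.Embedding.subtype _)
  have hι : (univ : Finset (Fin (2 * (k + 3)))).map ι = W := by
    ext x
    simp only [Finset.mem_map, Finset.mem_univ, true_and]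
    constructor
    · rintro ⟨a, rfl⟩
      exact (e a).2
    · intro hx
      refine ⟨e.symm ⟨x, hx⟩, ?_⟩
      change ((e (e.symm ⟨x, hx⟩) : {x // x ∈ W}) : V) = x
      rw [Equiv.apply_symm_apply]
  symm
  unfold FF
  refine Finset.card_bij (fun p _ => (p.1.map ι, ι p.2)) ?_ ?_ ?_
  · rintro ⟨T, r⟩ hp
    simp only [FS, Finset.mem_filter, Finset.mem_univ, true_and] at hp ⊢
    refine ⟨?_, ?_⟩
    · intro a b hab
      rw [SimpleGraph.map_adj] at hab
      obtain ⟨a', b', -, rfl, rfl⟩ := hab
      rw [← hι]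
      exact ⟨Finset.mem_map_of_mem ι (Finset.mem_univ _),
        Finset.mem_map_of_mem ι (Finset.mem_univ _)⟩
    · rw [← hι, ← CARDF_.cat_iff, SimpleGraph.comap_map_eq]
      exact hp.2
  · rintro ⟨T, r⟩ hp ⟨T', r'⟩ hp' heq
    simp only [Prod.mk.injEq] at heq
    have h1 := SimpleGraph.map_injective ι heq.1
    have h2 := ι.injective heq.2
    rw [h1, h2]
  · rintro ⟨T, r⟩ hp
    simp only [FS, Finset.mem_filter, Finset.mem_univ, true_and] at hp
    obtain ⟨h1, h2⟩ := hp
    have hr : r ∈ W := by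
      obtain ⟨-, s, -, h0, h3, -⟩ := h2
      rw [← h3]
      exact h0 1
    rw [← hι] at hr
    obtain ⟨r', -, rfl⟩ := Finset.mem_map.1 hr
    refine ⟨(T.comap ι, r'), ?_, ?_⟩
    · simp only [FS, Finset.mem_filter, Finset.mem_univ, true_and, and_self, implies_true]
      rw [CARDF_.cat_iff, hι]
      exact h2
    · simp only [Prod.mk.injEq, and_true]
      ext a b
      rw [SimpleGraph.map_adj]
      constructor
      · rintro ⟨a', b', hab, rfl, rfl⟩
        exact hab
      · intro hab
        obtain ⟨ha, hb⟩ := h1 a b hab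
        rw [← hι] at ha hb
        obtain ⟨a', -, rfl⟩ := Finset.mem_map.1 ha
        obtain ⟨b', -, rfl⟩ := Finset.mem_map.1 hb
        exact ⟨a', b', hab, rfl, rfl⟩

end Pool.Agent.Pend
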