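import Pool.Agent.Pend.Targets

/-!
CARDN: the number of members on `S` without good pendant sets.
-/

set_option autoImplicit false

namespace Pool.Agent.Pend

open Finset Classical

namespace CARDN_

/-- `G1` is `G2` without some isolated vertices -/
structure Emb {V1 V2 : Type} (G1 : SimpleGraph V1) (G2 : SimpleGraph V2) (ι : V1 ↪ V2) : Prop where
  adj : ∀ a b, G1.Adj a b ↔ G2.Adj (ι a) (ι b)
  supp : ∀ a b, G2.Adj a b → a ∈ Set.range ι ∧ b ∈ Set.range ι

variable {V1 V2 : Type} {G1 : SimpleGraph V1} {G2 : SimpleGraph V2} {ι : V1 ↪ V2}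

theorem pnd_iff (h : Emb G1 G2 ι) (W : Finset V1) (r x : V1) :
    Pnd G1 W r x ↔ Pnd G2 (W.map ι) (ι r) (ι x) := by
  unfold Pnd
  constructor
  · rintro ⟨h1, h2, h3⟩
    refine ⟨Finset.mem_map_of_mem ι h1, ?_, ?_⟩
    · rw [Finset.mem_map' ι]
      exact h2
    · intro a ha b hb
      obtain ⟨a0, ha0, rfl⟩ := Finset.mem_map.mp ha
      by_cases hbr : b ∈ Set.range ι
      · obtain ⟨b0, rfl⟩ := hbr
        rw [Finset.mem_map' ι] at hb
        rw [← h.adj, h3 a0 ha0 b0 hb]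
        constructor
        · rintro ⟨rfl, rfl⟩
          exact ⟨rfl, rfl⟩
        · rintro ⟨e1, e2⟩
          exact ⟨ι.injective e1, ι.injective e2⟩
      · constructor
        · intro hh
          exact absurd (h.supp _ _ hh).2 hbr
        · rintro ⟨_, e2⟩
          exact absurd ⟨x, e2.symm⟩ hbr
  · rintro ⟨h1, h2, h3⟩
    rw [Finset.mem_map' ι] at h1 h2
    refine ⟨h1, h2, ?_⟩
    intro a ha b hb
    rw [h.adj, h3 (ι a) (Finset.mem_map_of_mem ι ha) (ι b) (by rwa [Finset.mem_map' ι])]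
    constructor
    · rintro ⟨e1, e2⟩
      exact ⟨ι.injective e1, ι.injective e2⟩
    · rintro ⟨rfl, rfl⟩
      exact ⟨rfl, rfl⟩

theorem cat_push (h : Emb G1 G2 ι) (k : ℕ) (W : Finset V1) (r : V1) (hc : Cat k G1 W r) :
    Cat k G2 (W.map ι) (ι r) := by
  obtain ⟨hcard, s, hs, hsW, hs1, hadj, hleaf⟩ := hc
  refine ⟨by rw [Finset.card_map, hcard], fun i => ι (s i), ?_, ?_, ?_, ?_, ?_⟩
  · exact ι.injective.comp hs
  · intro i
    exact Finset.mem_map_of_mem ι (hsW i)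
  · show ι (s 1) = ι r
    rw [hs1]
  · intro i j
    rw [← h.adj]
    exact hadj i j
  · intro w hw hws
    obtain ⟨w0, hw0, rfl⟩ := Finset.mem_map.mp hw
    obtain ⟨i, hi⟩ := hleaf w0 hw0 (fun i hh => hws i (congrArg ι hh))
    refine ⟨i, ?_⟩
    intro u hu
    obtain ⟨u0, hu0, rfl⟩ := Finset.mem_map.mp hu
    rw [← h.adj, hi u0 hu0]
    constructor
    · intro e
      rw [e]
    · intro e
      exact ι.injective e

theorem cat_pull (h : Emb G1 G2 ι) (k : ℕ) (W : Finset V1) (r : V1)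
    (hc : Cat k G2 (W.map ι) (ι r)) : Cat k G1 W r := by
  obtain ⟨hcard, s, hs, hsW, hs1, hadj, hleaf⟩ := hc
  have hex : ∀ i, ∃ a, a ∈ W ∧ ι a = s i := fun i => Finset.mem_map.mp (hsW i)
  choose s0 hs0 using hex
  refine ⟨by rw [Finset.card_map] at hcard; exact hcard, s0, ?_, fun i => (hs0 i).1, ?_, ?_, ?_⟩
  · intro i j hij
    apply hs
    rw [← (hs0 i).2, ← (hs0 j).2, hij]
  · apply ι.injective
    rw [(hs0 1).2, hs1]
  · intro i j
    rw [h.adj, (hs0 i).2, (hs0 j).2]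
    exact hadj i j
  · intro w hw hws
    obtain ⟨i, hi⟩ := hleaf (ι w) (Finset.mem_map_of_mem ι hw) (fun i hh => hws i (by
      apply ι.injective
      rw [(hs0 i).2, hh]))
    refine ⟨i, ?_⟩
    intro u hu
    rw [h.adj, hi (ι u) (Finset.mem_map_of_mem ι hu), ← (hs0 i).2]
    constructor
    · intro e
      exact ι.injective e
    · intro e
      rw [e]

theorem cat_nbr {V : Type} {G : SimpleGraph V} {k : ℕ} {W : Finset V} {r : V}
    (hc : Cat k G W r) : ∀ w ∈ W, ∃ u, G.Adj w u := by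
  obtain ⟨_, s, _, hsW, _, hadj, hleaf⟩ := hc
  intro w hw
  by_cases hws : ∀ i, s i ≠ w
  · obtain ⟨i, hi⟩ := hleaf w hw hws
    exact ⟨s i, (hi (s i) (hsW i)).mpr rfl⟩
  · push Not at hws
    obtain ⟨i, rfl⟩ := hws
    by_cases h0 : i.val = 0
    · refine ⟨s ⟨1, by omega⟩, ?_⟩
      rw [hadj]
      left
      simp [h0]
    · refine ⟨s ⟨i.val - 1, by omega⟩, ?_⟩
      rw [hadj]
      right
      show i.val - 1 + 1 = i.val
      omega

theorem gd_iff (h : Emb G1 G2 ι) (k : ℕ) : (∃ W, Gd k G1 W) ↔ ∃ W, Gd k G2 W := by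
  constructor
  · rintro ⟨W, r, x, hp, hc⟩
    exact ⟨W.map ι, ι r, ι x, (pnd_iff h W r x).mp hp, cat_push h k W r hc⟩
  · rintro ⟨W, r, x, hp, hc⟩
    have hsub : ∀ w ∈ W, w ∈ Set.range ι := by
      intro w hw
      obtain ⟨u, hu⟩ := cat_nbr hc w hw
      exact (h.supp _ _ hu).1
    have hW : (W.preimage ι ι.injective.injOn).map ι = W := by
      ext w
      rw [Finset.mem_map]
      constructor
      · rintro ⟨a, ha, rfl⟩
        exact Finset.mem_preimage.mp ha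
      · intro hw
        obtain ⟨a, rfl⟩ := hsub w hw
        exact ⟨a, Finset.mem_preimage.mpr hw, rfl⟩
    have hrx : G2.Adj r x := (hp.2.2 r hp.1 x hp.2.1).mpr ⟨rfl, rfl⟩
    obtain ⟨⟨r0, hr0⟩, ⟨x0, hx0⟩⟩ := h.supp r x hrx
    refine ⟨W.preimage ι ι.injective.injOn, r0, x0, ?_, ?_⟩
    · rw [pnd_iff h, hW, hr0, hx0]
      exact hp
    · apply cat_pull h
      rw [hW, hr0]
      exact hc

theorem nogd_iff (h : Emb G1 G2 ι) (k : ℕ) : (∀ W, ¬ Gd k G1 W) ↔ ∀ W, ¬ Gd k G2 W := by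
  have := gd_iff h k
  constructor
  · intro h1 W hW
    obtain ⟨W', hW'⟩ := this.mpr ⟨W, hW⟩
    exact h1 W' hW'
  · intro h1 W hW
    obtain ⟨W', hW'⟩ := this.mp ⟨W, hW⟩
    exact h1 W' hW'

theorem emb_iso {V W : Type} {G : SimpleGraph V} {H : SimpleGraph W} (f : G ≃g H) :
    Emb G H f.toEquiv.toEmbedding := by
  constructor
  · intro a b
    exact (f.map_rel_iff (a := a) (b := b)).symm
  · intro a b _
    exact ⟨⟨f.symm a, f.apply_symm_apply a⟩, ⟨f.symm b, f.apply_symm_apply b⟩⟩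

theorem emb_ind {V : Type} (K : SimpleGraph V) (S : Finset V)
    (hK : ∀ a b, K.Adj a b → a ∈ S ∧ b ∈ S) :
    Emb (K.induce (S : Set V)) K (Function.Embedding.subtype (fun x => x ∈ (S : Set V))) := by
  constructor
  · intro a b
    exact Iff.rfl
  · intro a b hab
    exact ⟨⟨⟨a, Finset.mem_coe.mpr (hK a b hab).1⟩, rfl⟩,
      ⟨⟨b, Finset.mem_coe.mpr (hK a b hab).2⟩, rfl⟩⟩

end CARDN_

theorem p_CARDN (h1 : T_TR) : T_CARDN := by
  intro C hC V _ k S
  have hQ : IsoInv (fun V G => G.Connected ∧ C V G ∧ ∀ W, ¬ Gd k G W) := by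
    intro V W G H hGH hG
    obtain ⟨f⟩ := hGH
    refine ⟨f.connected_iff.mp hG.1, hC V W G H ⟨f⟩ hG.2.1, ?_⟩
    exact (CARDN_.nogd_iff (CARDN_.emb_iso f) k).mp hG.2.2
  have hmain := h1 _ hQ V S
  refine (congrArg Finset.card ?_).trans (hmain.trans (congrArg Finset.card ?_))
  · apply Finset.ext
    intro K
    simp only [cS, Finset.mem_filter, Finset.mem_univ, true_and]
    constructor
    · intro hh
      exact ⟨hh.1.1, hh.1.2.1, hh.1.2.2,
        (CARDN_.nogd_iff (CARDN_.emb_ind K S hh.1.1) k).mpr hh.2⟩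
    · intro hh
      exact ⟨⟨hh.1, hh.2.1, hh.2.2.1⟩,
        (CARDN_.nogd_iff (CARDN_.emb_ind K S hh.1) k).mp hh.2.2.2⟩
  · apply Finset.ext
    intro K
    simp only [cc, Finset.mem_filter, Finset.mem_univ, true_and]
    constructor
    · intro hh
      exact ⟨⟨hh.1, hh.2.1⟩, hh.2.2⟩
    · intro hh
      exact ⟨hh.1.1, hh.1.2, hh.2⟩

end Pool.Agent.Pend
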