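import Pool.Agent.Pend.Targets

/-!
# CARDS: cardinalities
-/

set_option autoImplicit false

namespace Pool.Agent.Pend

open Finset Classical

namespace CARDS_

/-- The isomorphism of the graph induced on the whole vertex set. -/
def isoUniv {V : Type} [Fintype V] (K : SimpleGraph V) :
    K.induce ((univ : Finset V) : Set V) ≃g K where
  toFun x := x.1
  invFun x := ⟨x, by simp⟩
  left_inv x := rfl
  right_inv x := rfl
  map_rel_iff' := Iff.rfl

lemma mem_cc {V : Type} [Fintype V] (C : (V : Type) → SimpleGraph V → Prop)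
    (G : SimpleGraph V) : G ∈ cc C V ↔ G.Connected ∧ C V G := by
  unfold cc
  rw [mem_filter]
  exact and_iff_right (mem_univ _)

lemma card_eq' {α : Type} (s t : Finset α) (h : ∀ x, x ∈ s ↔ x ∈ t) : s.card = t.card := by
  rw [Finset.ext h]

end CARDS_

theorem p_CARDS (h1 : T_TR) : T_CARDS := by
  intro C hC V _
  have hQ : IsoInv (fun (V : Type) (G : SimpleGraph V) => G.Connected ∧ C V G) := by
    rintro V W G H ⟨e⟩ ⟨ha, hb⟩
    exact ⟨e.connected_iff.1 ha, hC V W G H ⟨e⟩ hb⟩
  have hS : ∀ S : Finset V, (cS C S).card = cnt C S.card := by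
    intro S
    have h2 := h1 _ hQ V S
    refine (CARDS_.card_eq' _ _ ?_).trans (h2.trans (CARDS_.card_eq' _ _ ?_))
    · intro G
      simp only [cS, Finset.mem_filter, Finset.mem_univ, true_and]
    · intro G
      rw [CARDS_.mem_cc]
      simp only [Finset.mem_filter, Finset.mem_univ, true_and]
  have hU : cS C (univ : Finset V) = cc C V := by
    ext K
    simp only [cS, cc, Finset.mem_filter, Finset.mem_univ, true_and]
    have h2 : (K.induce ((univ : Finset V) : Set V)).Connected ↔ K.Connected :=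
      (CARDS_.isoUniv K).connected_iff
    have h3 : C ((univ : Finset V) : Set V) (K.induce ((univ : Finset V) : Set V)) ↔ C V K :=
      ⟨hC _ _ _ _ ⟨CARDS_.isoUniv K⟩, hC _ _ _ _ ⟨(CARDS_.isoUniv K).symm⟩⟩
    rw [h2, h3]
    simp
  refine ⟨hS, hU, ?_⟩
  rw [← hU, hS, Finset.card_univ]

end Pool.Agent.Pend
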