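import Pool.Agent.Pend.Targets

/-! CATTREE: caterpillars are trees. -/

set_option autoImplicit false

namespace Pool.Agent.Pend

open Finset Classical

namespace CATTREE_

variable {V : Type} [Fintype V]

omit [Fintype V] in
theorem single (G : SimpleGraph V) (v : V) :
    (G.induce ((({v} : Finset V) : Set V))).IsTree := by
  have hs : Subsingleton ((({v} : Finset V) : Set V)) := by
    constructor
    intro a b
    apply Subtype.ext
    rw [mem_singleton.1 a.2, mem_singleton.1 b.2]
  have hn : Nonempty ((({v} : Finset V) : Set V)) := ⟨⟨v, mem_singleton_self v⟩⟩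
  exact SimpleGraph.IsTree.of_subsingleton

theorem spine (h1 : T_TLEAF) {G : SimpleGraph V} {m : ℕ} (s : Fin (m + 1) → V)
    (hs : Function.Injective s)
    (ha : ∀ i j, G.Adj (s i) (s j) ↔ (i.val + 1 = j.val ∨ j.val + 1 = i.val)) (j : ℕ) :
    j < m + 1 →
    (G.induce (((univ.filter (fun i : Fin (m + 1) => i.val ≤ j)).image s : Finset V) :
      Set V)).IsTree := by
  induction j with
  | zero =>
    intro hj
    have h2 : (univ.filter (fun i : Fin (m + 1) => i.val ≤ 0)).image s = {s ⟨0, hj⟩} := by
      ext y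
      rw [mem_image, mem_singleton]
      constructor
      · rintro ⟨i, hi, rfl⟩
        have h3 := (mem_filter.1 hi).2
        congr 1
        exact Fin.ext (by show i.val = 0; omega)
      · rintro rfl
        exact ⟨⟨0, hj⟩, mem_filter.2 ⟨mem_univ _, le_rfl⟩, rfl⟩
    rw [h2]
    exact single G _
  | succ j ih =>
    intro hj
    have h2 := ih (by omega)
    have hmem : ∀ i : Fin (m + 1), ∀ t : ℕ,
        (s i ∈ (univ.filter (fun i : Fin (m + 1) => i.val ≤ t)).image s ↔ i.val ≤ t) := by
      intro i t
      rw [mem_image]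
      constructor
      · rintro ⟨i', hi', he⟩
        rw [hs he] at hi'
        exact (mem_filter.1 hi').2
      · intro h
        exact ⟨i, mem_filter.2 ⟨mem_univ _, h⟩, rfl⟩
    have h3 : ((univ.filter (fun i : Fin (m + 1) => i.val ≤ j + 1)).image s).erase
        (s ⟨j + 1, hj⟩) = (univ.filter (fun i : Fin (m + 1) => i.val ≤ j)).image s := by
      ext y
      rw [mem_erase]
      constructor
      · rintro ⟨hy1, hy2⟩
        obtain ⟨i, hi, rfl⟩ := mem_image.1 hy2
        have h4 := (mem_filter.1 hi).2
        rw [hmem]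
        have h5 : i.val ≠ j + 1 := fun h => hy1 (congrArg s (Fin.ext h))
        omega
      · intro hy
        obtain ⟨i, hi, rfl⟩ := mem_image.1 hy
        have h4 := (mem_filter.1 hi).2
        refine ⟨fun h => ?_, (hmem i (j + 1)).2 (by omega)⟩
        have h5 := congrArg Fin.val (hs h)
        have h6 : i.val = j + 1 := h5
        omega
    have h4 := h1 V G ((univ.filter (fun i : Fin (m + 1) => i.val ≤ j + 1)).image s)
      (s ⟨j + 1, hj⟩) (s ⟨j, by omega⟩) ((hmem _ _).2 le_rfl)
      ((hmem _ _).2 (by show j ≤ j + 1; omega))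
      (fun h => by
        have h5 := congrArg Fin.val (hs h)
        have h6 : j = j + 1 := h5
        omega)
      (by
        intro w hw
        obtain ⟨i, hi, rfl⟩ := mem_image.1 hw
        have h5 := (mem_filter.1 hi).2
        rw [ha]
        constructor
        · intro h
          congr 1
          apply Fin.ext
          rcases h with h | h
          · have h6 : j + 1 + 1 = i.val := h
            omega
          · have h6 : i.val + 1 = j + 1 := h
            show i.val = j
            omega
        · intro h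
          right
          have h6 : i.val = j := congrArg Fin.val (hs h)
          show i.val + 1 = j + 1
          omega)
    rw [h3] at h4
    exact h4.2 h2

theorem rest (h1 : T_TLEAF) {G : SimpleGraph V} {W P : Finset V}
    (hP : (G.induce (P : Set V)).IsTree)
    (hl : ∀ w ∈ W, w ∉ P → ∃ p ∈ P, ∀ u ∈ W, (G.Adj w u ↔ u = p)) (n : ℕ) :
    ∀ Y : Finset V, P ⊆ Y → Y ⊆ W → (Y \ P).card = n → (G.induce (Y : Set V)).IsTree := by
  induction n with
  | zero =>
    intro Y h2 h3 h4
    have h5 : Y = P := by
      rw [card_eq_zero, sdiff_eq_empty_iff_subset] at h4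
      exact Subset.antisymm h4 h2
    rw [h5]
    exact hP
  | succ n ih =>
    intro Y h2 h3 h4
    obtain ⟨w, hw⟩ := card_pos.1 (by omega : 0 < (Y \ P).card)
    obtain ⟨hwY, hwP⟩ := mem_sdiff.1 hw
    obtain ⟨p, hp, hadj⟩ := hl w (h3 hwY) hwP
    refine (h1 V G Y w p hwY (h2 hp) (fun e => hwP (e ▸ hp)) fun u hu => hadj u (h3 hu)).2 ?_
    refine ih (Y.erase w) ?_ ((erase_subset _ _).trans h3) ?_
    · intro y hy
      exact mem_erase.2 ⟨fun e => hwP (e ▸ hy), h2 hy⟩
    · have h5 : Y.erase w \ P = (Y \ P).erase w := by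
        ext y
        simp only [mem_sdiff, mem_erase]
        tauto
      rw [h5, card_erase_of_mem hw, h4]
      rfl

end CATTREE_

open CATTREE_ in
/-- CATTREE -/
theorem p_CATTREE (h1 : T_TLEAF) : T_CATTREE := by
  intro V _ k G W r hcat
  obtain ⟨_, s, hs, hsW, _, hadj, hl⟩ := hcat
  have h2 := spine h1 s hs hadj (k + 2) (by omega)
  refine rest h1 h2 ?_ _ W ?_ (Subset.refl _) rfl
  · intro w hw hwP
    have h3 : ∀ i, s i ≠ w := by
      intro i hi
      apply hwP
      rw [← hi]
      exact mem_image.2 ⟨i, mem_filter.2 ⟨mem_univ _, by have := i.2; omega⟩, rfl⟩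
    obtain ⟨i, hi⟩ := hl w hw h3
    exact ⟨s i, mem_image.2 ⟨i, mem_filter.2 ⟨mem_univ _, by have := i.2; omega⟩, rfl⟩, hi⟩
  · intro y hy
    obtain ⟨i, _, rfl⟩ := mem_image.1 hy
    exact hsW i

end Pool.Agent.Pend
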