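import Pool.Agent.Pend.Targets

set_option autoImplicit false

namespace Pool.Agent.Pend

open Finset Classical

namespace CIS_

/-- The graph on `W2` obtained from `T[A]` by a bijection. -/
private def gr {V : Type} (T : SimpleGraph V) (W2 A : Finset V)
    (e : ((W2 : Set V) : Type) ≃ ((A : Set V) : Type)) : SimpleGraph V where
  Adj a b := ∃ (ha : a ∈ (W2 : Set V)) (hb : b ∈ (W2 : Set V)),
    T.Adj (e ⟨a, ha⟩ : V) (e ⟨b, hb⟩ : V)
  symm := ⟨fun _ _ ⟨ha, hb, h⟩ => ⟨hb, ha, h.symm⟩⟩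
  loopless := ⟨fun _ ⟨_, _, h⟩ => h.ne rfl⟩

end CIS_

theorem p_CIS : T_CIS := by
  intro V _ W2 A T
  have hsub : (univ : Finset (SimpleGraph V)).filter
      (fun T2 => (∀ a b, T2.Adj a b → a ∈ W2 ∧ b ∈ W2) ∧ Is T2 W2 T A) ⊆
      (univ : Finset (((W2 : Set V) : Type) ≃ ((A : Set V) : Type))).image
        (fun e => CIS_.gr T W2 A e) := by
    intro T2 h2
    rw [mem_filter] at h2
    obtain ⟨-, hs, ⟨e⟩⟩ := h2
    rw [mem_image]
    refine ⟨e.toEquiv, mem_univ _, ?_⟩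
    ext a b
    constructor
    · rintro ⟨ha, hb, h⟩
      have : (T.induce (A : Set V)).Adj (e ⟨a, ha⟩) (e ⟨b, hb⟩) := h
      rw [e.map_adj_iff] at this
      exact this
    · intro h
      have ha : a ∈ (W2 : Set V) := by exact_mod_cast (hs a b h).1
      have hb : b ∈ (W2 : Set V) := by exact_mod_cast (hs a b h).2
      have h' : (T2.induce (W2 : Set V)).Adj ⟨a, ha⟩ ⟨b, hb⟩ := h
      rw [← e.map_adj_iff] at h'
      exact ⟨ha, hb, h'⟩
  refine (card_le_card hsub).trans (card_image_le.trans ?_)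
  rw [card_univ]
  rcases isEmpty_or_nonempty (((W2 : Set V) : Type) ≃ ((A : Set V) : Type)) with he | ⟨⟨e⟩⟩
  · rw [Fintype.card_eq_zero]
    exact Nat.zero_le _
  · rw [Fintype.card_equiv e]
    simp

end Pool.Agent.Pend
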