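import Pool.Agent.Pend.Targets2

/-!
CLQN: graphs without `K_t` minor have few cliques.
-/

open Finset Classical

namespace Pool.Agent.Pend

namespace CLQN_

/-- Some vertex has at most `2 ^ t` neighbours. -/
private lemma exists_small {t : ℕ} {V : Type} [Fintype V] [Nonempty V] (G : SimpleGraph V)
    (h : eo G ≤ 2 ^ t * Fintype.card V) :
    ∃ v : V, ((univ : Finset V).filter (fun w => G.Adj v w)).card ≤ 2 ^ t := by
  by_contra hcon
  push Not at hcon
  have e : eo G = ∑ v : V, ((univ : Finset V).filter (fun w => G.Adj v w)).card := by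
    unfold eo
    rw [Finset.card_filter, Fintype.sum_prod_type]
    refine Finset.sum_congr rfl (fun v _ => ?_)
    rw [Finset.card_filter]
  have h2 : ∑ _v : V, 2 ^ t < ∑ v : V, ((univ : Finset V).filter (fun w => G.Adj v w)).card :=
    Finset.sum_lt_sum_of_nonempty univ_nonempty (fun v _ => hcon v)
  rw [← e, Finset.sum_const, Finset.card_univ, smul_eq_mul, mul_comm] at h2
  omega

/-- The cliques which contain `v`. -/
private lemma part1 {V : Type} [Fintype V] (G : SimpleGraph V) (v : V) (m : ℕ)
    (h : ((univ : Finset V).filter (fun w => G.Adj v w)).card ≤ m) :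
    (((univ : Finset (Finset V)).filter (fun S : Finset V => G.IsClique (S : Set V))).filter
      (fun S => v ∈ S)).card ≤ 2 ^ m := by
  have h1 : (((univ : Finset (Finset V)).filter
      (fun S : Finset V => G.IsClique (S : Set V))).filter (fun S => v ∈ S)).card ≤
      ((univ : Finset V).filter (fun w => G.Adj v w)).powerset.card := by
    refine Finset.card_le_card_of_injOn (fun S => S.erase v) ?_ ?_
    · intro S hS
      simp only [Finset.coe_filter, Finset.mem_filter, Finset.mem_univ, true_and,
        Set.mem_ofPred_eq] at hS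
      rw [Finset.mem_coe, Finset.mem_powerset]
      intro w hw
      rw [Finset.mem_erase] at hw
      rw [Finset.mem_filter]
      exact ⟨Finset.mem_univ _, hS.1 (by exact_mod_cast hS.2) (by exact_mod_cast hw.2) hw.1.symm⟩
    · intro S hS S' hS' hE
      simp only [Finset.coe_filter, Finset.mem_filter, Finset.mem_univ, true_and,
        Set.mem_ofPred_eq] at hS hS'
      have hE' : S.erase v = S'.erase v := hE
      rw [← Finset.insert_erase hS.2, hE', Finset.insert_erase hS'.2]
  refine h1.trans ?_
  rw [Finset.card_powerset]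
  exact Nat.pow_le_pow_right (by norm_num) h

/-- The cliques which do not contain `v`. -/
private lemma part2 {V : Type} [Fintype V] (G : SimpleGraph V) (v : V) :
    (((univ : Finset (Finset V)).filter (fun S : Finset V => G.IsClique (S : Set V))).filter
      (fun S => ¬ v ∈ S)).card ≤
    ((univ : Finset (Finset {w // w ≠ v})).filter
      (fun S : Finset {w // w ≠ v} =>
        (G.comap (fun x : {w // w ≠ v} => x.1)).IsClique (S : Set {w // w ≠ v}))).card := by
  refine Finset.card_le_card_of_injOn (fun S => S.subtype (fun w => w ≠ v)) ?_ ?_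
  · intro S hS
    simp only [Finset.coe_filter, Finset.mem_filter, Finset.mem_univ, true_and,
      Set.mem_ofPred_eq] at hS
    rw [Finset.mem_coe, Finset.mem_filter]
    refine ⟨Finset.mem_univ _, ?_⟩
    intro a ha b hb hab
    have ha' : a.1 ∈ S := by simpa using ha
    have hb' : b.1 ∈ S := by simpa using hb
    rw [SimpleGraph.comap_adj]
    exact hS.1 (by exact_mod_cast ha') (by exact_mod_cast hb') (fun h => hab (Subtype.ext h))
  · intro S hS S' hS' hE
    simp only [Finset.coe_filter, Finset.mem_filter, Finset.mem_univ, true_and,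
      Set.mem_ofPred_eq] at hS hS'
    have hE' : S.subtype (fun w => w ≠ v) = S'.subtype (fun w => w ≠ v) := hE
    ext w
    by_cases hw : w = v
    · subst hw
      exact ⟨fun h => absurd h hS.2, fun h => absurd h hS'.2⟩
    · have h1 : (⟨w, hw⟩ : {w // w ≠ v}) ∈ S.subtype (fun w => w ≠ v) ↔ w ∈ S := by
        rw [Finset.mem_subtype]
      have h2 : (⟨w, hw⟩ : {w // w ≠ v}) ∈ S'.subtype (fun w => w ≠ v) ↔ w ∈ S' := by
        rw [Finset.mem_subtype]
      rw [← h1, ← h2, hE']

private lemma main (h1 : T_MADER) (h2 : T_MSUB) (h3 : T_MTRANS) (t : ℕ) : ∀ (n : ℕ) (V : Type)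
    [Fintype V] (G : SimpleGraph V), Fintype.card V = n →
    ¬ Minor (⊤ : SimpleGraph (Fin t)) G →
    ((univ : Finset (Finset V)).filter (fun S : Finset V => G.IsClique (S : Set V))).card ≤
      1 + 2 ^ (2 ^ t) * Fintype.card V := by
  intro n
  induction n with
  | zero =>
    intro V _ G hV _
    have : IsEmpty V := Fintype.card_eq_zero_iff.mp hV
    have h : ((univ : Finset (Finset V)).filter
        (fun S : Finset V => G.IsClique (S : Set V))).card ≤ (univ : Finset (Finset V)).card :=
      Finset.card_filter_le _ _
    rw [Finset.card_univ, Fintype.card_finset, hV] at h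
    omega
  | succ n ih =>
    intro V _ G hV hG
    have hne : Nonempty V := by
      rw [← Fintype.card_pos_iff]
      omega
    obtain ⟨v, hv⟩ := exists_small G (h1 t V G hG)
    have hcard : Fintype.card {w // w ≠ v} = n := by
      rw [Fintype.card_subtype_compl]
      simp [hV]
    have hsub : Minor (G.comap (fun x : {w // w ≠ v} => x.1)) G :=
      h2 _ _ _ _ (fun x => x.1) Subtype.val_injective (fun a b hab => hab)
    have hno : ¬ Minor (⊤ : SimpleGraph (Fin t)) (G.comap (fun x : {w // w ≠ v} => x.1)) :=
      fun hm => hG (h3 _ _ _ _ _ _ hm hsub)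
    have hi := ih {w // w ≠ v} (G.comap (fun x : {w // w ≠ v} => x.1)) hcard hno
    have p1 := part1 G v _ hv
    have p2 := part2 G v
    rw [hcard] at hi
    have p2' := p2.trans (le_trans (le_of_eq (by congr)) hi)
    rw [hV, ← Finset.card_filter_add_card_filter_not
      (s := (univ : Finset (Finset V)).filter (fun S : Finset V => G.IsClique (S : Set V)))
      (p := fun S => v ∈ S)]
    refine (Nat.add_le_add p1 p2').trans (le_of_eq ?_)
    ring

end CLQN_

/-- CLQN: graphs without `K_t` minor have few cliques. -/
theorem p_CLQN (h1 : T_MADER) (h2 : T_MSUB) (h3 : T_MTRANS) : T_CLQN := by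
  intro t V _ G hG
  exact CLQN_.main h1 h2 h3 t (Fintype.card V) V G rfl hG

end Pool.Agent.Pend
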