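import Pool.Agent.Pend.Targets2

/-!
# CNTT: the number of graphs with given twins
-/

set_option autoImplicit false

namespace Pool.Agent.Pend

open Finset Classical

namespace CNTT_

lemma exists_p {n : ℕ} (D : Finset (Fin n)) (φ : Fin n → Fin n) (hφ' : ∀ v ∈ D, φ v ∉ D) :
    ∃ (p : Fin n → Fin (n - D.card)) (j : Fin (n - D.card) → Fin n), Function.Injective j ∧
      ∀ x, j (p x) = if x ∈ D then φ x else x := by
  have hcard : Fintype.card {v // v ∉ D} = n - D.card := by
    rw [Fintype.card_subtype_compl, Fintype.card_fin, Fintype.card_coe]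
  obtain ⟨e⟩ : Nonempty ({v // v ∉ D} ≃ Fin (n - D.card)) := ⟨Fintype.equivFinOfCardEq hcard⟩
  refine ⟨fun x => e ⟨if x ∈ D then φ x else x, ?_⟩, fun a => (e.symm a : Fin n), ?_, ?_⟩
  · split_ifs with h
    · exact hφ' x h
    · exact h
  · intro a b hab
    exact e.symm.injective (Subtype.ext hab)
  · intro x
    show ((e.symm (e _) : {v // v ∉ D}) : Fin n) = _
    rw [e.symm_apply_apply]

end CNTT_

open CNTT_ in
/-- CNTT -/
theorem p_CNTT (h1 : T_MSUB) (h2 : T_MTRANS) : T_CNTT := by
  intro t n D φ hφ'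
  obtain ⟨p, j, hj, hp⟩ := exists_p D φ hφ'
  unfold pt
  refine card_le_card_of_injOn (fun G : SimpleGraph (Fin n) => G.comap j) ?_ ?_
  · intro G hG
    rw [mem_coe, mem_filter] at hG
    rw [mem_coe, mem_filter]
    refine ⟨mem_univ _, fun h => hG.2.1 (h2 _ _ _ _ _ _ h (h1 _ _ _ _ j hj ?_))⟩
    intro a b hab
    exact hab
  · intro G hG G' hG' h
    rw [mem_coe, mem_filter] at hG hG'
    have key : ∀ K : SimpleGraph (Fin n), (∀ v ∈ D, ∀ w, (K.Adj v w ↔ K.Adj (φ v) w)) →
        ∀ x y, K.Adj x y ↔ (K.comap j).Adj (p x) (p y) := by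
      intro K hK x y
      rw [SimpleGraph.comap_adj, hp, hp]
      have e1 : ∀ z w, K.Adj z w ↔ K.Adj (if z ∈ D then φ z else z) w := by
        intro z w
        split_ifs with hz
        · exact hK z hz w
        · exact Iff.rfl
      rw [e1 x y, K.adj_comm, e1 y, K.adj_comm]
    have h' : G.comap j = G'.comap j := h
    ext x y
    rw [key G hG.2.2 x y, key G' hG'.2.2 x y, h']

end Pool.Agent.Pend
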