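import Pool.Agent.Pend.Targets

/-!
COLG: members with two disjoint pendant trees, one of them is determined by the other
(project Pend, MP_552896_co).
-/

set_option autoImplicit false

namespace Pool.Agent.Pend

open Finset Classical

namespace COLG_

private theorem rs_adj {V : Type} (G : SimpleGraph V) (S : Finset V) (a b : V) :
    (rs G S).Adj a b ↔ G.Adj a b ∧ a ∈ S ∧ b ∈ S := Iff.rfl

private theorem induce_rs {V : Type} (G : SimpleGraph V) (S : Finset V) :
    (rs G S).induce (S : Set V) = G.induce (S : Set V) := by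
  ext ⟨a, ha⟩ ⟨b, hb⟩
  simp only [SimpleGraph.comap_adj, Function.Embedding.subtype_apply, rs_adj]
  exact ⟨fun h => h.1, fun h => ⟨h, ha, hb⟩⟩

private theorem cat_rs {V : Type} {k : ℕ} {G : SimpleGraph V} {W : Finset V} {r : V}
    (h : Cat k G W r) : Cat k (rs G W) W r := by
  obtain ⟨hc, s, hs, hsW, hr, hadj, hw⟩ := h
  refine ⟨hc, s, hs, hsW, hr, fun i j => ?_, fun w hwW hne => ?_⟩
  · rw [rs_adj, ← hadj i j]
    exact ⟨fun h => h.1, fun h => ⟨h, hsW i, hsW j⟩⟩
  · obtain ⟨i, hi⟩ := hw w hwW hne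
    refine ⟨i, fun u hu => ?_⟩
    rw [rs_adj, ← hi u hu]
    exact ⟨fun h => h.1, fun h => ⟨h, hwW, hu⟩⟩

private theorem cat_mem {V : Type} {k : ℕ} {G : SimpleGraph V} {W : Finset V} {r : V}
    (h : Cat k G W r) : r ∈ W := by
  obtain ⟨_, s, _, hsW, hr, _⟩ := h
  rw [← hr]; exact hsW 1

/-- a set of vertices of a connected graph which no edge leaves is empty or everything -/
private theorem closed_univ {V : Type} {G : SimpleGraph V} (hG : G.Connected) {U : Finset V}
    {u : V} (hu : u ∈ U) (hcl : ∀ a ∈ U, ∀ b, G.Adj a b → b ∈ U) (v : V) : v ∈ U := by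
  by_contra hv
  obtain ⟨w⟩ := hG.preconnected u v
  obtain ⟨d, _, hd1, hd2⟩ := w.exists_boundary_dart (U : Set V) hu hv
  exact hd2 (hcl _ hd1 _ d.adj)

/-- the outer end of the second pendant set is not in the first one -/
private theorem outer {V : Type} [Fintype V] {G : SimpleGraph V} (hG : G.Connected)
    {W W2 : Finset V} {r x r2 x2 : V} (hd : Disjoint W W2)
    (hc : W.card + W2.card < Fintype.card V) (h : Pnd G W r x) (h' : Pnd G W2 r2 x2) :
    x2 ∉ W := by
  intro hx2
  obtain ⟨hr, hx, hadj⟩ := h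
  obtain ⟨hr2, hx2', hadj'⟩ := h'
  have e1 : G.Adj r2 x2 := (hadj' r2 hr2 x2 hx2').2 ⟨rfl, rfl⟩
  have hr2W : r2 ∉ W := fun h => (Finset.disjoint_left.1 hd h) hr2
  obtain ⟨e2, e3⟩ := (hadj x2 hx2 r2 hr2W).1 e1.symm
  have hall : ∀ v, v ∈ W ∪ W2 := by
    intro v
    refine closed_univ hG (U := W ∪ W2) (u := r) (mem_union_left _ hr) ?_ v
    intro a ha b hab
    rw [mem_union] at ha ⊢
    by_contra hb
    rw [not_or] at hb
    rcases ha with ha | ha
    · obtain ⟨_, hbx⟩ := (hadj a ha b hb.1).1 hab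
      exact hb.2 (by rw [hbx, ← e3]; exact hr2)
    · obtain ⟨_, hbx⟩ := (hadj' a ha b hb.2).1 hab
      exact hb.1 (by rw [hbx]; exact hx2)
  have : (W ∪ W2).card = Fintype.card V := by
    rw [← Finset.card_univ]; congr 1; ext v; simp [hall v]
  have h2 := Finset.card_union_le W W2
  omega

/-- the condition on the part outside the two pendant sets: none -/
private def Qt (V : Type) : V → SimpleGraph V → Prop := fun _ _ => True

/-- the condition on the part outside the first pendant set -/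
private def Qo {V : Type} [Fintype V] (W W2 : Finset V) (T2 : SimpleGraph V) (r2 : V) :
    V → SimpleGraph V → Prop := fun _ K => rs K W2 = T2 ∧ ∃ x2, PndS K (univ \ W) W2 r2 x2 ∧
      Qt V x2 (rs K ((univ \ W) \ W2))

/-- the members with prescribed pendant trees and second root -/
private noncomputable def BB {V : Type} [Fintype V] (C : (V : Type) → SimpleGraph V → Prop)
    (W W2 : Finset V) (T : SimpleGraph V) (r : V) (T2 : SimpleGraph V) (r2 : V) :
    Finset (SimpleGraph V) :=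
  (cS C (univ : Finset V)).filter (fun G => rs G W = T ∧ ∃ x, PndS G univ W r x ∧
    Qo W W2 T2 r2 x (rs G (univ \ W)))

private theorem card_BB (h1 : T_GLS) (h2 : T_CARDS) (h3 : T_CATTREE)
    {C : (V : Type) → SimpleGraph V → Prop} (hC : LeafStable C) {V : Type} [Fintype V] {k : ℕ}
    {W W2 : Finset V} {T : SimpleGraph V} {r : V} {T2 : SimpleGraph V} {r2 : V}
    (hd : Disjoint W W2) (hT : ∀ a b, T.Adj a b → a ∈ W ∧ b ∈ W) (hcat : Cat k T W r)
    (hT2 : ∀ a b, T2.Adj a b → a ∈ W2 ∧ b ∈ W2) (htree : (T2.induce (W2 : Set V)).IsTree)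
    (hr2 : r2 ∈ W2) :
    (BB C W W2 T r T2 r2).card ≤
      Fintype.card V ^ 2 * cnt C (Fintype.card V - W.card - W2.card) := by
  have hW2 : W2 ⊆ univ \ W := by
    intro a ha
    rw [mem_sdiff]
    exact ⟨mem_univ a, fun h => (Finset.disjoint_left.1 hd h) ha⟩
  have hcard : ((univ \ W) \ W2).card = Fintype.card V - W.card - W2.card := by
    rw [card_sdiff_of_subset hW2, card_sdiff_of_subset (subset_univ W), card_univ]
  unfold BB
  rw [h1 C hC V univ W T r (Qo W W2 T2 r2) (subset_univ W) (cat_mem hcat) hT (h3 V k T W r hcat)]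
  have hin : ∀ x ∈ univ \ W, ((cS C (univ \ W)).filter (fun K => Qo W W2 T2 r2 x K)).card ≤
      Fintype.card V * cnt C (Fintype.card V - W.card - W2.card) := by
    intro x _
    have hsub : (cS C (univ \ W)).filter (fun K => Qo W W2 T2 r2 x K) ⊆
        (cS C (univ \ W)).filter (fun G => rs G W2 = T2 ∧ ∃ x2, PndS G (univ \ W) W2 r2 x2 ∧
          Qt V x2 (rs G ((univ \ W) \ W2))) := by
      intro K hK
      rw [mem_filter] at hK ⊢
      exact hK
    refine le_trans (Finset.card_le_card hsub) ?_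
    rw [h1 C hC V (univ \ W) W2 T2 r2 (Qt V) hW2 hr2 hT2 htree]
    calc ∑ y ∈ (univ \ W) \ W2, ((cS C ((univ \ W) \ W2)).filter (fun K => Qt V y K)).card
        ≤ ∑ y ∈ (univ \ W) \ W2, cnt C (Fintype.card V - W.card - W2.card) := by
          refine Finset.sum_le_sum (fun y _ => ?_)
          refine le_trans (Finset.card_filter_le _ _) ?_
          rw [(h2 C hC.iso V).1, hcard]
      _ = ((univ \ W) \ W2).card * cnt C (Fintype.card V - W.card - W2.card) := by
          rw [sum_const, smul_eq_mul]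
      _ ≤ _ := Nat.mul_le_mul_right _ (card_le_univ _)
  refine le_trans (Finset.sum_le_sum hin) ?_
  rw [sum_const, smul_eq_mul, ← mul_assoc, sq]
  exact Nat.mul_le_mul_right _ (Nat.mul_le_mul_right _ (card_le_univ _))

end COLG_

open COLG_ in
theorem p_COLG (h1 : T_GLS) (h2 : T_CARDS) (h3 : T_CATTREE) (h4 : T_CARDF) : T_COLG := by
  intro C hC V _ k b W W2 Φ hd hW hlt hΦ
  have hsub : (cc C V).filter (fun G => (∃ r x, Pnd G W r x ∧ Cat k G W r) ∧
      (∃ r2 x2, Pnd G W2 r2 x2) ∧ (G.induce (W2 : Set V)).IsTree ∧ rs G W2 ∈ Φ (rs G W)) ⊆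
      (FS k W).biUnion (fun p => ((Φ p.1).filter (fun T2 =>
        (∀ a b, T2.Adj a b → a ∈ W2 ∧ b ∈ W2) ∧ (T2.induce (W2 : Set V)).IsTree)).biUnion
        (fun T2 => W2.biUnion (fun r2 => BB C W W2 p.1 p.2 T2 r2))) := by
    intro G hG
    rw [mem_filter] at hG
    obtain ⟨hGc, ⟨r, x, hP, hcat⟩, ⟨r2, x2, hP2⟩, htree, hmem⟩ := hG
    have hGc' := hGc
    simp only [cc, mem_filter, mem_univ, true_and] at hGc'
    have hx2 := outer hGc'.1 hd hlt hP hP2
    have hW2c : ∀ a ∈ W2, a ∈ univ \ W := fun a ha =>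
      mem_sdiff.2 ⟨mem_univ a, fun h => (Finset.disjoint_left.1 hd h) ha⟩
    rw [mem_biUnion]
    refine ⟨(rs G W, r), ?_, ?_⟩
    · simp only [FS, mem_filter, mem_univ, true_and]
      exact ⟨fun a b hab => ⟨hab.2.1, hab.2.2⟩, cat_rs hcat⟩
    · rw [mem_biUnion]
      refine ⟨rs G W2, ?_, ?_⟩
      · rw [mem_filter]
        refine ⟨hmem, fun a b hab => ⟨hab.2.1, hab.2.2⟩, ?_⟩
        rw [induce_rs]; exact htree
      · rw [mem_biUnion]
        refine ⟨r2, hP2.1, ?_⟩
        unfold BB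
        rw [mem_filter, (h2 C hC.iso V).2.1]
        refine ⟨hGc, rfl, x, ⟨subset_univ _, hP.1, mem_univ _, hP.2.1,
          fun a ha b _ hb => hP.2.2 a ha b hb⟩, ?_, x2, ⟨hW2c, hP2.1,
          mem_sdiff.2 ⟨mem_univ _, hx2⟩, hP2.2.1, ?_⟩, trivial⟩
        · ext a b
          simp only [rs_adj]
          exact ⟨fun h => ⟨h.1.1, h.2⟩, fun h => ⟨⟨h.1, hW2c a h.2.1, hW2c b h.2.2⟩, h.2⟩⟩
        · intro a ha b hbW hb
          rw [rs_adj, ← hP2.2.2 a ha b hb]
          exact ⟨fun h => h.1, fun h => ⟨h, hW2c a ha, hbW⟩⟩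
  refine le_trans (Finset.card_le_card hsub) ?_
  refine le_trans Finset.card_biUnion_le ?_
  have hp : ∀ p ∈ FS k W, (((Φ p.1).filter (fun T2 =>
        (∀ a b, T2.Adj a b → a ∈ W2 ∧ b ∈ W2) ∧ (T2.induce (W2 : Set V)).IsTree)).biUnion
        (fun T2 => W2.biUnion (fun r2 => BB C W W2 p.1 p.2 T2 r2))).card ≤
      b * (W2.card * (Fintype.card V ^ 2 * cnt C (Fintype.card V - W.card - W2.card))) := by
    intro p hp
    simp only [FS, mem_filter, mem_univ, true_and] at hp
    refine le_trans Finset.card_biUnion_le ?_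
    refine le_trans (Finset.sum_le_card_nsmul _ _
      (W2.card * (Fintype.card V ^ 2 * cnt C (Fintype.card V - W.card - W2.card))) ?_) ?_
    · intro T2 hT2
      rw [mem_filter] at hT2
      refine le_trans Finset.card_biUnion_le ?_
      refine le_trans (Finset.sum_le_card_nsmul _ _
        (Fintype.card V ^ 2 * cnt C (Fintype.card V - W.card - W2.card)) ?_) ?_
      · intro r2 hr2
        exact card_BB h1 h2 h3 hC hd hp.1 hp.2 hT2.2.1 hT2.2.2 hr2
      · rw [smul_eq_mul]
    · rw [smul_eq_mul]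
      exact Nat.mul_le_mul_right _ (le_trans (Finset.card_filter_le _ _) (hΦ _))
  refine le_trans (Finset.sum_le_card_nsmul _ _ _ hp) ?_
  rw [smul_eq_mul, h4 V k W hW]
  apply le_of_eq
  ring

end Pool.Agent.Pend
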