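import Pool.Agent.Pend.Targets

/-! COLL: few members have a collision. -/

set_option autoImplicit false

namespace Pool.Agent.Pend

open Finset Classical

namespace COLL_

theorem rs_induce {V : Type} (G : SimpleGraph V) {S A : Finset V} (h : A ⊆ S) :
    (rs G S).induce (A : Set V) = G.induce (A : Set V) := by
  ext a b
  show (G.Adj a.1 b.1 ∧ a.1 ∈ S ∧ b.1 ∈ S) ↔ G.Adj a.1 b.1
  constructor
  · exact fun h1 => h1.1
  · exact fun h1 => ⟨h1, h a.2, h b.2⟩

theorem Is_card {V W : Type} {G : SimpleGraph V} {A : Finset V} {H : SimpleGraph W}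
    {B : Finset W} (h : Is G A H B) : A.card = B.card := by
  obtain ⟨e⟩ := h
  have h1 := Fintype.card_congr e.toEquiv
  simpa using h1

theorem Is_tree {V W : Type} {G : SimpleGraph V} {A : Finset V} {H : SimpleGraph W}
    {B : Finset W} (h : Is G A H B) (h1 : (H.induce (B : Set W)).IsTree) :
    (G.induce (A : Set V)).IsTree := by
  obtain ⟨e⟩ := h
  exact e.isTree_iff.2 h1

theorem Is_rs {V : Type} {G : SimpleGraph V} {S A S' B : Finset V}
    (hA : A ⊆ S) (hB : B ⊆ S') (h : Is G A G B) : Is (rs G S) A (rs G S') B := by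
  unfold Is at h ⊢
  rw [rs_induce G hA, rs_induce G hB]
  exact h

theorem rs_supp {V : Type} (G : SimpleGraph V) (S : Finset V) :
    ∀ a b, (rs G S).Adj a b → a ∈ S ∧ b ∈ S := fun _ _ h => h.2

/-- case (a) -/
noncomputable def Pa {V : Type} [Fintype V] (W W2 : Finset V) (T : SimpleGraph V) :
    Finset (SimpleGraph V) :=
  univ.filter (fun T2 => (∀ a b, T2.Adj a b → a ∈ W2 ∧ b ∈ W2) ∧
    ∃ v ∈ W, Is T2 W2 T (W.erase v))

/-- case (b) -/
noncomputable def Pb {V : Type} [Fintype V] (W W2 : Finset V) (T : SimpleGraph V) :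
    Finset (SimpleGraph V) :=
  univ.filter (fun T2 => (∀ a b, T2.Adj a b → a ∈ W2 ∧ b ∈ W2) ∧ Is T2 W2 T W)

/-- case (c) -/
noncomputable def Pc {V : Type} [Fintype V] (W W2 : Finset V) (T : SimpleGraph V) :
    Finset (SimpleGraph V) :=
  univ.filter (fun T2 => (∀ a b, T2.Adj a b → a ∈ W2 ∧ b ∈ W2) ∧
    ∃ a ∈ W2, ∃ u ∈ W2, (∀ w ∈ W2, (T2.Adj a w ↔ w = u)) ∧ Is T2 (W2.erase a) T W)

theorem card_Pa (h2 : T_CIS) {V : Type} [Fintype V] (W W2 : Finset V) (T : SimpleGraph V) :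
    (Pa W W2 T).card ≤ W.card * W2.card.factorial := by
  have h : Pa W W2 T ⊆ W.biUnion (fun v => (univ : Finset (SimpleGraph V)).filter (fun T2 =>
      (∀ a b, T2.Adj a b → a ∈ W2 ∧ b ∈ W2) ∧ Is T2 W2 T (W.erase v))) := by
    intro T2 hT2
    obtain ⟨h3, v, hv, h4⟩ := (mem_filter.1 hT2).2
    exact mem_biUnion.2 ⟨v, hv, mem_filter.2 ⟨mem_univ _, h3, h4⟩⟩
  refine (card_le_card h).trans (card_biUnion_le.trans ?_)
  refine (sum_le_sum (fun v _ => h2 V W2 (W.erase v) T)).trans ?_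
  rw [sum_const, smul_eq_mul]

theorem card_Pb (h2 : T_CIS) {V : Type} [Fintype V] (W W2 : Finset V) (T : SimpleGraph V) :
    (Pb W W2 T).card ≤ W2.card.factorial := h2 V W2 W T

theorem card_Pc (h2 : T_CIS) {V : Type} [Fintype V] (W W2 : Finset V) (T : SimpleGraph V) :
    (Pc W W2 T).card ≤ W2.card * W2.card * (W2.card - 1).factorial := by
  have h : Pc W W2 T ⊆ (W2 ×ˢ W2).biUnion (fun p => (univ : Finset (SimpleGraph V)).filter
      (fun T2 => (∀ a b, T2.Adj a b → a ∈ W2 ∧ b ∈ W2) ∧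
        (∀ w ∈ W2, (T2.Adj p.1 w ↔ w = p.2)) ∧ Is T2 (W2.erase p.1) T W)) := by
    intro T2 hT2
    obtain ⟨h3, a, ha, u, hu, h4, h5⟩ := (mem_filter.1 hT2).2
    exact mem_biUnion.2 ⟨(a, u), mem_product.2 ⟨ha, hu⟩,
      mem_filter.2 ⟨mem_univ _, h3, h4, h5⟩⟩
  refine (card_le_card h).trans (card_biUnion_le.trans ?_)
  have h3 : ∀ p ∈ W2 ×ˢ W2, ((univ : Finset (SimpleGraph V)).filter
      (fun T2 => (∀ a b, T2.Adj a b → a ∈ W2 ∧ b ∈ W2) ∧
        (∀ w ∈ W2, (T2.Adj p.1 w ↔ w = p.2)) ∧ Is T2 (W2.erase p.1) T W)).card ≤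
      (W2.card - 1).factorial := by
    rintro ⟨a, u⟩ hp
    have ha : a ∈ W2 := (mem_product.1 hp).1
    have h4 := h2 V (W2.erase a) W T
    rw [card_erase_of_mem ha] at h4
    refine le_trans ?_ h4
    refine card_le_card_of_injOn (fun T2 => rs T2 (W2.erase a)) ?_ ?_
    · intro T2 hT2
      obtain ⟨h5, h6, h7⟩ := (mem_filter.1 (mem_coe.1 hT2)).2
      refine mem_coe.2 (mem_filter.2 ⟨mem_univ _, rs_supp T2 _, ?_⟩)
      show Is (rs T2 (W2.erase a)) (W2.erase a) T W
      unfold Is at h7 ⊢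
      rw [rs_induce T2 (Subset.refl _)]
      exact h7
    · intro T2 hT2 T3 hT3 heq
      obtain ⟨h5, h6, -⟩ := (mem_filter.1 (mem_coe.1 hT2)).2
      obtain ⟨h8, h9, -⟩ := (mem_filter.1 (mem_coe.1 hT3)).2
      have heq' : rs T2 (W2.erase a) = rs T3 (W2.erase a) := heq
      ext x y
      by_cases hx : x ∈ W2
      · by_cases hy : y ∈ W2
        · by_cases hxa : x = a
          · rw [hxa]
            exact (h6 y hy).trans (h9 y hy).symm
          · by_cases hya : y = a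
            · rw [hya, T2.adj_comm, T3.adj_comm]
              exact (h6 x hx).trans (h9 x hx).symm
            · have hx' : x ∈ W2.erase a := mem_erase.2 ⟨hxa, hx⟩
              have hy' : y ∈ W2.erase a := mem_erase.2 ⟨hya, hy⟩
              have h10 : (rs T2 (W2.erase a)).Adj x y ↔ (rs T3 (W2.erase a)).Adj x y := by
                rw [heq']
              constructor
              · intro h11
                exact (h10.1 ⟨h11, hx', hy'⟩).1
              · intro h11
                exact (h10.2 ⟨h11, hx', hy'⟩).1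
        · exact ⟨fun h11 => absurd (h5 _ _ h11).2 hy, fun h11 => absurd (h8 _ _ h11).2 hy⟩
      · exact ⟨fun h11 => absurd (h5 _ _ h11).1 hx, fun h11 => absurd (h8 _ _ h11).1 hx⟩
  refine (sum_le_sum h3).trans ?_
  rw [sum_const, smul_eq_mul, card_product]

/-- the union bound -/
theorem step (h1 : T_COLG) (C : (V : Type) → SimpleGraph V → Prop) (hC : LeafStable C)
    (V : Type) [Fintype V] (n k m' b : ℕ) (hV : Fintype.card V = n) (hn : 2 * (k + 3) + m' < n)
    (Φ : Finset V → Finset V → SimpleGraph V → Finset (SimpleGraph V))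
    (hΦ : ∀ W W2 : Finset V, W.card = 2 * (k + 3) → W2.card = m' →
      ∀ T, (Φ W W2 T).card ≤ b)
    (S : Finset (SimpleGraph V))
    (hS : ∀ G ∈ S, G ∈ cc C V ∧ ∃ W W2 : Finset V, Disjoint W W2 ∧
      W.card = 2 * (k + 3) ∧ W2.card = m' ∧ (∃ r x, Pnd G W r x ∧ Cat k G W r) ∧
      (∃ r2 x2, Pnd G W2 r2 x2) ∧ (G.induce (W2 : Set V)).IsTree ∧
      rs G W2 ∈ Φ W W2 (rs G W)) :
    (S.card : ℝ) / (n.factorial : ℝ) ≤
      (n : ℝ) ^ 2 * ((b : ℝ) * m' / (m'.factorial : ℝ)) *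
        ((FF k : ℝ) / ((2 * (k + 3)).factorial : ℝ)) * aa C (n - (2 * (k + 3) + m')) := by
  set m := 2 * (k + 3) with hm
  set B := FF k * b * m' * n ^ 2 * cnt C (n - m - m') with hB
  have h3 : S.card ≤ n.choose m * ((n - m).choose m' * B) := by
    have h4 : S ⊆ (powersetCard m (univ : Finset V)).biUnion (fun W =>
        (powersetCard m' (Wᶜ : Finset V)).biUnion (fun W2 =>
          (cc C V).filter (fun G => (∃ r x, Pnd G W r x ∧ Cat k G W r) ∧
            (∃ r2 x2, Pnd G W2 r2 x2) ∧ (G.induce (W2 : Set V)).IsTree ∧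
            rs G W2 ∈ Φ W W2 (rs G W)))) := by
      intro G hG
      obtain ⟨h5, W, W2, h6, h7, h8, h9, h10, h11, h12⟩ := hS G hG
      refine mem_biUnion.2 ⟨W, mem_powersetCard.2 ⟨subset_univ _, h7⟩,
        mem_biUnion.2 ⟨W2, mem_powersetCard.2 ⟨?_, h8⟩,
          mem_filter.2 ⟨h5, h9, h10, h11, h12⟩⟩⟩
      intro a ha
      rw [mem_compl]
      intro ha'
      exact (Finset.disjoint_left.1 h6) ha' ha
    refine (card_le_card h4).trans (card_biUnion_le.trans ?_)
    have h5 : ∀ W ∈ powersetCard m (univ : Finset V),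
        ((powersetCard m' (Wᶜ : Finset V)).biUnion (fun W2 =>
          (cc C V).filter (fun G => (∃ r x, Pnd G W r x ∧ Cat k G W r) ∧
            (∃ r2 x2, Pnd G W2 r2 x2) ∧ (G.induce (W2 : Set V)).IsTree ∧
            rs G W2 ∈ Φ W W2 (rs G W)))).card ≤ (n - m).choose m' * B := by
      intro W hW
      have hWc : W.card = m := (mem_powersetCard.1 hW).2
      refine card_biUnion_le.trans ?_
      have h6 : ∀ W2 ∈ powersetCard m' (Wᶜ : Finset V),
          ((cc C V).filter (fun G => (∃ r x, Pnd G W r x ∧ Cat k G W r) ∧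
            (∃ r2 x2, Pnd G W2 r2 x2) ∧ (G.induce (W2 : Set V)).IsTree ∧
            rs G W2 ∈ Φ W W2 (rs G W))).card ≤ B := by
        intro W2 hW2
        obtain ⟨h7, h8⟩ := mem_powersetCard.1 hW2
        have h9 : Disjoint W W2 := by
          rw [Finset.disjoint_left]
          intro a ha ha'
          exact (mem_compl.1 (h7 ha')) ha
        have h10 := h1 C hC V k b W W2 (Φ W W2) h9 hWc
          (by rw [hWc, h8, hV]; exact hn) (hΦ W W2 hWc h8)
        rw [hWc, h8, hV] at h10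
        exact h10
      refine (sum_le_sum h6).trans ?_
      rw [sum_const, smul_eq_mul, card_powersetCard, card_compl, hV, hWc]
    refine (sum_le_sum h5).trans ?_
    rw [sum_const, smul_eq_mul, card_powersetCard, card_univ, hV]
  have hsub : n - (m + m') = n - m - m' := by omega
  have h6 : n.choose m * m.factorial * (n - m).factorial = n.factorial :=
    Nat.choose_mul_factorial_mul_factorial (by omega)
  have h7 : (n - m).choose m' * m'.factorial * (n - m - m').factorial = (n - m).factorial :=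
    Nat.choose_mul_factorial_mul_factorial (by omega)
  have h6' : ((n.choose m : ℕ) : ℝ) * (m.factorial : ℝ) * ((n - m).factorial : ℝ) =
      (n.factorial : ℝ) := by exact_mod_cast h6
  have h7' : (((n - m).choose m' : ℕ) : ℝ) * (m'.factorial : ℝ) * ((n - m - m').factorial : ℝ) =
      ((n - m).factorial : ℝ) := by exact_mod_cast h7
  have h3' : (S.card : ℝ) ≤ ((n.choose m : ℕ) : ℝ) * ((((n - m).choose m' : ℕ) : ℝ) *
      ((FF k : ℝ) * b * m' * n ^ 2 * (cnt C (n - m - m') : ℝ))) := by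
    have h8 : (S.card : ℝ) ≤ ((n.choose m * ((n - m).choose m' * B) : ℕ) : ℝ) := by
      exact_mod_cast h3
    rw [hB] at h8
    push_cast at h8
    exact h8
  have p1 : (0 : ℝ) < (m.factorial : ℝ) := by exact_mod_cast m.factorial_pos
  have p2 : (0 : ℝ) < (m'.factorial : ℝ) := by exact_mod_cast m'.factorial_pos
  have p3 : (0 : ℝ) < ((n - m - m').factorial : ℝ) := by
    exact_mod_cast (n - m - m').factorial_pos
  have p4 : (0 : ℝ) < ((n.choose m : ℕ) : ℝ) := by
    exact_mod_cast Nat.choose_pos (by omega)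
  have p5 : (0 : ℝ) < (((n - m).choose m' : ℕ) : ℝ) := by
    exact_mod_cast Nat.choose_pos (by omega)
  unfold aa
  rw [hsub]
  rw [div_le_iff₀ (by rw [← h6', ← h7']; positivity)]
  refine h3'.trans (le_of_eq ?_)
  rw [← h6', ← h7']
  field_simp

theorem num_a (m : ℕ) (hm : 1 ≤ m) :
    (((m * (m - 1).factorial : ℕ) : ℝ) * ((m - 1 : ℕ) : ℝ) / ((m - 1).factorial : ℝ)) ≤
      ((m : ℝ) + 1) ^ 3 := by
  have p : (0 : ℝ) < ((m - 1).factorial : ℝ) := by exact_mod_cast (m - 1).factorial_pos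
  rw [Nat.cast_mul, Nat.cast_sub hm, Nat.cast_one]
  have e : (m : ℝ) * ((m - 1).factorial : ℝ) * ((m : ℝ) - 1) / ((m - 1).factorial : ℝ) =
      (m : ℝ) * ((m : ℝ) - 1) := by
    field_simp
  rw [e]
  have h0 : (0 : ℝ) ≤ (m : ℝ) := Nat.cast_nonneg m
  nlinarith [mul_nonneg h0 h0, mul_nonneg (mul_nonneg h0 h0) h0]

theorem num_b (m : ℕ) :
    ((m.factorial : ℝ) * (m : ℝ) / (m.factorial : ℝ)) ≤ ((m : ℝ) + 1) ^ 3 := by
  have p : (0 : ℝ) < (m.factorial : ℝ) := by exact_mod_cast m.factorial_pos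
  have e : (m.factorial : ℝ) * (m : ℝ) / (m.factorial : ℝ) = (m : ℝ) := by
    field_simp
  rw [e]
  have h0 : (0 : ℝ) ≤ (m : ℝ) := Nat.cast_nonneg m
  nlinarith [mul_nonneg h0 h0, mul_nonneg (mul_nonneg h0 h0) h0]

theorem num_c (m : ℕ) :
    ((((m + 1) * (m + 1) * (m + 1 - 1).factorial : ℕ) : ℝ) * ((m + 1 : ℕ) : ℝ) /
      ((m + 1).factorial : ℝ)) ≤ ((m : ℝ) + 1) ^ 3 := by
  have p : (0 : ℝ) < (m.factorial : ℝ) := by exact_mod_cast m.factorial_pos
  rw [Nat.add_sub_cancel, Nat.factorial_succ]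
  push_cast
  have e : ((m : ℝ) + 1) * ((m : ℝ) + 1) * (m.factorial : ℝ) * ((m : ℝ) + 1) /
      (((m : ℝ) + 1) * (m.factorial : ℝ)) = ((m : ℝ) + 1) ^ 2 := by
    field_simp
  rw [e]
  have h0 : (0 : ℝ) ≤ (m : ℝ) := Nat.cast_nonneg m
  nlinarith [mul_nonneg h0 h0, mul_nonneg (mul_nonneg h0 h0) h0]

theorem main (h1 : T_COLG) (h2 : T_CIS) (h3 : T_CATTREE) (h4 : T_TLEAF)
    (C : (V : Type) → SimpleGraph V → Prop) (hC : LeafStable C) (V : Type) [Fintype V]
    (n k : ℕ) (hV : Fintype.card V = n) (hn : 4 * (k + 3) + 2 ≤ n) :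
    (((cc C V).filter (fun G => Col k G)).card : ℝ) / (n.factorial : ℝ) ≤
    (n : ℝ) ^ 2 * (2 * ((k : ℝ) + 3) + 1) ^ 3 *
      ((FF k : ℝ) / ((2 * (k + 3)).factorial : ℝ)) *
      (aa C (n - (4 * (k + 3) - 1)) + aa C (n - 4 * (k + 3)) + aa C (n - (4 * (k + 3) + 1))) := by
  set m := 2 * (k + 3) with hm
  set N : Finset (SimpleGraph V) := (cc C V).filter (fun G => Col k G) with hN
  -- the three cases
  let Q : (m' : ℕ) → (Finset V → Finset V → SimpleGraph V →
      Finset (SimpleGraph V)) → SimpleGraph V → Prop := fun m' Φ G =>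
    ∃ W W2 : Finset V, Disjoint W W2 ∧
      W.card = 2 * (k + 3) ∧ W2.card = m' ∧ (∃ r x, Pnd G W r x ∧ Cat k G W r) ∧
      (∃ r2 x2, Pnd G W2 r2 x2) ∧ (G.induce (W2 : Set V)).IsTree ∧
      rs G W2 ∈ Φ W W2 (rs G W)
  have hcases : ∀ G, Col k G → Q (m - 1) Pa G ∨ Q m Pb G ∨ Q (m + 1) Pc G := by
    rintro G ⟨W, W2, r, x, r2, x2, hd, hp, hcat, hp2, hcol⟩
    have hWc : W.card = 2 * (k + 3) := hcat.1
    have htree : (G.induce (W : Set V)).IsTree := h3 V k G W r hcat
    rcases hcol with ⟨v, hv, hvr, ⟨u, hu⟩, his⟩ | his | ⟨a, ha, ⟨u, hu, hau⟩, his⟩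
    · left
      have huW : u ∈ W := by
        by_contra hu'
        have h5 := (hp.2.2 v hv u hu').1 ((hu u).2 rfl)
        exact hvr h5.1
      have huv : u ≠ v := by
        rintro rfl
        exact G.irrefl ((hu u).2 rfl)
      have htree' : (G.induce ((W.erase v : Finset V) : Set V)).IsTree :=
        (h4 V G W v u hv huW huv (fun w _ => hu w)).1 htree
      refine ⟨W, W2, hd, hWc, ?_, ⟨r, x, hp, hcat⟩, ⟨r2, x2, hp2⟩, Is_tree his htree', ?_⟩
      · rw [Is_card his, card_erase_of_mem hv, hWc]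
      · exact mem_filter.2 ⟨mem_univ _, rs_supp G W2, v, hv,
          Is_rs (Subset.refl _) (erase_subset _ _) his⟩
    · right; left
      refine ⟨W, W2, hd, hWc, ?_, ⟨r, x, hp, hcat⟩, ⟨r2, x2, hp2⟩, Is_tree his htree, ?_⟩
      · rw [Is_card his, hWc]
      · exact mem_filter.2 ⟨mem_univ _, rs_supp G W2,
          Is_rs (Subset.refl _) (Subset.refl _) his⟩
    · right; right
      have hua : u ≠ a := by
        rintro rfl
        exact G.irrefl ((hau u hu).2 rfl)
      have htree' : (G.induce ((W2.erase a : Finset V) : Set V)).IsTree :=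
        Is_tree his htree
      have htree2 : (G.induce (W2 : Set V)).IsTree :=
        (h4 V G W2 a u ha hu hua hau).2 htree'
      refine ⟨W, W2, hd, hWc, ?_, ⟨r, x, hp, hcat⟩, ⟨r2, x2, hp2⟩, htree2, ?_⟩
      · have h5 := Is_card his
        rw [card_erase_of_mem ha, hWc] at h5
        have h6 : 0 < W2.card := card_pos.2 ⟨a, ha⟩
        omega
      · refine mem_filter.2 ⟨mem_univ _, rs_supp G W2, a, ha, u, hu, ?_, ?_⟩
        · intro w hw
          rw [← hau w hw]
          exact ⟨fun h => h.1, fun h => ⟨h, ha, hw⟩⟩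
        · exact Is_rs (erase_subset _ _) (Subset.refl _) his
  have hsub : N ⊆ (N.filter (Q (m - 1) Pa)) ∪ ((N.filter (Q m Pb)) ∪
      (N.filter (Q (m + 1) Pc))) := by
    intro G hG
    have h5 := hcases G (mem_filter.1 hG).2
    rcases h5 with h5 | h5 | h5
    · exact mem_union_left _ (mem_filter.2 ⟨hG, h5⟩)
    · exact mem_union_right _ (mem_union_left _ (mem_filter.2 ⟨hG, h5⟩))
    · exact mem_union_right _ (mem_union_right _ (mem_filter.2 ⟨hG, h5⟩))
  have hcard : (N.card : ℝ) ≤ ((N.filter (Q (m - 1) Pa)).card : ℝ) +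
      (((N.filter (Q m Pb)).card : ℝ) + ((N.filter (Q (m + 1) Pc)).card : ℝ)) := by
    have h5 : N.card ≤ (N.filter (Q (m - 1) Pa)).card +
        ((N.filter (Q m Pb)).card + (N.filter (Q (m + 1) Pc)).card) :=
      (card_le_card hsub).trans ((card_union_le _ _).trans
        (Nat.add_le_add_left (card_union_le _ _) _))
    exact_mod_cast h5
  have hmem : ∀ (m' : ℕ) (Φ : Finset V → Finset V → SimpleGraph V →
      Finset (SimpleGraph V)), ∀ G ∈ N.filter (Q m' Φ), G ∈ cc C V ∧ Q m' Φ G := by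
    intro m' Φ G hG
    have h5 := mem_filter.1 hG
    exact ⟨(mem_filter.1 h5.1).1, h5.2⟩
  have hφ : (0 : ℝ) ≤ (FF k : ℝ) / ((2 * (k + 3)).factorial : ℝ) := by positivity
  have haa : ∀ j, 0 ≤ aa C j := fun j => by unfold aa; positivity
  have hn2 : (0 : ℝ) ≤ (n : ℝ) ^ 2 := by positivity
  have hcast : ((m : ℕ) : ℝ) + 1 = 2 * ((k : ℝ) + 3) + 1 := by
    rw [hm]; push_cast; ring
  have hgen : ∀ (m' : ℕ) (c : ℝ), c ≤ (2 * ((k : ℝ) + 3) + 1) ^ 3 → ∀ X : ℝ,
      X ≤ (n : ℝ) ^ 2 * c * ((FF k : ℝ) / ((2 * (k + 3)).factorial : ℝ)) * aa C m' →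
      X ≤ (n : ℝ) ^ 2 * (2 * ((k : ℝ) + 3) + 1) ^ 3 *
        ((FF k : ℝ) / ((2 * (k + 3)).factorial : ℝ)) * aa C m' := by
    intro m' c hc X hX
    refine hX.trans ?_
    refine mul_le_mul_of_nonneg_right ?_ (haa m')
    refine mul_le_mul_of_nonneg_right ?_ hφ
    exact mul_le_mul_of_nonneg_left hc hn2
  have ha := step h1 C hC V n k (m - 1) (m * (m - 1).factorial) hV (by omega) Pa
    (by
      intro W W2 hW hW2 T
      have h5 := card_Pa h2 W W2 T
      rw [hW, hW2] at h5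
      exact h5)
    (N.filter (Q (m - 1) Pa)) (hmem (m - 1) Pa)
  have hb := step h1 C hC V n k m m.factorial hV (by omega) Pb
    (by
      intro W W2 hW hW2 T
      have h5 := card_Pb h2 W W2 T
      rw [hW2] at h5
      exact h5)
    (N.filter (Q m Pb)) (hmem m Pb)
  have hc := step h1 C hC V n k (m + 1) ((m + 1) * (m + 1) * (m + 1 - 1).factorial) hV (by omega) Pc
    (by
      intro W W2 hW hW2 T
      have h5 := card_Pc h2 W W2 T
      rw [hW2] at h5
      exact h5)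
    (N.filter (Q (m + 1) Pc)) (hmem (m + 1) Pc)
  have na := num_a m (by omega)
  have nb := num_b m
  have nc := num_c m
  rw [hcast] at na nb nc
  have ha' := hgen _ _ na _ ha
  have hb' := hgen _ _ nb _ hb
  have hc' := hgen _ _ nc _ hc
  have ia : n - (2 * (k + 3) + (m - 1)) = n - (4 * (k + 3) - 1) := by omega
  have ib : n - (2 * (k + 3) + m) = n - 4 * (k + 3) := by omega
  have ic : n - (2 * (k + 3) + (m + 1)) = n - (4 * (k + 3) + 1) := by omega
  rw [ia] at ha'
  rw [ib] at hb'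
  rw [ic] at hc'
  have hdiv : (N.card : ℝ) / (n.factorial : ℝ) ≤
      ((N.filter (Q (m - 1) Pa)).card : ℝ) / (n.factorial : ℝ) +
      (((N.filter (Q m Pb)).card : ℝ) / (n.factorial : ℝ) +
        ((N.filter (Q (m + 1) Pc)).card : ℝ) / (n.factorial : ℝ)) := by
    rw [← add_div, ← add_div]
    exact div_le_div_of_nonneg_right hcard (by positivity)
  refine hdiv.trans ((add_le_add ha' (add_le_add hb' hc')).trans (le_of_eq ?_))
  ring

end COLL_

open COLL_ in
/-- COLL -/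
theorem p_COLL (h1 : T_COLG) (h2 : T_CIS) (h3 : T_CATTREE) (h4 : T_TLEAF) : T_COLL := by
  intro C hC n k hn
  exact main h1 h2 h3 h4 C hC (Fin n) n k (Fintype.card_fin n) hn

end Pool.Agent.Pend
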