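import Pool.Agent.Pend.Targets

/-!
DEG: the degree of the deleted vertex is reconstructible.
-/

set_option autoImplicit false

namespace Pool.Agent.Pend

open Finset Classical

namespace DEG_

variable {V : Type} [Fintype V]

/-- indicator of the adjacency -/
noncomputable def e (G : SimpleGraph V) (a b : V) : ℕ := if G.Adj a b then 1 else 0

/-- number of ordered adjacent pairs inside `S` -/
noncomputable def g (G : SimpleGraph V) (S : Finset V) : ℕ := ∑ a ∈ S, ∑ b ∈ S, e G a b

theorem g_sub (G : SimpleGraph V) (S : Finset V) :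
    g G S = ∑ a : (S : Set V), ∑ b : (S : Set V), e G a b := by
  unfold g
  rw [Finset.sum_subtype S (p := fun x => x ∈ (S : Set V)) (fun x => Iff.rfl)]
  apply Finset.sum_congr rfl
  intro a _
  rw [Finset.sum_subtype S (p := fun x => x ∈ (S : Set V)) (fun x => Iff.rfl)]

theorem g_inv (G1 G2 : SimpleGraph V) (S1 S2 : Finset V) (h : Is G1 S1 G2 S2) :
    g G1 S1 = g G2 S2 := by
  obtain ⟨f⟩ := h
  rw [g_sub, g_sub]
  apply Fintype.sum_equiv f.toEquiv
  intro a
  apply Fintype.sum_equiv f.toEquiv
  intro b
  unfold e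
  have h1 : G1.Adj (a : V) (b : V) ↔ G2.Adj (f.toEquiv a : V) (f.toEquiv b : V) := by
    have := f.map_rel_iff (a := a) (b := b)
    exact this.symm
  by_cases hab : G1.Adj (a : V) (b : V)
  · rw [if_pos hab, if_pos (h1.mp hab)]
  · rw [if_neg hab, if_neg (fun hh => hab (h1.mpr hh))]

theorem e_ne {G : SimpleGraph V} {a b : V} (h : e G a b ≠ 0) : G.Adj a b := by
  unfold e at h
  by_contra hcon
  rw [if_neg hcon] at h
  exact h rfl

theorem sum_two (G : SimpleGraph V) :
    ∑ S ∈ powersetCard 2 (univ : Finset V), g G S = ∑ a, ∑ b, e G a b := by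
  have h1 : ∀ S ∈ powersetCard 2 (univ : Finset V),
      g G S = ∑ a, ∑ b, (if ({a, b} : Finset V) = S then e G a b else 0) := by
    intro S hS
    have hc : S.card = 2 := (Finset.mem_powersetCard.mp hS).2
    unfold g
    have e1 : ∑ a, ∑ b, (if ({a, b} : Finset V) = S then e G a b else 0) =
        ∑ a ∈ S, ∑ b, (if ({a, b} : Finset V) = S then e G a b else 0) := by
      symm
      apply Finset.sum_subset (Finset.subset_univ S)
      intro a _ ha
      apply Finset.sum_eq_zero
      intro b _
      rw [if_neg]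
      intro hab
      apply ha
      rw [← hab]
      exact Finset.mem_insert_self _ _
    rw [e1]
    apply Finset.sum_congr rfl
    intro a ha
    have e2 : ∑ b, (if ({a, b} : Finset V) = S then e G a b else 0) =
        ∑ b ∈ S, (if ({a, b} : Finset V) = S then e G a b else 0) := by
      symm
      apply Finset.sum_subset (Finset.subset_univ S)
      intro b _ hb
      rw [if_neg]
      intro hab
      apply hb
      rw [← hab]
      exact Finset.mem_insert_of_mem (Finset.mem_singleton_self _)
    rw [e2]
    apply Finset.sum_congr rfl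
    intro b hb
    by_cases hab : a = b
    · subst hab
      have h0 : e G a a = 0 := by
        unfold e
        rw [if_neg (G.loopless.irrefl a)]
      rw [h0]
      simp
    · rw [if_pos]
      apply Finset.eq_of_subset_of_card_le
      · intro x hx
        rw [Finset.mem_insert, Finset.mem_singleton] at hx
        rcases hx with rfl | rfl
        · exact ha
        · exact hb
      · rw [hc, Finset.card_pair hab]
  rw [Finset.sum_congr rfl h1, Finset.sum_comm]
  apply Finset.sum_congr rfl
  intro a _
  rw [Finset.sum_comm]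
  apply Finset.sum_congr rfl
  intro b _
  rw [Finset.sum_ite_eq]
  by_cases h : e G a b = 0
  · rw [h]
    simp
  · rw [if_pos]
    rw [Finset.mem_powersetCard]
    exact ⟨Finset.subset_univ _, Finset.card_pair (e_ne h).ne⟩

theorem total (G : SimpleGraph V) (v : V) :
    ∑ a, ∑ b, e G a b = 2 * (univ.filter (fun w => G.Adj v w)).card +
      ∑ a ∈ univ.erase v, ∑ b ∈ univ.erase v, e G a b := by
  have hd : (univ.filter (fun w => G.Adj v w)).card = ∑ b, e G v b := by
    unfold e
    rw [Finset.card_filter]
  have h0 : e G v v = 0 := by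
    unfold e
    rw [if_neg (G.loopless.irrefl v)]
  have hd2 : (univ.filter (fun w => G.Adj v w)).card = ∑ a ∈ univ.erase v, e G a v := by
    rw [hd, ← Finset.add_sum_erase univ (fun b => e G v b) (Finset.mem_univ v)]
    rw [h0, zero_add]
    apply Finset.sum_congr rfl
    intro b _
    unfold e
    by_cases h : G.Adj v b
    · rw [if_pos h, if_pos h.symm]
    · rw [if_neg h, if_neg (fun hh => h hh.symm)]
  rw [← Finset.add_sum_erase univ (fun a => ∑ b, e G a b) (Finset.mem_univ v)]
  have h1 : ∑ a ∈ univ.erase v, ∑ b, e G a b =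
      (∑ a ∈ univ.erase v, e G a v) + ∑ a ∈ univ.erase v, ∑ b ∈ univ.erase v, e G a b := by
    rw [← Finset.sum_add_distrib]
    apply Finset.sum_congr rfl
    intro a _
    exact (Finset.add_sum_erase univ (fun b => e G a b) (Finset.mem_univ v)).symm
  rw [h1, ← hd, ← hd2]
  ring

theorem inner (G H : SimpleGraph V) (ψ : V → Equiv.Perm V) (h : Hyp G H ψ) (v : V) :
    ∑ a ∈ univ.erase v, ∑ b ∈ univ.erase v, e G a b =
      ∑ a ∈ univ.erase v, ∑ b ∈ univ.erase v, e H a b := by
  have hmem : ∀ i, i ∈ (univ : Finset V).erase v ↔ ψ v i ∈ (univ : Finset V).erase v := by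
    intro i
    rw [Finset.mem_erase, Finset.mem_erase]
    constructor
    · rintro ⟨h1, _⟩
      refine ⟨fun h2 => h1 ?_, Finset.mem_univ _⟩
      have h3 : ψ v i = ψ v v := by rw [h2, h.fix]
      exact (ψ v).injective h3
    · rintro ⟨h1, _⟩
      refine ⟨fun h2 => h1 ?_, Finset.mem_univ _⟩
      rw [h2, h.fix]
  apply Finset.sum_equiv (ψ v) hmem
  intro a ha
  apply Finset.sum_equiv (ψ v) hmem
  intro b hb
  unfold e
  have h1 := h.adj v a b (Finset.ne_of_mem_erase ha) (Finset.ne_of_mem_erase hb)
  by_cases hab : G.Adj a b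
  · rw [if_pos hab, if_pos (h1.mp hab)]
  · rw [if_neg hab, if_neg (fun hh => hab (h1.mpr hh))]

end DEG_

theorem p_DEG (h1 : T_KEL) : T_DEG := by
  intro V _ G H ψ v h hn
  have hk := h1 V G H ψ DEG_.g 2 h DEG_.g_inv (by omega)
  rw [DEG_.sum_two, DEG_.sum_two, DEG_.total G v, DEG_.total H v, DEG_.inner G H ψ h v] at hk
  omega

end Pool.Agent.Pend
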