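import Pool.Agent.Pend.DENA

set_option autoImplicit false

namespace Pool.Agent.Pend

open Finset Classical Filter Topology

namespace DENB_

open DENA_

/-- the positive variation -/
noncomputable def v (a : ℕ → ℝ) (l : ℕ) : ℝ := max (lam a l - lam a (l + 1)) 0

theorem v_nonneg (a : ℕ → ℝ) (l : ℕ) : 0 ≤ v a l := le_max_right _ _

theorem drop (a : ℕ → ℝ) (i m : ℕ) :
    lam a i - lam a (i + m) ≤ ∑ l ∈ Finset.Ico i (i + m), v a l := by
  have h := tele (fun j => - lam a j) i m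
  have h2 : ∑ j ∈ Finset.Ico i (i + m), (- lam a (j + 1) - - lam a j) ≤
      ∑ l ∈ Finset.Ico i (i + m), v a l := by
    apply Finset.sum_le_sum
    intro l _
    refine le_trans (le_of_eq ?_) (le_max_left _ _)
    ring
  have h3 : (fun j => - lam a j) (i + m) - (fun j => - lam a j) i =
    lam a i - lam a (i + m) := by simp only; ring
  rw [← h3, ← h]
  exact h2

theorem total (a : ℕ → ℝ) (n₀ : ℕ)
    (h1 : ∀ n, n₀ ≤ n → 0 < a n ∧ a n ≤ 71 / 100 * a (n + 1))
    (h2 : ∀ n : ℕ, n₀ ≤ n → ((n : ℝ) + 1) ^ 2 * a (n + 1) ^ 2 ≤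
      a (n + 2) * ((n : ℝ) ^ 2 * a n + ((n : ℝ) + 1) * a (n + 1))) (i m : ℕ) (hi : n₀ ≤ i)
    (hi0 : 0 < i) : ∑ l ∈ Finset.Ico i (i + m), v a l ≤ 1 + m / (i : ℝ) := by
  have hi' : (0 : ℝ) < i := by exact_mod_cast hi0
  have h3 : ∑ l ∈ Finset.Ico i (i + m), v a l ≤
      ∑ l ∈ Finset.Ico i (i + m), ((- lam a (l + 1) - - lam a l) + 1 / (i : ℝ)) := by
    apply Finset.sum_le_sum
    intro l hl
    rw [Finset.mem_Ico] at hl
    have h4 := lam_step a n₀ h1 h2 l (by omega)
    have h5 : 1 / ((l : ℝ) + 1) ≤ 1 / (i : ℝ) := by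
      apply one_div_le_one_div_of_le hi'
      have : (i : ℝ) ≤ l := by exact_mod_cast hl.1
      linarith
    have h6 : (0 : ℝ) ≤ 1 / (i : ℝ) := by positivity
    apply max_le <;> linarith
  rw [Finset.sum_add_distrib, tele (fun j => - lam a j) i m, Finset.sum_const, Nat.card_Ico,
    nsmul_eq_mul] at h3
  have h4 := (lam_pos a n₀ h1 i hi).2
  have h5 := (lam_pos a n₀ h1 (i + m) (by omega)).1
  have h6 : ((i + m - i : ℕ) : ℝ) * (1 / (i : ℝ)) = m / (i : ℝ) := by
    rw [show i + m - i = m by omega]; ring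
  rw [h6] at h3
  linarith

/-- the sum over the windows -/
theorem swap (f : ℕ → ℝ) (hf : ∀ l, 0 ≤ f l) (B : Finset ℕ) (i m W : ℕ)
    (hB : ∀ n ∈ B, i + W ≤ n ∧ n + W ≤ i + m) :
    ∑ n ∈ B, ∑ l ∈ Finset.Ico (n - W) (n + W), f l ≤
      (2 * W : ℝ) * ∑ l ∈ Finset.Ico i (i + m), f l := by
  have e1 : ∀ n ∈ B, ∑ l ∈ Finset.Ico (n - W) (n + W), f l =
      ∑ t ∈ range (2 * W), f (n - W + t) := by
    intro n hn
    have := hB n hn
    rw [Finset.sum_Ico_eq_sum_range]
    rw [show n + W - (n - W) = 2 * W by omega]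
  rw [Finset.sum_congr rfl e1, Finset.sum_comm]
  have e2 : ∀ t ∈ range (2 * W), ∑ n ∈ B, f (n - W + t) ≤ ∑ l ∈ Finset.Ico i (i + m), f l := by
    intro t ht
    rw [Finset.mem_range] at ht
    rw [← Finset.sum_image (s := B) (g := fun n => n - W + t) (f := f)]
    · apply Finset.sum_le_sum_of_subset_of_nonneg
      · intro l hl
        rw [Finset.mem_image] at hl
        obtain ⟨n, hn, rfl⟩ := hl
        have := hB n hn
        rw [Finset.mem_Ico]
        omega
      · intro l _ _; exact hf l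
    · intro x hx y hy hxy
      have := hB x hx
      have := hB y hy
      simp only at hxy
      omega
  refine (Finset.sum_le_sum e2).trans (le_of_eq ?_)
  rw [Finset.sum_const, Finset.card_range, nsmul_eq_mul]
  push_cast
  ring

end DENB_

open DENA_ DENB_ in
theorem p_DENB : T_DENB := by
  intro a n₀ h1 h2 δ η hδ hη
  rcases le_or_gt 1 η with hη1 | hη1
  · refine ⟨0, fun N _ => ?_⟩
    have h4 : (0 : ℝ) ≤ N := by positivity
    refine le_trans (b := (N : ℝ)) ?_ (by nlinarith)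
    have := Finset.card_filter_le (range N) (fun n : ℕ =>
      (∀ i : ℕ, (n : ℝ) ≤ (i : ℝ) + 30 * Real.log n → (i : ℝ) ≤ (n : ℝ) + 30 * Real.log n →
        δ * a (i + 1) ≤ a i) ∧
      ∃ i j : ℕ, (n : ℝ) ≤ (i : ℝ) + 30 * Real.log n ∧ (i : ℝ) ≤ (n : ℝ) + 30 * Real.log n ∧
        (n : ℝ) ≤ (j : ℝ) + 30 * Real.log n ∧ (j : ℝ) ≤ (n : ℝ) + 30 * Real.log n ∧
        Real.exp (1 / 100) * (a j * a (i + 1)) < a i * a (j + 1))
    rw [Finset.card_range] at this
    exact_mod_cast this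
  set C : ℝ := 400 * (1 + 32 / η) / δ with hC
  have hC0 : 0 < C := by positivity
  have E1 := logs (δ * η / 16000) (by positivity)
  have E3 := logs (η / (4 * C)) (by positivity)
  have E4 := logs (η / 8) (by positivity)
  have E2 : ∀ᶠ N : ℕ in atTop, (16 / η) * ((n₀ : ℝ) + 2 + δ) ≤ N :=
    (tendsto_natCast_atTop_atTop (R := ℝ)).eventually (eventually_ge_atTop _)
  obtain ⟨N₀, hN₀⟩ := Filter.eventually_atTop.mp (E1.and (E2.and (E3.and E4)))
  refine ⟨N₀, fun N hN => ?_⟩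
  obtain ⟨e1, e2, e3, e4⟩ := hN₀ N hN
  have e2' : (n₀ : ℝ) + 2 + δ ≤ η * N / 16 := by
    rw [div_mul_eq_mul_div, div_le_iff₀ hη] at e2
    linarith
  have hN0 : (0 : ℝ) ≤ N := by positivity
  have hNpos : (1 : ℝ) ≤ N := by
    have p1 : (0 : ℝ) ≤ n₀ := by positivity
    nlinarith
  have hlogN : 0 ≤ Real.log N := Real.log_nonneg hNpos
  set W : ℕ := ⌈30 * Real.log N⌉₊ with hW
  have hW1 : 30 * Real.log N ≤ W := Nat.le_ceil _
  have hW2 : (W : ℝ) < 30 * Real.log N + 1 := Nat.ceil_lt_add_one (by positivity)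
  have hW0 : (0 : ℝ) ≤ W := by positivity
  set j₀ : ℕ := ⌊η * N / 8⌋₊ with hj₀
  have hj1 : (j₀ : ℝ) ≤ η * N / 8 := Nat.floor_le (by positivity)
  have hj2 : η * N / 8 < (j₀ : ℝ) + 1 := Nat.lt_floor_add_one _
  have hj2' : η * N / 16 ≤ (j₀ : ℝ) := by
    have p1 : (0 : ℝ) ≤ n₀ := by positivity
    linarith
  have hj3 : n₀ + 1 ≤ j₀ := by
    have : ((n₀ + 1 : ℕ) : ℝ) < (j₀ : ℝ) + 1 := by push_cast; linarith
    have : n₀ + 1 < j₀ + 1 := by exact_mod_cast this
    omega
  have hj0 : (0 : ℝ) < j₀ := by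
    have : 0 < j₀ := by omega
    exact_mod_cast this
  have hWj : 2 * (W : ℝ) ≤ δ / 1000 * j₀ := by
    have : δ / 1000 * (η * N / 16) ≤ δ / 1000 * j₀ :=
      mul_le_mul_of_nonneg_left hj2' (by positivity)
    nlinarith
  have hWj2 : W ≤ j₀ := by
    have h5 : 60 * Real.log N + 4 ≤ 2 * j₀ := by linarith
    have : (W : ℝ) ≤ j₀ := by linarith
    exact_mod_cast this
  have hjN : 8 * j₀ ≤ N := by
    have : ((8 * j₀ : ℕ) : ℝ) ≤ N := by
      push_cast
      nlinarith
    exact_mod_cast this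
  set B := (range N).filter (fun n : ℕ =>
    (∀ i : ℕ, (n : ℝ) ≤ (i : ℝ) + 30 * Real.log n → (i : ℝ) ≤ (n : ℝ) + 30 * Real.log n →
      δ * a (i + 1) ≤ a i) ∧
    ∃ i j : ℕ, (n : ℝ) ≤ (i : ℝ) + 30 * Real.log n ∧ (i : ℝ) ≤ (n : ℝ) + 30 * Real.log n ∧
      (n : ℝ) ≤ (j : ℝ) + 30 * Real.log n ∧ (j : ℝ) ≤ (n : ℝ) + 30 * Real.log n ∧
      Real.exp (1 / 100) * (a j * a (i + 1)) < a i * a (j + 1)) with hB
  set B' := B.filter (fun n => 2 * j₀ ≤ n) with hB'
  have hmem : ∀ n ∈ B', 2 * j₀ ≤ n ∧ n < N ∧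
      δ / 200 ≤ ∑ l ∈ Finset.Ico (n - W) (n + W), v a l := by
    intro n hn
    rw [hB', Finset.mem_filter, hB, Finset.mem_filter, Finset.mem_range] at hn
    obtain ⟨⟨hnN, hA, i, j, hi1, hi2, hj1', hj2'', hij⟩, hn2⟩ := hn
    refine ⟨hn2, hnN, ?_⟩
    obtain ⟨w1, w2⟩ := window n i N W hW1 hnN hi1 hi2
    obtain ⟨w3, w4⟩ := window n j N W hW1 hnN hj1' hj2''
    have pi := (h1 i (by omega)).1
    have pi1 := (h1 (i + 1) (by omega)).1
    have pj := (h1 j (by omega)).1
    have pj1 := (h1 (j + 1) (by omega)).1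
    have li : δ ≤ lam a i := by
      rw [lam, le_div_iff₀ pi1]; exact hA i hi1 hi2
    have lj : δ ≤ lam a j := by
      rw [lam, le_div_iff₀ pj1]; exact hA j hj1' hj2''
    have hlt : Real.exp (1 / 100) * lam a j < lam a i := by
      unfold lam
      rw [← mul_div_assoc, div_lt_div_iff₀ pj1 pi1]
      linarith
    have hexp : (1 : ℝ) + 1 / 100 ≤ Real.exp (1 / 100) := by
      have := Real.add_one_le_exp (1 / 100 : ℝ); linarith
    have hlt2 : (1 + 1 / 100) * lam a j < lam a i := by nlinarith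
    have hij2 : i < j := by
      by_contra hc
      push Not at hc
      obtain ⟨m, hm⟩ : ∃ m, i = j + m := ⟨i - j, by omega⟩
      have hfar := lam_far a n₀ h1 h2 j m (by omega) (by omega)
      rw [← hm] at hfar
      have hjpos : (0 : ℝ) < j := by
        have : 0 < j := by omega
        exact_mod_cast this
      have hmW : (m : ℝ) ≤ 2 * W := by
        have : m ≤ 2 * W := by omega
        exact_mod_cast this
      have hjj : (j₀ : ℝ) ≤ j := by
        have : j₀ ≤ j := by omega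
        exact_mod_cast this
      have : (m : ℝ) / j ≤ δ / 1000 := by
        rw [div_le_iff₀ hjpos]
        have : δ / 1000 * (j₀ : ℝ) ≤ δ / 1000 * j := mul_le_mul_of_nonneg_left hjj (by positivity)
        linarith
      linarith
    obtain ⟨m, hm⟩ : ∃ m, j = i + m := ⟨j - i, by omega⟩
    have hdrop := drop a i m
    have hsub : ∑ l ∈ Finset.Ico i (i + m), v a l ≤
        ∑ l ∈ Finset.Ico (n - W) (n + W), v a l := by
      apply Finset.sum_le_sum_of_subset_of_nonneg
      · intro l hl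
        rw [Finset.mem_Ico] at hl ⊢
        omega
      · intro l _ _; exact v_nonneg a l
    rw [← hm] at hdrop
    rw [← hm] at hsub
    linarith
  have hsum : (B'.card : ℝ) * (δ / 200) ≤ (2 * W : ℝ) * (1 + 32 / η) := by
    calc (B'.card : ℝ) * (δ / 200) = ∑ n ∈ B', δ / 200 := by
          rw [Finset.sum_const, nsmul_eq_mul]
      _ ≤ ∑ n ∈ B', ∑ l ∈ Finset.Ico (n - W) (n + W), v a l :=
          Finset.sum_le_sum (fun n hn => (hmem n hn).2.2)
      _ ≤ (2 * W : ℝ) * ∑ l ∈ Finset.Ico j₀ (j₀ + 2 * N), v a l :=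
          swap (v a) (v_nonneg a) B' j₀ (2 * N) W (fun n hn => by
            have := hmem n hn
            omega)
      _ ≤ (2 * W : ℝ) * (1 + 32 / η) := by
          apply mul_le_mul_of_nonneg_left _ (by positivity)
          have h5 := total a n₀ h1 h2 j₀ (2 * N) (by omega) (by omega)
          have h6 : ((2 * N : ℕ) : ℝ) / j₀ ≤ 32 / η := by
            rw [div_le_div_iff₀ hj0 hη]
            push_cast
            linarith
          linarith
  have hB'2 : (B'.card : ℝ) ≤ C * W := by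
    rw [hC, div_mul_eq_mul_div, le_div_iff₀ hδ]
    linarith
  have hB'3 : (B'.card : ℝ) ≤ η * N / 4 := by
    have h5 : (W : ℝ) ≤ η / (4 * C) * N := by linarith
    calc (B'.card : ℝ) ≤ C * W := hB'2
      _ ≤ C * (η / (4 * C) * N) := mul_le_mul_of_nonneg_left h5 hC0.le
      _ = η * N / 4 := by field_simp
  have hsplit : B ⊆ (range (2 * j₀)) ∪ B' := by
    intro n hn
    rw [Finset.mem_union, Finset.mem_range, hB', Finset.mem_filter]
    by_cases h : n < 2 * j₀
    · exact Or.inl h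
    · exact Or.inr ⟨hn, by omega⟩
  have hcard : B.card ≤ 2 * j₀ + B'.card := by
    calc B.card ≤ _ := Finset.card_le_card hsplit
      _ ≤ (range (2 * j₀)).card + B'.card := Finset.card_union_le _ _
      _ = 2 * j₀ + B'.card := by rw [Finset.card_range]
  have h5 : (B.card : ℝ) ≤ 2 * j₀ + B'.card := by exact_mod_cast hcard
  have h6 : 0 ≤ η * N := by positivity
  linarith

end Pool.Agent.Pend
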