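import Pool.Agent.Pend.Targets

/-!
Pend, DET: a connected graph with a good pendant set, many leaves and no collision is
reconstructible.
-/

set_option autoImplicit false

namespace Pool.Agent.Pend.DET_

open Finset Classical Pool.Agent.Pend

lemma pnd_adj {V : Type} {G : SimpleGraph V} {A : Finset V} {r x : V} (h : Pnd G A r x) :
    G.Adj r x := (h.2.2 r h.1 x h.2.1).2 ⟨rfl, rfl⟩

lemma pnd_unique {V : Type} {G : SimpleGraph V} {A : Finset V} {r x r' x' : V}
    (h : Pnd G A r x) (h' : Pnd G A r' x') : r = r' ∧ x = x' :=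
  (h'.2.2 r h.1 x h.2.1).1 (pnd_adj h)

lemma is_symm {V W : Type} {G : SimpleGraph V} {A : Finset V} {H : SimpleGraph W} {B : Finset W}
    (h : Is G A H B) : Is H B G A := ⟨h.some.symm⟩

lemma is_trans {V W U : Type} {G : SimpleGraph V} {A : Finset V} {H : SimpleGraph W}
    {B : Finset W} {K : SimpleGraph U} {D : Finset U}
    (h : Is G A H B) (h' : Is H B K D) : Is G A K D := ⟨h.some.trans h'.some⟩

lemma is_card {V W : Type} {G : SimpleGraph V} {A : Finset V} {H : SimpleGraph W} {B : Finset W}
    (h : Is G A H B) : A.card = B.card := by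
  have h1 := Nat.card_congr h.some.toEquiv
  simpa using h1

lemma is_conn {V W : Type} {G : SimpleGraph V} {A : Finset V} {H : SimpleGraph W} {B : Finset W}
    (h : Is G A H B) (hc : (G.induce (A : Set V)).Connected) : (H.induce (B : Set W)).Connected :=
  (SimpleGraph.Iso.connected_iff h.some).1 hc

lemma is_map {V : Type} {G H : SimpleGraph V} {ψ : V → Equiv.Perm V}
    (hH : Hyp G H ψ) {w : V} {S : Finset V} (hw : w ∉ S) :
    Is G S H (S.map (ψ w).toEmbedding) := by
  refine ⟨⟨(ψ w).subtypeEquiv (fun a => ?_), ?_⟩⟩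
  · simp
  · intro a b
    have ha : a.1 ≠ w := fun h => hw (h ▸ a.2)
    have hb : b.1 ≠ w := fun h => hw (h ▸ b.2)
    exact (hH.adj w a.1 b.1 ha hb).symm

lemma fix_symm {V : Type} {G H : SimpleGraph V} {ψ : V → Equiv.Perm V}
    (hH : Hyp G H ψ) (w : V) : (ψ w).symm w = w := by
  rw [Equiv.symm_apply_eq]; exact (hH.fix w).symm

lemma ne_iff {V : Type} {G H : SimpleGraph V} {ψ : V → Equiv.Perm V}
    (hH : Hyp G H ψ) (w a : V) : ψ w a = w ↔ a = w := by
  constructor
  · intro h
    exact (ψ w).injective (h.trans (hH.fix w).symm)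
  · rintro rfl; exact hH.fix a

lemma ne_iff' {V : Type} {G H : SimpleGraph V} {ψ : V → Equiv.Perm V}
    (hH : Hyp G H ψ) (w a : V) : (ψ w).symm a = w ↔ a = w := by
  constructor
  · intro h
    have := congrArg (ψ w) h
    rw [Equiv.apply_symm_apply, hH.fix] at this
    exact this
  · rintro rfl; exact fix_symm hH a

/-- adjacency pulled back -/
lemma adj' {V : Type} {G H : SimpleGraph V} {ψ : V → Equiv.Perm V}
    (hH : Hyp G H ψ) (w a b : V) (ha : a ≠ w) (hb : b ≠ w) :
    H.Adj a b ↔ G.Adj ((ψ w).symm a) ((ψ w).symm b) := by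
  rw [hH.adj w _ _ (fun h => ha ((ne_iff' hH w a).1 h)) (fun h => hb ((ne_iff' hH w b).1 h)),
    Equiv.apply_symm_apply, Equiv.apply_symm_apply]

lemma lf_transfer (h2 : T_DEG) {V : Type} [Fintype V] {G H : SimpleGraph V}
    {ψ : V → Equiv.Perm V} (hH : Hyp G H ψ) (hn : 3 ≤ Fintype.card V) {v u : V}
    (hv : Lf G v u) : ∃ u', Lf H v u' := by
  have h := h2 V G H ψ v hH hn
  have h1 : (univ.filter (fun w => G.Adj v w)) = {u} := by
    ext w; simp [hv w]
  rw [h1, Finset.card_singleton] at h
  obtain ⟨u', hu'⟩ := Finset.card_eq_one.1 h.symm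
  refine ⟨u', fun w => ?_⟩
  have h3 : w ∈ (univ.filter (fun w => H.Adj v w)) ↔ w ∈ ({u'} : Finset V) := by rw [hu']
  simpa using h3

lemma lf_ne {V : Type} {G : SimpleGraph V} {v u : V} (h : Lf G v u) : u ≠ v := by
  have h1 := (h u).2 rfl
  exact h1.ne'

/-- A pendant set plus the neighbours: if no edges leave `A ∪ B` the graph is everything. -/
lemma closed_univ {V : Type} [Fintype V] {G : SimpleGraph V} (hG : G.Connected) {S : Finset V}
    (hS : S.Nonempty) (h : ∀ a ∈ S, ∀ b, b ∉ S → ¬ G.Adj a b) : S = univ := by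
  obtain ⟨a, ha⟩ := hS
  ext b
  simp only [Finset.mem_univ, iff_true]
  by_contra hb
  obtain ⟨p⟩ := hG.preconnected a b
  obtain ⟨d, hd, hd1, hd2⟩ := p.exists_boundary_dart (S : Set V) (by simpa using ha)
    (by simpa using hb)
  exact h d.fst (by simpa using hd1) d.snd (by simpa using hd2) d.adj

/-- Two disjoint pendant sets: the outer vertex of one is not in the other, when they do not
cover everything. -/
lemma pull {V : Type} [Fintype V] {G H : SimpleGraph V} {ψ : V → Equiv.Perm V}
    (hH : Hyp G H ψ) {W : Finset V} {v u r x : V} (hvW : v ∈ W) (huW : u ∈ W) (hv : Lf G v u)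
    (hrv : r ≠ v)
    (hW : Pnd H (W.map (ψ v).toEmbedding) (ψ v r) (ψ v x)) {B : Finset V} {p q : V}
    (hB : Pnd H B p q) (hd : Disjoint B (W.map (ψ v).toEmbedding)) :
    Pnd G (B.map (ψ v).symm.toEmbedding) ((ψ v).symm p) ((ψ v).symm q) ∧
      Disjoint W (B.map (ψ v).symm.toEmbedding) := by
  have hvW' : v ∈ W.map (ψ v).toEmbedding := by
    rw [Finset.mem_map_equiv, fix_symm hH]; exact hvW
  have hvB : v ∉ B := fun h => (Finset.disjoint_left.1 hd h) hvW'
  have hdisj : Disjoint W (B.map (ψ v).symm.toEmbedding) := by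
    rw [Finset.disjoint_left]
    intro y hy hy2
    rw [Finset.mem_map_equiv, Equiv.symm_symm] at hy2
    refine Finset.disjoint_left.1 hd hy2 ?_
    rw [Finset.mem_map_equiv, Equiv.symm_apply_apply]
    exact hy
  have hqv : q ≠ v := by
    rintro rfl
    have hadj := pnd_adj hB
    have hp : p ∉ W.map (ψ q).toEmbedding := fun h => (Finset.disjoint_left.1 hd hB.1) h
    have := (hW.2.2 q hvW' p hp).1 hadj.symm
    exact hrv ((ne_iff hH q r).1 this.1.symm)
  refine ⟨⟨?_, ?_, ?_⟩, hdisj⟩
  · rw [Finset.mem_map_equiv, Equiv.symm_symm, Equiv.apply_symm_apply]; exact hB.1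
  · rw [Finset.mem_map_equiv, Equiv.symm_symm, Equiv.apply_symm_apply]; exact hB.2.1
  · intro a ha b hb
    rw [Finset.mem_map_equiv, Equiv.symm_symm] at ha hb
    have hav : a ≠ v := by
      rintro rfl
      rw [hH.fix] at ha
      exact hvB ha
    by_cases hbv : b = v
    · subst hbv
      constructor
      · intro hab
        have hau := (hv a).1 hab.symm
        exfalso
        rw [hau] at ha
        refine Finset.disjoint_left.1 hd ha ?_
        rw [Finset.mem_map_equiv, Equiv.symm_apply_apply]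
        exact huW
      · rintro ⟨_, h⟩
        exfalso
        exact hqv ((ne_iff' hH b q).1 h.symm)
    · rw [hH.adj v a b hav hbv, hB.2.2 _ ha _ hb, Equiv.eq_symm_apply, Equiv.eq_symm_apply]

lemma cat_nbr {V : Type} {G : SimpleGraph V} {W : Finset V} {k : ℕ} {r : V} (h : Cat k G W r) :
    ∀ y ∈ W, ∃ z ∈ W, G.Adj y z := by
  obtain ⟨_, s, _, hsW, _, hsadj, hns⟩ := h
  intro y hy
  by_cases hys : ∀ i, s i ≠ y
  · obtain ⟨i, hi⟩ := hns y hy hys
    exact ⟨s i, hsW i, (hi _ (hsW i)).2 rfl⟩
  · push Not at hys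
    obtain ⟨i, rfl⟩ := hys
    by_cases hi : i.val + 1 < k + 3
    · exact ⟨s ⟨i.val + 1, hi⟩, hsW _, (hsadj _ _).2 (Or.inl rfl)⟩
    · have h2 := i.2
      exact ⟨s ⟨i.val - 1, by omega⟩, hsW _, (hsadj _ _).2 (Or.inr (by simp; omega))⟩

lemma conn_leaf (h5 : T_PCONS) {V : Type} [Fintype V] {G : SimpleGraph V} {v u : V}
    (hv : Lf G v u) :
    G.Connected ↔ (G.induce ((univ \ {v} : Finset V) : Set V)).Connected := by
  have h := h5 V G univ {v} v u ⟨Finset.subset_univ _, Finset.mem_singleton_self _,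
    Finset.mem_univ _, by simpa using lf_ne hv, by
      intro a ha b _ _
      rw [Finset.mem_singleton] at ha
      subst ha
      simp [hv b]⟩
  have h1 : (G.induce ((univ : Finset V) : Set V)).Connected ↔ G.Connected := by
    rw [Finset.coe_univ]
    exact SimpleGraph.Iso.connected_iff (SimpleGraph.induceUnivIso G)
  have h2 : (G.induce (({v} : Finset V) : Set V)).Connected := by
    have : Nonempty (({v} : Finset V) : Set V) := ⟨⟨v, by simp⟩⟩
    refine ⟨?_⟩
    rintro ⟨a, ha⟩ ⟨b, hb⟩
    simp only [Finset.coe_singleton, Set.mem_singleton_iff] at ha hb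
    subst ha
    subst hb
    exact SimpleGraph.Reachable.refl _
  rw [h1] at h
  rw [h]
  exact ⟨fun h => h.2, fun h => ⟨h2, h⟩⟩

end Pool.Agent.Pend.DET_

namespace Pool.Agent.Pend

open Finset Classical DET_

theorem p_DET (h2 : T_DEG) (h3 : T_NP) (h4 : T_LAM) (h5 : T_PCONS) : T_DET := by
  intro V _ G H ψ k hH hG hW0 hlv hcol hn
  obtain ⟨W, r, x, hW, hcat⟩ := hW0
  have hcatW := hcat
  obtain ⟨hWc, s, hsinj, hsW, hs1, hsadj, hns⟩ := hcat
  -- a leaf outside the spine
  obtain ⟨v, hvW, hvs⟩ : ∃ v ∈ W, ∀ i, s i ≠ v := by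
    by_contra hcon
    push Not at hcon
    have h : W ⊆ univ.image s := fun y hy => by
      obtain ⟨i, hi⟩ := hcon y hy
      exact mem_image.2 ⟨i, mem_univ _, hi⟩
    have h1 := card_le_card h
    have h2 := card_image_le (s := (univ : Finset (Fin (k + 3)))) (f := s)
    rw [Finset.card_univ, Fintype.card_fin] at h2
    omega
  obtain ⟨i0, hi0⟩ := hns v hvW hvs
  have hrv : r ≠ v := by rw [← hs1]; exact hvs 1
  have hv : Lf G v (s i0) := by
    intro w
    by_cases hw : w ∈ W
    · exact hi0 w hw
    · constructor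
      · intro hvw
        exact absurd ((hW.2.2 v hvW w hw).1 hvw).1.symm hrv
      · rintro rfl; exact absurd (hsW i0) hw
  have hxv : x ≠ v := fun h => hW.2.1 (h ▸ hvW)
  have hv2 : ((2 : Fin (k + 3)) : ℕ) = 2 := by
    have h : 2 % (k + 3) = 2 := Nat.mod_eq_of_lt (by omega)
    exact h
  have hr0 : G.Adj r (s 0) := by
    rw [← hs1, hsadj]; right; simp
  have hr2 : G.Adj r (s 2) := by
    rw [← hs1, hsadj]; left; rw [hv2]; simp
  have hs02 : s 0 ≠ s 2 := by
    intro h
    have h := congrArg Fin.val (hsinj h)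
    rw [hv2] at h
    simp at h
  have hs0r : s 0 ≠ r := fun h => hr0.ne h.symm
  have hs2r : s 2 ≠ r := fun h => hr2.ne h.symm
  -- step 1
  have hno : ∀ W2 r2 x2, Pnd G W2 r2 x2 → ¬ Is G W2 G (W.erase v) := by
    intro W2 r2 x2 hW2 hIs
    have hc2 : W2.card + 1 = 2 * (k + 3) := by
      have h := is_card hIs
      rw [card_erase_of_mem hvW] at h
      omega
    rcases h4 V G W W2 r x r2 x2 hG hW hW2 with hd | hsub | hsub | huniv
    · exact hcol ⟨W, W2, r, x, r2, x2, hd, hW, hcatW, hW2,
        Or.inl ⟨v, hvW, hrv.symm, ⟨_, hv⟩, hIs⟩⟩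
    · have := card_le_card hsub
      omega
    · obtain ⟨y, hyW, hy2⟩ : ∃ y ∈ W, y ∉ W2 := by
        by_contra hcon
        push Not at hcon
        have := card_le_card hcon
        omega
      have hW2e : W2 = W.erase y := by
        apply eq_of_subset_of_card_le
        · intro z hz
          exact mem_erase.2 ⟨fun h => hy2 (h ▸ hz), hsub hz⟩
        · rw [card_erase_of_mem hyW]; omega
      by_cases hr : r ∈ W2
      · have hx2 : x ∉ W2 := fun h => hW.2.1 (hsub h)
        have h1 := (hW2.2.2 r hr x hx2).1 (pnd_adj hW)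
        obtain ⟨z, hzW, hyz⟩ := cat_nbr hcatW y hyW
        have hz2 : z ∈ W2 := by rw [hW2e]; exact mem_erase.2 ⟨hyz.ne', hzW⟩
        have h2 := (hW2.2.2 z hz2 y hy2).1 hyz.symm
        apply hW.2.1
        rw [h1.2, ← h2.2]
        exact hyW
      · have hry : r = y := by
          by_contra hne
          exact hr (by rw [hW2e]; exact mem_erase.2 ⟨hne, hW.1⟩)
        have hs0 : s 0 ∈ W2 := by rw [hW2e, ← hry]; exact mem_erase.2 ⟨hs0r, hsW 0⟩
        have hs2 : s 2 ∈ W2 := by rw [hW2e, ← hry]; exact mem_erase.2 ⟨hs2r, hsW 2⟩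
        have h1 := (hW2.2.2 _ hs0 r hr).1 hr0.symm
        have h2 := (hW2.2.2 _ hs2 r hr).1 hr2.symm
        exact hs02 (h1.1.trans h2.1.symm)
    · have h := card_union_le W W2
      rw [huniv, Finset.card_univ] at h
      omega
  -- step 2
  have hnoH : ∀ B p q, Pnd H B p q → ¬ Is H B G (W.erase v) := by
    intro B p q hB hIs
    have hh := h3 V G H ψ G (W.erase v) hH (by omega) ⟨r, mem_erase.2 ⟨hrv, hW.1⟩⟩ (by
      intro h
      have h1 : v ∈ W.erase v := by rw [h]; exact mem_univ _
      exact (mem_erase.1 h1).1 rfl)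
    have h0 : ((univ : Finset (Finset V)).filter (fun A => Is G A G (W.erase v) ∧
        ∃ r x, Pnd G A r x)).card = 0 := by
      rw [card_eq_zero, filter_eq_empty_iff]
      rintro A _ ⟨hA1, r', x', hA2⟩
      exact hno A r' x' hA2 hA1
    rw [h0] at hh
    have h1 := card_eq_zero.1 hh.symm
    have h2 : B ∈ ((univ : Finset (Finset V)).filter (fun A => Is H A G (W.erase v) ∧
        ∃ r x, Pnd H A r x)) := mem_filter.2 ⟨mem_univ _, hIs, p, q, hB⟩
    rw [h1] at h2
    simp at h2
  -- step 3
  obtain ⟨u', hu'⟩ := lf_transfer h2 hH (by omega) hv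
  have hu'v : u' ≠ v := lf_ne hu'
  have hfs := fix_symm hH v
  have key : ∀ a b : V, a ≠ v → (ψ v).symm a ∈ W → (ψ v).symm b ∉ W →
      (H.Adj a b ↔ a = ψ v r ∧ b = ψ v x) := by
    intro a b hav ha hb
    have hbv : b ≠ v := by
      rintro rfl
      rw [hfs] at hb
      exact hb hvW
    rw [adj' hH v a b hav hbv, hW.2.2 _ ha _ hb, Equiv.symm_apply_eq, Equiv.symm_apply_eq]
  have hu'W : (ψ v).symm u' ∈ W := by
    by_contra hcon
    refine hnoH ((W.erase v).map (ψ v).toEmbedding) (ψ v r) (ψ v x) ⟨?_, ?_, ?_⟩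
      (is_symm (is_map hH (notMem_erase v W)))
    · rw [mem_map_equiv, Equiv.symm_apply_apply]; exact mem_erase.2 ⟨hrv, hW.1⟩
    · rw [mem_map_equiv, Equiv.symm_apply_apply]
      exact fun h => hW.2.1 (mem_erase.1 h).2
    · intro a ha b hb
      rw [mem_map_equiv, mem_erase] at ha hb
      have hav : a ≠ v := fun h => ha.1 (by rw [h, hfs])
      by_cases hbv : b = v
      · subst hbv
        constructor
        · intro hab
          have := (hu' a).1 hab.symm
          exact absurd (this ▸ ha.2) hcon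
        · rintro ⟨_, h⟩
          exact absurd ((ne_iff hH b x).1 h.symm) hxv
      · refine key a b hav ha.2 (fun h => hb ⟨fun h' => hbv ?_, h⟩)
        exact (ne_iff' hH v b).1 h'
  obtain ⟨W', hW'⟩ : ∃ W', W' = W.map (ψ v).toEmbedding := ⟨_, rfl⟩
  have hW'c : W'.card = W.card := by rw [hW', card_map]
  have hvW' : v ∈ W' := by rw [hW', mem_map_equiv, hfs]; exact hvW
  have hWs : Pnd H W' (ψ v r) (ψ v x) := by
    refine ⟨?_, ?_, ?_⟩
    · rw [hW', mem_map_equiv, Equiv.symm_apply_apply]; exact hW.1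
    · rw [hW', mem_map_equiv, Equiv.symm_apply_apply]; exact hW.2.1
    · intro a ha b hb
      rw [hW', mem_map_equiv] at ha hb
      by_cases hav : a = v
      · subst hav
        constructor
        · intro hab
          have := (hu' b).1 hab
          exact absurd (this ▸ hu'W) hb
        · rintro ⟨h, _⟩
          exact absurd ((ne_iff hH a r).1 h.symm) hrv
      · exact key a b hav ha hb
  -- H is connected
  have hHc : H.Connected := by
    rw [conn_leaf h5 hu']
    have h1 := (conn_leaf h5 hv).1 hG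
    have h2 : v ∉ (univ \ {v} : Finset V) := by simp
    have h3 : (univ \ {v} : Finset V).map (ψ v).toEmbedding = univ \ {v} := by
      ext y
      rw [mem_map_equiv]
      simp [ne_iff' hH]
    have h4 := is_conn (is_map hH h2) h1
    rwa [h3] at h4
  -- uniqueness
  have hE : ∀ B p q, Pnd H B p q → Is H B G W → B = W' := by
    intro B p q hB hIs
    have hBc := is_card hIs
    rcases h4 V H B W' p q _ _ hHc hB hWs with hd | hsub | hsub | huniv
    · exfalso
      rw [hW'] at hWs hd
      obtain ⟨hP, hD⟩ := pull hH hvW (hsW i0) hv hrv hWs hB hd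
      refine hcol ⟨W, _, r, x, _, _, hD, hW, hcatW, hP, Or.inr (Or.inl ?_)⟩
      have hvB : v ∉ B.map (ψ v).symm.toEmbedding := fun h => disjoint_left.1 hD hvW h
      have h5 := is_map hH hvB
      have h6 : (B.map (ψ v).symm.toEmbedding).map (ψ v).toEmbedding = B := by
        ext y
        rw [mem_map_equiv, mem_map_equiv, Equiv.symm_symm, Equiv.apply_symm_apply]
      rw [h6] at h5
      exact is_trans h5 hIs
    · exact eq_of_subset_of_card_le hsub (by omega)
    · exact (eq_of_subset_of_card_le hsub (by omega)).symm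
    · exfalso
      have h := card_union_le B W'
      rw [huniv, Finset.card_univ] at h
      omega
  -- step 5
  obtain ⟨w, hwW, uw, hw⟩ : ∃ w, w ∉ W ∧ ∃ u, Lf G w u := by
    by_contra hcon
    push Not at hcon
    have h : (univ.filter (fun v => ∃ u, Lf G v u)) ⊆ W := by
      intro y hy
      by_contra hyW
      obtain ⟨u, hu⟩ := (mem_filter.1 hy).2
      exact hcon y hyW u hu
    have h1 := card_le_card h
    unfold lv at hlv
    omega
  have hwx : w ≠ x := by
    rintro rfl
    have hur : r = uw := (hw r).1 (pnd_adj hW).symm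
    have h := closed_univ hG (S := insert w W) ⟨w, mem_insert_self _ _⟩ (by
      intro a ha b hb hab
      rw [mem_insert, not_or] at hb
      rcases mem_insert.1 ha with rfl | ha
      · have h1 := (hw b).1 hab
        exact hb.2 (by rw [h1, ← hur]; exact hW.1)
      · exact hb.1 ((hW.2.2 a ha b hb.2).1 hab).2)
    have h1 := card_insert_le w W
    rw [h, Finset.card_univ] at h1
    omega
  have hrw : r ≠ w := fun h => hwW (h ▸ hW.1)
  obtain ⟨u'', hu''⟩ := lf_transfer h2 hH (by omega) hw
  have hu''w : u'' ≠ w := lf_ne hu''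
  have hfs2 := fix_symm hH w
  obtain ⟨A, hA⟩ : ∃ A, A = W.map (ψ w).toEmbedding := ⟨_, rfl⟩
  have hAc : A.card = W.card := by rw [hA, card_map]
  have hwA : w ∉ A := by rw [hA, mem_map_equiv, hfs2]; exact hwW
  have hIsA : Is H A G W := by rw [hA]; exact is_symm (is_map hH hwW)
  have key2 : ∀ a b : V, a ∈ A → b ∉ A → b ≠ w → (H.Adj a b ↔ a = ψ w r ∧ b = ψ w x) := by
    intro a b ha hb hbw
    rw [hA, mem_map_equiv] at ha hb
    have haw : a ≠ w := by
      rintro rfl
      rw [hfs2] at ha
      exact hwW ha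
    rw [adj' hH w a b haw hbw, hW.2.2 _ ha _ hb, Equiv.symm_apply_eq, Equiv.symm_apply_eq]
  have hrA : ψ w r ∈ A := by rw [hA, mem_map_equiv, Equiv.symm_apply_apply]; exact hW.1
  have hxA : ψ w x ∉ A := by rw [hA, mem_map_equiv, Equiv.symm_apply_apply]; exact hW.2.1
  by_cases huA : u'' ∈ A
  · -- Z = insert w A is pendant
    have hZ : Pnd H (insert w A) (ψ w r) (ψ w x) := by
      refine ⟨mem_insert_of_mem hrA, ?_, ?_⟩
      · rw [mem_insert, not_or]
        exact ⟨fun h => hwx ((ne_iff hH w x).1 h).symm, hxA⟩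
      · intro a ha b hb
        rw [mem_insert, not_or] at hb
        rcases mem_insert.1 ha with rfl | ha
        · constructor
          · intro hab
            have := (hu'' b).1 hab
            exact absurd (this ▸ huA) hb.2
          · rintro ⟨h, _⟩
            exact absurd ((ne_iff hH a r).1 h.symm) hrw
        · exact key2 a b ha hb.2 hb.1
    have hZc : (insert w A).card = W.card + 1 := by rw [card_insert_of_notMem hwA, hAc]
    rcases h4 V H (insert w A) W' _ _ _ _ hHc hZ hWs with hd | hsub | hsub | huniv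
    · -- collision c
      rw [hW'] at hWs hd
      obtain ⟨hP, hD⟩ := pull hH hvW (hsW i0) hv hrv hWs hZ hd
      have hvZ : v ∉ (insert w A).map (ψ v).symm.toEmbedding := fun h => disjoint_left.1 hD hvW h
      refine hcol ⟨W, _, r, x, _, _, hD, hW, hcatW, hP, Or.inr (Or.inr ⟨(ψ v).symm w, ?_,
        ⟨(ψ v).symm u'', ?_, ?_⟩, ?_⟩)⟩
      · rw [mem_map_equiv, Equiv.symm_symm, Equiv.apply_symm_apply]; exact mem_insert_self _ _
      · rw [mem_map_equiv, Equiv.symm_symm, Equiv.apply_symm_apply]; exact mem_insert_of_mem huA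
      · intro y hy
        have hyv : y ≠ v := fun h => hvZ (h ▸ hy)
        have hwv : (ψ v).symm w ≠ v := by
          intro h
          apply hvZ
          rw [mem_map_equiv, Equiv.symm_symm, hH.fix, (ne_iff' hH v w).1 h]
          exact mem_insert_self _ _
        rw [hH.adj v _ _ hwv hyv, Equiv.apply_symm_apply, hu'', Equiv.eq_symm_apply]
      · have h6 : ((insert w A).map (ψ v).symm.toEmbedding).erase ((ψ v).symm w) =
            A.map (ψ v).symm.toEmbedding := by
          ext y
          rw [mem_erase, mem_map_equiv, mem_map_equiv, Equiv.symm_symm, mem_insert, ne_eq,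
            Equiv.eq_symm_apply]
          constructor
          · rintro ⟨h1, h2 | h2⟩
            · exact absurd h2 h1
            · exact h2
          · intro h
            exact ⟨fun h' => hwA (h' ▸ h), Or.inr h⟩
        rw [h6]
        have hvA : v ∉ A.map (ψ v).symm.toEmbedding := by
          intro h
          apply hvZ
          rw [mem_map_equiv] at h ⊢
          exact mem_insert_of_mem h
        have h7 := is_map hH hvA
        have h8 : (A.map (ψ v).symm.toEmbedding).map (ψ v).toEmbedding = A := by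
          ext y
          rw [mem_map_equiv, mem_map_equiv, Equiv.symm_symm, Equiv.apply_symm_apply]
        rw [h8] at h7
        exact is_trans h7 hIsA
    · have := card_le_card hsub
      omega
    · -- W' is contained in Z
      have hp := hZ.1
      -- the root of Z is not in W'
      have hpW : ψ w r ∉ W' := by
        intro hp'
        have hq' : ψ w x ∉ W' := fun h => hZ.2.1 (hsub h)
        have h1 := (hWs.2.2 _ hp' _ hq').1 (pnd_adj hZ)
        -- Z minus W' has one element y which is adjacent to W'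
        obtain ⟨y, hyZ, hyW⟩ : ∃ y ∈ insert w A, y ∉ W' := by
          by_contra hcon
          push Not at hcon
          have := card_le_card hcon
          omega
        have hZe : W' = (insert w A).erase y := by
          apply eq_of_subset_of_card_le
          · intro z hz
            exact mem_erase.2 ⟨fun h => hyW (h ▸ hz), hsub hz⟩
          · rw [card_erase_of_mem hyZ]; omega
        obtain ⟨z, hzZ, hyz⟩ : ∃ z ∈ insert w A, H.Adj y z := by
          rcases mem_insert.1 hyZ with rfl | hyA
          · exact ⟨u'', mem_insert_of_mem huA, (hu'' u'').2 rfl⟩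
          · have hyA' := hyA
            rw [hA, mem_map_equiv] at hyA
            obtain ⟨z, hz, hadj⟩ := cat_nbr hcatW _ hyA
            refine ⟨ψ w z, mem_insert_of_mem ?_, ?_⟩
            · rw [hA, mem_map_equiv, Equiv.symm_apply_apply]; exact hz
            · have h1 : (ψ w).symm y ≠ w := fun h => hwW (h ▸ hyA)
              have h2 : z ≠ w := fun h => hwW (h ▸ hz)
              rw [hH.adj w _ _ h1 h2, Equiv.apply_symm_apply] at hadj
              exact hadj
        have hzW : z ∈ W' := by rw [hZe]; exact mem_erase.2 ⟨hyz.ne', hzZ⟩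
        have h2 := (hWs.2.2 z hzW y hyW).1 hyz.symm
        apply hZ.2.1
        rw [h1.2, ← h2.2]
        exact hyZ
      -- so the root of Z has only one neighbour in Z
      have hZe : W' = (insert w A).erase (ψ w r) := by
        apply eq_of_subset_of_card_le
        · intro z hz
          exact mem_erase.2 ⟨fun h => hpW (h ▸ hz), hsub hz⟩
        · rw [card_erase_of_mem hp]; omega
      have hn0 : ∀ i, G.Adj r (s i) → s i ≠ r → ψ w (s i) = ψ v r := by
        intro i hi hir
        have hiW := hsW i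
        have h1 : s i ≠ w := fun h => hwW (h ▸ hiW)
        have h2 : H.Adj (ψ w r) (ψ w (s i)) := (hH.adj w _ _ hrw h1).1 hi
        have h3 : ψ w (s i) ∈ W' := by
          rw [hZe, mem_erase, hA]
          refine ⟨fun h => hir ((ψ w).injective h), mem_insert_of_mem ?_⟩
          rw [mem_map_equiv, Equiv.symm_apply_apply]
          exact hiW
        exact ((hWs.2.2 _ h3 _ hpW).1 h2.symm).1
      have h0 := hn0 0 hr0 hs0r
      have h2' := hn0 2 hr2 hs2r
      exact hs02 ((ψ w).injective (h0.trans h2'.symm))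
    · have h := card_union_le (insert w A) W'
      rw [huniv, Finset.card_univ] at h
      omega
  · -- A is pendant, so A = W'
    have hAP : Pnd H A (ψ w r) (ψ w x) := by
      refine ⟨hrA, hxA, ?_⟩
      intro a ha b hb
      by_cases hbw : b = w
      · subst hbw
        constructor
        · intro hab
          have := (hu'' a).1 hab.symm
          exact absurd (this ▸ ha) huA
        · rintro ⟨_, h⟩
          exact absurd ((ne_iff hH b x).1 h.symm).symm hwx
      · exact key2 a b ha hb hbw
    have hAW := hE A _ _ hAP hIsA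
    obtain ⟨hr', hx'⟩ := pnd_unique (hAW ▸ hAP) hWs
    have hmemA : ∀ y, ψ w y ∈ A ↔ y ∈ W := by
      intro y
      rw [hA, mem_map_equiv, Equiv.symm_apply_apply]
    have hmemW : ∀ y, ψ v y ∈ W' ↔ y ∈ W := by
      intro y
      rw [hW', mem_map_equiv, Equiv.symm_apply_apply]
    obtain ⟨θ, hθ⟩ : ∃ θ : V → V, ∀ y, θ y = if y ∈ W then ψ w y else ψ v y := ⟨_, fun _ => rfl⟩
    have hθ1 : ∀ y, y ∈ W → θ y = ψ w y := fun y hy => by rw [hθ, if_pos hy]
    have hθ2 : ∀ y, y ∉ W → θ y = ψ v y := fun y hy => by rw [hθ, if_neg hy]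
    have hinj : Function.Injective θ := by
      intro y z hyz
      by_cases hy : y ∈ W <;> by_cases hz : z ∈ W
      · rw [hθ1 y hy, hθ1 z hz] at hyz
        exact (ψ w).injective hyz
      · exfalso
        rw [hθ1 y hy, hθ2 z hz] at hyz
        have h1 := (hmemA y).2 hy
        rw [hyz, hAW, hmemW] at h1
        exact hz h1
      · exfalso
        rw [hθ2 y hy, hθ1 z hz] at hyz
        have h1 := (hmemA z).2 hz
        rw [← hyz, hAW, hmemW] at h1
        exact hy h1
      · rw [hθ2 y hy, hθ2 z hz] at hyz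
        exact (ψ v).injective hyz
    have hmix : ∀ a b, a ∈ W → b ∉ W → (H.Adj (ψ w a) (ψ v b) ↔ G.Adj a b) := by
      intro a b ha hb
      have h1 : ψ w a ∈ W' := by rw [← hAW]; exact (hmemA a).2 ha
      have h2 : ψ v b ∉ W' := fun h => hb ((hmemW b).1 h)
      rw [hWs.2.2 _ h1 _ h2, hW.2.2 a ha b hb, ← hr', (ψ w).injective.eq_iff,
        (ψ v).injective.eq_iff]
    refine hH.non ⟨⟨Equiv.ofBijective θ (Finite.injective_iff_bijective.1 hinj), ?_⟩⟩
    intro a b
    rw [Equiv.ofBijective_apply, Equiv.ofBijective_apply]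
    by_cases ha : a ∈ W <;> by_cases hb : b ∈ W
    · rw [hθ1 a ha, hθ1 b hb]
      exact (hH.adj w a b (fun h => hwW (h ▸ ha)) (fun h => hwW (h ▸ hb))).symm
    · rw [hθ1 a ha, hθ2 b hb]
      exact hmix a b ha hb
    · rw [hθ2 a ha, hθ1 b hb, SimpleGraph.adj_comm, hmix b a hb ha, SimpleGraph.adj_comm]
    · rw [hθ2 a ha, hθ2 b hb]
      exact (hH.adj v a b (fun h => ha (h ▸ hvW)) (fun h => hb (h ▸ hvW))).symm

end Pool.Agent.Pend
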