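import Pool.Agent.Pend.Targets

set_option autoImplicit false

namespace Pool.Agent.Pend

open Finset Classical

namespace DSC1_

variable {V : Type}

theorem is_image (G1 G2 : SimpleGraph V) (S : Finset V) (φ : V → V)
    (hinj : ∀ a ∈ S, ∀ b ∈ S, φ a = φ b → a = b)
    (hadj : ∀ a ∈ S, ∀ b ∈ S, (G1.Adj a b ↔ G2.Adj (φ a) (φ b))) :
    Is G1 S G2 (S.image φ) := by
  let f : {a : V // a ∈ (S : Set V)} → {a : V // a ∈ ((S.image φ : Finset V) : Set V)} := fun a =>
    ⟨φ a, by
      have := mem_image_of_mem φ (mem_coe.mp a.2)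
      exact mem_coe.mpr this⟩
  have hf : Function.Bijective f := by
    constructor
    · intro a b hab
      have h1 : φ a = φ b := congrArg Subtype.val hab
      exact Subtype.ext (hinj a (mem_coe.mp a.2) b (mem_coe.mp b.2) h1)
    · intro b
      obtain ⟨a, ha, hab⟩ := mem_image.mp (mem_coe.mp b.2)
      exact ⟨⟨a, mem_coe.mpr ha⟩, Subtype.ext hab⟩
  refine ⟨⟨Equiv.ofBijective f hf, ?_⟩⟩
  intro a b
  exact (hadj a (mem_coe.mp a.2) b (mem_coe.mp b.2)).symm

/-- an isomorphism transports sums over subsets -/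
theorem sum_sub {s : ℕ} (gc : SimpleGraph V → Finset V → ℕ)
    (hg : ∀ (G1 G2 : SimpleGraph V) (S1 S2 : Finset V), Is G1 S1 G2 S2 → gc G1 S1 = gc G2 S2)
    (G1 G2 : SimpleGraph V) (D1 D2 : Finset V) (h : Is G1 D1 G2 D2) :
    ∑ S ∈ powersetCard s D1, gc G1 S = ∑ S ∈ powersetCard s D2, gc G2 S := by
  obtain ⟨e⟩ := h
  let φ : V → V := fun a => if h : a ∈ D1 then (e ⟨a, mem_coe.mpr h⟩ : V) else a
  let ψ : V → V := fun a => if h : a ∈ D2 then (e.symm ⟨a, mem_coe.mpr h⟩ : V) else a
  have hφ : ∀ a (h : a ∈ D1), φ a = (e ⟨a, mem_coe.mpr h⟩ : V) := fun a h => dif_pos h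
  have hψ : ∀ a (h : a ∈ D2), ψ a = (e.symm ⟨a, mem_coe.mpr h⟩ : V) := fun a h => dif_pos h
  have hφm : ∀ a ∈ D1, φ a ∈ D2 := fun a h => by
    rw [hφ a h]; exact mem_coe.mp (e ⟨a, mem_coe.mpr h⟩).2
  have hψm : ∀ a ∈ D2, ψ a ∈ D1 := fun a h => by
    rw [hψ a h]; exact mem_coe.mp (e.symm ⟨a, mem_coe.mpr h⟩).2
  have h1 : ∀ a ∈ D1, ψ (φ a) = a := fun a h => by
    rw [hψ _ (hφm a h)]
    have : (⟨φ a, mem_coe.mpr (hφm a h)⟩ : {a : V // a ∈ (D2 : Set V)}) = e ⟨a, mem_coe.mpr h⟩ :=
      Subtype.ext (hφ a h)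
    rw [this, RelIso.symm_apply_apply]
  have h2 : ∀ a ∈ D2, φ (ψ a) = a := fun a h => by
    rw [hφ _ (hψm a h)]
    have : (⟨ψ a, mem_coe.mpr (hψm a h)⟩ : {a : V // a ∈ (D1 : Set V)}) = e.symm ⟨a, mem_coe.mpr h⟩ :=
      Subtype.ext (hψ a h)
    rw [this, RelIso.apply_symm_apply]
  have hadj : ∀ a ∈ D1, ∀ b ∈ D1, (G1.Adj a b ↔ G2.Adj (φ a) (φ b)) := fun a ha b hb => by
    rw [hφ a ha, hφ b hb]
    exact (e.map_rel_iff (a := ⟨a, mem_coe.mpr ha⟩) (b := ⟨b, mem_coe.mpr hb⟩)).symm
  have inj1 : ∀ a ∈ D1, ∀ b ∈ D1, φ a = φ b → a = b := fun a ha b hb hab => by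
    rw [← h1 a ha, hab, h1 b hb]
  have inj2 : ∀ a ∈ D2, ∀ b ∈ D2, ψ a = ψ b → a = b := fun a ha b hb hab => by
    rw [← h2 a ha, hab, h2 b hb]
  refine Finset.sum_bij' (fun S _ => S.image φ) (fun S _ => S.image ψ) ?_ ?_ ?_ ?_ ?_
  · intro S hS
    rw [mem_powersetCard] at hS ⊢
    refine ⟨?_, ?_⟩
    · intro x hx
      obtain ⟨a, ha, rfl⟩ := mem_image.mp hx
      exact hφm a (hS.1 ha)
    · rw [card_image_of_injOn, hS.2]
      intro a ha b hb hab
      exact inj1 a (hS.1 ha) b (hS.1 hb) hab
  · intro S hS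
    rw [mem_powersetCard] at hS ⊢
    refine ⟨?_, ?_⟩
    · intro x hx
      obtain ⟨a, ha, rfl⟩ := mem_image.mp hx
      exact hψm a (hS.1 ha)
    · rw [card_image_of_injOn, hS.2]
      intro a ha b hb hab
      exact inj2 a (hS.1 ha) b (hS.1 hb) hab
  · intro S hS
    rw [mem_powersetCard] at hS
    ext x
    simp only [mem_image]
    constructor
    · rintro ⟨y, ⟨a, ha, rfl⟩, rfl⟩
      rw [h1 a (hS.1 ha)]; exact ha
    · intro hx
      exact ⟨φ x, ⟨x, hx, rfl⟩, h1 x (hS.1 hx)⟩
  · intro S hS
    rw [mem_powersetCard] at hS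
    ext x
    simp only [mem_image]
    constructor
    · rintro ⟨y, ⟨a, ha, rfl⟩, rfl⟩
      rw [h2 a (hS.1 ha)]; exact ha
    · intro hx
      exact ⟨ψ x, ⟨x, hx, rfl⟩, h2 x (hS.1 hx)⟩
  · intro S hS
    rw [mem_powersetCard] at hS
    exact hg _ _ _ _ (is_image G1 G2 S φ
      (fun a ha b hb => inj1 a (hS.1 ha) b (hS.1 hb))
      (fun a ha b hb => hadj a (hS.1 ha) b (hS.1 hb)))

/-- the sum over connected sets, in terms of the components -/
theorem sum_conn [Fintype V] (G : SimpleGraph V) (s : ℕ) (f : Finset V → ℕ)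
    (hf : ∀ S : Finset V, ¬ (G.induce (S : Set V)).Connected → f S = 0) :
    ∑ S ∈ powersetCard s (univ : Finset V), f S =
    ∑ t ∈ range (Fintype.card V + 1), ∑ D ∈ (powersetCard t (univ : Finset V)).filter
      (fun D : Finset V => ∃ c : G.ConnectedComponent, c.supp = (D : Set V)),
      ∑ S ∈ powersetCard s D, f S := by
  set P : Finset V → Prop := fun D => ∃ c : G.ConnectedComponent, c.supp = (D : Set V) with hP
  have e1 : ∑ t ∈ range (Fintype.card V + 1), ∑ D ∈ (powersetCard t (univ : Finset V)).filter P,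
      ∑ S ∈ powersetCard s D, f S =
      ∑ D ∈ (univ : Finset (Finset V)).filter P, ∑ S ∈ powersetCard s D, f S := by
    rw [← Finset.sum_fiberwise_of_maps_to (s := (univ : Finset (Finset V)).filter P)
      (t := range (Fintype.card V + 1)) (g := Finset.card)]
    · refine Finset.sum_congr rfl (fun t _ => ?_)
      refine Finset.sum_congr ?_ (fun _ _ => rfl)
      ext D
      simp only [mem_filter, mem_powersetCard, subset_univ, true_and, mem_univ]
      exact and_comm
    · intro D _
      rw [mem_range]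
      exact Nat.lt_succ_of_le (Finset.card_le_univ D)
  rw [e1]
  rw [Finset.sum_comm' (s' := fun S => ((univ : Finset (Finset V)).filter P).filter
    (fun D => S ⊆ D)) (t' := powersetCard s (univ : Finset V))]
  · refine Finset.sum_congr rfl (fun S hS => ?_)
    by_cases hc : (G.induce (S : Set V)).Connected
    · rw [Finset.sum_const]
      have hcard : (((univ : Finset (Finset V)).filter P).filter (fun D => S ⊆ D)).card = 1 := by
        rw [Finset.card_eq_one]
        obtain ⟨⟨a, ha⟩⟩ := hc.nonempty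
        refine ⟨(G.connectedComponentMk a).supp.toFinset, ?_⟩
        ext D
        simp only [mem_filter, mem_univ, true_and, mem_singleton]
        constructor
        · rintro ⟨⟨c, hc'⟩, hSD⟩
          have h1 : a ∈ c.supp := by rw [hc']; exact mem_coe.mpr (hSD (mem_coe.mp ha))
          have h2 : G.connectedComponentMk a = c := h1
          rw [h2]
          ext x
          rw [Set.mem_toFinset, hc', mem_coe]
        · rintro rfl
          refine ⟨⟨G.connectedComponentMk a, by simp⟩, ?_⟩
          intro b hb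
          rw [Set.mem_toFinset, SimpleGraph.ConnectedComponent.mem_supp_iff,
            SimpleGraph.ConnectedComponent.eq]
          have h3 := hc.preconnected ⟨b, mem_coe.mpr hb⟩ ⟨a, ha⟩
          exact h3.map (SimpleGraph.Embedding.induce (S : Set V)).toHom
      rw [hcard, one_smul]
    · rw [hf S hc]; simp
  · intro D S
    simp only [mem_filter, mem_univ, true_and, mem_powersetCard, subset_univ]
    tauto

/-- the whole argument, by downward induction on `s` -/
theorem main (h1 : T_KEL) [Fintype V] (G H : SimpleGraph V) (ψ : V → Equiv.Perm V)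
    (hyp : Hyp G H ψ) (hG : ¬ G.Connected) (hH : ¬ H.Connected) (m : ℕ) :
    ∀ s : ℕ, Fintype.card V ≤ s + m → ∀ g : SimpleGraph V → Finset V → ℕ,
    (∀ (G1 G2 : SimpleGraph V) (S1 S2 : Finset V), Is G1 S1 G2 S2 → g G1 S1 = g G2 S2) →
    ∑ S ∈ (powersetCard s (univ : Finset V)).filter (fun S : Finset V =>
      ∃ c : G.ConnectedComponent, c.supp = (S : Set V)), g G S =
    ∑ S ∈ (powersetCard s (univ : Finset V)).filter (fun S : Finset V =>
      ∃ c : H.ConnectedComponent, c.supp = (S : Set V)), g H S := by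
  have hempty : ∀ K : SimpleGraph V, ¬ K.Connected → ∀ s : ℕ, Fintype.card V ≤ s →
      (powersetCard s (univ : Finset V)).filter (fun S : Finset V =>
        ∃ c : K.ConnectedComponent, c.supp = (S : Set V)) = ∅ := by
    intro K hK s hs
    rw [Finset.filter_eq_empty_iff]
    rintro S hS ⟨c, hc⟩
    rw [mem_powersetCard] at hS
    apply hK
    have hcard : S.card = Fintype.card V := le_antisymm (card_le_univ S) (by rw [hS.2]; exact hs)
    have hSu : S = univ := Finset.eq_univ_of_card S hcard
    have htop : ∀ x : V, x ∈ c.supp := fun x => by rw [hc, hSu]; simp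
    obtain ⟨a, ha⟩ := c.exists_rep
    rw [SimpleGraph.connected_iff_exists_forall_reachable]
    refine ⟨a, fun w => ?_⟩
    have h2 : K.connectedComponentMk w = c := htop w
    have h3 : K.connectedComponentMk a = c := ha
    exact SimpleGraph.ConnectedComponent.exact (h3.trans h2.symm)
  induction m with
  | zero =>
    intro s hs g _
    rw [hempty G hG s (by omega), hempty H hH s (by omega)]
    simp
  | succ m ih =>
    intro s hs g hg
    by_cases hle : Fintype.card V ≤ s + m
    · exact ih s hle g hg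
    by_cases hs0 : Fintype.card V ≤ s
    · rw [hempty G hG s hs0, hempty H hH s hs0]; simp
    have hs1 : s < Fintype.card V := by omega
    let gc : SimpleGraph V → Finset V → ℕ := fun K S =>
      if (K.induce (S : Set V)).Connected then g K S else 0
    have hgc : ∀ (G1 G2 : SimpleGraph V) (S1 S2 : Finset V), Is G1 S1 G2 S2 →
        gc G1 S1 = gc G2 S2 := by
      intro G1 G2 S1 S2 h
      have h2 := hg G1 G2 S1 S2 h
      obtain ⟨e⟩ := h
      have h3 := e.connected_iff
      show (if _ then _ else _) = (if _ then _ else _)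
      rw [h2]
      by_cases h4 : (G1.induce (S1 : Set V)).Connected
      · rw [if_pos h4, if_pos (h3.mp h4)]
      · rw [if_neg h4, if_neg (fun h5 => h4 (h3.mpr h5))]
    let g' : SimpleGraph V → Finset V → ℕ := fun K D => ∑ S ∈ powersetCard s D, gc K S
    have hg' : ∀ (G1 G2 : SimpleGraph V) (S1 S2 : Finset V), Is G1 S1 G2 S2 →
        g' G1 S1 = g' G2 S2 := fun G1 G2 S1 S2 h => sum_sub gc hgc G1 G2 S1 S2 h
    have key := h1 V G H ψ gc s hyp hgc hs1
    have hz : ∀ (K : SimpleGraph V) (S : Finset V), ¬ (K.induce (S : Set V)).Connected →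
        gc K S = 0 := fun K S h => if_neg h
    rw [sum_conn G s (gc G) (hz G), sum_conn H s (gc H) (hz H)] at key
    have hne : ∀ t ∈ range (Fintype.card V + 1), t ≠ s →
        ∑ D ∈ (powersetCard t (univ : Finset V)).filter
          (fun D : Finset V => ∃ c : G.ConnectedComponent, c.supp = (D : Set V)),
          ∑ S ∈ powersetCard s D, gc G S =
        ∑ D ∈ (powersetCard t (univ : Finset V)).filter
          (fun D : Finset V => ∃ c : H.ConnectedComponent, c.supp = (D : Set V)),
          ∑ S ∈ powersetCard s D, gc H S := by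
      intro t _ hts
      rcases lt_or_gt_of_ne hts with hlt | hgt
      · have hzz : ∀ K : SimpleGraph V, ∀ D ∈ (powersetCard t (univ : Finset V)).filter
            (fun D : Finset V => ∃ c : K.ConnectedComponent, c.supp = (D : Set V)),
            ∑ S ∈ powersetCard s D, gc K S = 0 := by
          intro K D hD
          rw [mem_filter, mem_powersetCard] at hD
          rw [Finset.powersetCard_eq_empty.mpr (by omega), Finset.sum_empty]
        rw [Finset.sum_eq_zero (hzz G), Finset.sum_eq_zero (hzz H)]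
      · exact ih t (by omega) g' hg'
    have hself : ∀ K : SimpleGraph V,
        ∑ D ∈ (powersetCard s (univ : Finset V)).filter
          (fun D : Finset V => ∃ c : K.ConnectedComponent, c.supp = (D : Set V)),
          ∑ S ∈ powersetCard s D, gc K S =
        ∑ D ∈ (powersetCard s (univ : Finset V)).filter
          (fun D : Finset V => ∃ c : K.ConnectedComponent, c.supp = (D : Set V)), g K D := by
      intro K
      refine Finset.sum_congr rfl (fun D hD => ?_)
      rw [mem_filter, mem_powersetCard] at hD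
      obtain ⟨⟨_, hDc⟩, c, hc⟩ := hD
      rw [← hDc, Finset.powersetCard_self, Finset.sum_singleton]
      have h4 : (K.induce (D : Set V)).Connected := by
        rw [← hc]; exact c.connected_toSimpleGraph
      exact if_pos h4
    have hsm : s ∈ range (Fintype.card V + 1) := mem_range.mpr (by omega)
    rw [← Finset.add_sum_erase _ _ hsm, ← Finset.add_sum_erase _ _ hsm, hself G, hself H,
      Finset.sum_congr rfl (fun t ht => hne t (mem_of_mem_erase ht) (ne_of_mem_erase ht))] at key
    exact Nat.add_right_cancel key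

end DSC1_

theorem p_DSC1 (h1 : T_KEL) : T_DSC1 := by
  intro V _ G H ψ g hyp _ hG hH hg s
  exact DSC1_.main h1 G H ψ hyp hG hH (Fintype.card V) s (by omega) g hg

end Pool.Agent.Pend
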