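import Pool.Agent.Pend.Targets

set_option autoImplicit false

/-!
# DSC2: graphs with the same components are isomorphic
-/

namespace Pool.Agent.Pend

open Finset Classical

namespace DSC2_

private lemma is_refl {V : Type} (G : SimpleGraph V) (A : Finset V) : Is G A G A :=
  ⟨SimpleGraph.Iso.refl⟩

private lemma is_symm {V W : Type} {G : SimpleGraph V} {A : Finset V} {H : SimpleGraph W}
    {B : Finset W} (h : Is G A H B) : Is H B G A := by
  obtain ⟨f⟩ := h
  exact ⟨f.symm⟩

private lemma is_trans {V W U : Type} {G : SimpleGraph V} {A : Finset V} {H : SimpleGraph W}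
    {B : Finset W} {K : SimpleGraph U} {C : Finset U} (h : Is G A H B) (h' : Is H B K C) :
    Is G A K C := by
  obtain ⟨f⟩ := h
  obtain ⟨g⟩ := h'
  exact ⟨f.trans g⟩

private lemma is_card {V W : Type} {G : SimpleGraph V} {A : Finset V} {H : SimpleGraph W}
    {B : Finset W} (h : Is G A H B) : A.card = B.card := by
  obtain ⟨f⟩ := h
  have e : A ≃ B := f.toEquiv
  have := Fintype.card_congr e
  simpa using this

private def st (V : Type) : Setoid (SimpleGraph V × Finset V) where
  r p q := Is p.1 p.2 q.1 q.2
  iseqv := ⟨fun p => is_refl p.1 p.2, fun h => is_symm h, fun h h' => is_trans h h'⟩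

private noncomputable def sf {V : Type} [Fintype V] (G : SimpleGraph V)
    (c : G.ConnectedComponent) : Finset V := univ.filter (fun v => v ∈ c.supp)

private lemma sf_coe {V : Type} [Fintype V] (G : SimpleGraph V)
    (c : G.ConnectedComponent) : ((sf G c : Finset V) : Set V) = c.supp := by
  ext v
  simp [sf]

private lemma mem_sf {V : Type} [Fintype V] (G : SimpleGraph V)
    (c : G.ConnectedComponent) (v : V) : v ∈ sf G c ↔ G.connectedComponentMk v = c := by
  simp [sf, SimpleGraph.ConnectedComponent.mem_supp_iff]

private lemma sf_inj {V : Type} [Fintype V] (G : SimpleGraph V) : Function.Injective (sf G) := by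
  intro c d h
  apply SimpleGraph.ConnectedComponent.supp_injective
  rw [← sf_coe, ← sf_coe, h]

private noncomputable def cl {V : Type} [Fintype V] (G : SimpleGraph V)
    (c : G.ConnectedComponent) : Quotient (st V) := Quotient.mk (st V) (G, sf G c)

private lemma count {V : Type} [Fintype V] (G G0 : SimpleGraph V) (S0 : Finset V) :
    ∑ S ∈ (powersetCard S0.card (univ : Finset V)).filter (fun S : Finset V =>
      ∃ c : G.ConnectedComponent, c.supp = (S : Set V)), (if Is G S G0 S0 then 1 else 0) =
    Fintype.card {c : G.ConnectedComponent // cl G c = Quotient.mk (st V) (G0, S0)} := by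
  rw [← Finset.sum_filter, Finset.sum_const, smul_eq_mul, mul_one, Fintype.card_subtype]
  symm
  apply Finset.card_bij (fun c _ => sf G c)
  · intro c hc
    rw [mem_filter] at hc
    have hI : Is G (sf G c) G0 S0 := Quotient.exact (s := st V) hc.2
    simp only [mem_filter, mem_powersetCard, subset_univ, true_and]
    exact ⟨⟨is_card hI, c, (sf_coe G c).symm⟩, hI⟩
  · intro c _ d _ h
    exact sf_inj G h
  · intro S hS
    simp only [mem_filter, mem_powersetCard, subset_univ, true_and] at hS
    obtain ⟨⟨_, c, hc⟩, hI⟩ := hS
    have hSc : sf G c = S := by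
      apply Finset.coe_injective
      rw [sf_coe, hc]
    refine ⟨c, ?_, hSc⟩
    rw [mem_filter]
    refine ⟨mem_univ _, ?_⟩
    apply Quotient.sound (s := st V)
    show Is G (sf G c) G0 S0
    rw [hSc]
    exact hI

private lemma glue {V : Type} [Fintype V] (G H : SimpleGraph V)
    (e : G.ConnectedComponent ≃ H.ConnectedComponent)
    (φ : ∀ c : G.ConnectedComponent,
      G.induce ((sf G c : Finset V) : Set V) ≃g H.induce ((sf H (e c) : Finset V) : Set V)) :
    Nonempty (G ≃g H) := by
  let F : V → V := fun v => (φ (G.connectedComponentMk v)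
    ⟨v, by simp only [Finset.mem_coe]; exact (mem_sf G _ v).mpr rfl⟩ : V)
  have hF : ∀ (c : G.ConnectedComponent) (v : V) (hv : v ∈ ((sf G c : Finset V) : Set V)),
      F v = (φ c ⟨v, hv⟩ : V) := by
    intro c v hv
    have h : G.connectedComponentMk v = c := (mem_sf G c v).mp (by simpa using hv)
    subst h
    rfl
  have hin : ∀ (c : G.ConnectedComponent) (v : V), G.connectedComponentMk v = c →
      v ∈ ((sf G c : Finset V) : Set V) := by
    intro c v h
    simp only [Finset.mem_coe]
    exact (mem_sf G c v).mpr h
  have hFc : ∀ v : V, H.connectedComponentMk (F v) = e (G.connectedComponentMk v) := by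
    intro v
    rw [hF _ v (hin _ v rfl)]
    have := (φ (G.connectedComponentMk v) ⟨v, hin _ v rfl⟩).2
    simp only [Finset.mem_coe] at this
    exact (mem_sf H _ _).mp this
  have hinj : Function.Injective F := by
    intro v w h
    have h1 : G.connectedComponentMk v = G.connectedComponentMk w := by
      apply e.injective
      rw [← hFc v, ← hFc w, h]
    rw [hF _ v (hin _ v h1), hF _ w (hin _ w rfl)] at h
    have h2 := (φ (G.connectedComponentMk w)).injective (Subtype.ext h)
    exact congrArg Subtype.val h2
  have hadj : ∀ v w : V, H.Adj (F v) (F w) ↔ G.Adj v w := by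
    intro v w
    by_cases h1 : G.connectedComponentMk v = G.connectedComponentMk w
    · rw [hF _ v (hin _ v h1), hF _ w (hin _ w rfl)]
      have := (φ (G.connectedComponentMk w)).map_rel_iff (a := ⟨v, hin _ v h1⟩)
        (b := ⟨w, hin _ w rfl⟩)
      simpa using this
    · constructor
      · intro h
        exfalso
        apply h1
        apply e.injective
        rw [← hFc v, ← hFc w]
        exact SimpleGraph.ConnectedComponent.connectedComponentMk_eq_of_adj h
      · intro h
        exact absurd (SimpleGraph.ConnectedComponent.connectedComponentMk_eq_of_adj h) h1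
  exact ⟨⟨Equiv.ofBijective F (Finite.injective_iff_bijective.mp hinj), fun {v w} => hadj v w⟩⟩

end DSC2_

open DSC2_ in
theorem p_DSC2 : T_DSC2 := by
  intro V _ G H h
  have hcard : ∀ q : Quotient (st V),
      Fintype.card {c : G.ConnectedComponent // cl G c = q} =
      Fintype.card {c : H.ConnectedComponent // cl H c = q} := by
    intro q
    obtain ⟨⟨G0, S0⟩, rfl⟩ := Quotient.exists_rep q
    rw [← count G G0 S0, ← count H G0 S0]
    refine h (fun G' S' => if Is G' S' G0 S0 then 1 else 0) ?_ S0.card
    intro G1 G2 S1 S2 hI
    have : Is G1 S1 G0 S0 ↔ Is G2 S2 G0 S0 :=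
      ⟨fun h' => is_trans (is_symm hI) h', fun h' => is_trans hI h'⟩
    simp only [this]
  let e : G.ConnectedComponent ≃ H.ConnectedComponent :=
    (Equiv.sigmaFiberEquiv (cl G)).symm.trans
      ((Equiv.sigmaCongrRight fun q => Fintype.equivOfCardEq (hcard q)).trans
        (Equiv.sigmaFiberEquiv (cl H)))
  have he : ∀ c, cl H (e c) = cl G c := by
    intro c
    exact ((Fintype.equivOfCardEq (hcard (cl G c))) ⟨c, rfl⟩).2
  have hφ : ∀ c : G.ConnectedComponent,
      Nonempty (G.induce ((sf G c : Finset V) : Set V) ≃g
        H.induce ((sf H (e c) : Finset V) : Set V)) := by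
    intro c
    have : Is G (sf G c) H (sf H (e c)) := Quotient.exact (s := st V) (he c).symm
    exact this
  exact glue G H e fun c => (hφ c).some

end Pool.Agent.Pend
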