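import Pool.Agent.Pend.Targets

/-! DSC3: connectedness is reconstructible. -/

set_option autoImplicit false

namespace Pool.Agent.Pend

open Finset Classical

/-- DSC3 -/
theorem p_DSC3 (h1 : T_DEG) : T_DSC3 := by
  intro V _ G H ψ hyp h3 hG hH
  have hnt : Nontrivial V := Fintype.one_lt_card_iff_nontrivial.1 (by omega)
  obtain ⟨v, hv⟩ := hH.exists_connected_induce_compl_singleton_of_finite_nontrivial
  have hiso : G.induce ({v}ᶜ : Set V) ≃g H.induce ({v}ᶜ : Set V) := by
    refine ⟨(ψ v).subtypeEquiv fun a => ?_, ?_⟩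
    · show ¬ (a = v) ↔ ¬ (ψ v a = v)
      have h2 : ψ v a = v ↔ a = v := by
        constructor
        · intro h
          apply (ψ v).injective
          rw [h, hyp.fix v]
        · intro h
          rw [h, hyp.fix v]
      rw [h2]
    · intro a b
      have ha : (a : V) ≠ v := a.2
      have hb : (b : V) ≠ v := b.2
      exact (hyp.adj v a b ha hb).symm
  have hGv : (G.induce ({v}ᶜ : Set V)).Connected := hiso.connected_iff.2 hv
  have hno : ∀ u, ¬ G.Adj v u := by
    intro u hu
    apply hG
    rw [SimpleGraph.connected_iff_exists_forall_reachable]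
    refine ⟨v, fun w => ?_⟩
    by_cases hw : w = v
    · rw [hw]
    · have hu' : u ∈ ({v}ᶜ : Set V) := hu.ne'
      have hw' : w ∈ ({v}ᶜ : Set V) := hw
      have h2 := hGv.preconnected ⟨u, hu'⟩ ⟨w, hw'⟩
      exact hu.reachable.trans (h2.map (SimpleGraph.Embedding.induce ({v}ᶜ : Set V)).toHom)
  have h4 := h1 V G H ψ v hyp h3
  have h5 : (univ.filter (fun w => G.Adj v w)).card = 0 := by
    rw [card_eq_zero, filter_eq_empty_iff]
    intro w _
    exact hno w
  rw [h5] at h4
  have h6 := card_eq_zero.1 h4.symm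
  rw [filter_eq_empty_iff] at h6
  obtain ⟨w, hw⟩ := exists_ne v
  obtain ⟨p⟩ := hH.preconnected v w
  cases p with
  | nil => exact hw rfl
  | cons h p => exact h6 (mem_univ _) h

end Pool.Agent.Pend
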