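import Pool.Agent.Pend.Targets

/-! EXI: few members have no good pendant set. -/

set_option autoImplicit false

namespace Pool.Agent.Pend

open Finset Classical

namespace EXI_

variable {V : Type}

theorem cat_of_rs {G : SimpleGraph V} {k : ℕ} {W : Finset V} {r : V}
    (h : Cat k (rs G W) W r) : Cat k G W r := by
  obtain ⟨hc, s, hs, hsW, h1, hadj, hl⟩ := h
  have hrs : ∀ a ∈ W, ∀ b ∈ W, ((rs G W).Adj a b ↔ G.Adj a b) := fun a ha b hb =>
    ⟨fun h => h.1, fun h => ⟨h, ha, hb⟩⟩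
  refine ⟨hc, s, hs, hsW, h1, fun i j => ?_, fun w hw hne => ?_⟩
  · rw [← hrs _ (hsW i) _ (hsW j)]
    exact hadj i j
  · obtain ⟨i, hi⟩ := hl w hw hne
    refine ⟨i, fun u hu => ?_⟩
    rw [← hrs w hw u hu]
    exact hi u hu

theorem pnd_of [Fintype V] {G : SimpleGraph V} {W : Finset V} {r x : V}
    (h : PndS G univ W r x) : Pnd G W r x :=
  ⟨h.2.1, h.2.2.2.1, fun a ha b hb => h.2.2.2.2 a ha b (mem_univ b) hb⟩

/-- no good pendant set -/
def NoGd (k : ℕ) (_ : V) (K : SimpleGraph V) : Prop := ∀ W', ¬ Gd k K W'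

/-- the count for an arbitrary vertex set -/
theorem core (h1 : T_GLS) (h2 : T_CARDS) (h3 : T_EXU) (h4 : T_CARDF) (h5 : T_CARDN)
    (h6 : T_CATTREE) (C : (V : Type) → SimpleGraph V → Prop) (hC : LeafStable C)
    (V : Type) [Fintype V] (n k m : ℕ) (hm : m = 2 * (k + 3)) (hV : Fintype.card V = n + m)
    (hn : m < n) :
    ((cc C (Fin n)).filter (fun K => ∀ W, ¬ Gd k K W)).card *
      ((n + m).choose m * n * FF k) ≤ (cc C V).card := by
  set N : ℕ := ((cc C (Fin n)).filter (fun K => ∀ W, ¬ Gd k K W)).card with hN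
  set E : (Σ _ : Finset V, SimpleGraph V × V) → Finset (SimpleGraph V) := fun p =>
    (cS C (univ : Finset V)).filter (fun G => rs G p.1 = p.2.1 ∧
      ∃ x, PndS G univ p.1 p.2.2 x ∧ NoGd k x (rs G (univ \ p.1))) with hE
  set I : Finset (Σ _ : Finset V, SimpleGraph V × V) :=
    (powersetCard m (univ : Finset V)).sigma (fun W => FS k W) with hI
  have hIm : ∀ p ∈ I, p.1.card = m ∧ (∀ a b, p.2.1.Adj a b → a ∈ p.1 ∧ b ∈ p.1) ∧
      Cat k p.2.1 p.1 p.2.2 := by
    intro p hp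
    obtain ⟨h7, h8⟩ := mem_sigma.1 hp
    obtain ⟨_, h9, h10⟩ := mem_filter.1 h8
    exact ⟨(mem_powersetCard.1 h7).2, h9, h10⟩
  have hroot : ∀ {G : SimpleGraph V} {W : Finset V} {r : V}, Cat k G W r → r ∈ W := by
    rintro G W r ⟨_, s, _, hsW, h7, _⟩
    rw [← h7]
    exact hsW 1
  have hcard : ∀ p ∈ I, (E p).card = n * N := by
    intro p hp
    obtain ⟨h7, h8, h9⟩ := hIm p hp
    have h10 := h1 C hC V univ p.1 p.2.1 p.2.2 (NoGd k)
      (subset_univ _) (hroot h9) h8 (h6 _ k _ _ _ h9)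
    have h11 : (univ \ p.1 : Finset V).card = n := by
      rw [card_sdiff_of_subset (subset_univ _), card_univ, hV, h7]
      omega
    have h12 := h5 C hC.iso V k (univ \ p.1)
    rw [h11] at h12
    have h13 : (E p).card = ∑ x ∈ univ \ p.1,
        ((cS C (univ \ p.1)).filter (fun K => NoGd k x K)).card := h10
    have h14 : ∀ x : V, (cS C (univ \ p.1)).filter (fun K => NoGd k x K) =
        (cS C (univ \ p.1)).filter (fun K => ∀ W, ¬ Gd k K W) := by
      intro x
      ext K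
      rw [mem_filter, mem_filter]
      exact Iff.rfl
    rw [h13, sum_congr rfl fun x _ => congrArg card (h14 x), sum_const, h11, smul_eq_mul, h12]
  have hdis : ∀ p ∈ I, ∀ p' ∈ I, p ≠ p' → Disjoint (E p) (E p') := by
    intro p hp p' hp' hne
    rw [disjoint_left]
    intro G hG hG'
    apply hne
    obtain ⟨hGc, h7, x, h8, h9⟩ := mem_filter.1 hG
    obtain ⟨_, h7', x', h8', h9'⟩ := mem_filter.1 hG'
    obtain ⟨hc, hs, hcat⟩ := hIm p hp
    obtain ⟨hc', hs', hcat'⟩ := hIm p' hp'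
    rw [← h7] at hcat
    rw [← h7'] at hcat'
    have hcG := cat_of_rs hcat
    have hcG' := cat_of_rs hcat'
    rw [(h2 C hC.iso V).2.1] at hGc
    have hconn : G.Connected := (mem_filter.1 hGc).2.1
    have hW : p'.1 = p.1 := by
      by_contra hW
      have h10 := (h3 V k G p.1 p'.1 p.2.2 x hconn (pnd_of h8) (by rw [hc, hm])
        (by rw [hV]; omega) ⟨p'.2.2, x', pnd_of h8', hcG'⟩ hW).2
      rw [compl_eq_univ_sdiff] at h10
      exact h9 _ h10
    have hT : p.2.1 = p'.2.1 := by rw [← h7, ← h7', hW]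
    have hr : p.2.2 = p'.2.2 := by
      have h10 := pnd_of h8
      have h11 := pnd_of h8'
      have h12 : G.Adj p.2.2 x := (h10.2.2 _ h10.1 _ h10.2.1).2 ⟨rfl, rfl⟩
      rw [hW] at h11
      exact ((h11.2.2 _ h10.1 _ h10.2.1).1 h12).1
    obtain ⟨W, T, r⟩ := p
    obtain ⟨W', T', r'⟩ := p'
    have e1 : W' = W := hW
    have e2 : T = T' := hT
    have e3 : r = r' := hr
    rw [e1, e2, e3]
  have hsub : I.biUnion E ⊆ cc C V := by
    intro G hG
    obtain ⟨p, _, hp⟩ := mem_biUnion.1 hG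
    have h7 := (mem_filter.1 hp).1
    rwa [(h2 C hC.iso V).2.1] at h7
  have h7 := card_le_card hsub
  rw [card_biUnion hdis, sum_congr rfl hcard, sum_const, smul_eq_mul] at h7
  have h8 : I.card = (n + m).choose m * FF k := by
    rw [hI, card_sigma]
    have h9 : ∀ W ∈ powersetCard m (univ : Finset V), (FS k W).card = FF k :=
      fun W hW => h4 _ k W ((mem_powersetCard.1 hW).2.trans hm)
    rw [sum_congr rfl h9, sum_const, card_powersetCard, card_univ, hV, smul_eq_mul]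
  rw [h8] at h7
  calc N * ((n + m).choose m * n * FF k) = (n + m).choose m * FF k * (n * N) := by ring
    _ ≤ (cc C V).card := h7

end EXI_

open EXI_ in
/-- EXI -/
theorem p_EXI (h1 : T_GLS) (h2 : T_CARDS) (h3 : T_EXU) (h4 : T_CARDF) (h5 : T_CARDN)
    (h6 : T_CATTREE) : T_EXI := by
  intro C hC n k hn
  exact core h1 h2 h3 h4 h5 h6 C hC (Fin (n + 2 * (k + 3))) n k (2 * (k + 3)) rfl
    (Fintype.card_fin _) hn

end Pool.Agent.Pend
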