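import Pool.Agent.Pend.Targets

/-! EXU: an attached good pendant set is unique. -/

set_option autoImplicit false

namespace Pool.Agent.Pend

open Finset Classical

namespace EXU_

variable {V : Type}

theorem closed {G : SimpleGraph V} {S : Set V} (h : ∀ a ∈ S, ∀ b, G.Adj a b → b ∈ S) {u v : V}
    (p : G.Walk u v) : u ∈ S → v ∈ S := by
  induction p with
  | nil => exact fun hu => hu
  | cons hadj _ ih => exact fun hu => ih (h _ hu _ hadj)

theorem cat_rs {G : SimpleGraph V} {k : ℕ} {W' S : Finset V} {r : V} (hS : W' ⊆ S)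
    (h : Cat k G W' r) : Cat k (rs G S) W' r := by
  obtain ⟨hc, s, hs, hsW, h1, hadj, hl⟩ := h
  have hrs : ∀ a ∈ W', ∀ b ∈ W', ((rs G S).Adj a b ↔ G.Adj a b) := fun a ha b hb =>
    ⟨fun h => h.1, fun h => ⟨h, hS ha, hS hb⟩⟩
  refine ⟨hc, s, hs, hsW, h1, fun i j => ?_, fun w hw hne => ?_⟩
  · rw [hrs _ (hsW i) _ (hsW j)]
    exact hadj i j
  · obtain ⟨i, hi⟩ := hl w hw hne
    refine ⟨i, fun u hu => ?_⟩
    rw [hrs w hw u hu]
    exact hi u hu

end EXU_

/-- EXU -/
theorem p_EXU (h1 : T_LAM) : T_EXU := by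
  intro V _ k G W W' r x hconn hP hW hV hGd hne
  obtain ⟨r', x', hP', hC'⟩ := hGd
  have hW' : W'.card = 2 * (k + 3) := hC'.1
  have hnu : W ∪ W' ≠ univ := by
    intro h
    have h2 := card_union_le W W'
    rw [h, card_univ] at h2
    omega
  have hdis : Disjoint W W' := by
    rcases h1 V G W W' r x r' x' hconn hP hP' with h | h | h | h
    · exact h
    · exact absurd (eq_of_subset_of_card_le h (by omega)).symm hne
    · exact absurd (eq_of_subset_of_card_le h (by omega)) hne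
    · exact absurd h hnu
  refine ⟨hdis, ?_⟩
  have hWW : ∀ a ∈ W', a ∉ W := fun a ha h => disjoint_left.1 hdis h ha
  obtain ⟨hr, hx, hadj⟩ := hP
  obtain ⟨hr', hx', hadj'⟩ := hP'
  have hrx' : G.Adj r' x' := (hadj' r' hr' x' hx').2 ⟨rfl, rfl⟩
  have hx'W : x' ∉ W := by
    intro hxW
    obtain ⟨h2, h3⟩ := (hadj x' hxW r' (hWW r' hr')).1 hrx'.symm
    apply hnu
    have hcl : ∀ a ∈ ((W ∪ W' : Finset V) : Set V), ∀ b, G.Adj a b →
        b ∈ ((W ∪ W' : Finset V) : Set V) := by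
      intro a ha b hab
      by_contra hb
      have hb' : b ∉ W ∪ W' := hb
      rw [mem_union, not_or] at hb'
      rcases mem_union.1 (mem_coe.1 ha) with h4 | h4
      · obtain ⟨_, h5⟩ := (hadj a h4 b hb'.1).1 hab
        rw [h5, ← h3] at hb'
        exact hb'.2 hr'
      · obtain ⟨_, h5⟩ := (hadj' a h4 b hb'.2).1 hab
        rw [h5] at hb'
        exact hb'.1 hxW
    rw [eq_univ_iff_forall]
    intro v
    obtain ⟨p⟩ := hconn.preconnected r v
    exact EXU_.closed hcl p (mem_coe.2 (mem_union_left _ hr))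
  have hsub : W' ⊆ Wᶜ := fun a ha => mem_compl.2 (hWW a ha)
  refine ⟨r', x', ⟨hr', hx', fun a ha b hb => ?_⟩, EXU_.cat_rs hsub hC'⟩
  constructor
  · intro h
    exact (hadj' a ha b hb).1 h.1
  · intro h
    refine ⟨(hadj' a ha b hb).2 h, hsub ha, ?_⟩
    rw [h.2]
    exact mem_compl.2 hx'W

end Pool.Agent.Pend
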