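import Pool.Agent.Pend.Targets

set_option autoImplicit false

/-!
# FEWL: few members have few leaves
-/

namespace Pool.Agent.Pend

open Finset Classical

namespace FEWL_

private lemma lv_ncard {V : Type} [Fintype V] (G : SimpleGraph V) :
    lv G = Set.ncard {v | ∃ u, Lf G v u} := by
  unfold lv
  rw [← Set.ncard_coe_finset]
  congr 1
  ext v
  simp

private lemma lf_iso {V W : Type} {G : SimpleGraph V} {H : SimpleGraph W} (f : G ≃g H) (v u : V) :
    Lf H (f v) (f u) ↔ Lf G v u := by
  unfold Lf
  constructor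
  · intro h w
    have := h (f w)
    rw [f.map_adj_iff] at this
    rw [this]
    exact f.injective.eq_iff
  · intro h w
    obtain ⟨w, rfl⟩ := f.surjective w
    rw [f.map_adj_iff, h w]
    exact f.injective.eq_iff.symm

private lemma leaves_iso {V W : Type} {G : SimpleGraph V} {H : SimpleGraph W} (f : G ≃g H) :
    {v | ∃ u, Lf H v u} = f '' {v | ∃ u, Lf G v u} := by
  ext v
  simp only [Set.mem_ofPred_eq, Set.mem_image]
  constructor
  · rintro ⟨u, h⟩
    obtain ⟨v, rfl⟩ := f.surjective v
    obtain ⟨u, rfl⟩ := f.surjective u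
    exact ⟨v, ⟨u, (lf_iso f v u).mp h⟩, rfl⟩
  · rintro ⟨w, ⟨u, h⟩, rfl⟩
    exact ⟨f u, (lf_iso f w u).mpr h⟩

private lemma ncard_iso {V W : Type} {G : SimpleGraph V} {H : SimpleGraph W} (f : G ≃g H) :
    Set.ncard {v | ∃ u, Lf H v u} = Set.ncard {v | ∃ u, Lf G v u} := by
  rw [leaves_iso f]
  exact Set.ncard_image_of_injective _ f.injective

private lemma ncard_induce {V : Type} [Fintype V] (K : SimpleGraph V) (S : Finset V)
    (hK : ∀ a b, K.Adj a b → a ∈ S ∧ b ∈ S) :
    Set.ncard {v | ∃ u, Lf (K.induce (S : Set V)) v u} = lv K := by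
  rw [lv_ncard, ← Set.ncard_image_of_injective _ Subtype.val_injective]
  congr 1
  ext v
  simp only [Set.mem_image, Set.mem_ofPred_eq]
  constructor
  · rintro ⟨w, ⟨u, h⟩, rfl⟩
    refine ⟨u.1, fun z => ?_⟩
    constructor
    · intro hz
      have hzS := (hK _ _ hz).2
      have := (h ⟨z, by simpa using hzS⟩).mp (by simpa using hz)
      exact congrArg Subtype.val this
    · rintro rfl
      have := (h u).mpr rfl
      simpa using this
  · rintro ⟨u, h⟩
    have hvu : K.Adj v u := (h u).mpr rfl
    have hS := hK _ _ hvu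
    refine ⟨⟨v, by simpa using hS.1⟩, ⟨⟨u, by simpa using hS.2⟩, fun z => ?_⟩, rfl⟩
    rw [SimpleGraph.comap_adj]
    simp only [Function.Embedding.subtype_apply]
    rw [h z.1]
    constructor
    · intro hz
      exact Subtype.ext hz
    · intro hz
      rw [hz]

private def QQ (C : (V : Type) → SimpleGraph V → Prop) (t : ℕ) (V : Type) (G : SimpleGraph V) :
    Prop := (G.Connected ∧ C V G) ∧ Set.ncard {v | ∃ u, Lf G v u} ≤ t

private lemma QQ_iso (C : (V : Type) → SimpleGraph V → Prop) (hC : IsoInv C) (t : ℕ) :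
    IsoInv (QQ C t) := by
  intro V W G H ⟨f⟩ h
  refine ⟨⟨f.connected_iff.mp h.1.1, hC V W G H ⟨f⟩ h.1.2⟩, ?_⟩
  rw [ncard_iso f]
  exact h.2

private lemma transport (h3 : T_TR) (C : (V : Type) → SimpleGraph V → Prop) (hC : IsoInv C)
    (t n : ℕ) (V : Type) [Fintype V] (S : Finset V) (hS : S.card = n) :
    ((cS C S).filter (fun K => lv K ≤ t)).card =
      ((cc C (Fin n)).filter (fun G => lv G ≤ t)).card := by
  have h := h3 (QQ C t) (QQ_iso C hC t) V S
  subst hS
  have e1 : (cS C S).filter (fun K => lv K ≤ t) =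
      (univ : Finset (SimpleGraph V)).filter (fun K => (∀ a b, K.Adj a b → a ∈ S ∧ b ∈ S) ∧
        QQ C t (S : Set V) (K.induce (S : Set V))) := by
    ext K
    simp only [cS, mem_filter, mem_univ, true_and, QQ]
    constructor
    · rintro ⟨⟨a1, a2, a3⟩, a4⟩
      exact ⟨a1, ⟨a2, a3⟩, by rw [ncard_induce K S a1]; exact a4⟩
    · rintro ⟨a1, ⟨a2, a3⟩, a4⟩
      rw [ncard_induce K S a1] at a4
      exact ⟨⟨a1, a2, a3⟩, a4⟩
  have e2 : (cc C (Fin S.card)).filter (fun G => lv G ≤ t) =
      (univ : Finset (SimpleGraph (Fin S.card))).filter (fun K => QQ C t (Fin S.card) K) := by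
    ext K
    simp only [cc, mem_filter, mem_univ, true_and, QQ, lv_ncard]
  rw [e1, e2]
  exact h

private lemma pnds_iff {V : Type} [Fintype V] (G : SimpleGraph V) (v x : V) :
    PndS G univ {v} v x ↔ Lf G v x := by
  unfold PndS Lf
  constructor
  · rintro ⟨-, -, -, hx, h⟩ w
    by_cases hw : w = v
    · subst hw
      simp only [mem_singleton] at hx
      constructor
      · intro h'
        exact absurd h' G.irrefl
      · intro h'
        exact absurd h'.symm hx
    · rw [h v (mem_singleton_self v) w (mem_univ _) (by simpa using hw)]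
      simp
  · intro h
    refine ⟨subset_univ _, mem_singleton_self _, mem_univ _, ?_, ?_⟩
    · intro hx
      simp only [mem_singleton] at hx
      have := (h x).mpr rfl
      rw [hx] at this
      exact G.irrefl this
    · intro a ha b _ _
      simp only [mem_singleton] at ha
      subst ha
      rw [h b]
      simp

private lemma rs_single {V : Type} (G : SimpleGraph V) (v : V) : rs G {v} = ⊥ := by
  ext a b
  simp only [rs, mem_singleton, SimpleGraph.bot_adj, iff_false]
  rintro ⟨h, rfl, rfl⟩
  exact G.irrefl h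

private lemma bot_tree {V : Type} (v : V) :
    ((⊥ : SimpleGraph V).induce (({v} : Finset V) : Set V)).IsTree := by
  have : Subsingleton (({v} : Finset V) : Set V) := by
    rw [Finset.coe_singleton]
    infer_instance
  have hne : Nonempty (({v} : Finset V) : Set V) := ⟨⟨v, by simp⟩⟩
  refine ⟨⟨SimpleGraph.Preconnected.of_subsingleton⟩, ?_⟩
  intro a p hp
  have h3 := hp.three_le_length
  cases p with
  | nil => simp at h3
  | cons h p' => exact absurd h (by simp)

private lemma stay {V : Type} (G : SimpleGraph V) (v w : V) (h1 : Lf G v w) (h2 : Lf G w v)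
    (a z : V) (p : G.Walk a z) : (a = v ∨ a = w) → (z = v ∨ z = w) := by
  induction p with
  | nil => exact id
  | cons h p ih =>
    intro ha
    apply ih
    rcases ha with rfl | rfl
    · right
      exact (h1 _).mp h
    · left
      exact (h2 _).mp h

private lemma leaf_bound {V : Type} [Fintype V] (G : SimpleGraph V) (hG : G.Connected)
    (hV : 3 ≤ Fintype.card V) (v : V) (hv : ∃ u, Lf G v u) :
    lv G ≤ lv (rs G (univ \ {v})) + 1 := by
  unfold lv
  have hsub : univ.filter (fun w => ∃ u, Lf G w u) ⊆
      insert v (univ.filter (fun w => ∃ u, Lf (rs G (univ \ {v})) w u)) := by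
    intro w hw
    simp only [mem_filter, mem_univ, true_and, mem_insert] at hw ⊢
    by_cases hwv : w = v
    · exact Or.inl hwv
    right
    obtain ⟨u, hu⟩ := hw
    have huv : u ≠ v := by
      rintro rfl
      obtain ⟨x, hx⟩ := hv
      have hxw : w = x := (hx w).mp ((hu u).mpr rfl).symm
      subst hxw
      have hcard : ({u, w} : Finset V).card ≤ 2 := Finset.card_le_two
      obtain ⟨z, hz⟩ : ∃ z, z ∉ ({u, w} : Finset V) := by
        by_contra hcon
        push Not at hcon
        have : (univ : Finset V) ⊆ {u, w} := fun z _ => hcon z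
        have := Finset.card_le_card this
        rw [Finset.card_univ] at this
        omega
      obtain ⟨p⟩ := hG.preconnected u z
      have := stay G u w hx hu u z p (Or.inl rfl)
      simp only [mem_insert, mem_singleton, not_or] at hz
      tauto
    refine ⟨u, fun b => ?_⟩
    show (G.Adj w b ∧ w ∈ univ \ {v} ∧ b ∈ univ \ {v}) ↔ b = u
    constructor
    · rintro ⟨h, -, -⟩
      exact (hu b).mp h
    · rintro rfl
      exact ⟨(hu b).mpr rfl, by simp [hwv], by simp [huv]⟩
  calc _ ≤ _ := Finset.card_le_card hsub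
    _ ≤ _ := Finset.card_insert_le _ _

private lemma card_eq' {α : Type} (s t : Finset α) (h : ∀ x, x ∈ s ↔ x ∈ t) :
    s.card = t.card := by
  rw [Finset.ext h]

private lemma main (h1 : T_GLS) (h2 : T_CARDS) (h3 : T_TR)
    (C : (V : Type) → SimpleGraph V → Prop) (hC : LeafStable C) (n t : ℕ) (hn : 2 ≤ n)
    (V : Type) [Fintype V] (hV : Fintype.card V = n + 1) :
    ((cc C (Fin n)).filter (fun G => lv G ≤ t)).card * ((n + 1) * n) ≤
    (t + 1) * (cc C V).card := by
  set N := ((cc C (Fin n)).filter (fun G => lv G ≤ t)).card with hN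
  have hcS : cS C (univ : Finset V) = cc C V := (h2 C hC.iso V).2.1
  -- for a fixed vertex
  have hv : ∀ v : V, ((cc C V).filter
      (fun G => (∃ u, Lf G v u) ∧ lv (rs G (univ \ {v})) ≤ t)).card = n * N := by
    intro v
    have h := h1 C hC V univ {v} ⊥ v (fun _ K => lv K ≤ t) (subset_univ _)
      (mem_singleton_self v) (fun a b hab => absurd hab (by simp)) (bot_tree v)
    have hcard : (univ \ {v} : Finset V).card = n := by
      rw [Finset.card_sdiff_of_subset (subset_univ _), Finset.card_univ, hV]
      simp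
    have h4 : ∑ x ∈ (univ \ {v} : Finset V),
        ((cS C (univ \ {v})).filter (fun K => lv K ≤ t)).card = n * N := by
      rw [transport h3 C hC.iso t n V (univ \ {v}) hcard, sum_const, hcard, smul_eq_mul, ← hN]
    have h5 : ∑ x ∈ (univ \ {v} : Finset V),
        ((cS C (univ \ {v})).filter (fun K => lv K ≤ t)).card =
        ((cS C univ).filter (fun G => rs G {v} = ⊥ ∧
          ∃ x, PndS G univ {v} v x ∧ lv (rs G (univ \ {v})) ≤ t)).card := by
      refine (sum_congr rfl (fun x _ => card_eq' _ _ ?_)).trans (h.symm.trans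
        (card_eq' _ _ ?_))
      · intro K
        simp only [mem_filter]
      · intro K
        simp only [mem_filter]
    rw [← h4, h5, hcS]
    congr 1
    ext G
    simp only [mem_filter, rs_single, true_and, pnds_iff]
    constructor
    · rintro ⟨a, ⟨u, hu⟩, b⟩
      exact ⟨a, u, hu, b⟩
    · rintro ⟨a, u, hu, b⟩
      exact ⟨a, ⟨u, hu⟩, b⟩
  have hsum : ∑ v : V, ((cc C V).filter
      (fun G => (∃ u, Lf G v u) ∧ lv (rs G (univ \ {v})) ≤ t)).card = (n + 1) * (n * N) := by
    rw [sum_congr rfl fun v _ => hv v, sum_const, Finset.card_univ, hV, smul_eq_mul]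
  have hswap : ∑ v : V, ((cc C V).filter
      (fun G => (∃ u, Lf G v u) ∧ lv (rs G (univ \ {v})) ≤ t)).card =
      ∑ G ∈ cc C V, ((univ : Finset V).filter
        (fun v => (∃ u, Lf G v u) ∧ lv (rs G (univ \ {v})) ≤ t)).card := by
    simp only [Finset.card_filter]
    exact sum_comm
  have hbound : ∑ G ∈ cc C V, ((univ : Finset V).filter
        (fun v => (∃ u, Lf G v u) ∧ lv (rs G (univ \ {v})) ≤ t)).card ≤
      ∑ G ∈ cc C V, (t + 1) := by
    apply sum_le_sum
    intro G hG
    have hGc : G.Connected := by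
      simp only [cc, mem_filter, mem_univ, true_and] at hG
      exact hG.1
    by_cases hex : ∃ v : V, (∃ u, Lf G v u) ∧ lv (rs G (univ \ {v})) ≤ t
    · obtain ⟨v, hvl, hvt⟩ := hex
      have hb := leaf_bound G hGc (by rw [hV]; omega) v hvl
      calc _ ≤ lv G := by
            unfold lv
            apply Finset.card_le_card
            intro w hw
            simp only [mem_filter, mem_univ, true_and] at hw ⊢
            exact hw.1
        _ ≤ t + 1 := by omega
    · rw [Finset.filter_eq_empty_iff.mpr]
      · simp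
      · intro v _ hcon
        exact hex ⟨v, hcon⟩
  rw [sum_const, smul_eq_mul] at hbound
  rw [← hswap, hsum] at hbound
  calc N * ((n + 1) * n) = (n + 1) * (n * N) := by ring
    _ ≤ (cc C V).card * (t + 1) := hbound
    _ = (t + 1) * (cc C V).card := by ring

end FEWL_

theorem p_FEWL (h1 : T_GLS) (h2 : T_CARDS) (h3 : T_TR) : T_FEWL := by
  intro C hC n t hn
  exact FEWL_.main h1 h2 h3 C hC n t hn (Fin (n + 1)) (Fintype.card_fin _)

end Pool.Agent.Pend
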