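import Pool.Agent.Pend.FUP

/-!
FLO: lower bound for the number of caterpillars (project Pend, MP_552896_co).
-/

set_option autoImplicit false

namespace Pool.Agent.Pend

open Finset Classical

namespace FLO_

open FUP_

theorem in_range {k : ℕ} {p p' : Cd k} (h : mk p = mk p') (h0 : p.1 0 = p'.1 0)
    (hl : p.1 (Fin.last (k + 2)) = p'.1 (Fin.last (k + 2))) (i : Fin (k + 3)) :
    p'.1 i ∈ Set.range p.1 := by
  by_cases hi0 : i.val = 0
  · have : i = 0 := Fin.ext hi0
    rw [this, ← h0]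
    exact ⟨0, rfl⟩
  by_cases hil : i.val = k + 2
  · have : i = Fin.last (k + 2) := Fin.ext hil
    rw [this, ← hl]
    exact ⟨_, rfl⟩
  by_contra hn
  have h1 : (mk p).Adj (p'.1 i) (p'.1 ⟨i.val - 1, by omega⟩) := by
    rw [h]
    exact (mk_ss p' _ _).2 (Or.inr (by simp; omega))
  have h2 : (mk p).Adj (p'.1 i) (p'.1 ⟨i.val + 1, by omega⟩) := by
    rw [h]
    exact (mk_ss p' _ _).2 (Or.inl rfl)
  rw [mk_out p _ _ hn] at h1 h2
  have := p'.1.injective (h1.trans h2.symm)
  rw [Fin.mk.injEq] at this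
  omega

theorem spine_eq {k : ℕ} {p p' : Cd k} (h : mk p = mk p') (h0 : p.1 0 = p'.1 0)
    (h1 : p.1 1 = p'.1 1)
    (hl : p.1 (Fin.last (k + 2)) = p'.1 (Fin.last (k + 2))) :
    ∀ n (hn : n < k + 3), p.1 ⟨n, hn⟩ = p'.1 ⟨n, hn⟩ := by
  intro n
  induction n using Nat.strong_induction_on with
  | _ n ih =>
    intro hn
    match n, ih, hn with
    | 0, _, _ => exact h0
    | 1, _, _ =>
      have : (⟨1, by omega⟩ : Fin (k + 3)) = 1 := Fin.ext (by simp)
      rw [this]
      exact h1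
    | m + 2, ih, hn =>
      obtain ⟨j, hj⟩ := in_range h h0 hl ⟨m + 2, hn⟩
      have hadj : (mk p).Adj (p.1 ⟨m + 1, by omega⟩) (p.1 j) := by
        rw [hj, h, ih (m + 1) (by omega) (by omega)]
        exact (mk_ss p' _ _).2 (Or.inl rfl)
      rw [mk_ss] at hadj
      rcases hadj with hadj | hadj
      · have : j = ⟨m + 2, hn⟩ := Fin.ext (by simp at hadj ⊢; omega)
        rw [← hj, this]
      · have hjm : j = ⟨m, by omega⟩ := Fin.ext (by simp at hadj ⊢; omega)
        rw [hjm, ih m (by omega) (by omega)] at hj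
        have := p'.1.injective hj
        rw [Fin.mk.injEq] at this
        omega

theorem inj (k : ℕ) : Function.Injective (fun p : Cd k =>
    ((mk p, p.1 1), (p.1 0, p.1 (Fin.last (k + 2))))) := by
  intro p p' hpp
  simp only [Prod.mk.injEq] at hpp
  obtain ⟨⟨h, h1⟩, h0, hl⟩ := hpp
  have hs := spine_eq h h0 h1 hl
  obtain ⟨s, f⟩ := p
  obtain ⟨s', f'⟩ := p'
  have : s = s' := by
    ext i
    exact congrArg Fin.val (hs i.val i.isLt)
  subst this
  have hf : f = f' := by
    funext w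
    have ha : (mk ⟨s, f⟩).Adj w.1 (s (f w)) := (mk_out ⟨s, f⟩ w.1 _ w.2).2 rfl
    rw [h] at ha
    exact s.injective ((mk_out ⟨s, f'⟩ w.1 _ w.2).1 ha)
  rw [hf]

end FLO_

open FUP_ FLO_ in
theorem p_FLO : T_FLO := by
  intro k
  rw [← card_Cd]
  have : Fintype.card (Cd k) ≤ FF k * (2 * (k + 3)) ^ 2 := by
    calc Fintype.card (Cd k) = ((univ : Finset (Cd k)).image (fun p : Cd k =>
          ((mk p, p.1 1), (p.1 0, p.1 (Fin.last (k + 2)))))).card := by
          rw [card_image_of_injective _ (inj k)]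
          rfl
      _ ≤ (FS k (univ : Finset (UU k)) ×ˢ ((univ : Finset (UU k)) ×ˢ univ)).card := by
          refine card_le_card ?_
          intro q hq
          obtain ⟨p, _, rfl⟩ := mem_image.1 hq
          exact mem_product.2 ⟨mk_mem p, mem_product.2 ⟨mem_univ _, mem_univ _⟩⟩
      _ = FF k * (2 * (k + 3)) ^ 2 := by
          rw [card_product, card_product, card_univ, Fintype.card_fin, FF, sq]
  calc Fintype.card (Cd k) * (k + 3).factorial
      ≤ FF k * (2 * (k + 3)) ^ 2 * (k + 3).factorial := Nat.mul_le_mul_right _ this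
    _ = FF k * (k + 3).factorial * (2 * (k + 3)) ^ 2 := by ring

end Pool.Agent.Pend
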