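import Pool.Agent.Pend.Targets

/-!
FUP: upper bound for the number of caterpillars (project Pend, MP_552896_co).
-/

set_option autoImplicit false

namespace Pool.Agent.Pend

open Finset Classical

namespace FUP_

/-- the vertices -/
abbrev UU (k : ℕ) : Type := Fin (2 * (k + 3))

/-- a spine and the positions of the other vertices -/
abbrev Cd (k : ℕ) : Type := Σ s : Fin (k + 3) ↪ UU k, ({w : UU k // w ∉ Set.range s} → Fin (k + 3))

/-- The caterpillar with the spine `s`. -/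
def mk {k : ℕ} (p : Cd k) : SimpleGraph (UU k) where
  Adj a b := (∃ i j, p.1 i = a ∧ p.1 j = b ∧ (i.val + 1 = j.val ∨ j.val + 1 = i.val)) ∨
    (∃ h : a ∉ Set.range p.1, b = p.1 (p.2 ⟨a, h⟩)) ∨ (∃ h : b ∉ Set.range p.1, a = p.1 (p.2 ⟨b, h⟩))
  symm := ⟨fun a b hab => by
    rcases hab with ⟨i, j, hi, hj, h⟩ | h | h
    · exact Or.inl ⟨j, i, hj, hi, h.symm⟩
    · exact Or.inr (Or.inr h)
    · exact Or.inr (Or.inl h)⟩
  loopless := ⟨fun a hab => by
    rcases hab with ⟨i, j, hi, hj, h⟩ | ⟨h, h'⟩ | ⟨h, h'⟩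
    · have : i = j := p.1.injective (hi.trans hj.symm)
      subst this
      omega
    · exact h ⟨_, h'.symm⟩
    · exact h ⟨_, h'.symm⟩⟩

theorem mk_ss {k : ℕ} (p : Cd k) (i j : Fin (k + 3)) :
    (mk p).Adj (p.1 i) (p.1 j) ↔ (i.val + 1 = j.val ∨ j.val + 1 = i.val) := by
  constructor
  · rintro (⟨i', j', hi, hj, h⟩ | ⟨h, _⟩ | ⟨h, _⟩)
    · rw [← p.1.injective hi, ← p.1.injective hj]; exact h
    · exact absurd ⟨i, rfl⟩ h
    · exact absurd ⟨j, rfl⟩ h
  · intro h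
    exact Or.inl ⟨i, j, rfl, rfl, h⟩

theorem mk_out {k : ℕ} (p : Cd k) (a b : UU k) (ha : a ∉ Set.range p.1) :
    (mk p).Adj a b ↔ b = p.1 (p.2 ⟨a, ha⟩) := by
  constructor
  · rintro (⟨i', j', hi, hj, h⟩ | ⟨h, h'⟩ | ⟨h, h'⟩)
    · exact absurd ⟨i', hi⟩ ha
    · exact h'
    · exact absurd ⟨_, h'.symm⟩ ha
  · intro h
    exact Or.inr (Or.inl ⟨ha, h⟩)

theorem card_Cd (k : ℕ) :
    Fintype.card (Cd k) * (k + 3).factorial = (2 * (k + 3)).factorial * (k + 3) ^ (k + 3) := by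
  have h1 : ∀ s : Fin (k + 3) ↪ UU k,
      Fintype.card ({w : UU k // w ∉ Set.range s} → Fin (k + 3)) = (k + 3) ^ (k + 3) := by
    intro s
    rw [Fintype.card_fun, Fintype.card_fin]
    congr 1
    rw [Fintype.card_subtype_compl (fun w => w ∈ Set.range s)]
    have : Fintype.card {w : UU k // w ∈ Set.range s} = k + 3 := by
      have := Set.card_range_of_injective s.injective
      rw [Fintype.card_fin] at this
      exact (Fintype.card_congr (Equiv.refl _)).trans this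
    rw [this, Fintype.card_fin]
    omega
  have h2 : Fintype.card (Cd k) = (2 * (k + 3)).descFactorial (k + 3) * (k + 3) ^ (k + 3) := by
    rw [Fintype.card_sigma, sum_congr rfl (fun s _ => h1 s), sum_const, card_univ,
      Fintype.card_embedding_eq, Fintype.card_fin, Fintype.card_fin, smul_eq_mul]
  have h3 := Nat.factorial_mul_descFactorial (show k + 3 ≤ 2 * (k + 3) by omega)
  have h4 : 2 * (k + 3) - (k + 3) = k + 3 := by omega
  rw [h4] at h3
  rw [h2, ← h3]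
  ring

theorem exists_Cd {k : ℕ} (G : SimpleGraph (UU k)) (r : UU k) (h : Cat k G univ r) :
    ∃ p : Cd k, mk p = G ∧ p.1 1 = r := by
  obtain ⟨_, s, hs, _, hr, hadj, hout⟩ := h
  have hf : ∀ w : {w : UU k // w ∉ Set.range s}, ∃ i, ∀ u, G.Adj w.1 u ↔ u = s i := by
    intro w
    obtain ⟨i, hi⟩ := hout w.1 (mem_univ _) (fun i hi => w.2 ⟨i, hi⟩)
    exact ⟨i, fun u => hi u (mem_univ u)⟩
  choose f hf using hf
  refine ⟨⟨⟨s, hs⟩, f⟩, ?_, hr⟩
  ext a b
  by_cases ha : a ∈ Set.range s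
  · by_cases hb : b ∈ Set.range s
    · obtain ⟨i, rfl⟩ := ha
      obtain ⟨j, rfl⟩ := hb
      rw [hadj]
      exact mk_ss ⟨⟨s, hs⟩, f⟩ i j
    · rw [SimpleGraph.adj_comm, SimpleGraph.adj_comm G, hf ⟨b, hb⟩]
      exact mk_out ⟨⟨s, hs⟩, f⟩ b a hb
  · rw [hf ⟨a, ha⟩]
    exact mk_out ⟨⟨s, hs⟩, f⟩ a b ha

theorem mk_mem {k : ℕ} (p : Cd k) : (mk p, p.1 1) ∈ FS k (univ : Finset (UU k)) := by
  simp only [FS, mem_filter, mem_univ, true_and, and_self, imp_true_iff]
  refine ⟨by rw [card_univ, Fintype.card_fin], p.1, p.1.injective, fun _ => mem_univ _, rfl,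
    mk_ss p, fun w _ hw => ?_⟩
  have hw' : w ∉ Set.range p.1 := fun ⟨i, hi⟩ => hw i hi
  exact ⟨p.2 ⟨w, hw'⟩, fun u _ => mk_out p w u hw'⟩

end FUP_

open FUP_ in
theorem p_FUP : T_FUP := by
  intro k
  rw [← card_Cd]
  refine Nat.mul_le_mul_right _ ?_
  have : FS k (univ : Finset (UU k)) ⊆
      (univ : Finset (Cd k)).image (fun p => (mk p, p.1 1)) := by
    rintro ⟨G, r⟩ hG
    simp only [FS, mem_filter, mem_univ, true_and] at hG
    obtain ⟨p, hp, hr⟩ := exists_Cd G r hG.2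
    exact mem_image.2 ⟨p, mem_univ _, by rw [hp, hr]⟩
  calc FF k ≤ ((univ : Finset (Cd k)).image (fun p => (mk p, p.1 1))).card := card_le_card this
    _ ≤ (univ : Finset (Cd k)).card := card_image_le
    _ = Fintype.card (Cd k) := rfl

end Pool.Agent.Pend
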