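import Pool.Agent.Pend.Targets

/-!
GAM: lower bound for the growth.
-/

set_option autoImplicit false

namespace Pool.Agent.Pend

open Finset Classical

namespace GAM_

/-- the graph with the only edge `v u` -/
private def ed {V : Type} (v u : V) : SimpleGraph V where
  Adj a b := a ≠ b ∧ ((a = v ∧ b = u) ∨ (a = u ∧ b = v))
  symm := ⟨fun _ _ h => ⟨h.1.symm, h.2.elim (fun h => Or.inr ⟨h.2, h.1⟩)
    (fun h => Or.inl ⟨h.2, h.1⟩)⟩⟩
  loopless := ⟨fun _ h => h.1 rfl⟩

private theorem ed_tree {V : Type} (v u : V) (h : v ≠ u) :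
    ((ed v u).induce ((({v, u} : Finset V)) : Set V)).IsTree := by
  have hW : ((({v, u} : Finset V)) : Set V) = {v, u} := by simp
  rw [hW]
  refine ⟨SimpleGraph.induce_pair_connected_of_adj ⟨h, Or.inl ⟨rfl, rfl⟩⟩, ?_⟩
  refine SimpleGraph.IsAcyclic.of_card_le_two ?_
  exact (Set.encard_pair h).le

/-- `v` is a leaf at `u`, and `u` has exactly one further neighbour -/
private def Pr {V : Type} (G : SimpleGraph V) (v u : V) : Prop :=
  v ≠ u ∧ G.Adj v u ∧ (∀ b, G.Adj v b → b = u) ∧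
    ∃ x, x ≠ v ∧ x ≠ u ∧ G.Adj u x ∧ ∀ b, G.Adj u b → b = v ∨ b = x

private theorem pr_of {V : Type} [Fintype V] (G : SimpleGraph V) (v u : V) (h : v ≠ u)
    (h1 : rs G {v, u} = ed v u) (h2 : ∃ x, PndS G univ {v, u} u x ∧ True) : Pr G v u := by
  obtain ⟨x, ⟨-, -, -, hx, hadj⟩, -⟩ := h2
  have hvu : G.Adj v u := by
    have : (rs G {v, u}).Adj v u := by
      rw [h1]; exact ⟨h, Or.inl ⟨rfl, rfl⟩⟩
    exact this.1
  have hx1 : x ≠ v := fun e => hx (by simp [e])
  have hx2 : x ≠ u := fun e => hx (by simp [e])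
  refine ⟨h, hvu, ?_, x, hx1, hx2, ?_, ?_⟩
  · intro b hb
    by_contra hbu
    have hbv : b ≠ v := fun e => by rw [e] at hb; exact G.loopless.irrefl _ hb
    have := (hadj v (by simp) b (mem_univ _) (by simp [hbu, hbv])).1 hb
    exact h this.1
  · exact (hadj u (by simp) x (mem_univ _) hx).2 ⟨rfl, rfl⟩
  · intro b hb
    by_cases hbv : b = v
    · exact Or.inl hbv
    · right
      have hbu : b ≠ u := fun e => by rw [e] at hb; exact G.loopless.irrefl _ hb
      exact ((hadj u (by simp) b (mem_univ _) (by simp [hbu, hbv])).1 hb).2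

private theorem count {V : Type} [Fintype V] (G : SimpleGraph V) (hG : G.Connected)
    (hV : 4 ≤ Fintype.card V) (R : Finset (V × V)) (hR : ∀ q ∈ R, Pr G q.1 q.2) :
    2 * R.card ≤ Fintype.card V := by
  have i1 : Set.InjOn Prod.fst (R : Set (V × V)) := by
    rintro ⟨v, u⟩ hq ⟨v', u'⟩ hq' (e : v = v')
    obtain ⟨-, a1, a2, -⟩ := hR _ hq
    obtain ⟨-, b1, b2, -⟩ := hR _ hq'
    subst e
    rw [b2 u a1]
  have i2 : Set.InjOn Prod.snd (R : Set (V × V)) := by
    rintro ⟨v, u⟩ hq ⟨v', u'⟩ hq' (e : u = u')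
    obtain ⟨a0, a1, a2, x, a3, a4, a5, a6⟩ := hR _ hq
    obtain ⟨b0, b1, b2, -⟩ := hR _ hq'
    simp only at a0 a1 a2 a3 a4 a5 a6 b0 b1 b2
    subst e
    by_contra hne
    have hv : v ≠ v' := fun e => hne (by rw [e])
    have hx : v' = x := (a6 v' b1.symm).resolve_left (Ne.symm hv)
    have hS : (({v, u, v'} : Finset V)).card ≤ 3 := card_le_three
    obtain ⟨w, hw⟩ : ∃ w, w ∉ ({v, u, v'} : Finset V) := by
      by_contra hall
      simp only [not_exists, not_not] at hall
      have : ({v, u, v'} : Finset V) = univ := eq_univ_iff_forall.2 hall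
      rw [this, card_univ] at hS
      omega
    obtain ⟨p⟩ := hG.preconnected v w
    obtain ⟨d, -, h1, h2⟩ := p.exists_boundary_dart {a | a ∈ ({v, u, v'} : Finset V)}
      (by simp) hw
    have h3 := d.adj
    simp only [Set.mem_ofPred_eq, mem_insert, mem_singleton] at h1 h2
    rcases h1 with h1 | h1 | h1
    · rw [h1] at h3
      exact h2 (Or.inr (Or.inl (a2 _ h3)))
    · rw [h1] at h3
      rcases a6 _ h3 with h4 | h4
      · exact h2 (Or.inl h4)
      · exact h2 (Or.inr (Or.inr (by rw [h4, hx])))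
    · rw [h1] at h3
      exact h2 (Or.inr (Or.inl (b2 _ h3)))
  have hd : Disjoint (R.image Prod.fst) (R.image Prod.snd) := by
    rw [Finset.disjoint_left]
    intro a ha hb
    rw [mem_image] at ha hb
    obtain ⟨q, hq, e1⟩ := ha
    obtain ⟨q', hq', e2⟩ := hb
    obtain ⟨-, -, a2, -⟩ := hR q hq
    obtain ⟨-, b1, -, x, b3, -, b5, -⟩ := hR q' hq'
    rw [e1] at a2
    rw [e2] at b1 b5
    exact b3 ((a2 x b5).trans (a2 _ b1.symm).symm)
  have h1 := card_image_of_injOn i1
  have h2 := card_image_of_injOn i2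
  have h3 := card_le_univ (R.image Prod.fst ∪ R.image Prod.snd)
  rw [card_union_of_disjoint hd, h1, h2] at h3
  omega

/-- double counting -/
private theorem main (h1 : T_GLS) (h2 : T_CARDS) (C : (V : Type) → SimpleGraph V → Prop)
    (hC : LeafStable C) (n : ℕ) (hn : 2 ≤ n) (V : Type) [Fintype V]
    (hcard : Fintype.card V = n + 2) :
    2 * ((n + 2) * (n + 1) * (n * cnt C n)) ≤ (cc C V).card * (n + 2) := by
  obtain ⟨hc1, hc2, hc3⟩ := h2 C hC.iso V
  -- the number of graphs for a given pair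
  have key : ∀ q ∈ (univ : Finset V).offDiag,
      ((cc C V).filter (fun G => rs G {q.1, q.2} = ed q.1 q.2 ∧
        ∃ x, PndS G univ {q.1, q.2} q.2 x ∧ True)).card = n * cnt C n := by
    rintro ⟨v, u⟩ hq
    rw [mem_offDiag] at hq
    have hvu : v ≠ u := hq.2.2
    simp only
    have hg := h1 C hC V univ {v, u} (ed v u) u (fun _ _ => True) (subset_univ _)
      (by simp) (by
        rintro a b ⟨-, h | h⟩ <;> simp [h.1, h.2]) (ed_tree v u hvu)
    rw [hc2] at hg
    have hc : ((univ : Finset V) \ {v, u}).card = n := by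
      rw [card_sdiff_of_subset (subset_univ _), card_univ, hcard, card_pair hvu]
      omega
    refine Eq.trans (congrArg card (Finset.ext fun G => ?_)) (hg.trans ?_)
    · simp only [mem_filter]
    · simp only [filter_true]
      rw [sum_const, hc1, hc, smul_eq_mul]
  have hsum : ∑ q ∈ (univ : Finset V).offDiag,
      ((cc C V).filter (fun G => rs G {q.1, q.2} = ed q.1 q.2 ∧
        ∃ x, PndS G univ {q.1, q.2} q.2 x ∧ True)).card = (n + 2) * (n + 1) * (n * cnt C n) := by
    rw [sum_congr rfl key, sum_const, offDiag_card, card_univ, hcard, smul_eq_mul]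
    congr 1
    rw [← Nat.mul_sub_one]
    rfl
  have hswap : ∑ q ∈ (univ : Finset V).offDiag,
      ((cc C V).filter (fun G => rs G {q.1, q.2} = ed q.1 q.2 ∧
        ∃ x, PndS G univ {q.1, q.2} q.2 x ∧ True)).card =
      ∑ G ∈ cc C V, ((univ : Finset V).offDiag.filter
        (fun q => rs G {q.1, q.2} = ed q.1 q.2 ∧
          ∃ x, PndS G univ {q.1, q.2} q.2 x ∧ True)).card := by
    simp only [card_filter]
    rw [sum_comm]
  rw [← hsum, hswap, mul_sum]
  have hb : ∀ G ∈ cc C V, 2 * ((univ : Finset V).offDiag.filter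
      (fun q => rs G {q.1, q.2} = ed q.1 q.2 ∧
        ∃ x, PndS G univ {q.1, q.2} q.2 x ∧ True)).card ≤ n + 2 := by
    intro G hG
    have hG' : G.Connected := by
      rw [cc, mem_filter] at hG
      exact hG.2.1
    rw [← hcard]
    refine count G hG' (by omega) _ ?_
    intro q hq
    rw [mem_filter, mem_offDiag] at hq
    exact pr_of G q.1 q.2 hq.1.2.2 hq.2.1 hq.2.2
  refine (sum_le_sum hb).trans ?_
  rw [sum_const, smul_eq_mul]

end GAM_

open GAM_ in
/-- GAM. -/
theorem p_GAM (h1 : T_GLS) (h2 : T_CARDS) : T_GAM := by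
  intro C hC n hn
  have hle := main h1 h2 C hC n hn (Fin (n + 2)) (Fintype.card_fin _)
  have hfin : 2 * ((n + 1) * n * cnt C n) ≤ cnt C (n + 2) := by
    have h3 : (n + 2) * (2 * ((n + 1) * n * cnt C n)) ≤ (n + 2) * cnt C (n + 2) := by
      calc (n + 2) * (2 * ((n + 1) * n * cnt C n)) = 2 * ((n + 2) * (n + 1) * (n * cnt C n)) := by
            ring
        _ ≤ _ := by rw [mul_comm (n + 2) (cnt C (n + 2))]; exact hle
    exact Nat.le_of_mul_le_mul_left h3 (by omega)
  have hfin' : 2 * (((n : ℝ) + 1) * n * cnt C n) ≤ cnt C (n + 2) := by exact_mod_cast hfin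
  unfold aa
  have hf : (((n + 2).factorial : ℕ) : ℝ) = ((n : ℝ) + 2) * (((n : ℝ) + 1) * (n.factorial : ℝ)) := by
    rw [Nat.factorial_succ, Nat.factorial_succ]
    push_cast
    ring
  have hpos : (0 : ℝ) < (n.factorial : ℝ) := by exact_mod_cast n.factorial_pos
  rw [hf]
  have e1 : ((n : ℝ) + 2) * ((cnt C (n + 2) : ℝ) / (((n : ℝ) + 2) * (((n : ℝ) + 1) *
      (n.factorial : ℝ)))) = (cnt C (n + 2) : ℝ) / (((n : ℝ) + 1) * (n.factorial : ℝ)) := by
    field_simp
  rw [e1, le_div_iff₀ (by positivity)]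
  calc 2 * (n : ℝ) * ((cnt C n : ℝ) / (n.factorial : ℝ)) * (((n : ℝ) + 1) * (n.factorial : ℝ)) =
      2 * (((n : ℝ) + 1) * n * cnt C n) := by field_simp
    _ ≤ _ := hfin'

end Pool.Agent.Pend
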