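import Pool.Agent.Pend.Targets

/-!
GLS: the members of the class with a given pendant tree (project Pend, MP_552896_co).
-/

set_option autoImplicit false

namespace Pool.Agent.Pend

open Finset Classical

namespace GLS_

/-- The union of `K`, `T` and the edge `r x`. -/
def glue {V : Type} (K T : SimpleGraph V) (r x : V) (h : r ≠ x) : SimpleGraph V where
  Adj a b := K.Adj a b ∨ T.Adj a b ∨ (a = r ∧ b = x) ∨ (a = x ∧ b = r)
  symm := ⟨fun a b hab => by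
    rcases hab with hab | hab | hab | hab
    · exact Or.inl hab.symm
    · exact Or.inr (Or.inl hab.symm)
    · exact Or.inr (Or.inr (Or.inr ⟨hab.2, hab.1⟩))
    · exact Or.inr (Or.inr (Or.inl ⟨hab.2, hab.1⟩))⟩
  loopless := ⟨fun a hab => by
    rcases hab with hab | hab | hab | hab
    · exact hab.ne rfl
    · exact hab.ne rfl
    · exact h (hab.1.symm.trans hab.2)
    · exact h (hab.2.symm.trans hab.1)⟩

theorem rs_adj {V : Type} (G : SimpleGraph V) (S : Finset V) (a b : V) :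
    (rs G S).Adj a b ↔ G.Adj a b ∧ a ∈ S ∧ b ∈ S := Iff.rfl

theorem induce_rs {V : Type} (G : SimpleGraph V) (S : Finset V) :
    (rs G S).induce (S : Set V) = G.induce (S : Set V) := by
  ext ⟨a, ha⟩ ⟨b, hb⟩
  simp only [SimpleGraph.comap_adj, Function.Embedding.subtype_apply, rs_adj]
  exact ⟨fun h => h.1, fun h => ⟨h, ha, hb⟩⟩

theorem PndS_unique {V : Type} {G : SimpleGraph V} {S W : Finset V} {r x x' : V}
    (h : PndS G S W r x) (h' : PndS G S W r x') : x = x' := by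
  obtain ⟨_, hr, hxS, hxW, hadj⟩ := h
  obtain ⟨_, _, hxS', hxW', hadj'⟩ := h'
  have h1 : G.Adj r x := (hadj r hr x hxS hxW).2 ⟨rfl, rfl⟩
  exact ((hadj' r hr x hxS hxW).1 h1).2

theorem glue_eq {V : Type} {G : SimpleGraph V} {S W : Finset V} {r x : V}
    (hS : ∀ a b, G.Adj a b → a ∈ S ∧ b ∈ S) (h : PndS G S W r x) (hrx : r ≠ x) :
    glue (rs G (S \ W)) (rs G W) r x hrx = G := by
  obtain ⟨hWS, hr, hxS, hxW, hadj⟩ := h
  ext a b
  show ((rs G (S \ W)).Adj a b ∨ (rs G W).Adj a b ∨ (a = r ∧ b = x) ∨ (a = x ∧ b = r)) ↔ G.Adj a b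
  rw [rs_adj, rs_adj]
  constructor
  · rintro (h | h | ⟨rfl, rfl⟩ | ⟨rfl, rfl⟩)
    · exact h.1
    · exact h.1
    · exact (hadj _ hr _ hxS hxW).2 ⟨rfl, rfl⟩
    · exact ((hadj _ hr _ hxS hxW).2 ⟨rfl, rfl⟩).symm
  · intro hab
    obtain ⟨haS, hbS⟩ := hS a b hab
    by_cases ha : a ∈ W
    · by_cases hb : b ∈ W
      · exact Or.inr (Or.inl ⟨hab, ha, hb⟩)
      · exact Or.inr (Or.inr (Or.inl ((hadj a ha b hbS hb).1 hab)))
    · by_cases hb : b ∈ W
      · exact Or.inr (Or.inr (Or.inr ((hadj b hb a haS ha).1 hab.symm).symm))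
      · exact Or.inl ⟨hab, mem_sdiff.2 ⟨haS, ha⟩, mem_sdiff.2 ⟨hbS, hb⟩⟩

section

variable {V : Type} {S W : Finset V} {K T : SimpleGraph V} {r x : V}

theorem glue_supp (hWS : W ⊆ S) (hr : r ∈ W) (hx : x ∈ S \ W)
    (hK : ∀ a b, K.Adj a b → a ∈ S \ W ∧ b ∈ S \ W)
    (hT : ∀ a b, T.Adj a b → a ∈ W ∧ b ∈ W) (hrx : r ≠ x) :
    ∀ a b, (glue K T r x hrx).Adj a b → a ∈ S ∧ b ∈ S := by
  rintro a b (h | h | ⟨rfl, rfl⟩ | ⟨rfl, rfl⟩)
  · exact ⟨(mem_sdiff.1 (hK a b h).1).1, (mem_sdiff.1 (hK a b h).2).1⟩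
  · exact ⟨hWS (hT a b h).1, hWS (hT a b h).2⟩
  · exact ⟨hWS hr, (mem_sdiff.1 hx).1⟩
  · exact ⟨(mem_sdiff.1 hx).1, hWS hr⟩

theorem glue_rsW (hx : x ∈ S \ W)
    (hK : ∀ a b, K.Adj a b → a ∈ S \ W ∧ b ∈ S \ W)
    (hT : ∀ a b, T.Adj a b → a ∈ W ∧ b ∈ W) (hrx : r ≠ x) :
    rs (glue K T r x hrx) W = T := by
  ext a b
  rw [rs_adj]
  constructor
  · rintro ⟨h | h | ⟨rfl, rfl⟩ | ⟨rfl, rfl⟩, ha, hb⟩
    · exact absurd ha (mem_sdiff.1 (hK a b h).1).2
    · exact h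
    · exact absurd hb (mem_sdiff.1 hx).2
    · exact absurd ha (mem_sdiff.1 hx).2
  · intro h
    exact ⟨Or.inr (Or.inl h), (hT a b h).1, (hT a b h).2⟩

theorem glue_rsK (hr : r ∈ W)
    (hK : ∀ a b, K.Adj a b → a ∈ S \ W ∧ b ∈ S \ W)
    (hT : ∀ a b, T.Adj a b → a ∈ W ∧ b ∈ W) (hrx : r ≠ x) :
    rs (glue K T r x hrx) (S \ W) = K := by
  ext a b
  rw [rs_adj]
  constructor
  · rintro ⟨h | h | ⟨rfl, rfl⟩ | ⟨rfl, rfl⟩, ha, hb⟩
    · exact h
    · exact absurd (hT a b h).1 (mem_sdiff.1 ha).2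
    · exact absurd hr (mem_sdiff.1 ha).2
    · exact absurd hr (mem_sdiff.1 hb).2
  · intro h
    exact ⟨Or.inl h, (hK a b h).1, (hK a b h).2⟩

theorem glue_PndS (hWS : W ⊆ S) (hr : r ∈ W) (hx : x ∈ S \ W)
    (hK : ∀ a b, K.Adj a b → a ∈ S \ W ∧ b ∈ S \ W)
    (hT : ∀ a b, T.Adj a b → a ∈ W ∧ b ∈ W) (hrx : r ≠ x) :
    PndS (glue K T r x hrx) S W r x := by
  refine ⟨hWS, hr, (mem_sdiff.1 hx).1, (mem_sdiff.1 hx).2, fun a ha b hbS hb => ?_⟩
  constructor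
  · rintro (h | h | h | ⟨rfl, rfl⟩)
    · exact absurd ha (mem_sdiff.1 (hK a b h).1).2
    · exact absurd (hT a b h).2 hb
    · exact h
    · exact absurd hr hb
  · intro h
    exact Or.inr (Or.inr (Or.inl h))

end

theorem core (h1 : T_TREECUT) (h2 : T_PCONS) (C : (V : Type) → SimpleGraph V → Prop)
    (hC : LeafStable C) {V : Type} [Fintype V] (G : SimpleGraph V) (S W : Finset V) (r x : V)
    (h : PndS G S W r x) (hT : (G.induce (W : Set V)).IsTree) :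
    ((G.induce (S : Set V)).Connected ∧ C (S : Set V) (G.induce (S : Set V))) ↔
    ((G.induce ((S \ W : Finset V) : Set V)).Connected ∧
      C ((S \ W : Finset V) : Set V) (G.induce ((S \ W : Finset V) : Set V))) := by
  have hc := h2 V G S W r x h
  constructor
  · rintro ⟨ha, hb⟩
    exact ⟨(hc.1 ha).2, (h1 C hC V G S W r x h ha hT).1 hb⟩
  · rintro ⟨ha, hb⟩
    have hS := hc.2 ⟨hT.connected, ha⟩
    exact ⟨hS, (h1 C hC V G S W r x h hS hT).2 hb⟩

end GLS_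

open GLS_ in
theorem p_GLS (h1 : T_TREECUT) (h2 : T_PCONS) : T_GLS := by
  intro C hC V _ S W T r Q hWS hr hT hTree
  rw [← Finset.card_sigma]
  symm
  have hne : ∀ x, x ∈ S \ W → r ≠ x := fun x hx h => (mem_sdiff.1 hx).2 (h ▸ hr)
  refine Finset.card_bij
    (fun p hp => glue p.2 T r p.1 (hne p.1 (mem_sigma.1 hp).1)) ?_ ?_ ?_
  · rintro ⟨x, K⟩ hp
    obtain ⟨hx, hK⟩ := mem_sigma.1 hp
    simp only [cS, mem_filter, mem_univ, true_and] at hK
    obtain ⟨⟨hKs, hKc, hKC⟩, hQ⟩ := hK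
    have hx' : x ∈ S \ W := hx
    have hrx := hne x hx'
    have e1 := glue_rsW (S := S) (W := W) (K := K) (T := T) (r := r) hx' hKs hT hrx
    have e2 := glue_rsK (S := S) (W := W) (K := K) (T := T) (x := x) hr hKs hT hrx
    have e3 := glue_PndS (S := S) (W := W) (K := K) (T := T) hWS hr hx' hKs hT hrx
    have hTr : ((glue K T r x hrx).induce (W : Set V)).IsTree := by
      rw [← induce_rs, e1]; exact hTree
    have hcore := (core h1 h2 C hC (glue K T r x hrx) S W r x e3 hTr).2 (by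
      rw [← induce_rs, e2]; exact ⟨hKc, hKC⟩)
    simp only [cS, mem_filter, mem_univ, true_and]
    refine ⟨⟨glue_supp hWS hr hx' hKs hT hrx, hcore.1, hcore.2⟩, e1, x, e3, ?_⟩
    rw [e2]; exact hQ
  · rintro ⟨x, K⟩ hp ⟨x', K'⟩ hp' heq
    obtain ⟨hx, hK⟩ := mem_sigma.1 hp
    obtain ⟨hx', hK'⟩ := mem_sigma.1 hp'
    simp only [cS, mem_filter, mem_univ, true_and] at hK hK'
    have hx1 : x ∈ S \ W := hx
    have hx1' : x' ∈ S \ W := hx'
    have hrx := hne x hx1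
    have hrx' := hne x' hx1'
    have heq' : glue K T r x hrx = glue K' T r x' hrx' := heq
    have p1 := glue_PndS (S := S) (W := W) (K := K) (T := T) hWS hr hx1 hK.1.1 hT hrx
    have p2 := glue_PndS (S := S) (W := W) (K := K') (T := T) hWS hr hx1' hK'.1.1 hT hrx'
    rw [← heq'] at p2
    have hxx : x = x' := PndS_unique p1 p2
    subst hxx
    have e2 := glue_rsK (S := S) (W := W) (K := K) (T := T) (x := x) hr hK.1.1 hT hrx
    have e2' := glue_rsK (S := S) (W := W) (K := K') (T := T) (x := x) hr hK'.1.1 hT hrx'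
    have : K = K' := by rw [← e2, ← e2', heq']
    subst this
    rfl
  · intro G hG
    simp only [cS, mem_filter, mem_univ, true_and] at hG
    obtain ⟨⟨hGs, hGc, hGC⟩, hGT, x, hP, hQ⟩ := hG
    have hx : x ∈ S \ W := mem_sdiff.2 ⟨hP.2.2.1, hP.2.2.2.1⟩
    have hTr : (G.induce (W : Set V)).IsTree := by
      rw [← induce_rs, hGT]; exact hTree
    have hcore := (core h1 h2 C hC G S W r x hP hTr).1 ⟨hGc, hGC⟩
    refine ⟨⟨x, rs G (S \ W)⟩, ?_, ?_⟩
    · rw [mem_sigma]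
      refine ⟨hx, ?_⟩
      simp only [cS, mem_filter, mem_univ, true_and]
      refine ⟨⟨fun a b hab => ⟨hab.2.1, hab.2.2⟩, ?_, ?_⟩, hQ⟩
      · rw [induce_rs]; exact hcore.1
      · rw [induce_rs]; exact hcore.2
    · subst hGT
      exact glue_eq hGs hP (hne x hx)

end Pool.Agent.Pend
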