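import Pool.Agent.Pend.Targets

/-! GOODR: convergence of the ratios makes all large `n` good. -/

set_option autoImplicit false

namespace Pool.Agent.Pend

open Finset Classical Filter Topology

/-- GOODR -/
theorem p_GOODR : T_GOODR := by
  intro a γ n₀ hγ ha hlim
  have he1 : (1 : ℝ) < Real.exp (1 / 200) := Real.one_lt_exp_iff.2 (by norm_num)
  have he0 : 0 < Real.exp (1 / 200) := Real.exp_pos _
  have hlo : γ / Real.exp (1 / 200) < γ := div_lt_self hγ he1
  have hhi : γ < γ * Real.exp (1 / 200) := lt_mul_of_one_lt_right hγ he1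
  have hev : ∀ᶠ n in atTop, n₀ ≤ n ∧ γ / Real.exp (1 / 200) < a (n + 1) / a n ∧
      a (n + 1) / a n < γ * Real.exp (1 / 200) ∧ a (n + 1) / a n < 2 * γ := by
    filter_upwards [eventually_ge_atTop n₀, hlim.eventually_const_lt hlo,
      hlim.eventually_lt_const hhi, hlim.eventually_lt_const (by linarith : γ < 2 * γ)]
      with n h1 h2 h3 h4
    exact ⟨h1, h2, h3, h4⟩
  obtain ⟨n₂, hn₂⟩ := eventually_atTop.1 hev
  have hlog : ∀ᶠ x : ℝ in atTop, ‖Real.log x‖ ≤ (1 / 60) * ‖id x‖ :=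
    Real.isLittleO_log_id_atTop.def (by norm_num)
  have hlog' : ∀ᶠ n : ℕ in atTop, ‖Real.log (n : ℝ)‖ ≤ (1 / 60) * ‖id (n : ℝ)‖ :=
    tendsto_natCast_atTop_atTop.eventually hlog
  obtain ⟨n₃, hn₃⟩ := eventually_atTop.1 hlog'
  refine ⟨1 / (2 * γ), by positivity, max n₃ (2 * n₂), fun n hn => ?_⟩
  have h1 := hn₃ n (le_trans (le_max_left _ _) hn)
  have h2 : 2 * n₂ ≤ n := le_trans (le_max_right _ _) hn
  have h2' : 2 * (n₂ : ℝ) ≤ n := by exact_mod_cast h2
  have hn0 : (0 : ℝ) ≤ n := Nat.cast_nonneg n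
  rw [Real.norm_eq_abs, Real.norm_eq_abs, id, abs_of_nonneg hn0] at h1
  have h3 : Real.log n ≤ 1 / 60 * n := (le_abs_self _).trans h1
  have hwin : ∀ i : ℕ, (n : ℝ) ≤ (i : ℝ) + 30 * Real.log n → n₂ ≤ i := by
    intro i hi
    have h4 : (n₂ : ℝ) ≤ i := by linarith
    exact_mod_cast h4
  intro i j hi1 _ hj1 _
  obtain ⟨hi, hi2, _, hi4⟩ := hn₂ i (hwin i hi1)
  obtain ⟨hj, _, hj3, _⟩ := hn₂ j (hwin j hj1)
  have hai := ha i hi
  have haj := ha j hj
  rw [div_lt_div_iff₀ he0 hai] at hi2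
  rw [div_lt_iff₀ hai] at hi4
  rw [div_lt_iff₀ haj] at hj3
  constructor
  · rw [div_mul_eq_mul_div, one_mul, div_le_iff₀ (by positivity)]
    linarith
  · have h5 : Real.exp (1 / 100) = Real.exp (1 / 200) * Real.exp (1 / 200) := by
      rw [← Real.exp_add]
      norm_num
    rw [h5]
    have h6 : a i * a (j + 1) ≤ a i * (γ * Real.exp (1 / 200) * a j) :=
      mul_le_mul_of_nonneg_left hj3.le hai.le
    have h7 : a j * Real.exp (1 / 200) * (γ * a i) ≤
        a j * Real.exp (1 / 200) * (a (i + 1) * Real.exp (1 / 200)) :=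
      mul_le_mul_of_nonneg_left hi2.le (by positivity)
    calc a i * a (j + 1) ≤ a i * (γ * Real.exp (1 / 200) * a j) := h6
      _ = a j * Real.exp (1 / 200) * (γ * a i) := by ring
      _ ≤ a j * Real.exp (1 / 200) * (a (i + 1) * Real.exp (1 / 200)) := h7
      _ = Real.exp (1 / 200) * Real.exp (1 / 200) * (a j * a (i + 1)) := by ring

end Pool.Agent.Pend
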