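import Pool.Agent.Pend.Targets

/-!
GROW: a supermultiplicative sequence with at most exponential growth has a growth constant
(project Pend, MP_552896_co).
-/

set_option autoImplicit false

namespace Pool.Agent.Pend

open Finset Classical Filter Topology

theorem p_GROW : T_GROW := by
  intro a K ha hK hsup
  have hKpos : 0 < K := by
    have h1 := ha 1 le_rfl
    have h2 := hK 1
    rw [pow_one] at h2
    linarith
  set u : ℕ → ℝ := fun n => if n = 0 then 0 else Real.log 2 - Real.log (a n) with hu
  have hlog2 : 0 ≤ Real.log 2 := Real.log_nonneg (by norm_num)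
  have hsub : Subadditive u := by
    intro m n
    by_cases hm : m = 0
    · subst hm
      simp [hu]
    by_cases hn : n = 0
    · subst hn
      simp [hu]
    have hmn : m + n ≠ 0 := by omega
    simp only [hu, hm, hn, hmn, if_false]
    have h1 := ha m (by omega)
    have h2 := ha n (by omega)
    have h3 := ha (m + n) (by omega)
    have h4 := hsup n m (by omega) (by omega)
    have h5 : Real.log (a m * a n) ≤ Real.log (2 * a (m + n)) :=
      Real.log_le_log (by positivity) h4
    rw [Real.log_mul h1.ne' h2.ne', Real.log_mul (by norm_num) h3.ne'] at h5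
    linarith
  have hbdd : BddBelow (Set.range fun n : ℕ => u n / n) := by
    refine ⟨-|Real.log K|, ?_⟩
    rintro _ ⟨n, rfl⟩
    show -|Real.log K| ≤ u n / n
    by_cases hn : n = 0
    · subst hn
      simp
    have hn' : (0 : ℝ) < n := by exact_mod_cast Nat.pos_of_ne_zero hn
    have h1 := ha n (by omega)
    have h2 : Real.log (a n) ≤ n * Real.log K := by
      rw [← Real.log_pow]
      exact Real.log_le_log h1 (hK n)
    have h3 : u n = Real.log 2 - Real.log (a n) := by simp [hu, hn]
    rw [h3, le_div_iff₀ hn']
    have h4 : Real.log K ≤ |Real.log K| := le_abs_self _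
    nlinarith [mul_le_mul_of_nonneg_left h4 hn'.le]
  have hlim := hsub.tendsto_lim hbdd
  refine ⟨Real.exp (-hsub.lim), ?_⟩
  have h0 : Tendsto (fun n : ℕ => Real.log 2 / (n : ℝ)) atTop (𝓝 0) :=
    tendsto_const_div_atTop_nhds_zero_nat _
  have h1 : Tendsto (fun n : ℕ => Real.exp (Real.log 2 / (n : ℝ) - u n / n)) atTop
      (𝓝 (Real.exp (0 - hsub.lim))) :=
    (Real.continuous_exp.tendsto _).comp (h0.sub hlim)
  rw [zero_sub] at h1
  refine h1.congr' ?_
  filter_upwards [eventually_ge_atTop 1] with n hn
  have hn' : (0 : ℝ) < n := by exact_mod_cast hn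
  have h2 := ha n hn
  have h3 : u n = Real.log 2 - Real.log (a n) := by
    have : n ≠ 0 := by omega
    simp [hu, this]
  rw [Real.rpow_def_of_pos h2, h3]
  congr 1
  field_simp
  ring

end Pool.Agent.Pend
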