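import Pool.Agent.Pend.Targets

/-! KEL: Kelly's lemma for invariant functions. -/

set_option autoImplicit false

namespace Pool.Agent.Pend

open Finset Classical

namespace KEL_

variable {V : Type} [Fintype V]

omit [Fintype V] in
theorem mem_congr (ψ : Equiv.Perm V) (S : Finset V) (a : V) :
    ψ a ∈ ψ.finsetCongr S ↔ a ∈ S := by
  rw [Equiv.finsetCongr_apply, mem_map_equiv, Equiv.symm_apply_apply]

omit [Fintype V] in
theorem is_congr {G H : SimpleGraph V} {ψ : V → Equiv.Perm V} (h : Hyp G H ψ) (w : V)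
    (S : Finset V) (hS : w ∉ S) : Is G S H ((ψ w).finsetCongr S) := by
  refine ⟨⟨(ψ w).subtypeEquiv fun a => ?_, ?_⟩⟩
  · exact (mem_congr (ψ w) S a).symm
  · intro a b
    have ha : (a : V) ≠ w := fun e => hS (e ▸ a.2)
    have hb : (b : V) ≠ w := fun e => hS (e ▸ b.2)
    exact (h.adj w a b ha hb).symm

theorem fixed {G H : SimpleGraph V} {ψ : V → Equiv.Perm V} (h : Hyp G H ψ)
    (g : SimpleGraph V → Finset V → ℕ)
    (hg : ∀ (G1 G2 : SimpleGraph V) (S1 S2 : Finset V), Is G1 S1 G2 S2 → g G1 S1 = g G2 S2)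
    (s : ℕ) (w : V) :
    ∑ S ∈ (powersetCard s (univ : Finset V)).filter (fun S => w ∉ S), g G S =
      ∑ S ∈ (powersetCard s (univ : Finset V)).filter (fun S => w ∉ S), g H S := by
  refine sum_equiv (ψ w).finsetCongr (fun S => ?_) (fun S hS => ?_)
  · have h1 : w ∈ (ψ w).finsetCongr S ↔ w ∈ S := by
      conv_lhs => rw [← h.fix w]
      rw [h.fix w]
      have h2 := mem_congr (ψ w) S w
      rwa [h.fix w] at h2
    rw [mem_filter, mem_filter, h1, mem_powersetCard, mem_powersetCard,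
      Equiv.finsetCongr_apply, card_map]
    constructor
    · rintro ⟨⟨_, h2⟩, h3⟩
      exact ⟨⟨subset_univ _, h2⟩, h3⟩
    · rintro ⟨⟨_, h2⟩, h3⟩
      exact ⟨⟨subset_univ _, h2⟩, h3⟩
  · exact hg _ _ _ _ (is_congr h w S (mem_filter.1 hS).2)

theorem count (f : Finset V → ℕ) (s : ℕ) :
    ∑ w : V, ∑ S ∈ (powersetCard s (univ : Finset V)).filter (fun S => w ∉ S), f S =
      (Fintype.card V - s) * ∑ S ∈ powersetCard s (univ : Finset V), f S := by
  have h1 : ∀ w : V, ∑ S ∈ (powersetCard s (univ : Finset V)).filter (fun S => w ∉ S), f S =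
      ∑ S ∈ powersetCard s (univ : Finset V), if w ∉ S then f S else 0 := fun w =>
    sum_filter _ _
  rw [sum_congr rfl fun w _ => h1 w, sum_comm, mul_sum]
  refine sum_congr rfl fun S hS => ?_
  rw [← sum_filter, sum_const, smul_eq_mul]
  congr 1
  have h2 : univ.filter (fun w => w ∉ S) = Sᶜ := by
    ext w
    simp
  rw [h2, card_compl, (mem_powersetCard.1 hS).2]

end KEL_

/-- KEL -/
theorem p_KEL : T_KEL := by
  intro V _ G H ψ g s h hg hs
  have h1 := KEL_.count (fun S => g G S) s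
  have h2 := KEL_.count (fun S => g H S) s
  rw [sum_congr rfl fun w _ => KEL_.fixed h g hg s w, h2] at h1
  exact (Nat.eq_of_mul_eq_mul_left (by omega) h1).symm

end Pool.Agent.Pend
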