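import Pool.Agent.Pend.Targets2

/-!
KUR: `K₅` and `K₃₃` are 2-connected.
-/

set_option autoImplicit false

namespace Pool.Agent.Pend

open Finset Classical Filter Topology

namespace KUR_

private theorem ex_inr (v : Fin 3 ⊕ Fin 3) : ∃ j : Fin 3, (Sum.inr j : Fin 3 ⊕ Fin 3) ≠ v := by
  rcases v with i | j
  · exact ⟨0, by simp⟩
  · refine ⟨j + 1, fun h => ?_⟩
    have := Sum.inr_injective h
    simp at this

private theorem ex_inl (v : Fin 3 ⊕ Fin 3) : ∃ i : Fin 3, (Sum.inl i : Fin 3 ⊕ Fin 3) ≠ v := by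
  rcases v with i | j
  · refine ⟨i + 1, fun h => ?_⟩
    have := Sum.inl_injective h
    simp at this
  · exact ⟨0, by simp⟩

end KUR_

open KUR_ in
/-- KUR. -/
theorem p_KUR : T_KUR := by
  refine ⟨⟨by simp, ?_⟩, ⟨by simp, ?_⟩⟩
  · intro v
    have hne : Nonempty ({w : Fin 5 | w ≠ v} : Set (Fin 5)) :=
      ⟨⟨v + 1, by simp⟩⟩
    refine SimpleGraph.Connected.mk ?_
    rintro ⟨a, ha⟩ ⟨b, hb⟩
    by_cases h : a = b
    · subst h; exact SimpleGraph.Reachable.refl _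
    · exact SimpleGraph.Adj.reachable (show (⊤ : SimpleGraph (Fin 5)).Adj a b from h)
  · intro v
    obtain ⟨i₀, hi₀⟩ := ex_inl v
    obtain ⟨j₀, hj₀⟩ := ex_inr v
    have hne : Nonempty ({w : Fin 3 ⊕ Fin 3 | w ≠ v} : Set (Fin 3 ⊕ Fin 3)) :=
      ⟨⟨Sum.inl i₀, hi₀⟩⟩
    refine SimpleGraph.Connected.mk ?_
    have key : ∀ (i j : Fin 3) (hi : (Sum.inl i : Fin 3 ⊕ Fin 3) ∈ {w : Fin 3 ⊕ Fin 3 | w ≠ v})
        (hj : (Sum.inr j : Fin 3 ⊕ Fin 3) ∈ {w : Fin 3 ⊕ Fin 3 | w ≠ v}),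
        ((completeBipartiteGraph (Fin 3) (Fin 3)).induce {w : Fin 3 ⊕ Fin 3 | w ≠ v}).Reachable
          ⟨Sum.inl i, hi⟩ ⟨Sum.inr j, hj⟩ := by
      intro i j hi hj
      exact SimpleGraph.Adj.reachable
        (show (completeBipartiteGraph (Fin 3) (Fin 3)).Adj (Sum.inl i) (Sum.inr j) by simp)
    rintro ⟨a | a, ha⟩ ⟨b | b, hb⟩
    · exact (key a j₀ ha hj₀).trans (key b j₀ hb hj₀).symm
    · exact key a b ha hb
    · exact (key b a hb ha).symm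
    · exact (key i₀ a hi₀ ha).symm.trans (key i₀ b hi₀ hb)

end Pool.Agent.Pend
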