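import Pool.Agent.Pend.L1

/-!
L2: the number of pairs of leaves (project Pend, MP_552896_co).
-/

set_option autoImplicit false

namespace Pool.Agent.Pend

open Finset Classical

namespace L2_

theorem reach {V : Type} {G : SimpleGraph V} (P : V → Prop) (h : ∀ a b, P a → G.Adj a b → P b)
    {a b : V} (hab : G.Reachable a b) (ha : P a) : P b := by
  obtain ⟨w⟩ := hab
  induction w with
  | nil => exact ha
  | cons e _ ih => exact ih (h _ _ ha e)

/-- two leaves of a connected graph with at least three vertices are not adjacent -/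
theorem not_adj {V : Type} [Fintype V] {G : SimpleGraph V} (hG : G.Connected) {v v' u' : V}
    (h : Lf G v v') (h' : Lf G v' u') (hc : 3 ≤ Fintype.card V) : False := by
  have h1 : G.Adj v v' := (h v').2 rfl
  have h2 : v = u' := (h' v).1 h1.symm
  subst h2
  have key : ∀ w, w = v ∨ w = v' := by
    intro w
    refine reach (fun w => w = v ∨ w = v') ?_ (hG.preconnected v w) (Or.inl rfl)
    rintro a b (rfl | rfl) hab
    · exact Or.inr ((h b).1 hab)
    · exact Or.inl ((h' b).1 hab)
  have : Fintype.card V ≤ 2 := by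
    calc Fintype.card V = (univ : Finset V).card := rfl
      _ ≤ ({v, v'} : Finset V).card := card_le_card (fun w _ => by simpa using key w)
      _ ≤ 2 := card_le_two
  omega

theorem lf_rs_iff {V : Type} [Fintype V] {K : SimpleGraph V} {S : Finset V}
    (hK : ∀ a b, K.Adj a b → a ∈ S ∧ b ∈ S) (v x : V) (hv : v ∈ S) :
    Lf K v x ↔ PndS K S {v} v x := by
  constructor
  · intro h
    have h0 : K.Adj v x := (h x).2 rfl
    have hxv : x ≠ v := h0.ne'
    refine ⟨by simpa using hv, mem_singleton_self v, (hK _ _ h0).2, by simpa using hxv, ?_⟩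
    intro a ha b _ _
    rw [mem_singleton] at ha
    subst ha
    rw [h b]
    exact ⟨fun e => ⟨rfl, e⟩, fun e => e.2⟩
  · rintro ⟨_, _, hxS, hx, h⟩ w
    by_cases hw : w = v
    · subst hw
      constructor
      · intro h'
        exact absurd h' K.irrefl
      · intro h'
        exact absurd (by simp [h']) hx
    · by_cases hwS : w ∈ S
      · have := h v (mem_singleton_self v) w hwS (by simpa using hw)
        rw [this]
        exact ⟨fun e => e.2, fun e => ⟨rfl, e⟩⟩
      · constructor
        · intro e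
          exact absurd (hK _ _ e).2 hwS
        · intro e
          exact absurd (e ▸ hxS) hwS

theorem pair_iff {V : Type} [Fintype V] {G : SimpleGraph V} (hG : G.Connected) {v v' : V}
    (hc : 3 ≤ Fintype.card V) (hne : v ≠ v') :
    ((∃ u, Lf G v u) ∧ (∃ u, Lf G v' u)) ↔
    ∃ x, PndS G univ {v} v x ∧ (x ≠ v' ∧ ∃ x', Lf (rs G (univ \ {v})) v' x') := by
  constructor
  · rintro ⟨⟨u, hu⟩, ⟨u', hu'⟩⟩
    have huv : u ≠ v' := by
      rintro rfl
      exact not_adj hG hu hu' hc
    refine ⟨u, (L1_.lf_iff G v u).1 hu, huv, u', fun w => ?_⟩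
    have hu'v : u' ≠ v := by
      rintro rfl
      have : G.Adj v' u' := (hu' u').2 rfl
      exact huv ((hu v').1 this.symm).symm
    constructor
    · rintro ⟨h, -, -⟩
      exact (hu' w).1 h
    · rintro rfl
      exact ⟨(hu' w).2 rfl, by simpa using hne.symm, by simpa using hu'v⟩
  · rintro ⟨x, hP, hx, x', hx'⟩
    have hl := (L1_.lf_iff G v x).2 hP
    refine ⟨⟨x, hl⟩, x', fun w => ?_⟩
    have h0 : (rs G (univ \ {v})).Adj v' x' := (hx' x').2 rfl
    have hx'v : x' ≠ v := by
      have := h0.2.2
      simpa using this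
    by_cases hw : w = v
    · subst hw
      constructor
      · intro h
        exact absurd ((hl v').1 h.symm).symm hx
      · intro h
        exact absurd h.symm hx'v
    · rw [← hx' w]
      constructor
      · intro h
        exact ⟨h, by simpa using hne.symm, by simpa using hw⟩
      · intro h
        exact h.1

theorem pairCount (h1 : T_GLS) (h2 : T_CARDS) (C : (V : Type) → SimpleGraph V → Prop)
    (hC : LeafStable C) {V : Type} [Fintype V] (hc : 3 ≤ Fintype.card V) {v v' : V}
    (hne : v ≠ v') :
    ((cc C V).filter (fun G => (∃ u, Lf G v u) ∧ (∃ u, Lf G v' u))).card =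
      (Fintype.card V - 2) ^ 2 * cnt C (Fintype.card V - 2) := by
  obtain ⟨hS, hU, -⟩ := h2 C hC.iso V
  have h := L1_.leafCount h1 C hC (univ : Finset V) v (mem_univ v)
    (fun x K => x ≠ v' ∧ ∃ x', Lf K v' x')
  have e0 : (cc C V).filter (fun G => (∃ u, Lf G v u) ∧ (∃ u, Lf G v' u)) =
      (cS C (univ : Finset V)).filter (fun G => ∃ x, PndS G univ {v} v x ∧
        (x ≠ v' ∧ ∃ x', Lf (rs G (univ \ {v})) v' x')) := by
    rw [hU]
    ext G
    simp only [mem_filter]
    constructor
    · rintro ⟨hG, hh⟩
      have hG' := hG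
      simp only [cc, mem_filter, mem_univ, true_and] at hG'
      exact ⟨hG, (pair_iff hG'.1 hc hne).1 hh⟩
    · rintro ⟨hG, hh⟩
      have hG' := hG
      simp only [cc, mem_filter, mem_univ, true_and] at hG'
      exact ⟨hG, (pair_iff hG'.1 hc hne).2 hh⟩
  refine ((congrArg Finset.card e0).trans ((congrArg Finset.card ?_).trans h)).trans ?_
  · ext G
    simp only [mem_filter]
  have hcS : (univ \ {v} : Finset V).card = Fintype.card V - 1 := by
    rw [card_sdiff_of_subset (by simp), card_univ]
    simp
  have hv' : v' ∈ (univ \ {v} : Finset V) := by simpa using hne.symm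
  have hN : ∀ x ∈ (univ \ {v} : Finset V), ((cS C (univ \ {v})).filter
      (fun K => x ≠ v' ∧ ∃ x', Lf K v' x')).card =
      if x ≠ v' then (Fintype.card V - 2) * cnt C (Fintype.card V - 2) else 0 := by
    intro x _
    by_cases hx : x = v'
    · simp [hx]
    · rw [if_pos hx]
      have h3 := L1_.card_leaf h1 h2 C hC (univ \ {v} : Finset V) v' hv'
      rw [hcS, Nat.sub_sub] at h3
      rw [← h3]
      congr 1
      ext K
      simp only [mem_filter]
      constructor
      · rintro ⟨hK, -, x', hx'⟩
        have hK' := hK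
        simp only [cS, mem_filter, mem_univ, true_and] at hK'
        exact ⟨hK, x', (lf_rs_iff hK'.1 v' x' hv').1 hx'⟩
      · rintro ⟨hK, x', hx'⟩
        have hK' := hK
        simp only [cS, mem_filter, mem_univ, true_and] at hK'
        exact ⟨hK, hx, x', (lf_rs_iff hK'.1 v' x' hv').2 hx'⟩
  refine (sum_congr rfl (fun x hx => (congrArg Finset.card ?_).trans (hN x hx))).trans ?_
  · ext K
    simp only [mem_filter]
  rw [sum_ite, sum_const, sum_const_zero, add_zero, smul_eq_mul]
  have hf : ((univ \ {v} : Finset V).filter (fun x => x ≠ v')).card = Fintype.card V - 2 := by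
    have : (univ \ {v} : Finset V).filter (fun x => x ≠ v') = (univ \ {v}).erase v' := by
      ext x
      simp [and_comm]
    rw [this, card_erase_of_mem hv', hcS, Nat.sub_sub]
  rw [hf]
  ring

theorem gen (h1 : T_GLS) (h2 : T_CARDS) (C : (V : Type) → SimpleGraph V → Prop)
    (hC : LeafStable C) {V : Type} [Fintype V] (hc : 3 ≤ Fintype.card V) :
    ∑ G ∈ cc C V, lv G * (lv G - 1) =
      (Fintype.card V * (Fintype.card V - 1)) *
        ((Fintype.card V - 2) ^ 2 * cnt C (Fintype.card V - 2)) := by
  have e1 : ∀ G ∈ cc C V, lv G * (lv G - 1) = ∑ p ∈ (univ : Finset V).offDiag,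
      if ((∃ u, Lf G p.1 u) ∧ (∃ u, Lf G p.2 u)) then 1 else 0 := by
    intro G _
    rw [← card_filter]
    have : (univ : Finset V).offDiag.filter (fun p => (∃ u, Lf G p.1 u) ∧ (∃ u, Lf G p.2 u)) =
        (univ.filter (fun v => ∃ u, Lf G v u)).offDiag := by
      ext ⟨a, b⟩
      simp only [mem_filter, mem_offDiag, mem_univ, true_and]
      tauto
    rw [this, offDiag_card, lv, Nat.mul_sub, mul_one]
  rw [sum_congr rfl e1, sum_comm]
  have e2 : ∀ p ∈ (univ : Finset V).offDiag,
      (∑ G ∈ cc C V, if ((∃ u, Lf G p.1 u) ∧ (∃ u, Lf G p.2 u)) then 1 else 0) =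
        (Fintype.card V - 2) ^ 2 * cnt C (Fintype.card V - 2) := by
    intro p hp
    rw [← card_filter, ← pairCount h1 h2 C hC hc (mem_offDiag.1 hp).2.2]
  rw [sum_congr rfl e2, sum_const, offDiag_card, card_univ, smul_eq_mul, ← Nat.mul_sub_one]

end L2_

open L2_ in
theorem p_L2 (h1 : T_GLS) (h2 : T_CARDS) : T_L2 := by
  intro C hC n hn
  have h := gen h1 h2 C hC (V := Fin (n + 2)) (by rw [Fintype.card_fin]; omega)
  simp only [Fintype.card_fin, Nat.add_sub_cancel] at h
  rw [h]
  have : n + 2 - 1 = n + 1 := by omega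
  rw [this]
  ring

end Pool.Agent.Pend
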