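import Pool.Agent.Pend.Targets

/-!
L71: the ratios are at least `100 / 71`.
-/

set_option autoImplicit false

namespace Pool.Agent.Pend

open Finset Classical Filter Topology

namespace L71_

private theorem aux (n A B C : ℝ) (hn : 1000 ≤ n) (hB : 0 < B) (hC : 0 < C)
    (h1 : (n + 1) ^ 2 * B ^ 2 ≤ C * (n ^ 2 * A + (n + 1) * B))
    (h2 : 2 * n * A ≤ (n + 2) * C) : B ≤ 71 / 100 * C := by
  by_contra hcon
  rw [not_le] at hcon
  have h3 : n * C * (2 * n * A) ≤ n * C * ((n + 2) * C) :=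
    mul_le_mul_of_nonneg_left h2 (by positivity)
  have h4 : (n + 1) * ((n + 1) * B ^ 2 - B * C) ≤ (n + 1) * ((n + 1) * C ^ 2 / 2) := by
    nlinarith [sq_nonneg C]
  have h5 : (n + 1) * B ^ 2 - B * C ≤ (n + 1) * C ^ 2 / 2 :=
    le_of_mul_le_mul_left h4 (by linarith)
  have h6 : 0 < (B - 71 / 100 * C) * ((n + 1) * B + 71 / 100 * (n + 1) * C - C) := by
    refine mul_pos (by linarith) ?_
    have : 0 < (n + 1) * B := by positivity
    nlinarith
  have h7 : 0 < C ^ 2 * (5041 / 10000 * (n + 1) - 71 / 100 - (n + 1) / 2) := by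
    refine mul_pos (by positivity) (by linarith)
  nlinarith

end L71_

open L71_ in
/-- L71. -/
theorem p_L71 : T_L71 := by
  intro a n₀ hpos h1 h2
  refine ⟨max n₀ 1000 + 1, ?_⟩
  intro m hm
  obtain ⟨n, rfl⟩ : ∃ n, m = n + 1 := ⟨m - 1, by omega⟩
  have hn0 : n₀ ≤ n := by omega
  have hn : (1000 : ℝ) ≤ n := by
    have : 1000 ≤ n := by omega
    exact_mod_cast this
  exact aux n (a n) (a (n + 1)) (a (n + 2)) hn (hpos _ (by omega)) (hpos _ (by omega))
    (h1 n hn0) (h2 n hn0)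

end Pool.Agent.Pend
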