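import Pool.Agent.Pend.Targets

/-!
LAM: pendant sets are nested, disjoint or cover everything.
-/

set_option autoImplicit false

namespace Pool.Agent.Pend

open Finset Classical

namespace LAM_

/-- a nontrivial cut of a connected graph is crossed by an edge -/
private theorem cross {V : Type} (G : SimpleGraph V) (hG : G.Connected) (P : V → Prop) {a b : V}
    (ha : P a) (hb : ¬ P b) : ∃ u v, P u ∧ ¬ P v ∧ G.Adj u v := by
  obtain ⟨w⟩ := hG.preconnected a b
  obtain ⟨d, -, h1, h2⟩ := w.exists_boundary_dart {v | P v} ha hb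
  exact ⟨d.fst, d.snd, h1, h2, d.adj⟩

/-- an edge leaving a union of parts is one of the two edges -/
private theorem sep {V : Type} (G : SimpleGraph V) (A B : Finset V) (r x r' x' : V)
    (hG : G.Connected) (hA : Pnd G A r x) (hB : Pnd G B r' x') (P : V → Prop)
    (hP : ∀ a b, (a ∈ A ↔ b ∈ A) → (a ∈ B ↔ b ∈ B) → (P a ↔ P b))
    {a b : V} (ha : P a) (hb : ¬ P b) : ¬ (P r ↔ P x) ∨ ¬ (P r' ↔ P x') := by
  obtain ⟨u, v, hu, hv, huv⟩ := cross G hG P ha hb
  by_cases h1 : u ∈ A ↔ v ∈ A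
  · by_cases h2 : u ∈ B ↔ v ∈ B
    · exact absurd ((hP u v h1 h2).1 hu) hv
    · right
      by_cases h3 : u ∈ B
      · have h4 : v ∉ B := fun h => h2 ⟨fun _ => h, fun _ => h3⟩
        obtain ⟨e1, e2⟩ := (hB.2.2 u h3 v h4).1 huv
        rw [← e1, ← e2]
        exact fun h => hv (h.1 hu)
      · have h4 : v ∈ B := by
          by_contra h
          exact h2 ⟨fun h' => absurd h' h3, fun h' => absurd h' h⟩
        obtain ⟨e1, e2⟩ := (hB.2.2 v h4 u h3).1 huv.symm
        rw [← e1, ← e2]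
        exact fun h => hv (h.2 hu)
  · left
    by_cases h3 : u ∈ A
    · have h4 : v ∉ A := fun h => h1 ⟨fun _ => h, fun _ => h3⟩
      obtain ⟨e1, e2⟩ := (hA.2.2 u h3 v h4).1 huv
      rw [← e1, ← e2]
      exact fun h => hv (h.1 hu)
    · have h4 : v ∈ A := by
        by_contra h
        exact h1 ⟨fun h' => absurd h' h3, fun h' => absurd h' h⟩
      obtain ⟨e1, e2⟩ := (hA.2.2 v h4 u h3).1 huv.symm
      rw [← e1, ← e2]
      exact fun h => hv (h.2 hu)

end LAM_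

open LAM_ in
/-- LAM. -/
theorem p_LAM : T_LAM := by
  intro V _ G A B r x r' x' hG hA hB
  by_contra hcon
  simp only [not_or] at hcon
  obtain ⟨n1, n2, n3, n4⟩ := hcon
  obtain ⟨p1, hp1, hp1'⟩ := Finset.not_disjoint_iff.1 n1
  obtain ⟨p2, hp2, hp2'⟩ := Finset.not_subset.1 n2
  obtain ⟨p3, hp3, hp3'⟩ := Finset.not_subset.1 n3
  obtain ⟨p4, hp4⟩ : ∃ p, p ∉ A ∪ B := by
    by_contra h
    simp only [not_exists, not_not] at h
    exact n4 (Finset.eq_univ_iff_forall.2 h)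
  rw [Finset.mem_union, not_or] at hp4
  obtain ⟨hp4, hp4'⟩ := hp4
  have hr := hA.1
  have hx := hA.2.1
  have hr' := hB.1
  have hx' := hB.2.1
  have s1 := sep G A B r x r' x' hG hA hB (fun a => a ∈ A ∧ a ∈ B)
    (by intro a b h1 h2; simp only [h1, h2]) (a := p1) (b := p2) ⟨hp1, hp1'⟩ (fun h => hp2' h.2)
  have s2 := sep G A B r x r' x' hG hA hB (fun a => a ∈ A ∧ a ∉ B)
    (by intro a b h1 h2; simp only [h1, h2]) (a := p2) (b := p1) ⟨hp2, hp2'⟩ (fun h => h.2 hp1')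
  have s3 := sep G A B r x r' x' hG hA hB (fun a => a ∉ A ∧ a ∈ B)
    (by intro a b h1 h2; simp only [h1, h2]) (a := p3) (b := p1) ⟨hp3', hp3⟩ (fun h => h.1 hp1)
  have s4 := sep G A B r x r' x' hG hA hB (fun a => a ∉ A ∧ a ∉ B)
    (by intro a b h1 h2; simp only [h1, h2]) (a := p4) (b := p1) ⟨hp4, hp4'⟩ (fun h => h.1 hp1)
  have s6 := sep G A B r x r' x' hG hA hB (fun a => a ∈ B)
    (by intro a b h1 h2; simp only [h2]) (a := p1) (b := p2) hp1' hp2'
  have s7 := sep G A B r x r' x' hG hA hB (fun a => (a ∈ A ↔ a ∈ B))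
    (by intro a b h1 h2; simp only [h1, h2]) (a := p1) (b := p2) ⟨fun _ => hp1', fun _ => hp1⟩
    (fun h => hp2' (h.1 hp2))
  clear n1 n2 n3 n4
  by_cases c1 : r ∈ B <;> by_cases c2 : x ∈ B <;> by_cases c3 : r' ∈ A <;> by_cases c4 : x' ∈ A <;>
    simp [hr, hx, hr', hx', c1, c2, c3, c4] at s1 s2 s3 s4 s6 s7

end Pool.Agent.Pend
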