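import Pool.Agent.Pend.Targets

/-!
# LEAF2: a tree has a leaf different from a given vertex
-/

set_option autoImplicit false

namespace Pool.Agent.Pend

open Finset Classical

theorem p_LEAF2 : T_LEAF2 := by
  intro V _ G W r hT hW
  have hcard : Fintype.card ((W : Set V) : Type) = W.card := by simp
  have hnt : Nontrivial ((W : Set V) : Type) := by
    rw [← Fintype.one_lt_card_iff_nontrivial, hcard]
    omega
  obtain ⟨v₁, v₂, hne, h1, h2⟩ := hT.exists_ne_and_degree_eq_one
  have key : ∀ v : ((W : Set V) : Type), (G.induce (W : Set V)).degree v = 1 → v.1 ≠ r →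
      ∃ v ∈ W, v ≠ r ∧ ∃ u ∈ W, u ≠ v ∧ ∀ w ∈ W, (G.Adj v w ↔ w = u) := by
    intro v hv hvr
    rw [SimpleGraph.degree_eq_one_iff_existsUnique_adj] at hv
    obtain ⟨u, hu, huniq⟩ := hv
    refine ⟨v.1, v.2, hvr, u.1, u.2, ?_, ?_⟩
    · intro h
      exact (G.induce (W : Set V)).ne_of_adj hu (Subtype.ext h.symm)
    · intro w hw
      constructor
      · intro h
        have := huniq ⟨w, hw⟩ h
        exact congrArg Subtype.val this
      · intro h
        rw [h]
        exact hu
  by_cases h : v₁.1 = r
  · refine key v₂ h2 ?_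
    intro h'
    exact hne (Subtype.ext (h.trans h'.symm))
  · exact key v₁ h1 h

end Pool.Agent.Pend
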