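import Pool.Agent.Pend.Targets2

/-!
LFS: excluded minors with minimum degree at least 2 give leaf stable classes
(project Pend, MP_552896_co).
-/

set_option autoImplicit false

namespace Pool.Agent.Pend

open Finset Classical

namespace LFS_

section

variable {V : Type} {G : SimpleGraph V} {v u : V}

theorem u_mem (hl : Lf G v u) {S : Set V} (hS : (G.induce S).Connected) (hv : v ∈ S) {w : V}
    (hw : w ∈ S) (hwv : w ≠ v) : u ∈ S := by
  obtain ⟨p⟩ := hS.preconnected ⟨v, hv⟩ ⟨w, hw⟩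
  cases p with
  | nil => exact absurd rfl hwv
  | cons e _ =>
    rename_i y _
    have : G.Adj v y.1 := e
    have h2 := y.2
    rwa [(hl y.1).1 this] at h2

/-- move `v` to `u` -/
noncomputable def pr (v u : V) (w : V) : V := if w = v then u else w

theorem pr_mem (hl : Lf G v u) {S : Set V} (hS : (G.induce S).Connected) (w0 : V) (hw0 : w0 ∈ S)
    (hwv : w0 ≠ v) (w : V) (hw : w ∈ S) : pr v u w ∈ S ∧ pr v u w ≠ v := by
  have huv : u ≠ v := fun e => G.irrefl (e ▸ (hl u).2 rfl : G.Adj v v)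
  unfold pr
  split
  · next h => exact ⟨u_mem hl hS (h ▸ hw) hw0 hwv, huv⟩
  · next h => exact ⟨hw, h⟩

theorem walk (hl : Lf G v u) {S : Set V} (hS : (G.induce S).Connected) (w0 : V) (hw0 : w0 ∈ S)
    (hwv : w0 ≠ v) {x y : S} (p : (G.induce S).Walk x y) :
    ((G.induce {w | w ≠ v}).induce {w : {w | w ≠ v} | w.1 ∈ S}).Reachable
      ⟨⟨pr v u x, (pr_mem hl hS w0 hw0 hwv x x.2).2⟩, (pr_mem hl hS w0 hw0 hwv x x.2).1⟩
      ⟨⟨pr v u y, (pr_mem hl hS w0 hw0 hwv y y.2).2⟩, (pr_mem hl hS w0 hw0 hwv y y.2).1⟩ := by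
  induction p with
  | nil => exact SimpleGraph.Reachable.refl _
  | cons e _ ih =>
    rename_i a b c _
    have hab : G.Adj a.1 b.1 := e
    refine SimpleGraph.Reachable.trans ?_ ih
    by_cases h1 : a.1 = v
    · have h2 : b.1 = u := (hl b.1).1 (h1 ▸ hab)
      have h3 : pr v u a.1 = pr v u b.1 := by
        have huv : u ≠ v := fun e => G.irrefl (e ▸ (hl u).2 rfl : G.Adj v v)
        rw [h1, h2]
        simp [pr, huv]
      exact (congrArg _ (Subtype.ext (Subtype.ext h3.symm))).mpr (SimpleGraph.Reachable.refl _)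
    · by_cases h2 : b.1 = v
      · have h4 : a.1 = u := (hl a.1).1 (h2 ▸ hab).symm
        have h3 : pr v u a.1 = pr v u b.1 := by
          have huv : u ≠ v := fun e => G.irrefl (e ▸ (hl u).2 rfl : G.Adj v v)
          rw [h2, h4]
          simp [pr, huv]
        exact (congrArg _ (Subtype.ext (Subtype.ext h3.symm))).mpr (SimpleGraph.Reachable.refl _)
      · refine SimpleGraph.Adj.reachable ?_
        show G.Adj (pr v u a.1) (pr v u b.1)
        simpa [pr, h1, h2] using hab

theorem conn (hl : Lf G v u) {S : Set V} (hS : (G.induce S).Connected) (w0 : V) (hw0 : w0 ∈ S)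
    (hwv : w0 ≠ v) :
    ((G.induce {w | w ≠ v}).induce {w : {w | w ≠ v} | w.1 ∈ S}).Connected := by
  have : Nonempty {w : {w | w ≠ v} | w.1 ∈ S} := ⟨⟨⟨w0, hwv⟩, hw0⟩⟩
  refine SimpleGraph.Connected.mk ?_
  rintro ⟨⟨x, hx⟩, hx'⟩ ⟨⟨y, hy⟩, hy'⟩
  obtain ⟨p⟩ := hS.preconnected ⟨x, hx'⟩ ⟨y, hy'⟩
  have h := walk hl hS w0 hw0 hwv p
  have hx1 : pr v u x = x := if_neg hx
  have hy1 : pr v u y = y := if_neg hy
  simpa only [hx1, hy1] using h

end

end LFS_

open LFS_ in
theorem p_LFS (h1 : T_MTRANS) (h2 : T_MSUB) : T_LFS := by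
  intro F hF
  refine ⟨?_, ?_⟩
  · rintro V W G H ⟨e⟩ hG U X hX hm
    exact hG U X hX (h1 U W V X H G hm (h2 W V H G e.symm e.symm.injective
      (fun a b h => (e.symm.map_adj_iff).2 h)))
  · intro V _ G v u hG hl
    have huv : u ≠ v := fun e => G.irrefl (e ▸ (hl u).2 rfl : G.Adj v v)
    constructor
    · intro hfree U X hX hm
      exact hfree U X hX (h1 U _ V X _ G hm (h2 _ V _ G Subtype.val Subtype.val_injective
        (fun a b h => h)))
    · rintro hfree U X hX ⟨f, hf, hfd, hfa⟩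
      -- no branch set is `{v}`
      have hne : ∀ a, ∃ w ∈ f a, w ≠ v := by
        intro a
        by_contra hcon
        push Not at hcon
        obtain ⟨b, b', hbb, hb, hb'⟩ := hF U X hX a
        obtain ⟨x, hx, y, hy, hxy⟩ := hfa a b hb
        obtain ⟨x', hx', y', hy', hxy'⟩ := hfa a b' hb'
        rw [hcon x hx] at hxy
        rw [hcon x' hx'] at hxy'
        rw [(hl y).1 hxy] at hy
        rw [(hl y').1 hxy'] at hy'
        exact Set.disjoint_left.1 (hfd b b' hbb) hy hy'
      have hu : ∀ a, v ∈ f a → u ∈ f a := by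
        intro a hv
        obtain ⟨w, hw, hwv⟩ := hne a
        exact u_mem hl (hf a) hv hw hwv
      refine hfree U X hX ⟨fun a => {w : {w | w ≠ v} | w.1 ∈ f a}, fun a => ?_, fun a b hab => ?_,
        fun a b hab => ?_⟩
      · obtain ⟨w, hw, hwv⟩ := hne a
        exact conn hl (hf a) w hw hwv
      · rw [Set.disjoint_left]
        rintro ⟨x, hx⟩ h h'
        exact Set.disjoint_left.1 (hfd a b hab) h h'
      · obtain ⟨x, hx, y, hy, hxy⟩ := hfa a b hab
        have hxv : x ≠ v := by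
          rintro rfl
          have := (hl y).1 hxy
          rw [this] at hy
          exact Set.disjoint_left.1 (hfd a b hab.ne) (hu a hx) hy
        have hyv : y ≠ v := by
          rintro rfl
          have := (hl x).1 hxy.symm
          rw [this] at hx
          exact Set.disjoint_left.1 (hfd a b hab.ne) hx (hu b hy)
        exact ⟨⟨x, hxv⟩, hx, ⟨y, hyv⟩, hy, hxy⟩

end Pool.Agent.Pend
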