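import Pool.Agent.Pend.Targets2

/-!
# PND, target MADER: graphs without `K_t` minor have few edges
-/

set_option autoImplicit false

namespace Pool.Agent.Pend

open Finset Classical

namespace MADER_

/-- counting pairs by the first coordinate -/
private lemma card_pairs {V : Type} [Fintype V] (P : V → V → Prop) :
    (univ.filter (fun p : V × V => P p.1 p.2)).card =
      ∑ a, (univ.filter (fun b => P a b)).card := by
  rw [Finset.card_filter, Fintype.sum_prod_type]
  refine Finset.sum_congr rfl fun a _ => ?_
  rw [Finset.card_filter]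

/-- the contraction of the edge `x y` -/
private def contr {V : Type} (G : SimpleGraph V) (x y : V) : SimpleGraph {v : V // v ≠ y} where
  Adj a b := a ≠ b ∧ (G.Adj a.1 b.1 ∨ (a.1 = x ∧ G.Adj y b.1) ∨ (b.1 = x ∧ G.Adj a.1 y))
  symm := ⟨fun a b h => ⟨h.1.symm, by
    rcases h.2 with h | ⟨h1, h2⟩ | ⟨h1, h2⟩
    · exact Or.inl h.symm
    · exact Or.inr (Or.inr ⟨h1, h2.symm⟩)
    · exact Or.inr (Or.inl ⟨h1, h2.symm⟩)⟩⟩
  loopless := ⟨fun a h => h.1 rfl⟩

private lemma conn_of_eq {V : Type} (G : SimpleGraph V) (S T : Set V) (h : S = T)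
    (hT : (G.induce T).Connected) : (G.induce S).Connected := by
  subst h
  exact hT

private lemma conn_single {V : Type} (G : SimpleGraph V) (x : V) :
    (G.induce ({x} : Set V)).Connected := by
  have : Nonempty ({x} : Set V) := ⟨⟨x, rfl⟩⟩
  refine ⟨?_⟩
  rintro ⟨u, hu⟩ ⟨v, hv⟩
  have : u = v := hu.trans hv.symm
  subst this
  exact SimpleGraph.Reachable.refl _

private lemma contr_minor {V : Type} (G : SimpleGraph V) (x y : V) (h : G.Adj x y) :
    Minor (contr G x y) G := by
  refine ⟨fun a => if a.1 = x then {x, y} else {a.1}, ?_, ?_, ?_⟩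
  · intro a
    by_cases ha : a.1 = x
    · exact conn_of_eq G _ {x, y} (if_pos ha) (SimpleGraph.induce_pair_connected_of_adj h)
    · exact conn_of_eq G _ {a.1} (if_neg ha) (conn_single G a.1)
  · intro a b hab
    have hne : a.1 ≠ b.1 := fun h => hab (Subtype.ext h)
    rw [Set.disjoint_left]
    intro u hu hu'
    by_cases ha : a.1 = x
    · have hb : b.1 ≠ x := fun h => hne (ha.trans h.symm)
      simp only [ha, if_true, hb, if_false, Set.mem_insert_iff, Set.mem_singleton_iff] at hu hu'
      rcases hu with hu | hu
      · exact hb (hu'.symm.trans hu)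
      · exact b.2 (hu'.symm.trans hu)
    · by_cases hb : b.1 = x
      · simp only [ha, if_false, hb, if_true, Set.mem_insert_iff, Set.mem_singleton_iff] at hu hu'
        rcases hu' with hu' | hu'
        · exact ha (hu.symm.trans hu')
        · exact a.2 (hu.symm.trans hu')
      · simp only [ha, hb, if_false, Set.mem_singleton_iff] at hu hu'
        exact hne (hu.symm.trans hu')
  · rintro a b ⟨hab, hadj⟩
    have hmem : ∀ c : {v : V // v ≠ y}, c.1 ∈ (if c.1 = x then ({x, y} : Set V) else {c.1}) := by
      intro c
      by_cases hc : c.1 = x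
      · rw [if_pos hc]; exact Or.inl hc
      · rw [if_neg hc]; rfl
    rcases hadj with hadj | ⟨h1, h2⟩ | ⟨h1, h2⟩
    · exact ⟨a.1, hmem a, b.1, hmem b, hadj⟩
    · exact ⟨y, by simp [h1], b.1, hmem b, h2⟩
    · exact ⟨a.1, hmem a, y, by simp [h1], h2⟩

/-- number of edges of the contraction -/
private lemma contr_count {V : Type} [Fintype V] (G : SimpleGraph V) (x y : V) (h : G.Adj x y) :
    eo G ≤ eo (contr G x y) +
      (2 + 2 * (univ.filter (fun b => G.Adj x b ∧ G.Adj y b)).card) := by
  set C : Finset V := univ.filter (fun b => G.Adj x b ∧ G.Adj y b) with hC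
  have hmC : ∀ b, b ∈ C ↔ G.Adj x b ∧ G.Adj y b := by intro b; simp [hC]
  set B : Finset (V × V) := (({(y, x)} : Finset (V × V)) ∪ {(x, y)}) ∪
    (C.image (fun b => (y, b)) ∪ C.image (fun a => (a, y))) with hB
  have hBcard : B.card ≤ 2 + 2 * C.card := by
    have h1 : B.card ≤ (({(y, x)} : Finset (V × V)) ∪ {(x, y)}).card +
        (C.image (fun b => (y, b)) ∪ C.image (fun a => (a, y))).card := Finset.card_union_le _ _
    have h2 : (({(y, x)} : Finset (V × V)) ∪ {(x, y)}).card ≤ 1 + 1 := by
      refine (Finset.card_union_le _ _).trans ?_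
      simp
    have h3 : (C.image (fun b => (y, b)) ∪ C.image (fun a => (a, y))).card ≤ C.card + C.card := by
      refine (Finset.card_union_le _ _).trans ?_
      exact Nat.add_le_add Finset.card_image_le Finset.card_image_le
    omega
  set E : Finset (V × V) := univ.filter (fun p : V × V => G.Adj p.1 p.2) with hE
  have hEB : E.card ≤ (E \ B).card + B.card := by
    have := Finset.card_le_card (show E ⊆ (E \ B) ∪ B by
      intro p hp
      by_cases hpB : p ∈ B
      · exact Finset.mem_union_right _ hpB
      · exact Finset.mem_union_left _ (Finset.mem_sdiff.mpr ⟨hp, hpB⟩))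
    exact this.trans (Finset.card_union_le _ _)
  let r : V → {v : V // v ≠ y} := fun a => ⟨if a = y then x else a, by
    by_cases ha : a = y
    · rw [if_pos ha]; exact h.ne
    · rw [if_neg ha]; exact ha⟩
  have hr1 : (r y).1 = x := by simp [r]
  have hr2 : ∀ a, a ≠ y → (r a).1 = a := by intro a ha; simp [r, ha]
  have hnB : ∀ a b, (a, b) ∉ B → ¬ (a = y ∧ b = x) ∧ ¬ (a = x ∧ b = y) ∧
      ¬ (a = y ∧ G.Adj x b ∧ G.Adj y b) ∧ ¬ (b = y ∧ G.Adj x a ∧ G.Adj y a) := by
    intro a b hab
    refine ⟨?_, ?_, ?_, ?_⟩
    · rintro ⟨rfl, rfl⟩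
      exact hab (by simp [hB])
    · rintro ⟨rfl, rfl⟩
      exact hab (by simp [hB])
    · rintro ⟨rfl, h1⟩
      apply hab
      rw [hB]
      refine Finset.mem_union_right _ (Finset.mem_union_left _ ?_)
      exact Finset.mem_image.mpr ⟨b, (hmC b).mpr h1, rfl⟩
    · rintro ⟨rfl, h1⟩
      apply hab
      rw [hB]
      refine Finset.mem_union_right _ (Finset.mem_union_right _ ?_)
      exact Finset.mem_image.mpr ⟨a, (hmC a).mpr h1, rfl⟩
  have hmain : (E \ B).card ≤ eo (contr G x y) := by
    unfold eo
    apply Finset.card_le_card_of_injOn (fun p : V × V => (r p.1, r p.2))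
    · rintro ⟨a, b⟩ hp
      have hp' := Finset.mem_sdiff.mp (Finset.mem_coe.mp hp)
      have hadj : G.Adj a b := by simpa [hE] using hp'.1
      obtain ⟨n1, n2, n3, n4⟩ := hnB a b hp'.2
      simp only [Finset.coe_filter, Finset.mem_univ, true_and, Set.mem_ofPred_eq]
      by_cases ha : a = y
      · subst ha
        have hb : b ≠ a := hadj.ne.symm
        have hbx : b ≠ x := fun hbx => n1 ⟨rfl, hbx⟩
        refine ⟨?_, Or.inr (Or.inl ⟨hr1, ?_⟩)⟩
        · intro he
          have := congrArg Subtype.val he
          rw [hr1, hr2 b hb] at this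
          exact hbx this.symm
        · rw [hr2 b hb]; exact hadj
      · by_cases hb : b = y
        · subst hb
          have hax : a ≠ x := fun hax => n2 ⟨hax, rfl⟩
          refine ⟨?_, Or.inr (Or.inr ⟨hr1, ?_⟩)⟩
          · intro he
            have := congrArg Subtype.val he
            rw [hr1, hr2 a ha] at this
            exact hax this
          · rw [hr2 a ha]; exact hadj
        · refine ⟨?_, Or.inl ?_⟩
          · intro he
            have := congrArg Subtype.val he
            rw [hr2 a ha, hr2 b hb] at this
            exact hadj.ne this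
          · rw [hr2 a ha, hr2 b hb]; exact hadj
    · rintro ⟨a, b⟩ hp ⟨a', b'⟩ hp' he
      have hq := Finset.mem_sdiff.mp (Finset.mem_coe.mp hp)
      have hq' := Finset.mem_sdiff.mp (Finset.mem_coe.mp hp')
      have hadj : G.Adj a b := by simpa [hE] using hq.1
      have hadj' : G.Adj a' b' := by simpa [hE] using hq'.1
      obtain ⟨n1, n2, n3, n4⟩ := hnB a b hq.2
      obtain ⟨m1, m2, m3, m4⟩ := hnB a' b' hq'.2
      have he1 : (r a).1 = (r a').1 := by
        have := congrArg (fun q : {v : V // v ≠ y} × {v : V // v ≠ y} => q.1.1) he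
        exact this
      have he2 : (r b).1 = (r b').1 := by
        have := congrArg (fun q : {v : V // v ≠ y} × {v : V // v ≠ y} => q.2.1) he
        exact this
      by_cases ha : a = y
      · have hb : b ≠ y := fun hb => hadj.ne (ha.trans hb.symm)
        rw [hr2 b hb] at he2
        by_cases ha' : a' = y
        · have hb' : b' ≠ y := fun hb => hadj'.ne (ha'.trans hb.symm)
          rw [hr2 b' hb'] at he2
          rw [ha, ha', he2]
        · rw [ha, hr1, hr2 a' ha'] at he1
          by_cases hb' : b' = y
          · rw [hb', hr1] at he2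
            exact absurd ⟨ha, he2⟩ n1
          · rw [hr2 b' hb'] at he2
            exact absurd ⟨ha, by rw [he1, he2]; exact hadj', by rw [← ha]; exact hadj⟩ n3
      · rw [hr2 a ha] at he1
        by_cases ha' : a' = y
        · have hb' : b' ≠ y := fun hb => hadj'.ne (ha'.trans hb.symm)
          rw [ha', hr1] at he1
          rw [hr2 b' hb'] at he2
          by_cases hb : b = y
          · rw [hb, hr1] at he2
            exact absurd ⟨ha', he2.symm⟩ m1
          · rw [hr2 b hb] at he2
            exact absurd ⟨ha', by rw [← he1, ← he2]; exact hadj, by rw [← ha']; exact hadj'⟩ m3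
        · rw [hr2 a' ha'] at he1
          by_cases hb : b = y
          · by_cases hb' : b' = y
            · rw [he1, hb, hb']
            · rw [hb, hr1, hr2 b' hb'] at he2
              refine absurd ⟨hb, ?_, ?_⟩ n4
              · rw [he2, he1]; exact hadj'.symm
              · rw [← hb]; exact hadj.symm
          · rw [hr2 b hb] at he2
            by_cases hb' : b' = y
            · rw [hb', hr1] at he2
              refine absurd ⟨hb', ?_, ?_⟩ m4
              · rw [← he2, ← he1]; exact hadj.symm
              · rw [← hb']; exact hadj'.symm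
            · rw [hr2 b' hb'] at he2
              rw [he1, he2]
  have : eo G = E.card := rfl
  omega

/-- adding a vertex adjacent to everything -/
private lemma cone {V : Type} (G : SimpleGraph V) (x : V) (t : ℕ)
    (h : Minor (⊤ : SimpleGraph (Fin t)) (G.induce {b | G.Adj x b})) :
    Minor (⊤ : SimpleGraph (Fin (t + 1))) G := by
  obtain ⟨f, hf1, hf2, hf3⟩ := h
  have himg : ∀ i, (G.induce (Subtype.val '' f i : Set V)).Connected := by
    intro i
    have e : (G.induce {b | G.Adj x b}).induce (f i) ≃g
        G.induce (Subtype.val '' f i : Set V) :=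
      { toEquiv := Equiv.Set.image _ (f i) Subtype.val_injective
        map_rel_iff' := by
          intro a b
          rfl }
    exact e.connected_iff.mp (hf1 i)
  refine ⟨Fin.cases {x} (fun i => (Subtype.val '' f i : Set V)), ?_, ?_, ?_⟩
  · intro a
    refine Fin.cases ?_ (fun i => ?_) a
    · exact conn_single G x
    · exact himg i
  · intro a b
    refine Fin.cases ?_ (fun i => ?_) a
    · refine Fin.cases ?_ (fun j => ?_) b
      · intro h; exact absurd rfl h
      · intro _
        simp only [Fin.cases_zero, Fin.cases_succ, Set.disjoint_left]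
        rintro u hu ⟨v, _, hv⟩
        rw [Set.mem_singleton_iff] at hu
        have h1 : G.Adj x v.1 := v.2
        rw [hv, hu] at h1
        exact h1.ne rfl
    · refine Fin.cases ?_ (fun j => ?_) b
      · intro _
        simp only [Fin.cases_zero, Fin.cases_succ, Set.disjoint_left]
        rintro u ⟨v, _, hv⟩ hu
        rw [Set.mem_singleton_iff] at hu
        have h1 : G.Adj x v.1 := v.2
        rw [hv, hu] at h1
        exact h1.ne rfl
      · intro hij
        simp only [Fin.cases_succ]
        have : i ≠ j := fun h => hij (by rw [h])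
        exact (Set.disjoint_image_iff Subtype.val_injective).mpr (hf2 i j this)
  · intro a b
    refine Fin.cases ?_ (fun i => ?_) a
    · refine Fin.cases ?_ (fun j => ?_) b
      · intro h; exact absurd h (by simp)
      · intro _
        simp only [Fin.cases_zero, Fin.cases_succ]
        obtain ⟨⟨v, hv⟩⟩ := (hf1 j).nonempty
        exact ⟨x, rfl, v.1, ⟨v, hv, rfl⟩, v.2⟩
    · refine Fin.cases ?_ (fun j => ?_) b
      · intro _
        simp only [Fin.cases_zero, Fin.cases_succ]
        obtain ⟨⟨v, hv⟩⟩ := (hf1 i).nonempty
        exact ⟨v.1, ⟨v, hv, rfl⟩, x, rfl, SimpleGraph.Adj.symm v.2⟩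
      · intro hij
        simp only [Fin.cases_succ]
        have hne : i ≠ j := fun h => by
          rw [h] at hij
          simp at hij
        obtain ⟨u, hu, v, hv, huv⟩ := hf3 i j (by simpa using hne)
        exact ⟨u.1, ⟨u, hu, rfl⟩, v.1, ⟨v, hv, rfl⟩, huv⟩

private lemma minor_zero {V : Type} (G : SimpleGraph V) : Minor (⊤ : SimpleGraph (Fin 0)) G :=
  ⟨fun a => a.elim0, fun a => a.elim0, fun a => a.elim0, fun a => a.elim0⟩

private lemma main (h1 : T_MTRANS) (t : ℕ) : ∀ (V : Type) [Fintype V] [Nonempty V]
    (G : SimpleGraph V), 2 ^ t * Fintype.card V ≤ eo G → Minor (⊤ : SimpleGraph (Fin t)) G := by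
  induction t with
  | zero => intro V _ _ G _; exact minor_zero G
  | succ t ih =>
    have key : ∀ n : ℕ, ∀ (V : Type) [Fintype V] [Nonempty V] (G : SimpleGraph V),
        Fintype.card V = n → 2 ^ (t + 1) * Fintype.card V ≤ eo G →
        Minor (⊤ : SimpleGraph (Fin (t + 1))) G := by
      intro n
      induction n using Nat.strong_induction_on with
      | _ n IH =>
        intro V _ _ G hn hG
        have hpos : 0 < Fintype.card V := Fintype.card_pos
        have heo : 0 < eo G := lt_of_lt_of_le (by positivity) hG
        have hex : ∃ p : V × V, G.Adj p.1 p.2 := by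
          obtain ⟨p, hp⟩ := Finset.card_pos.mp heo
          exact ⟨p, by simpa using hp⟩
        by_cases hc : ∃ x y, G.Adj x y ∧
            2 ^ (t + 1) * Fintype.card {v : V // v ≠ y} ≤ eo (contr G x y)
        · obtain ⟨x, y, hxy, hle⟩ := hc
          have : Nonempty {v : V // v ≠ y} := ⟨⟨x, hxy.ne⟩⟩
          have hlt : Fintype.card {v : V // v ≠ y} < n := by
            rw [← hn]
            exact Fintype.card_subtype_lt (x := y) (by simp)
          exact h1 _ _ _ _ _ _ (IH _ hlt _ (contr G x y) rfl hle) (contr_minor G x y hxy)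
        · push Not at hc
          obtain ⟨⟨x, y₀⟩, hxy₀⟩ := hex
          have hcom : ∀ y, G.Adj x y →
              2 ^ t ≤ (univ.filter (fun b => G.Adj x b ∧ G.Adj y b)).card := by
            intro y hxy
            have h2 := hc x y hxy
            have h3 := contr_count G x y hxy
            have h4 : Fintype.card {v : V // v ≠ y} = Fintype.card V - 1 := Set.card_ne_eq y
            rw [h4] at h2
            have h5 : 2 ^ (t + 1) * Fintype.card V =
                2 ^ (t + 1) * (Fintype.card V - 1) + 2 ^ (t + 1) := by
              conv_lhs => rw [← Nat.sub_add_cancel hpos]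
              ring
            have h6 : 2 ^ (t + 1) = 2 * 2 ^ t := by ring
            omega
          apply cone G x t
          have : Nonempty ({b | G.Adj x b} : Set V) := ⟨⟨y₀, hxy₀⟩⟩
          apply ih
          have hsum : eo (G.induce {b | G.Adj x b}) = ∑ a : ({b | G.Adj x b} : Set V),
              (univ.filter (fun b => (G.induce {b | G.Adj x b}).Adj a b)).card :=
            card_pairs (fun a b => (G.induce {b | G.Adj x b}).Adj a b)
          rw [hsum]
          have hle : ∀ a : ({b | G.Adj x b} : Set V), 2 ^ t ≤
              (univ.filter (fun b => (G.induce {b | G.Adj x b}).Adj a b)).card := by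
            intro a
            refine (hcom a.1 a.2).trans ?_
            have : univ.filter (fun b => G.Adj x b ∧ G.Adj a.1 b) =
                (univ.filter (fun b => (G.induce {b | G.Adj x b}).Adj a b)).map
                  ⟨Subtype.val, Subtype.val_injective⟩ := by
              ext b
              simp only [Finset.mem_filter, Finset.mem_univ, true_and, Finset.mem_map,
                Function.Embedding.coeFn_mk]
              constructor
              · rintro ⟨h1, h2⟩
                exact ⟨⟨b, h1⟩, h2, rfl⟩
              · rintro ⟨c, hc, rfl⟩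
                exact ⟨c.2, hc⟩
            rw [this, Finset.card_map]
          calc 2 ^ t * Fintype.card ({b | G.Adj x b} : Set V)
              = ∑ a : ({b | G.Adj x b} : Set V), 2 ^ t := by
                rw [Finset.sum_const, Finset.card_univ, smul_eq_mul, mul_comm]
            _ ≤ _ := Finset.sum_le_sum fun a _ => hle a
    intro V _ _ G hG
    exact key _ V G rfl hG

end MADER_

theorem p_MADER (h1 : T_MTRANS) (_h2 : T_MSUB) : T_MADER := by
  intro t V _ G hG
  by_contra hcon
  push Not at hcon
  apply hG
  have hne : Nonempty V := by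
    by_contra hemp
    rw [not_nonempty_iff] at hemp
    have : eo G = 0 := by
      unfold eo
      rw [Finset.card_eq_zero, Finset.filter_eq_empty_iff]
      intro p
      exact hemp.elim p.1
    omega
  exact MADER_.main h1 t V G hcon.le

end Pool.Agent.Pend
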