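import Pool.Agent.Pend.Targets

/-!
Pend, MAIN, MAINS, MAINB: assembly.
-/

set_option autoImplicit false

namespace Pool.Agent.Pend

open Finset Classical Filter Topology

namespace MAIN_

lemma rec_cases (h1 : T_START) (h2 : T_DET) (h3 : T_DSC1) (h4 : T_DSC2) (h5 : T_DSC3)
    {V : Type} [Fintype V] (G : SimpleGraph V) (k : ℕ) (hn : 4 * (k + 3) + 2 ≤ Fintype.card V)
    (hG : ¬ Rec G) :
    G.Connected ∧ ((∀ W, ¬ Gd k G W) ∨ lv G ≤ 2 * (k + 3) ∨ Col k G) := by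
  obtain ⟨H, ψ, hH⟩ := h1 V G hG
  have hc : G.Connected := by
    by_contra hc
    have hHc := h5 V G H ψ hH (by omega) hc
    exact hH.non (h4 V G H (fun g hg s => h3 V G H ψ g hH (by omega) hc hHc hg s))
  refine ⟨hc, ?_⟩
  by_contra hcon
  push Not at hcon
  obtain ⟨hW, hl, hcol⟩ := hcon
  exact h2 V G H ψ k hH hc hW hl hcol hn

lemma mem_cc {V : Type} [Fintype V] (C : (V : Type) → SimpleGraph V → Prop)
    (G : SimpleGraph V) : G ∈ cc C V ↔ G.Connected ∧ C V G := by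
  unfold cc
  rw [mem_filter]
  exact and_iff_right (mem_univ _)

lemma bound (h1 : T_START) (h2 : T_DET) (h3 : T_DSC1) (h4 : T_DSC2) (h5 : T_DSC3)
    (C : (V : Type) → SimpleGraph V → Prop) (n k : ℕ) (hn : 4 * (k + 3) + 2 ≤ n) :
    (univ.filter (fun G : SimpleGraph (Fin n) => C (Fin n) G ∧ ¬ Rec G)).card ≤
      ((cc C (Fin n)).filter (fun K => ∀ W, ¬ Gd k K W)).card +
      ((cc C (Fin n)).filter (fun G => lv G ≤ 2 * (k + 3))).card +
      ((cc C (Fin n)).filter (fun G => Col k G)).card := by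
  refine le_trans (card_le_card (t := ((cc C (Fin n)).filter (fun K => ∀ W, ¬ Gd k K W)) ∪
    ((cc C (Fin n)).filter (fun G => lv G ≤ 2 * (k + 3))) ∪
    ((cc C (Fin n)).filter (fun G => Col k G))) ?_) ?_
  · intro G hG
    obtain ⟨hG1, hG2⟩ := (mem_filter.1 hG).2
    have hn' : 4 * (k + 3) + 2 ≤ Fintype.card (Fin n) := by rw [Fintype.card_fin]; exact hn
    obtain ⟨hc, h⟩ := rec_cases h1 h2 h3 h4 h5 G k hn' hG2
    have hcc : G ∈ cc C (Fin n) := (mem_cc C G).2 ⟨hc, hG1⟩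
    rcases h with h | h | h
    · exact mem_union_left _ (mem_union_left _ (mem_filter.2 ⟨hcc, h⟩))
    · exact mem_union_left _ (mem_union_right _ (mem_filter.2 ⟨hcc, h⟩))
    · exact mem_union_right _ (mem_filter.2 ⟨hcc, h⟩)
  · refine le_trans (card_union_le _ _) ?_
    exact Nat.add_le_add_right (card_union_le _ _) _

lemma cnt_eq (C : (V : Type) → SimpleGraph V → Prop) (n : ℕ) :
    (cnt C n : ℝ) = aa C n * (n.factorial : ℝ) := by
  have h : (n.factorial : ℝ) ≠ 0 := by positivity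
  unfold aa
  field_simp

lemma aa_nonneg (C : (V : Type) → SimpleGraph V → Prop) (n : ℕ) : 0 ≤ aa C n := by
  unfold aa; positivity

lemma aa_pos (C : (V : Type) → SimpleGraph V → Prop) (n : ℕ) (h : 0 < cnt C n) : 0 < aa C n := by
  unfold aa
  have : (0 : ℝ) < cnt C n := by exact_mod_cast h
  positivity

noncomputable def ph (k : ℕ) : ℝ := (FF k : ℝ) / ((2 * (k + 3)).factorial : ℝ)

lemma FF_pos (h : T_FLO) (k : ℕ) : 0 < FF k := by
  by_contra hcon
  have h0 : FF k = 0 := by omega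
  have h1 := h k
  rw [h0] at h1
  have h2 : 0 < (2 * (k + 3)).factorial * (k + 3) ^ (k + 3) := by positivity
  omega

lemma ph_up (h : T_FUP) (k : ℕ) :
    ph k ≤ ((k : ℝ) + 3) ^ (k + 3) / ((k + 3).factorial : ℝ) := by
  have h1 : ((FF k : ℝ)) * ((k + 3).factorial : ℝ) ≤
      ((2 * (k + 3)).factorial : ℝ) * ((k : ℝ) + 3) ^ (k + 3) := by
    have := h k
    exact_mod_cast this
  unfold ph
  rw [div_le_div_iff₀ (by positivity) (by positivity)]
  linarith

lemma ph_lo (h : T_FLO) (k : ℕ) :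
    ((k : ℝ) + 3) ^ (k + 3) / ((k + 3).factorial : ℝ) / (2 * ((k : ℝ) + 3)) ^ 2 ≤ ph k := by
  have h1 : ((2 * (k + 3)).factorial : ℝ) * ((k : ℝ) + 3) ^ (k + 3) ≤
      (FF k : ℝ) * ((k + 3).factorial : ℝ) * (2 * ((k : ℝ) + 3)) ^ 2 := by
    have := h k
    exact_mod_cast this
  unfold ph
  rw [div_div, div_le_div_iff₀ (by positivity) (by positivity)]
  linarith

lemma est (h1 : T_START) (h2 : T_DET) (h3 : T_DSC1) (h4 : T_DSC2) (h5 : T_DSC3)
    (h6 : T_FEWL) (h7 : T_EXI) (h8 : T_COLL) (h9 : T_FLO)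
    (C : (V : Type) → SimpleGraph V → Prop) (hC : LeafStable C) (n k : ℕ)
    (hn : 4 * (k + 3) + 2 ≤ n) :
    ((univ.filter (fun G : SimpleGraph (Fin n) => C (Fin n) G ∧ ¬ Rec G)).card : ℝ) ≤
      (aa C (n + 2 * (k + 3)) / ((n : ℝ) * ph k) +
        (2 * ((k : ℝ) + 3) + 1) * aa C (n + 1) / (n : ℝ) +
      (n : ℝ) ^ 2 * (2 * ((k : ℝ) + 3) + 1) ^ 3 * ph k *
        (aa C (n - (4 * (k + 3) - 1)) + aa C (n - 4 * (k + 3)) + aa C (n - (4 * (k + 3) + 1)))) *
      (n.factorial : ℝ) := by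
  have hb := bound h1 h2 h3 h4 h5 C n k hn
  have hb' : ((univ.filter (fun G : SimpleGraph (Fin n) => C (Fin n) G ∧ ¬ Rec G)).card : ℝ) ≤
      (((cc C (Fin n)).filter (fun K => ∀ W, ¬ Gd k K W)).card : ℝ) +
      (((cc C (Fin n)).filter (fun G => lv G ≤ 2 * (k + 3))).card : ℝ) +
      (((cc C (Fin n)).filter (fun G => Col k G)).card : ℝ) := by exact_mod_cast hb
  have hn0 : (0 : ℝ) < n := by
    have : 0 < n := by omega
    exact_mod_cast this
  have hnf : (0 : ℝ) < (n.factorial : ℝ) := by positivity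
  have hF : (0 : ℝ) < FF k := by exact_mod_cast FF_pos h9 k
  have e1 : (((cc C (Fin n)).filter (fun K => ∀ W, ¬ Gd k K W)).card : ℝ) ≤
      aa C (n + 2 * (k + 3)) / ((n : ℝ) * ph k) * (n.factorial : ℝ) := by
    have h := h7 C hC n k (by omega)
    have h' : (((cc C (Fin n)).filter (fun K => ∀ W, ¬ Gd k K W)).card : ℝ) *
        (((n + 2 * (k + 3)).choose (2 * (k + 3)) : ℝ) * n * FF k) ≤
        (cnt C (n + 2 * (k + 3)) : ℝ) := by exact_mod_cast h
    have hch := Nat.choose_mul_factorial_mul_factorial (n := n + 2 * (k + 3))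
      (k := 2 * (k + 3)) (by omega)
    rw [Nat.add_sub_cancel] at hch
    have hch' : ((n + 2 * (k + 3)).choose (2 * (k + 3)) : ℝ) * ((2 * (k + 3)).factorial : ℝ) *
        (n.factorial : ℝ) = ((n + 2 * (k + 3)).factorial : ℝ) := by exact_mod_cast hch
    have hcp : (0 : ℝ) < ((n + 2 * (k + 3)).choose (2 * (k + 3)) : ℝ) := by
      have := Nat.choose_pos (n := n + 2 * (k + 3)) (k := 2 * (k + 3)) (by omega)
      exact_mod_cast this
    rw [cnt_eq, ← hch'] at h'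
    have hmf : (0 : ℝ) < ((2 * (k + 3)).factorial : ℝ) := by positivity
    have h'' : (((cc C (Fin n)).filter (fun K => ∀ W, ¬ Gd k K W)).card : ℝ) * (n * FF k) ≤
        aa C (n + 2 * (k + 3)) * (((2 * (k + 3)).factorial : ℝ) * (n.factorial : ℝ)) := by
      have h3 : (((cc C (Fin n)).filter (fun K => ∀ W, ¬ Gd k K W)).card : ℝ) * (n * FF k) *
          ((n + 2 * (k + 3)).choose (2 * (k + 3)) : ℝ) ≤
          aa C (n + 2 * (k + 3)) * (((2 * (k + 3)).factorial : ℝ) * (n.factorial : ℝ)) *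
            ((n + 2 * (k + 3)).choose (2 * (k + 3)) : ℝ) := by
        calc _ = (((cc C (Fin n)).filter (fun K => ∀ W, ¬ Gd k K W)).card : ℝ) *
          (((n + 2 * (k + 3)).choose (2 * (k + 3)) : ℝ) * n * FF k) := by ring
          _ ≤ _ := h'
          _ = _ := by ring
      exact le_of_mul_le_mul_right h3 hcp
    unfold ph
    rw [div_mul_eq_mul_div, le_div_iff₀ (by positivity)]
    calc _ = (((cc C (Fin n)).filter (fun K => ∀ W, ¬ Gd k K W)).card : ℝ) * (n * FF k) /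
        ((2 * (k + 3)).factorial : ℝ) := by ring
      _ ≤ aa C (n + 2 * (k + 3)) * (((2 * (k + 3)).factorial : ℝ) * (n.factorial : ℝ)) /
        ((2 * (k + 3)).factorial : ℝ) := by gcongr
      _ = _ := by field_simp
  have e2 : (((cc C (Fin n)).filter (fun G => lv G ≤ 2 * (k + 3))).card : ℝ) ≤
      (2 * ((k : ℝ) + 3) + 1) * aa C (n + 1) / (n : ℝ) * (n.factorial : ℝ) := by
    have h := h6 C hC n (2 * (k + 3)) (by omega)
    have h' : (((cc C (Fin n)).filter (fun G => lv G ≤ 2 * (k + 3))).card : ℝ) *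
        (((n : ℝ) + 1) * n) ≤ (2 * ((k : ℝ) + 3) + 1) * (cnt C (n + 1) : ℝ) := by
      exact_mod_cast h
    rw [cnt_eq, Nat.factorial_succ] at h'
    push_cast at h'
    have h3 : (((cc C (Fin n)).filter (fun G => lv G ≤ 2 * (k + 3))).card : ℝ) * n *
        ((n : ℝ) + 1) ≤ (2 * ((k : ℝ) + 3) + 1) * aa C (n + 1) * (n.factorial : ℝ) *
        ((n : ℝ) + 1) := by
      calc _ = (((cc C (Fin n)).filter (fun G => lv G ≤ 2 * (k + 3))).card : ℝ) *
        (((n : ℝ) + 1) * n) := by ring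
        _ ≤ _ := h'
        _ = _ := by ring
    have h4 := le_of_mul_le_mul_right h3 (by positivity)
    rw [div_mul_eq_mul_div, le_div_iff₀ hn0]
    exact h4
  have e3 : (((cc C (Fin n)).filter (fun G => Col k G)).card : ℝ) ≤
      (n : ℝ) ^ 2 * (2 * ((k : ℝ) + 3) + 1) ^ 3 * ph k *
        (aa C (n - (4 * (k + 3) - 1)) + aa C (n - 4 * (k + 3)) + aa C (n - (4 * (k + 3) + 1))) *
        (n.factorial : ℝ) := by
    have h := h8 C hC n k hn
    rw [div_le_iff₀ hnf] at h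
    exact h
  calc _ ≤ _ := hb'
    _ ≤ _ := by rw [add_mul, add_mul]; exact add_le_add (add_le_add e1 e2) e3

/-- the first consequences of leaf stability -/
lemma pos_or (hL1 : T_L1) (C : (V : Type) → SimpleGraph V → Prop) (hC : LeafStable C) :
    (∀ n, 1 ≤ n → cnt C n = 0) ∨ ∃ n₀, 1 ≤ n₀ ∧ ∀ n, n₀ ≤ n → 0 < cnt C n := by
  by_cases h : ∀ n, 1 ≤ n → cnt C n = 0
  · exact Or.inl h
  · right
    push Not at h
    obtain ⟨n₀, hn₀, hne⟩ := h
    refine ⟨n₀, hn₀, ?_⟩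
    intro n hn
    induction n, hn using Nat.le_induction with
    | base => omega
    | succ n hn ih =>
      by_contra hcon
      have h0 : cnt C (n + 1) = 0 := by omega
      have h1 := hL1 C hC n (by omega)
      have h2 : cc C (Fin (n + 1)) = ∅ := card_eq_zero.1 h0
      rw [h2, sum_empty] at h1
      have h3 : 0 < (n + 1) * n * cnt C n := by
        have : 0 < n := by omega
        positivity
      omega

lemma zero_case (h1 : T_START) (h2 : T_DET) (h3 : T_DSC1) (h4 : T_DSC2) (h5 : T_DSC3)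
    (C : (V : Type) → SimpleGraph V → Prop) (h0 : ∀ n, 1 ≤ n → cnt C n = 0) (n : ℕ)
    (hn : 14 ≤ n) :
    (univ.filter (fun G : SimpleGraph (Fin n) => C (Fin n) G ∧ ¬ Rec G)).card = 0 := by
  have hb := bound h1 h2 h3 h4 h5 C n 0 (by omega)
  have h := h0 n (by omega)
  have h2 : cc C (Fin n) = ∅ := card_eq_zero.1 h
  rw [h2] at hb
  simp only [filter_empty, card_empty, add_zero, nonpos_iff_eq_zero] at hb
  exact hb

lemma ratio (h1 : T_AINEQ) (h2 : T_GAM) (h3 : T_L71)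
    (C : (V : Type) → SimpleGraph V → Prop) (hC : LeafStable C) (n₀ : ℕ)
    (hpos : ∀ n, n₀ ≤ n → 0 < cnt C n) :
    ∃ n₁, 2 ≤ n₁ ∧ n₀ ≤ n₁ ∧ ∀ n, n₁ ≤ n → 0 < aa C n ∧ aa C n ≤ 71 / 100 * aa C (n + 1) := by
  obtain ⟨n₁, hn₁⟩ := h3 (aa C) (n₀ + 2) (fun n hn => aa_pos C n (hpos n (by omega)))
    (fun n hn => h1 C hC n (by omega)) (fun n hn => h2 C hC n (by omega))
  refine ⟨n₁ + n₀ + 2, by omega, by omega, fun n hn => ⟨aa_pos C n (hpos n (by omega)),
    hn₁ n (by omega)⟩⟩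

lemma good_est (h1 : T_START) (h2 : T_DET) (h3 : T_DSC1) (h4 : T_DSC2) (h5 : T_DSC3)
    (h6 : T_FEWL) (h7 : T_EXI) (h8 : T_COLL) (h9 : T_FLO) (h10 : T_FUP) (h11 : T_ASY)
    (C : (V : Type) → SimpleGraph V → Prop) (hC : LeafStable C) (n₁ : ℕ)
    (hr : ∀ n, n₁ ≤ n → 0 < aa C n ∧ aa C n ≤ 71 / 100 * aa C (n + 1)) (δ ε : ℝ) (hδ : 0 < δ)
    (hε : 0 < ε) :
    ∃ n₂ : ℕ, ∀ n, n₂ ≤ n → Good (aa C) δ n →
    ((univ.filter (fun G : SimpleGraph (Fin n) => C (Fin n) G ∧ ¬ Rec G)).card : ℝ) ≤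
      ε * ((cc C (Fin n)).card : ℝ) := by
  obtain ⟨n₂, hn₂⟩ := h11 (aa C) ph n₁ (aa_nonneg C) hr (ph_up h10) (ph_lo h9) δ ε hδ hε
  refine ⟨n₂, fun n hn hg => ?_⟩
  obtain ⟨k, hk1, hk2⟩ := hn₂ n hn hg
  have h := est h1 h2 h3 h4 h5 h6 h7 h8 h9 C hC n k hk1
  have hc : ((cc C (Fin n)).card : ℝ) = aa C n * (n.factorial : ℝ) := cnt_eq C n
  rw [hc]
  calc _ ≤ _ := h
    _ ≤ ε * aa C n * (n.factorial : ℝ) := by gcongr
    _ = _ := by ring

end MAIN_

open MAIN_

theorem p_MAIN (h1 : T_START) (h2 : T_DET) (h3 : T_DSC1) (h4 : T_DSC2) (h5 : T_DSC3)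
    (h6 : T_FEWL) (h7 : T_EXI) (h8 : T_COLL) (h9 : T_FLO) (h10 : T_FUP) (h11 : T_ASY)
    (h12 : T_L1) (h13 : T_AINEQ) (h14 : T_GAM) (h15 : T_L71) (h16 : T_SMOOTH)
    (h17 : T_GOODR) : T_MAIN := by
  intro C hC γ hγ ε hε
  rcases pos_or h12 C hC with h0 | ⟨n₀, hn₀, hpos⟩
  · refine ⟨14, fun n hn => ?_⟩
    rw [zero_case h1 h2 h3 h4 h5 C h0 n hn]
    simp only [Nat.cast_zero]
    positivity
  · obtain ⟨n₁, hn₁2, hn₁0, hr⟩ := ratio h13 h14 h15 C hC n₀ hpos
    have hγ1 : 1 ≤ γ := by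
      have hmono : ∀ n, n₁ ≤ n → aa C n₁ ≤ aa C n := by
        intro n hn
        induction n, hn using Nat.le_induction with
        | base => exact le_rfl
        | succ n hn ih =>
          obtain ⟨hp, hq⟩ := hr n hn
          have hp2 := (hr (n + 1) (by omega)).1
          linarith
      have hlim : Tendsto (fun n : ℕ => aa C n₁ ^ (1 / (n : ℝ))) atTop (𝓝 1) := by
        have hz : Tendsto (fun n : ℕ => 1 / (n : ℝ)) atTop (𝓝 0) :=
          tendsto_one_div_atTop_nhds_zero_nat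
        have hpos1 := (hr n₁ le_rfl).1
        have hc := (Real.continuous_const_rpow hpos1.ne').tendsto 0
        rw [Real.rpow_zero] at hc
        exact hc.comp hz
      refine le_of_tendsto_of_tendsto hlim hγ ?_
      filter_upwards [eventually_ge_atTop n₁] with n hn
      exact Real.rpow_le_rpow (hr n₁ le_rfl).1.le (hmono n hn) (by positivity)
    have hγ0 : 0 < γ := by linarith
    have hlim := h16 (aa C) γ n₁ hγ0 (fun n hn => (hr n hn).1)
      (fun n hn => h13 C hC n (by omega)) hγ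
    obtain ⟨δ, hδ, n₃, hn₃⟩ := h17 (aa C) γ n₁ hγ0 (fun n hn => (hr n hn).1) hlim
    obtain ⟨n₂, hn₂⟩ := good_est h1 h2 h3 h4 h5 h6 h7 h8 h9 h10 h11 C hC n₁ hr δ ε hδ hε
    exact ⟨max n₂ n₃, fun n hn => hn₂ n (le_of_max_le_left hn) (hn₃ n (le_of_max_le_right hn))⟩

theorem p_MAINS (h1 : T_START) (h2 : T_DET) (h3 : T_DSC1) (h4 : T_DSC2) (h5 : T_DSC3)
    (h6 : T_FEWL) (h7 : T_EXI) (h8 : T_COLL) (h9 : T_FLO) (h10 : T_FUP) (h11 : T_ASY)
    (h12 : T_L1) (h13 : T_AINEQ) (h14 : T_GAM) (h15 : T_L71) (h16 : T_DENA)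
    (h17 : T_DENB) : T_MAINS := by
  intro C hC K hK ε η hε hη
  rcases pos_or h12 C hC with h0 | ⟨n₀, hn₀, hpos⟩
  · refine ⟨⌈14 / η⌉₊, fun N hN => ?_⟩
    have hsub : ((range N).filter (fun n : ℕ => ε * ((cc C (Fin n)).card : ℝ) <
        ((univ.filter (fun G : SimpleGraph (Fin n) => C (Fin n) G ∧ ¬ Rec G)).card : ℝ))) ⊆
        range 14 := by
      intro n hn
      rw [mem_range]
      by_contra hcon
      have h := (mem_filter.1 hn).2
      rw [zero_case h1 h2 h3 h4 h5 C h0 n (by omega)] at h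
      simp only [Nat.cast_zero] at h
      have : 0 ≤ ε * ((cc C (Fin n)).card : ℝ) := by positivity
      linarith
    have hc := card_le_card hsub
    rw [card_range] at hc
    have hN' : 14 / η ≤ (N : ℝ) := (Nat.le_ceil _).trans (by exact_mod_cast hN)
    rw [div_le_iff₀ hη] at hN'
    have hc' : (((range N).filter (fun n : ℕ => ε * ((cc C (Fin n)).card : ℝ) <
        ((univ.filter (fun G : SimpleGraph (Fin n) => C (Fin n) G ∧ ¬ Rec G)).card : ℝ))).card :
        ℝ) ≤ 14 := by exact_mod_cast hc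
    linarith
  · obtain ⟨n₁, hn₁2, hn₁0, hr⟩ := ratio h13 h14 h15 C hC n₀ hpos
    have hKa : ∀ n, aa C n ≤ K ^ n := by
      intro n
      unfold aa
      rw [div_le_iff₀ (by positivity)]
      exact hK n
    obtain ⟨δ, hδ, N₁, hN₁⟩ := h16 (aa C) n₁ K hr (fun n hn => h13 C hC n (by omega)) hKa
      (η / 3) (by positivity)
    obtain ⟨N₂, hN₂⟩ := h17 (aa C) n₁ hr (fun n hn => h13 C hC n (by omega)) δ (η / 3) hδ
      (by positivity)
    obtain ⟨n₂, hn₂⟩ := good_est h1 h2 h3 h4 h5 h6 h7 h8 h9 h10 h11 C hC n₁ hr δ ε hδ hε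
    refine ⟨max (max N₁ N₂) ⌈3 * (n₂ : ℝ) / η⌉₊, fun N hN => ?_⟩
    have hNa : N₁ ≤ N := by
      have := le_max_left N₁ N₂
      have := le_max_left (max N₁ N₂) ⌈3 * (n₂ : ℝ) / η⌉₊
      omega
    have hNb : N₂ ≤ N := by
      have := le_max_right N₁ N₂
      have := le_max_left (max N₁ N₂) ⌈3 * (n₂ : ℝ) / η⌉₊
      omega
    have hNc : ⌈3 * (n₂ : ℝ) / η⌉₊ ≤ N := by
      have := le_max_right (max N₁ N₂) ⌈3 * (n₂ : ℝ) / η⌉₊
      omega
    have hA := hN₁ N hNa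
    have hB := hN₂ N hNb
    have hN' : 3 * (n₂ : ℝ) / η ≤ (N : ℝ) := (Nat.le_ceil _).trans (by exact_mod_cast hNc)
    rw [div_le_iff₀ hη] at hN'
    have hsub : ((range N).filter (fun n : ℕ => ε * ((cc C (Fin n)).card : ℝ) <
        ((univ.filter (fun G : SimpleGraph (Fin n) => C (Fin n) G ∧ ¬ Rec G)).card : ℝ))) ⊆
        range n₂ ∪ ((range N).filter (fun n : ℕ => ∃ i : ℕ, (n : ℝ) ≤ (i : ℝ) + 30 * Real.log n ∧
          (i : ℝ) ≤ (n : ℝ) + 30 * Real.log n ∧ aa C i < δ * aa C (i + 1))) ∪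
        ((range N).filter (fun n : ℕ =>
          (∀ i : ℕ, (n : ℝ) ≤ (i : ℝ) + 30 * Real.log n → (i : ℝ) ≤ (n : ℝ) + 30 * Real.log n →
            δ * aa C (i + 1) ≤ aa C i) ∧
          ∃ i j : ℕ, (n : ℝ) ≤ (i : ℝ) + 30 * Real.log n ∧ (i : ℝ) ≤ (n : ℝ) + 30 * Real.log n ∧
            (n : ℝ) ≤ (j : ℝ) + 30 * Real.log n ∧ (j : ℝ) ≤ (n : ℝ) + 30 * Real.log n ∧
            Real.exp (1 / 100) * (aa C j * aa C (i + 1)) < aa C i * aa C (j + 1))) := by
      intro n hn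
      obtain ⟨hnN, hlt⟩ := mem_filter.1 hn
      by_cases hc : n < n₂
      · exact mem_union_left _ (mem_union_left _ (mem_range.2 hc))
      · have hng : ¬ Good (aa C) δ n := by
          intro hg
          have := hn₂ n (by omega) hg
          linarith
        by_cases hA' : ∃ i : ℕ, (n : ℝ) ≤ (i : ℝ) + 30 * Real.log n ∧
          (i : ℝ) ≤ (n : ℝ) + 30 * Real.log n ∧ aa C i < δ * aa C (i + 1)
        · exact mem_union_left _ (mem_union_right _ (mem_filter.2 ⟨hnN, hA'⟩))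
        · refine mem_union_right _ (mem_filter.2 ⟨hnN, ?_, ?_⟩)
          · intro i hi1 hi2
            by_contra hcon
            exact hA' ⟨i, hi1, hi2, not_le.1 hcon⟩
          · by_contra hcon
            apply hng
            intro i j hi1 hi2 hj1 hj2
            refine ⟨?_, ?_⟩
            · by_contra hcon2
              exact hA' ⟨i, hi1, hi2, not_le.1 hcon2⟩
            · by_contra hcon2
              exact hcon ⟨i, j, hi1, hi2, hj1, hj2, not_le.1 hcon2⟩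
    have hc := card_le_card hsub
    have hc2 := hc.trans ((card_union_le _ _).trans (Nat.add_le_add_right (card_union_le _ _) _))
    rw [card_range] at hc2
    have hc3 := (Nat.cast_le (α := ℝ)).2 hc2
    push_cast at hc3
    linarith

theorem p_MAINB (h1 : T_MAIN) (h2 : T_BL) (h3 : T_SUPM) (h4 : T_GROW) : T_MAINB := by
  intro C hC K hK ε hε
  obtain ⟨hpos, hsup⟩ := h3 C hC
  have hKa : ∀ n, aa C n ≤ K ^ n := by
    intro n
    unfold aa
    rw [div_le_iff₀ (by positivity)]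
    exact hK n
  obtain ⟨γ, hγ⟩ := h4 (aa C) K hpos hKa hsup
  exact h1 C (h2 C hC) γ hγ ε hε

end Pool.Agent.Pend
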