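import Pool.Agent.Pend.Targets2

/-!
Pend, MAINF, MAING: classes defined by excluded minors.
-/

set_option autoImplicit false

namespace Pool.Agent.Pend

open Finset Classical Filter Topology

namespace MAINF_

lemma free_top (h1 : T_MTRANS) (h2 : T_MSUB) {F : (W : Type) → SimpleGraph W → Prop} {W : Type}
    [Finite W] {H : SimpleGraph W} (hF : F W H) {V : Type} {G : SimpleGraph V}
    (hG : FreeOf F V G) : ¬ Minor (⊤ : SimpleGraph (Fin (Nat.card W))) G := by
  intro hm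
  refine hG W H hF (h1 _ _ _ H (⊤ : SimpleGraph (Fin (Nat.card W))) G ?_ hm)
  refine h2 _ _ H _ (Finite.equivFin W) (Finite.equivFin W).injective ?_
  intro a b hab
  rw [SimpleGraph.top_adj]
  exact fun h => hab.ne ((Finite.equivFin W).injective h)

lemma mem_cc {V : Type} [Fintype V] (C : (V : Type) → SimpleGraph V → Prop)
    (G : SimpleGraph V) : G ∈ cc C V ↔ G.Connected ∧ C V G := by
  unfold cc
  rw [mem_filter]
  exact and_iff_right (mem_univ _)

lemma cnt_le_pt (C : (V : Type) → SimpleGraph V → Prop) (t n : ℕ)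
    (h : ∀ G : SimpleGraph (Fin n), C (Fin n) G → ¬ Minor (⊤ : SimpleGraph (Fin t)) G) :
    cnt C n ≤ pt t n := by
  unfold cnt pt
  refine card_le_card fun G hG => ?_
  rw [mem_cc] at hG
  exact mem_filter.2 ⟨mem_univ _, h G hG.2⟩

lemma small (h1 : T_MTRANS) (h2 : T_MSUB) (h3 : T_RECUR) (h4 : T_SMNUM)
    {F : (W : Type) → SimpleGraph W → Prop} {W : Type}
    [Finite W] {H : SimpleGraph W} (hF : F W H) :
    ∃ K : ℝ, ∀ n, (cnt (FreeOf F) n : ℝ) ≤ K ^ n * (n.factorial : ℝ) := by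
  obtain ⟨K, hK⟩ := h4 (pt (Nat.card W)) (4 + 2 * 2 ^ Nat.card W + 2 * 2 ^ (2 ^ Nat.card W))
    (4 * 2 ^ Nat.card W) (by omega) (by
      unfold pt
      refine le_trans (card_filter_le _ _) ?_
      rw [card_univ]
      exact Fintype.card_le_one_iff_subsingleton.2 inferInstance)
    (fun n s h => h3 (Nat.card W) n s h)
  refine ⟨K, fun n => le_trans ?_ (hK n)⟩
  have hle : cnt (FreeOf F) n ≤ pt (Nat.card W) n :=
    cnt_le_pt (FreeOf F) (Nat.card W) n (fun G hG => free_top h1 h2 hF hG)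
  exact_mod_cast hle

end MAINF_

open MAINF_

theorem p_MAINF (h1 : T_MTRANS) (h2 : T_MSUB) (h3 : T_RECUR) (h4 : T_SMNUM) (h5 : T_BRS)
    (h6 : T_MAINB) : T_MAINF := by
  intro F hF hne ε hε
  obtain ⟨W, H, hWH⟩ := hne
  have hfin : Finite W := by
    have h := (hF W H hWH).1
    exact Nat.finite_of_card_ne_zero (by omega)
  obtain ⟨K, hK⟩ := small h1 h2 h3 h4 hWH
  exact h6 (FreeOf F) (h5 F hF) K hK ε hε

theorem p_MAING (h1 : T_MTRANS) (h2 : T_MSUB) (h3 : T_RECUR) (h4 : T_SMNUM) (h5 : T_LFS)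
    (h6 : T_MAINS) : T_MAING := by
  intro F hF hne ε η hε hη
  obtain ⟨W, H, hWH⟩ := hne
  have hfin : Finite W := (hF W H hWH).1
  obtain ⟨K, hK⟩ := small h1 h2 h3 h4 hWH
  exact h6 (FreeOf F) (h5 F (fun W H h => (hF W H h).2)) K hK ε η hε hη

end Pool.Agent.Pend
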