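import Pool.Agent.Pend.Targets2

/-!
MTRANS: the minor relation is transitive (project Pend, MP_552896_co).
-/

set_option autoImplicit false

namespace Pool.Agent.Pend

open Finset Classical

namespace MTRANS_

theorem mono {V : Type} {G : SimpleGraph V} {S T : Set V} (h : S ⊆ T) {x y : V} (hx : x ∈ S)
    (hy : y ∈ S) (hr : (G.induce S).Reachable ⟨x, hx⟩ ⟨y, hy⟩) :
    (G.induce T).Reachable ⟨x, h hx⟩ ⟨y, h hy⟩ :=
  hr.map (SimpleGraph.induceHomOfLE G h).toHom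

theorem walk {U V : Type} {B : SimpleGraph U} {G : SimpleGraph V} {g : U → Set V} {S : Set U}
    (hg : ∀ u, (G.induce (g u)).Connected)
    (hadj : ∀ a b, B.Adj a b → ∃ x ∈ g a, ∃ y ∈ g b, G.Adj x y) {u u' : S}
    (p : (B.induce S).Walk u u') :
    ∀ (x y : V) (hx : x ∈ g u.1) (hy : y ∈ g u'.1),
      (G.induce (⋃ w ∈ S, g w)).Reachable ⟨x, Set.mem_biUnion u.2 hx⟩
        ⟨y, Set.mem_biUnion u'.2 hy⟩ := by
  induction p with
  | nil =>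
    intro x y hx hy
    rename_i u0
    exact mono (Set.subset_biUnion_of_mem u0.2) hx hy ((hg u0.1).preconnected _ _)
  | cons e _ ih =>
    intro x y hx hy
    rename_i u0 v0 w0 _
    obtain ⟨x1, hx1, y1, hy1, h1⟩ := hadj _ _ e
    have r1 : (G.induce (⋃ w ∈ S, g w)).Reachable ⟨x, Set.mem_biUnion u0.2 hx⟩
        ⟨x1, Set.mem_biUnion u0.2 hx1⟩ :=
      mono (Set.subset_biUnion_of_mem u0.2) hx hx1 ((hg u0.1).preconnected _ _)
    have r2 : (G.induce (⋃ w ∈ S, g w)).Adj ⟨x1, Set.mem_biUnion u0.2 hx1⟩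
        ⟨y1, Set.mem_biUnion v0.2 hy1⟩ := h1
    exact (r1.trans r2.reachable).trans (ih y1 y hy1 hy)

end MTRANS_

open MTRANS_ in
theorem p_MTRANS : T_MTRANS := by
  rintro W U V A B G ⟨f, hf, hfd, hfa⟩ ⟨g, hg, hgd, hga⟩
  refine ⟨fun a => ⋃ u ∈ f a, g u, fun a => ?_, fun a b hab => ?_, fun a b hab => ?_⟩
  · obtain ⟨⟨u, hu⟩⟩ := (hf a).nonempty
    obtain ⟨⟨x, hx⟩⟩ := (hg u).nonempty
    have : Nonempty (⋃ u ∈ f a, g u : Set V) := ⟨⟨x, Set.mem_biUnion hu hx⟩⟩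
    refine SimpleGraph.Connected.mk ?_
    rintro ⟨x, hx⟩ ⟨y, hy⟩
    obtain ⟨u, hu, hxu⟩ := Set.mem_iUnion₂.1 hx
    obtain ⟨u', hu', hyu'⟩ := Set.mem_iUnion₂.1 hy
    obtain ⟨p⟩ := (hf a).preconnected ⟨u, hu⟩ ⟨u', hu'⟩
    exact walk hg hga p x y hxu hyu'
  · rw [Set.disjoint_left]
    intro x hx hy
    obtain ⟨u, hu, hxu⟩ := Set.mem_iUnion₂.1 hx
    obtain ⟨u', hu', hxu'⟩ := Set.mem_iUnion₂.1 hy
    have hne : u ≠ u' := by
      rintro rfl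
      exact Set.disjoint_left.1 (hfd a b hab) hu hu'
    exact Set.disjoint_left.1 (hgd u u' hne) hxu hxu'
  · obtain ⟨u, hu, u', hu', h⟩ := hfa a b hab
    obtain ⟨x, hx, y, hy, h'⟩ := hga u u' h
    exact ⟨x, Set.mem_biUnion hu hx, y, Set.mem_biUnion hu' hy, h'⟩

end Pool.Agent.Pend
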