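import Pool.Agent.Pend.Targets

/-!
NP: the number of pendant sets of a given isomorphism type is reconstructible.
-/

set_option autoImplicit false

namespace Pool.Agent.Pend

open Finset Classical

namespace NP_

variable {V : Type}

/-- The number of ordered adjacent pairs inside `S`. -/
noncomputable def eg (G : SimpleGraph V) (S : Finset V) : ℕ :=
  ∑ a ∈ S, ∑ b ∈ S, if G.Adj a b then 1 else 0

theorem is_symm {V W : Type} {G : SimpleGraph V} {A : Finset V} {H : SimpleGraph W} {B : Finset W}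
    (h : Is G A H B) : Is H B G A := by
  obtain ⟨e⟩ := h
  exact ⟨e.symm⟩

theorem is_trans {V W U : Type} {G : SimpleGraph V} {A : Finset V} {H : SimpleGraph W}
    {B : Finset W} {K : SimpleGraph U} {C : Finset U}
    (h : Is G A H B) (h' : Is H B K C) : Is G A K C := by
  obtain ⟨e⟩ := h
  obtain ⟨e'⟩ := h'
  exact ⟨e.trans e'⟩

theorem is_ext {G1 G2 : SimpleGraph V} {S1 S2 : Finset V} (h : Is G1 S1 G2 S2) :
    ∃ f : V → V, S1.image f = S2 ∧ Set.InjOn f S1 ∧
      ∀ a ∈ S1, ∀ b ∈ S1, (G1.Adj a b ↔ G2.Adj (f a) (f b)) := by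
  obtain ⟨e⟩ := h
  have hf : ∀ (a : V) (h : a ∈ (S1 : Set V)),
      (if h : a ∈ (S1 : Set V) then ((e ⟨a, h⟩ : (S2 : Set V)) : V) else a) = (e ⟨a, h⟩ : V) := by
    intro a h
    rw [dif_pos h]
  refine ⟨fun a => if h : a ∈ (S1 : Set V) then ((e ⟨a, h⟩ : (S2 : Set V)) : V) else a, ?_, ?_, ?_⟩
  · ext c
    simp only [Finset.mem_image]
    constructor
    · rintro ⟨a, ha, rfl⟩
      have ha' : a ∈ (S1 : Set V) := ha
      rw [hf a ha']
      exact (e ⟨a, ha'⟩).2
    · intro hc
      have hc' : c ∈ (S2 : Set V) := hc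
      refine ⟨(e.symm ⟨c, hc'⟩ : V), (e.symm ⟨c, hc'⟩).2, ?_⟩
      rw [hf _ (e.symm ⟨c, hc'⟩).2]
      simp
  · intro a ha b hb hab
    simp only at hab
    rw [hf a ha, hf b hb] at hab
    have h1 := e.injective (Subtype.ext hab)
    exact congrArg Subtype.val h1
  · intro a ha b hb
    have ha' : a ∈ (S1 : Set V) := ha
    have hb' : b ∈ (S1 : Set V) := hb
    simp only
    rw [hf a ha', hf b hb']
    have h1 := e.map_adj_iff (v := ⟨a, ha'⟩) (w := ⟨b, hb'⟩)
    simp only [SimpleGraph.comap_adj, Function.Embedding.subtype_apply] at h1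
    exact h1.symm

theorem is_img {G1 G2 : SimpleGraph V} {A : Finset V} (f : V → V) (hf : Set.InjOn f A)
    (h : ∀ a ∈ A, ∀ b ∈ A, (G1.Adj a b ↔ G2.Adj (f a) (f b))) : Is G1 A G2 (A.image f) := by
  let g : {x // x ∈ (A : Set V)} → {x // x ∈ ((Finset.image f A : Finset V) : Set V)} := fun a =>
    ⟨f a.1, Finset.mem_coe.2 (Finset.mem_image_of_mem f a.2)⟩
  have hg : Function.Bijective g := by
    constructor
    · intro a b hab
      have h1 := congrArg Subtype.val hab
      exact Subtype.ext (hf a.2 b.2 h1)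
    · rintro ⟨c, hc⟩
      obtain ⟨a, ha, rfl⟩ := Finset.mem_image.1 (Finset.mem_coe.1 hc)
      exact ⟨⟨a, ha⟩, rfl⟩
  refine ⟨⟨Equiv.ofBijective g hg, ?_⟩⟩
  intro a b
  simp only [SimpleGraph.comap_adj, Function.Embedding.subtype_apply, Equiv.ofBijective_apply]
  exact (h a a.2 b b.2).symm

theorem is_card {G1 G2 : SimpleGraph V} {S1 S2 : Finset V} (h : Is G1 S1 G2 S2) :
    S1.card = S2.card := by
  obtain ⟨f, rfl, hf, -⟩ := is_ext h
  exact (Finset.card_image_of_injOn hf).symm

theorem eg_is {G1 G2 : SimpleGraph V} {S1 S2 : Finset V} (h : Is G1 S1 G2 S2) :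
    eg G1 S1 = eg G2 S2 := by
  obtain ⟨f, rfl, hf, ha⟩ := is_ext h
  unfold eg
  rw [Finset.sum_image (fun a ha' b hb' => hf ha' hb')]
  refine Finset.sum_congr rfl fun a ha' => ?_
  rw [Finset.sum_image (fun a ha' b hb' => hf ha' hb')]
  refine Finset.sum_congr rfl fun b hb' => ?_
  rw [if_congr (ha a ha' b hb') rfl rfl]

/-- The pairs of sets. -/
noncomputable def PR [Fintype V] (X : SimpleGraph V) (P : Finset V) (m q : ℕ)
    (G : SimpleGraph V) (S : Finset V) : Finset (Finset V × Finset V) :=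
  univ.filter (fun p => (Is G p.1 X P ∧ (p.2.card = m ∧ eg G p.2 = q)) ∧ p.1 ∪ p.2 = S)

theorem img_inj {S A B : Finset V} {f : V → V} (hf : Set.InjOn f S) (hA : A ⊆ S) (hB : B ⊆ S)
    (h : A.image f = B.image f) : A = B := by
  ext c
  constructor
  · intro hc
    have h1 : f c ∈ B.image f := by
      rw [← h]
      exact Finset.mem_image_of_mem f hc
    obtain ⟨d, hd, hdc⟩ := Finset.mem_image.1 h1
    have := hf (hB hd) (hA hc) hdc
    rw [← this]
    exact hd
  · intro hc
    have h1 : f c ∈ A.image f := by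
      rw [h]
      exact Finset.mem_image_of_mem f hc
    obtain ⟨d, hd, hdc⟩ := Finset.mem_image.1 h1
    have := hf (hA hd) (hB hc) hdc
    rw [← this]
    exact hd

theorem PR_le [Fintype V] (X : SimpleGraph V) (P : Finset V) (m q : ℕ)
    {G1 G2 : SimpleGraph V} {S1 S2 : Finset V} (h : Is G1 S1 G2 S2) :
    (PR X P m q G1 S1).card ≤ (PR X P m q G2 S2).card := by
  obtain ⟨f, rfl, hf, ha⟩ := is_ext h
  refine Finset.card_le_card_of_injOn (fun p => (p.1.image f, p.2.image f)) ?_ ?_
  · rintro ⟨A, B⟩ hp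
    simp only [PR, Finset.coe_filter, Finset.mem_univ, true_and, Set.mem_ofPred_eq] at hp ⊢
    obtain ⟨⟨h1, h2, h3⟩, rfl⟩ := hp
    have hA : ∀ a ∈ A, a ∈ A ∪ B := fun a h => Finset.mem_union_left _ h
    have hB : ∀ a ∈ B, a ∈ A ∪ B := fun a h => Finset.mem_union_right _ h
    have iA : Is G1 A G2 (A.image f) := is_img f (fun a h b h' => hf (hA a h) (hA b h'))
      (fun a h b h' => ha a (hA a h) b (hA b h'))
    have iB : Is G1 B G2 (B.image f) := is_img f (fun a h b h' => hf (hB a h) (hB b h'))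
      (fun a h b h' => ha a (hB a h) b (hB b h'))
    refine ⟨⟨is_trans (is_symm iA) h1, ?_, ?_⟩, ?_⟩
    · rw [← is_card iB]
      exact h2
    · rw [← eg_is iB]
      exact h3
    · rw [Finset.image_union]
  · rintro ⟨A, B⟩ hp ⟨A', B'⟩ hp' heq
    simp only [PR, Finset.coe_filter, Finset.mem_univ, true_and, Set.mem_ofPred_eq] at hp hp'
    simp only [Prod.mk.injEq] at heq
    have e1 : A ⊆ S1 := by
      rw [← hp.2]
      exact Finset.subset_union_left
    have e2 : B ⊆ S1 := by
      rw [← hp.2]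
      exact Finset.subset_union_right
    have e3 : A' ⊆ S1 := by
      rw [← hp'.2]
      exact Finset.subset_union_left
    have e4 : B' ⊆ S1 := by
      rw [← hp'.2]
      exact Finset.subset_union_right
    rw [img_inj hf e1 e3 heq.1, img_inj hf e2 e4 heq.2]

theorem PR_inv [Fintype V] (X : SimpleGraph V) (P : Finset V) (m q : ℕ)
    (G1 G2 : SimpleGraph V) (S1 S2 : Finset V) (h : Is G1 S1 G2 S2) :
    (PR X P m q G1 S1).card = (PR X P m q G2 S2).card :=
  le_antisymm (PR_le X P m q h) (PR_le X P m q (is_symm h))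

/-- Counting with an indicator function. -/
theorem cnt_ind [Fintype V] (s : ℕ) (R : Finset V → Prop) [DecidablePred R] :
    ∑ S ∈ powersetCard s (univ : Finset V), (if R S then 1 else 0) =
      (univ.filter (fun S : Finset V => S.card = s ∧ R S)).card := by
  rw [Finset.card_filter, ← Finset.sum_filter_add_sum_filter_not univ (fun S : Finset V => S.card = s)]
  have h1 : (univ.filter (fun S : Finset V => S.card = s)) = powersetCard s (univ : Finset V) := by
    ext S
    simp [Finset.mem_powersetCard]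
  rw [h1]
  have h2 : ∑ x ∈ univ.filter (fun S : Finset V => ¬ S.card = s),
      (if x.card = s ∧ R x then 1 else 0) = 0 := by
    refine Finset.sum_eq_zero fun x hx => ?_
    simp only [Finset.mem_filter, Finset.mem_univ, true_and] at hx
    rw [if_neg (fun h => hx h.1)]
  rw [h2, add_zero]
  refine Finset.sum_congr rfl fun x hx => ?_
  rw [Finset.mem_powersetCard] at hx
  simp [hx.2]

theorem cnt_eq [Fintype V] (h1 : T_KEL) {G H : SimpleGraph V} {ψ : V → Equiv.Perm V}
    (hyp : Hyp G H ψ) (s : ℕ) (hs : s < Fintype.card V) (R : SimpleGraph V → Finset V → Prop)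
    [∀ G, DecidablePred (R G)]
    (hR : ∀ (G1 G2 : SimpleGraph V) (S1 S2 : Finset V), Is G1 S1 G2 S2 → (R G1 S1 ↔ R G2 S2)) :
    (univ.filter (fun S : Finset V => S.card = s ∧ R G S)).card =
      (univ.filter (fun S : Finset V => S.card = s ∧ R H S)).card := by
  rw [← cnt_ind, ← cnt_ind]
  refine h1 V G H ψ (fun G S => if R G S then 1 else 0) s hyp ?_ hs
  intro G1 G2 S1 S2 h
  exact if_congr (hR G1 G2 S1 S2 h) rfl rfl

/-- The total number of pairs. -/
theorem total [Fintype V] (X : SimpleGraph V) (P : Finset V) (m q : ℕ) (G : SimpleGraph V) :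
    ∑ S : Finset V, (PR X P m q G S).card =
      (univ.filter (fun A : Finset V => A.card = P.card ∧ Is G A X P)).card *
        (univ.filter (fun B : Finset V => B.card = m ∧ eg G B = q)).card := by
  rw [← Finset.card_product]
  have h := Finset.card_eq_sum_card_fiberwise (f := fun p : Finset V × Finset V => p.1 ∪ p.2)
    (s := (univ.filter (fun A : Finset V => A.card = P.card ∧ Is G A X P)) ×ˢ
        (univ.filter (fun B : Finset V => B.card = m ∧ eg G B = q)))
    (t := (univ : Finset (Finset V))) (fun _ _ => Finset.mem_coe.2 (Finset.mem_univ _))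
  rw [h]
  refine Finset.sum_congr rfl fun S _ => ?_
  congr 1
  ext ⟨A, B⟩
  simp only [PR, Finset.mem_filter, Finset.mem_univ, true_and, Finset.mem_product]
  constructor
  · rintro ⟨⟨h1, h2⟩, h3⟩
    exact ⟨⟨⟨is_card h1, h1⟩, h2⟩, h3⟩
  · rintro ⟨⟨h1, h2⟩, h3⟩
    exact ⟨⟨h1.2, h2⟩, h3⟩

theorem sum_layers [Fintype V] (F : Finset V → ℕ) :
    ∑ S : Finset V, F S = ∑ s ∈ range (Fintype.card V),
      ∑ S ∈ powersetCard s (univ : Finset V), F S + F univ := by
  have h : ∑ S : Finset V, F S = ∑ s ∈ range (Fintype.card V + 1),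
      ∑ S ∈ powersetCard s (univ : Finset V), F S := by
    have h1 := Finset.sum_fiberwise_of_maps_to (s := (univ : Finset (Finset V)))
      (t := range (Fintype.card V + 1)) (g := fun S : Finset V => S.card)
      (fun S _ => Finset.mem_range.2 (Nat.lt_succ_of_le (Finset.card_le_univ S))) F
    rw [← h1]
    refine Finset.sum_congr rfl fun s _ => ?_
    congr 1
    ext S
    simp [Finset.mem_powersetCard]
  rw [h, Finset.sum_range_succ]
  congr 1
  have h2 : powersetCard (Fintype.card V) (univ : Finset V) = {univ} := by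
    have := Finset.powersetCard_self (univ : Finset V)
    rwa [Finset.card_univ] at this
  rw [h2, Finset.sum_singleton]

theorem PR_univ [Fintype V] (h1 : T_KEL) {G H : SimpleGraph V} {ψ : V → Equiv.Perm V}
    (hyp : Hyp G H ψ) (X : SimpleGraph V) (P : Finset V) (q m : ℕ) (hP : P.card < Fintype.card V)
    (hm : m < Fintype.card V) :
    (PR X P m q G univ).card = (PR X P m q H univ).card := by
  have t1 := total X P m q G
  have t2 := total X P m q H
  rw [cnt_eq h1 hyp P.card hP (fun G A => Is G A X P) (fun G1 G2 S1 S2 h =>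
      ⟨fun h' => is_trans (is_symm h) h', fun h' => is_trans h h'⟩),
    cnt_eq h1 hyp m hm (fun G A => eg G A = q) (fun G1 G2 S1 S2 h => by rw [eg_is h]), ← t2,
    sum_layers, sum_layers] at t1
  have h3 : ∑ s ∈ range (Fintype.card V),
      ∑ S ∈ powersetCard s (univ : Finset V), (PR X P m q G S).card =
      ∑ s ∈ range (Fintype.card V),
      ∑ S ∈ powersetCard s (univ : Finset V), (PR X P m q H S).card := by
    refine Finset.sum_congr rfl fun s hs => ?_
    exact h1 V G H ψ (fun G S => (PR X P m q G S).card) s hyp (PR_inv X P m q)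
      (Finset.mem_range.1 hs)
  omega

theorem PR_N [Fintype V] (G X : SimpleGraph V) (P : Finset V) (q : ℕ)  :
    (PR X P (Fintype.card V - P.card) q G univ).card =
      (univ.filter (fun A : Finset V => Is G A X P ∧ eg G Aᶜ = q)).card := by
  symm
  refine Finset.card_bij (fun A _ => (A, Aᶜ)) ?_ ?_ ?_
  · intro A hA
    simp only [PR, Finset.mem_filter, Finset.mem_univ, true_and] at hA ⊢
    refine ⟨⟨hA.1, ?_, hA.2⟩, Finset.union_compl A⟩
    rw [Finset.card_compl, is_card hA.1]
  · intro A hA B hB hAB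
    exact congrArg Prod.fst hAB
  · rintro ⟨A, B⟩ hp
    simp only [PR, Finset.mem_filter, Finset.mem_univ, true_and] at hp
    obtain ⟨⟨hA, hB, hq⟩, hU⟩ := hp
    have hc := is_card hA
    have hle := Finset.card_le_univ P
    have h2 : Aᶜ ⊆ B := by
      intro x hx
      have : x ∈ A ∪ B := by
        rw [hU]
        exact Finset.mem_univ x
      rcases Finset.mem_union.1 this with h | h
      · exact absurd h (Finset.mem_compl.1 hx)
      · exact h
    have h3 : Aᶜ = B := by
      refine Finset.eq_of_subset_of_card_le h2 ?_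
      rw [Finset.card_compl, hB, hc]
    refine ⟨A, ?_, ?_⟩
    · simp only [Finset.mem_filter, Finset.mem_univ, true_and]
      exact ⟨hA, by rw [h3]; exact hq⟩
    · rw [h3]

/-- The crossing pairs. -/
noncomputable def cr [Fintype V] (G : SimpleGraph V) (A : Finset V) : ℕ :=
  ∑ a ∈ A, ∑ b ∈ Aᶜ, if G.Adj a b then 1 else 0

theorem eg_split [Fintype V] (G : SimpleGraph V) (A : Finset V) :
    eg G univ = eg G A + eg G Aᶜ + 2 * cr G A := by
  unfold eg cr
  have h1 : ∀ a : V, ∑ b : V, (if G.Adj a b then 1 else 0) =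
      ∑ b ∈ A, (if G.Adj a b then 1 else 0) + ∑ b ∈ Aᶜ, (if G.Adj a b then 1 else 0) :=
    fun a => (Finset.sum_add_sum_compl A _).symm
  have h2 : ∑ a ∈ Aᶜ, ∑ b ∈ A, (if G.Adj a b then 1 else 0) =
      ∑ a ∈ A, ∑ b ∈ Aᶜ, (if G.Adj a b then 1 else 0) := by
    rw [Finset.sum_comm]
    refine Finset.sum_congr rfl fun a _ => Finset.sum_congr rfl fun b _ => ?_
    rw [if_congr (G.adj_comm b a) rfl rfl]
  rw [Finset.sum_congr rfl (fun a _ => h1 a), ← Finset.sum_add_sum_compl A,
    Finset.sum_add_distrib, Finset.sum_add_distrib, h2]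
  ring

theorem cr_one [Fintype V] (G : SimpleGraph V) (A : Finset V) :
    cr G A = 1 ↔ ∃ r x, Pnd G A r x := by
  have h : cr G A = ((A ×ˢ Aᶜ).filter (fun p : V × V => G.Adj p.1 p.2)).card := by
    rw [Finset.card_filter, Finset.sum_product]
    rfl
  rw [h, Finset.card_eq_one]
  constructor
  · rintro ⟨⟨r, x⟩, hp⟩
    have h0 : ∀ a b, (a ∈ A ∧ b ∉ A ∧ G.Adj a b) ↔ (a = r ∧ b = x) := by
      intro a b
      have := Finset.ext_iff.1 hp (a, b)
      simp only [Finset.mem_filter, Finset.mem_product, Finset.mem_compl, Finset.mem_singleton,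
        Prod.mk.injEq] at this
      rw [← this]
      tauto
    have h1 := (h0 r x).2 ⟨rfl, rfl⟩
    refine ⟨r, x, h1.1, h1.2.1, ?_⟩
    intro a ha b hb
    rw [← h0 a b]
    exact ⟨fun h => ⟨ha, hb, h⟩, fun h => h.2.2⟩
  · rintro ⟨r, x, hr, hx, h1⟩
    refine ⟨(r, x), ?_⟩
    ext ⟨a, b⟩
    simp only [Finset.mem_filter, Finset.mem_product, Finset.mem_compl, Finset.mem_singleton,
      Prod.mk.injEq]
    constructor
    · rintro ⟨⟨ha, hb⟩, hab⟩
      exact (h1 a ha b hb).1 hab
    · rintro ⟨rfl, rfl⟩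
      exact ⟨⟨hr, hx⟩, (h1 a hr b hx).2 ⟨rfl, rfl⟩⟩

theorem eg_two [Fintype V] (G : SimpleGraph V) :
    ∑ S ∈ powersetCard 2 (univ : Finset V), eg G S = eg G univ := by
  unfold eg
  have h1 : ∀ S : Finset V, ∑ a ∈ S, ∑ b ∈ S, (if G.Adj a b then 1 else 0) =
      ∑ a : V, ∑ b : V, (if a ∈ S ∧ b ∈ S ∧ G.Adj a b then 1 else 0) := by
    intro S
    rw [← Finset.sum_subset (Finset.subset_univ S)]
    · refine Finset.sum_congr rfl fun a ha => ?_
      rw [← Finset.sum_subset (Finset.subset_univ S)]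
      · refine Finset.sum_congr rfl fun b hb => ?_
        simp [ha, hb]
      · intro b _ hb
        rw [if_neg (fun h => hb h.2.1)]
    · intro a _ ha
      refine Finset.sum_eq_zero fun b _ => ?_
      rw [if_neg (fun h => ha h.1)]
  rw [Finset.sum_congr rfl (fun S _ => h1 S), Finset.sum_comm]
  refine Finset.sum_congr rfl fun a _ => ?_
  rw [Finset.sum_comm]
  refine Finset.sum_congr rfl fun b _ => ?_
  by_cases hab : G.Adj a b
  · rw [if_pos hab]
    rw [Finset.sum_eq_single ({a, b} : Finset V)]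
    · simp [hab]
    · intro S hS hne
      rw [if_neg]
      rintro ⟨ha, hb, -⟩
      apply hne
      symm
      apply Finset.eq_of_subset_of_card_le
      · intro c hc
        rcases Finset.mem_insert.1 hc with rfl | hc
        · exact ha
        · rw [Finset.mem_singleton] at hc
          rw [hc]
          exact hb
      · rw [(Finset.mem_powersetCard.1 hS).2, Finset.card_pair hab.ne]
    · intro h
      exact absurd (Finset.mem_powersetCard.2 ⟨Finset.subset_univ _, Finset.card_pair hab.ne⟩) h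
  · rw [if_neg hab]
    refine Finset.sum_eq_zero fun S _ => ?_
    rw [if_neg (fun h => hab h.2.2)]

theorem eg_univ_eq [Fintype V] (h1 : T_KEL) {G H : SimpleGraph V} {ψ : V → Equiv.Perm V}
    (hyp : Hyp G H ψ) (h3 : 3 ≤ Fintype.card V) : eg G univ = eg H univ := by
  rw [← eg_two G, ← eg_two H]
  exact h1 V G H ψ eg 2 hyp (fun G1 G2 S1 S2 h => eg_is h) (by omega)

theorem pend_cnt [Fintype V] (G X : SimpleGraph V) (P : Finset V) :
    ((univ : Finset (Finset V)).filter (fun A => Is G A X P ∧ ∃ r x, Pnd G A r x)).card =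
      if eg X P + 2 ≤ eg G univ then
        (univ.filter (fun A : Finset V => Is G A X P ∧ eg G Aᶜ = eg G univ - eg X P - 2)).card
      else 0 := by
  split_ifs with h
  · congr 1
    ext A
    simp only [Finset.mem_filter, Finset.mem_univ, true_and]
    constructor
    · rintro ⟨hA, hp⟩
      refine ⟨hA, ?_⟩
      have h1 := (cr_one G A).2 hp
      have h2 := eg_split G A
      have h3 := eg_is hA
      omega
    · rintro ⟨hA, hp⟩
      refine ⟨hA, ?_⟩
      rw [← cr_one]
      have h2 := eg_split G A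
      have h3 := eg_is hA
      omega
  · rw [Finset.card_eq_zero, Finset.filter_eq_empty_iff]
    rintro A - ⟨hA, hp⟩
    have h1 := (cr_one G A).2 hp
    have h2 := eg_split G A
    have h3 := eg_is hA
    omega

end NP_

/-- NP: the number of pendant sets of a given isomorphism type is reconstructible. -/
theorem p_NP (h1 : T_KEL) : T_NP := by
  intro V _ G H ψ X P hyp h3 hP hPu
  have hlt : P.card < Fintype.card V := (Finset.card_lt_iff_ne_univ P).2 hPu
  have hpos : 0 < P.card := Finset.card_pos.2 hP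
  rw [NP_.pend_cnt, NP_.pend_cnt, NP_.eg_univ_eq h1 hyp h3]
  split_ifs with h
  · rw [← NP_.PR_N, ← NP_.PR_N]
    exact NP_.PR_univ h1 hyp X P _ _ hlt (by omega)
  · rfl

end Pool.Agent.Pend
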