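import Pool.Agent.Pend.Targets

/-!
PCONS: connectedness and pendant sets.
-/

set_option autoImplicit false

namespace Pool.Agent.Pend

open Finset Classical

namespace PCONS_

/-- images of connected graphs -/
private theorem retr {V W : Type} (G : SimpleGraph V) (H : SimpleGraph W) (f : V → W)
    (hf : ∀ a b, G.Adj a b → f a = f b ∨ H.Adj (f a) (f b)) (hs : Function.Surjective f)
    (hG : G.Connected) : H.Connected := by
  have key : ∀ a b, G.Walk a b → H.Reachable (f a) (f b) := by
    intro a b p
    induction p with
    | nil => exact SimpleGraph.Reachable.refl _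
    | cons h _ ih =>
      rcases hf _ _ h with e | e
      · rw [e]; exact ih
      · exact e.reachable.trans ih
  have hne : Nonempty W := hG.nonempty.map f
  refine SimpleGraph.Connected.mk ?_
  intro c d
  obtain ⟨a, rfl⟩ := hs c
  obtain ⟨b, rfl⟩ := hs d
  obtain ⟨p⟩ := hG.preconnected a b
  exact key a b p

end PCONS_

open PCONS_ in
/-- PCONS. -/
theorem p_PCONS : T_PCONS := by
  intro V _ G S A r x hP
  obtain ⟨hAS, hr, hxS, hxA, hadj⟩ := hP
  constructor
  · intro hc
    constructor
    · refine retr (G.induce (S : Set V)) (G.induce (A : Set V))
        (fun a => if h : (a : V) ∈ A then ⟨a, by simpa using h⟩ else ⟨r, by simpa using hr⟩)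
        ?_ ?_ hc
      · rintro ⟨a, ha⟩ ⟨b, hb⟩ hab
        have ha' : a ∈ S := by simpa using ha
        have hb' : b ∈ S := by simpa using hb
        have hab' : G.Adj a b := hab
        by_cases h1 : a ∈ A
        · by_cases h2 : b ∈ A
          · right
            simp only [h1, h2, dif_pos]
            exact hab'
          · left
            have := ((hadj a h1 b hb' h2).1 hab').1
            simp [h2, this, hr]
        · by_cases h2 : b ∈ A
          · left
            have := ((hadj b h2 a ha' h1).1 hab'.symm).1
            simp [h1, this, hr]
          · left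
            simp [h1, h2]
      · rintro ⟨a, ha⟩
        have ha' : a ∈ A := by simpa using ha
        exact ⟨⟨a, by simpa using hAS ha'⟩, by simp [ha']⟩
    · have hx : x ∈ ((S \ A : Finset V) : Set V) := by simp [hxS, hxA]
      refine retr (G.induce (S : Set V)) (G.induce ((S \ A : Finset V) : Set V))
        (fun a => if h : (a : V) ∈ ((S \ A : Finset V) : Set V) then ⟨a, h⟩ else ⟨x, hx⟩)
        ?_ ?_ hc
      · rintro ⟨a, ha⟩ ⟨b, hb⟩ hab
        have ha' : a ∈ S := by simpa using ha
        have hb' : b ∈ S := by simpa using hb
        have hab' : G.Adj a b := hab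
        by_cases h1 : a ∈ A
        · have k1 : a ∉ ((S \ A : Finset V) : Set V) := by simp [h1]
          by_cases h2 : b ∈ A
          · left
            have k2 : b ∉ ((S \ A : Finset V) : Set V) := by simp [h2]
            simp only [k1, k2, dif_neg, not_false_eq_true]
          · left
            have := ((hadj a h1 b hb' h2).1 hab').2
            subst this
            have k2 : b ∈ ((S \ A : Finset V) : Set V) := by simp [h2, hb']
            simp only [k1, k2, dif_neg, not_false_eq_true, dif_pos]
        · have k1 : a ∈ ((S \ A : Finset V) : Set V) := by simp [h1, ha']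
          by_cases h2 : b ∈ A
          · left
            have := ((hadj b h2 a ha' h1).1 hab'.symm).2
            subst this
            have k2 : b ∉ ((S \ A : Finset V) : Set V) := by simp [h2]
            simp only [k1, k2, dif_neg, not_false_eq_true, dif_pos]
          · right
            have k2 : b ∈ ((S \ A : Finset V) : Set V) := by simp [h2, hb']
            simp only [k1, k2, dif_pos]
            exact hab'
      · rintro ⟨a, ha⟩
        have ha' : a ∈ S ∧ a ∉ A := by simpa using ha
        exact ⟨⟨a, by simpa using ha'.1⟩, by simp only [ha, dif_pos]⟩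
  · rintro ⟨h1, h2⟩
    have hrx : G.Adj r x := (hadj r hr x hxS hxA).2 ⟨rfl, rfl⟩
    have hu : (S : Set V) = (A : Set V) ∪ ((S \ A : Finset V) : Set V) := by
      ext a
      simp only [Finset.coe_sdiff, Set.mem_union, Finset.mem_coe, Set.mem_sdiff]
      constructor
      · intro h
        by_cases h' : a ∈ A
        · exact Or.inl h'
        · exact Or.inr ⟨h, h'⟩
      · rintro (h | h)
        · exact hAS h
        · exact h.1
    rw [hu]
    exact SimpleGraph.connected_induce_union h1.preconnected h2.preconnected (by simpa using hr)
      (by simp [hxS, hxA]) hrx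

end Pool.Agent.Pend
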