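import Pool.Agent.Pend.Targets2

/-! RECUR: the recursion for the number of graphs without `K_t` minor. -/

set_option autoImplicit false

namespace Pool.Agent.Pend

open Finset Classical Filter Topology

namespace RECUR_

/-- extension of a function on `D` by the identity -/
noncomputable def ex {n : ℕ} (D : Finset (Fin n)) (ψ : D → Fin n) (v : Fin n) : Fin n :=
  if h : v ∈ D then ψ ⟨v, h⟩ else v

/-- the conditions on a matching or on twins -/
def Cond {n : ℕ} (t : ℕ) (D : Finset (Fin n)) (φ : Fin n → Fin n) (G : SimpleGraph (Fin n)) :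
    Prop :=
  ¬ Minor (⊤ : SimpleGraph (Fin t)) G ∧ Set.InjOn φ D ∧ (∀ v ∈ D, φ v ∉ D) ∧
    ((∀ v ∈ D, G.Adj v (φ v)) ∨ (∀ v ∈ D, ∀ w, (G.Adj v w ↔ G.Adj (φ v) w)))

/-- the graphs with a given matching or given twins -/
noncomputable def E {n : ℕ} (t : ℕ) (D : Finset (Fin n)) (φ : Fin n → Fin n) :
    Finset (SimpleGraph (Fin n)) := univ.filter (fun G => Cond t D φ G)

theorem card_E (h2 : T_CNTM) (h3 : T_CNTT) {n : ℕ} (t s : ℕ) (D : Finset (Fin n))
    (hD : D.card = s) (φ : Fin n → Fin n) :
    (E t D φ).card ≤ (2 ^ (4 * 2 ^ t * n) + 1) * pt t (n - s) := by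
  by_cases hc : Set.InjOn φ D ∧ ∀ v ∈ D, φ v ∉ D
  · have h4 := h2 t n D φ hc.1 hc.2
    have h5 := h3 t n D φ hc.2
    rw [hD] at h4 h5
    have h6 : (E t D φ).card ≤ 2 ^ (4 * 2 ^ t * n) * pt t (n - s) + pt t (n - s) := by
      refine le_trans ?_ (Nat.add_le_add h4 h5)
      refine le_trans (card_le_card ?_) (card_union_le _ _)
      intro G hG
      obtain ⟨_, h6, _, _, h7⟩ := mem_filter.1 hG
      rw [mem_union]
      rcases h7 with h7 | h7
      · exact Or.inl (mem_filter.2 ⟨mem_univ _, h6, h7⟩)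
      · exact Or.inr (mem_filter.2 ⟨mem_univ _, h6, h7⟩)
    calc (E t D φ).card ≤ 2 ^ (4 * 2 ^ t * n) * pt t (n - s) + pt t (n - s) := h6
      _ = (2 ^ (4 * 2 ^ t * n) + 1) * pt t (n - s) := by ring
  · have h4 : E t D φ = ∅ := by
      rw [eq_empty_iff_forall_notMem]
      intro G hG
      obtain ⟨_, _, h5, h6, _⟩ := mem_filter.1 hG
      exact hc ⟨h5, h6⟩
    rw [h4, card_empty]
    exact Nat.zero_le _

/-- the index set -/
noncomputable def I (n s : ℕ) : Finset (Σ D : Finset (Fin n), (D → Fin n)) :=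
  (powersetCard s (univ : Finset (Fin n))).sigma (fun D => (univ : Finset (D → Fin n)))

theorem card_I (n s : ℕ) : (I n s).card = n.choose s * n ^ s := by
  unfold I
  rw [card_sigma]
  have h4 : ∀ D ∈ powersetCard s (univ : Finset (Fin n)),
      (univ : Finset (D → Fin n)).card = n ^ s := by
    intro D hD
    rw [card_univ, Fintype.card_fun, Fintype.card_fin, Fintype.card_coe,
      (mem_powersetCard.1 hD).2]
  rw [sum_congr rfl h4, sum_const, card_powersetCard, card_univ, Fintype.card_fin, smul_eq_mul]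

end RECUR_

open RECUR_ in
/-- RECUR -/
theorem p_RECUR (h1 : T_STRUCT) (h2 : T_CNTM) (h3 : T_CNTT) : T_RECUR := by
  intro t n s hs
  have h4 : pt t n ≤ ((I n s).biUnion (fun p => E t p.1 (ex p.1 p.2))).card := by
    unfold pt
    refine card_le_card ?_
    intro G hG
    have hG' : ¬ Minor (⊤ : SimpleGraph (Fin t)) G := (mem_filter.1 hG).2
    obtain ⟨D, φ, hD, hinj, hno, hor⟩ := h1 t s (Fin n) G hG' (by rw [Fintype.card_fin]; exact hs)
    have hex : ∀ v ∈ D, ex D (fun w : D => φ w) v = φ v := by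
      intro v hv
      unfold ex
      rw [dif_pos hv]
    refine mem_biUnion.2 ⟨⟨D, fun w : D => φ w⟩, ?_, ?_⟩
    · exact mem_sigma.2 ⟨mem_powersetCard.2 ⟨subset_univ _, hD⟩, mem_univ _⟩
    · refine mem_filter.2 ⟨mem_univ _, hG', ?_, ?_, ?_⟩
      · intro v hv w hw he
        have hv' : v ∈ D := hv
        have hw' : w ∈ D := hw
        have he' : ex D (fun w : D => φ w) v = ex D (fun w : D => φ w) w := he
        rw [hex v hv', hex w hw'] at he'
        exact hinj hv hw he'
      · intro v hv
        have hv' : v ∈ D := hv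
        show ex D (fun w : D => φ w) v ∉ D
        rw [hex v hv']
        exact hno v hv'
      · rcases hor with h | h
        · refine Or.inl fun v hv => ?_
          have hv' : v ∈ D := hv
          show G.Adj v (ex D (fun w : D => φ w) v)
          rw [hex v hv']
          exact h v hv'
        · refine Or.inr fun v hv w => ?_
          have hv' : v ∈ D := hv
          show G.Adj v w ↔ G.Adj (ex D (fun w : D => φ w) v) w
          rw [hex v hv']
          exact h v hv' w
  refine h4.trans ?_
  refine (card_biUnion_le_card_mul _ _ ((2 ^ (4 * 2 ^ t * n) + 1) * pt t (n - s)) ?_).trans ?_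
  · intro p hp
    have h5 := (mem_powersetCard.1 (mem_sigma.1 hp).1).2
    exact card_E h2 h3 t s p.1 h5 _
  · rw [card_I]
    exact le_of_eq (by ring)

end Pool.Agent.Pend
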