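import Pool.Agent.Pend.Targets2

/-!
# SMNUM: the recursion implies exponential growth
-/

set_option autoImplicit false

namespace Pool.Agent.Pend

open Finset Classical Filter Topology

namespace SMNUM_

theorem fact_ineq (n s : ℕ) (hs : 2 * s ≤ n) :
    n ^ s * (n - s).factorial ≤ 2 ^ n * n.factorial := by
  have h1 : (n - s).factorial * n.descFactorial s = n.factorial :=
    Nat.factorial_mul_descFactorial (by omega)
  have h2 : (n + 1 - s) ^ s ≤ n.descFactorial s := Nat.pow_sub_le_descFactorial n s
  have h3 : n ^ s ≤ 2 ^ s * (n + 1 - s) ^ s := by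
    rw [← mul_pow]
    exact Nat.pow_le_pow_left (by omega) s
  have h4 : 2 ^ s ≤ 2 ^ n := Nat.pow_le_pow_right (by norm_num) (by omega)
  calc n ^ s * (n - s).factorial ≤ (2 ^ s * (n + 1 - s) ^ s) * (n - s).factorial :=
        Nat.mul_le_mul_right _ h3
    _ ≤ (2 ^ n * n.descFactorial s) * (n - s).factorial :=
        Nat.mul_le_mul_right _ (Nat.mul_le_mul h4 h2)
    _ = 2 ^ n * n.factorial := by rw [← h1]; ring

theorem main (p : ℕ → ℕ) (c A : ℕ) (hc : 2 ≤ c)
    (h : ∀ n s : ℕ, 1 + s * c ≤ n → p n ≤ n.choose s * n ^ s * (2 ^ (A * n) + 1) * p (n - s))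
    (M : ℕ) (hM : ∀ n, n < 2 * c → p n ≤ M) :
    ∀ n, p n ≤ M * (2 ^ (A + 3)) ^ (2 * c * n) * n.factorial := by
  intro n
  induction n using Nat.strong_induction_on with
  | _ n ih =>
    by_cases hn : n < 2 * c
    · calc p n ≤ M := hM n hn
        _ = M * 1 * 1 := by ring
        _ ≤ M * (2 ^ (A + 3)) ^ (2 * c * n) * n.factorial := by
          apply Nat.mul_le_mul
          · apply Nat.mul_le_mul_left
            exact Nat.one_le_pow _ _ (by positivity)
          · exact Nat.factorial_pos n
    · push Not at hn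
      obtain ⟨s, hs⟩ : ∃ s, s = (n - 1) / c := ⟨_, rfl⟩
      have hcpos : 0 < c := by omega
      have h1 : s * c ≤ n - 1 := by rw [hs]; exact Nat.div_mul_le_self _ _
      have h2 : n - 1 < (s + 1) * c := by
        rw [hs]
        have h4 := Nat.div_add_mod (n - 1) c
        have h5 := Nat.mod_lt (n - 1) hcpos
        nlinarith
      have h3 : 2 * s ≤ n := by
        have : s * 2 ≤ s * c := Nat.mul_le_mul_left s hc
        omega
      have h4 : n ≤ 2 * c * s := by
        have : (s + 1) * c = s * c + c := by ring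
        have : 2 * c * s = 2 * (s * c) := by ring
        omega
      have hspos : 0 < s := by
        rcases Nat.eq_zero_or_pos s with h0 | h0
        · rw [h0] at h4; omega
        · exact h0
      have hih := ih (n - s) (by omega)
      have hrec := h n s (by omega)
      have hch : n.choose s ≤ 2 ^ n := Nat.choose_le_two_pow n s
      have hA : 2 ^ (A * n) + 1 ≤ 2 ^ ((A + 1) * n) := by
        have e1 : 2 ^ (A * n) + 1 ≤ 2 ^ (A * n + 1) := by
          rw [pow_succ]
          have : 1 ≤ 2 ^ (A * n) := Nat.one_le_two_pow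
          omega
        refine e1.trans (Nat.pow_le_pow_right (by norm_num) ?_)
        have : (A + 1) * n = A * n + n := by ring
        omega
      have hfact := fact_ineq n s h3
      calc p n ≤ n.choose s * n ^ s * (2 ^ (A * n) + 1) * p (n - s) := hrec
        _ ≤ 2 ^ n * n ^ s * 2 ^ ((A + 1) * n) *
            (M * (2 ^ (A + 3)) ^ (2 * c * (n - s)) * (n - s).factorial) := by
          gcongr
        _ = 2 ^ n * 2 ^ ((A + 1) * n) * (M * (2 ^ (A + 3)) ^ (2 * c * (n - s))) *
            (n ^ s * (n - s).factorial) := by ring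
        _ ≤ 2 ^ n * 2 ^ ((A + 1) * n) * (M * (2 ^ (A + 3)) ^ (2 * c * (n - s))) *
            (2 ^ n * n.factorial) := by gcongr
        _ = M * ((2 ^ (A + 3)) ^ n * (2 ^ (A + 3)) ^ (2 * c * (n - s))) * n.factorial := by
          have : (2 ^ (A + 3)) ^ n = 2 ^ n * 2 ^ ((A + 1) * n) * 2 ^ n := by
            rw [← pow_mul, ← pow_add, ← pow_add]
            congr 1
            ring
          rw [this]
          ring
        _ ≤ M * (2 ^ (A + 3)) ^ (2 * c * n) * n.factorial := by
          apply Nat.mul_le_mul_right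
          apply Nat.mul_le_mul_left
          rw [← pow_add]
          apply Nat.pow_le_pow_right (by positivity)
          have e2 : 2 * c * n = 2 * c * (n - s) + 2 * c * s := by
            rw [← Nat.mul_add]
            congr 1
            omega
          rw [e2]
          omega

end SMNUM_

theorem p_SMNUM : T_SMNUM := by
  intro p c A hc h0 h
  obtain ⟨M, hM1, hM⟩ : ∃ M : ℕ, 1 ≤ M ∧ ∀ n, n < 2 * c → p n ≤ M := by
    refine ⟨1 + ∑ i ∈ Finset.range (2 * c), p i, by omega, fun n hn => ?_⟩
    have := Finset.single_le_sum (f := p) (fun i _ => Nat.zero_le _) (Finset.mem_range.2 hn)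
    omega
  refine ⟨((M * (2 ^ (A + 3)) ^ (2 * c) : ℕ) : ℝ), fun n => ?_⟩
  have key : p n ≤ (M * (2 ^ (A + 3)) ^ (2 * c)) ^ n * n.factorial := by
    rcases Nat.eq_zero_or_pos n with hn | hn
    · subst hn
      simpa using h0
    · have h1 := SMNUM_.main p c A hc h M hM n
      refine h1.trans ?_
      rw [mul_pow, pow_mul (2 ^ (A + 3)) (2 * c) n]
      apply Nat.mul_le_mul_right
      apply Nat.mul_le_mul_right
      exact Nat.le_self_pow hn.ne' M
  exact_mod_cast key

end Pool.Agent.Pend
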