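import Pool.Agent.Pend.Targets

/-!
SMOOTH: a growth constant and AINEQ give a regular growth.
-/

set_option autoImplicit false

namespace Pool.Agent.Pend

open Filter Topology

namespace SMOOTH_

theorem tele {e : ℕ → ℝ} {γ : ℝ} {n₀ : ℕ} (hγ : 0 < γ)
    (hs : ∀ n : ℕ, n₀ ≤ n → e (n + 1) ≤ e n + γ / ((n : ℝ) + 1)) (m : ℕ) (hm : n₀ + 1 ≤ m) :
    ∀ k : ℕ, e (m + k) ≤ e m + γ * k / m := by
  have hm0 : (0 : ℝ) < m := by
    have : 0 < m := by omega
    exact_mod_cast this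
  intro k
  induction k with
  | zero => simp
  | succ k ih =>
    have h1 := hs (m + k) (by omega)
    have h2 : γ / (((m + k : ℕ) : ℝ) + 1) ≤ γ / m := by
      apply div_le_div_of_nonneg_left hγ.le hm0
      push_cast
      have : (0 : ℝ) ≤ k := Nat.cast_nonneg k
      linarith
    have h3 : γ * ((k + 1 : ℕ) : ℝ) / m = γ * k / m + γ / m := by
      push_cast
      ring
    rw [h3]
    have h4 : m + (k + 1) = m + k + 1 := by ring
    rw [h4]
    linarith

theorem sum_ge {u : ℕ → ℝ} {c : ℝ} (m : ℕ) : ∀ M : ℕ,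
    (∀ j, j < M → c ≤ u (m + j) - u (m + j + 1)) → M * c ≤ u m - u (m + M) := by
  intro M
  induction M with
  | zero => intro _; simp
  | succ M ih =>
    intro h
    have h1 := ih (fun j hj => h j (by omega))
    have h2 := h M (by omega)
    push_cast
    have h4 : m + (M + 1) = m + M + 1 := by ring
    rw [h4]
    linarith

theorem upper {u e : ℕ → ℝ} {γ : ℝ} {n₀ : ℕ} (hγ : 0 < γ)
    (he : ∀ n, n₀ ≤ n → e n = Real.exp (u n - u (n + 1)))
    (hs : ∀ n : ℕ, n₀ ≤ n → e (n + 1) ≤ e n + γ / ((n : ℝ) + 1))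
    (hu : ∀ η : ℝ, 0 < η → ∃ n₁ : ℕ, ∀ n : ℕ, n₁ ≤ n → |u n| ≤ η * n) :
    ∀ ε : ℝ, 0 < ε → ∃ n₁ : ℕ, ∀ n, n₁ ≤ n → e n ≤ 1 + 3 * ε := by
  intro ε hε
  have hsum : 0 < ε + γ := by linarith
  obtain ⟨δ, hδ⟩ : ∃ δ : ℝ, δ = ε / (ε + γ) := ⟨_, rfl⟩
  have hδ0 : 0 < δ := by
    rw [hδ]
    exact div_pos hε hsum
  have hδ1 : 0 < 1 - δ := by
    have : 1 - δ = γ / (ε + γ) := by
      rw [hδ]
      field_simp
      ring
    rw [this]
    exact div_pos hγ hsum
  have hδ2 : γ * δ = ε * (1 - δ) := by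
    rw [hδ]
    field_simp
    ring
  obtain ⟨c, hc⟩ : ∃ c : ℝ, c = Real.log (1 + 2 * ε) := ⟨_, rfl⟩
  have hc0 : 0 < c := by
    rw [hc]
    exact Real.log_pos (by linarith)
  obtain ⟨n₁, hn₁⟩ := hu (δ * c / 8) (by positivity)
  obtain ⟨n₂, hn₂⟩ := exists_nat_ge ((((n₀ + n₁ + 1 : ℕ) : ℝ)) / (1 - δ) + 2 / δ)
  refine ⟨n₂, fun N hN => ?_⟩
  have hN0 : (n₂ : ℝ) ≤ N := by exact_mod_cast hN
  have hN1 : ((n₀ + n₁ + 1 : ℕ) : ℝ) ≤ (1 - δ) * N := by
    have h1 : (((n₀ + n₁ + 1 : ℕ) : ℝ)) / (1 - δ) ≤ N := by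
      have : 0 ≤ 2 / δ := by positivity
      linarith
    rw [div_le_iff₀ hδ1] at h1
    linarith
  have hN2 : 2 ≤ δ * N := by
    have h1 : 2 / δ ≤ N := by
      have : 0 ≤ (((n₀ + n₁ + 1 : ℕ) : ℝ)) / (1 - δ) := by positivity
      linarith
    rw [div_le_iff₀ hδ0] at h1
    linarith
  have hNpos : (0 : ℝ) < N := by
    by_contra h
    push Not at h
    have : δ * N ≤ 0 := mul_nonpos_of_nonneg_of_nonpos hδ0.le h
    linarith
  obtain ⟨M, hM⟩ : ∃ M : ℕ, M = ⌊δ * N⌋₊ := ⟨_, rfl⟩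
  have hM1 : (M : ℝ) ≤ δ * N := by
    rw [hM]
    exact Nat.floor_le (by positivity)
  have hM2 : δ * N < M + 1 := by
    rw [hM]
    exact Nat.lt_floor_add_one _
  have hM3 : δ * N / 2 ≤ M := by linarith
  have hMN : M ≤ N := by
    have : (M : ℝ) ≤ N := by nlinarith
    exact_mod_cast this
  obtain ⟨N', hN'⟩ : ∃ N' : ℕ, N = N' + M := ⟨N - M, by omega⟩
  have hN'1 : (1 - δ) * N ≤ N' := by
    have : (N : ℝ) = N' + M := by exact_mod_cast hN'
    nlinarith
  have hN'2 : n₀ + n₁ + 1 ≤ N' := by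
    have : ((n₀ + n₁ + 1 : ℕ) : ℝ) ≤ N' := hN1.trans hN'1
    exact_mod_cast this
  by_contra hcon
  push Not at hcon
  have key : ∀ j, j < M → c ≤ u (N' + j) - u (N' + j + 1) := by
    intro j hj
    have h1 := tele hγ hs (N' + j) (by omega) (M - j)
    have h2 : N' + j + (M - j) = N := by omega
    rw [h2] at h1
    have hpos : (0 : ℝ) < ((N' + j : ℕ) : ℝ) := by
      have : 0 < N' + j := by omega
      exact_mod_cast this
    have h3 : γ * ((M - j : ℕ) : ℝ) / ((N' + j : ℕ) : ℝ) ≤ ε := by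
      rw [div_le_iff₀ hpos]
      have h4 : ((M - j : ℕ) : ℝ) ≤ M := by exact_mod_cast Nat.sub_le M j
      have h5 : (N' : ℝ) ≤ ((N' + j : ℕ) : ℝ) := by exact_mod_cast Nat.le_add_right N' j
      calc γ * ((M - j : ℕ) : ℝ) ≤ γ * (δ * N) := by
            apply mul_le_mul_of_nonneg_left _ hγ.le
            linarith
        _ = ε * ((1 - δ) * N) := by rw [← mul_assoc, hδ2]; ring
        _ ≤ ε * ((N' + j : ℕ) : ℝ) := by
            apply mul_le_mul_of_nonneg_left _ hε.le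
            linarith
    have h6 : 1 + 2 * ε ≤ e (N' + j) := by linarith
    rw [he _ (by omega)] at h6
    rw [hc]
    rw [← Real.log_exp (u (N' + j) - u (N' + j + 1))]
    exact Real.log_le_log (by linarith) h6
  have h7 := sum_ge N' M key
  rw [← hN'] at h7
  have h8 := (abs_le.1 (hn₁ N (by omega))).1
  have h9 := (abs_le.1 (hn₁ N' (by omega))).2
  have h10 : (N' : ℝ) ≤ N := by exact_mod_cast (show N' ≤ N by omega)
  have h11 : δ * c / 8 * N' ≤ δ * c / 8 * N := by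
    apply mul_le_mul_of_nonneg_left h10
    positivity
  have h12 : δ * N / 2 * c ≤ M * c := mul_le_mul_of_nonneg_right hM3 hc0.le
  have h13 : 0 < δ * c * N := by positivity
  nlinarith

theorem lower {u e : ℕ → ℝ} {γ : ℝ} {n₀ : ℕ} (hγ : 0 < γ)
    (he : ∀ n, n₀ ≤ n → e n = Real.exp (u n - u (n + 1)))
    (hs : ∀ n : ℕ, n₀ ≤ n → e (n + 1) ≤ e n + γ / ((n : ℝ) + 1))
    (hu : ∀ η : ℝ, 0 < η → ∃ n₁ : ℕ, ∀ n : ℕ, n₁ ≤ n → |u n| ≤ η * n) :
    ∀ ε : ℝ, 0 < ε → ∃ n₁ : ℕ, ∀ n, n₁ ≤ n → 1 - 3 * ε ≤ e n := by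
  intro ε hε
  have hsum : 0 < ε + γ := by linarith
  obtain ⟨δ, hδ⟩ : ∃ δ : ℝ, δ = ε / (ε + γ) := ⟨_, rfl⟩
  have hδ0 : 0 < δ := by
    rw [hδ]
    exact div_pos hε hsum
  have hδ1 : 0 < 1 - δ := by
    have : 1 - δ = γ / (ε + γ) := by
      rw [hδ]
      field_simp
      ring
    rw [this]
    exact div_pos hγ hsum
  have hδ2 : γ * δ = ε * (1 - δ) := by
    rw [hδ]
    field_simp
    ring
  obtain ⟨n₁, hn₁⟩ := hu (δ * ε / 4) (by positivity)
  obtain ⟨n₂, hn₂⟩ := exists_nat_ge ((((n₀ + n₁ + 1 : ℕ) : ℝ)) + 2 / δ)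
  refine ⟨n₂, fun N hN => ?_⟩
  have hN0 : (n₂ : ℝ) ≤ N := by exact_mod_cast hN
  have hN1 : n₀ + n₁ + 1 ≤ N := by
    have h1 : (((n₀ + n₁ + 1 : ℕ) : ℝ)) ≤ N := by
      have : 0 ≤ 2 / δ := by positivity
      linarith
    exact_mod_cast h1
  have hN2 : 2 ≤ δ * N := by
    have h1 : 2 / δ ≤ N := by
      have : (0 : ℝ) ≤ (((n₀ + n₁ + 1 : ℕ) : ℝ)) := Nat.cast_nonneg _
      linarith
    rw [div_le_iff₀ hδ0] at h1
    linarith
  have hNpos : (0 : ℝ) < N := by
    have : 0 < N := by omega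
    exact_mod_cast this
  obtain ⟨M, hM⟩ : ∃ M : ℕ, M = ⌊δ * N⌋₊ := ⟨_, rfl⟩
  have hM1 : (M : ℝ) ≤ δ * N := by
    rw [hM]
    exact Nat.floor_le (by positivity)
  have hM2 : δ * N < M + 1 := by
    rw [hM]
    exact Nat.lt_floor_add_one _
  have hM3 : δ * N / 2 ≤ M := by linarith
  have hMN : (M : ℝ) ≤ N := by nlinarith
  by_contra hcon
  push Not at hcon
  have key : ∀ j, j < M → 2 * ε ≤ (fun n => - u n) (N + j) - (fun n => - u n) (N + j + 1) := by
    intro j hj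
    have h1 := tele hγ hs N (by omega) j
    have h3 : γ * (j : ℝ) / N ≤ ε := by
      rw [div_le_iff₀ hNpos]
      have h4 : (j : ℝ) ≤ M := by exact_mod_cast hj.le
      calc γ * (j : ℝ) ≤ γ * (δ * N) := by
            apply mul_le_mul_of_nonneg_left _ hγ.le
            linarith
        _ = ε * ((1 - δ) * N) := by rw [← mul_assoc, hδ2]; ring
        _ ≤ ε * N := by
            apply mul_le_mul_of_nonneg_left _ hε.le
            nlinarith
    have h6 : e (N + j) ≤ 1 - 2 * ε := by linarith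
    rw [he _ (by omega)] at h6
    have h7 := Real.add_one_le_exp (u (N + j) - u (N + j + 1))
    simp only
    linarith
  have h7 : (M : ℝ) * (2 * ε) ≤ - u N - - u (N + M) := sum_ge (u := fun n => - u n) N M key
  have h8 := (abs_le.1 (hn₁ N (by omega))).1
  have h9 := (abs_le.1 (hn₁ (N + M) (by omega))).2
  have h11 : δ * ε / 4 * ((N + M : ℕ) : ℝ) ≤ δ * ε / 4 * (2 * N) := by
    apply mul_le_mul_of_nonneg_left _ (by positivity)
    push_cast
    linarith
  have h12 : δ * N / 2 * (2 * ε) ≤ M * (2 * ε) := mul_le_mul_of_nonneg_right hM3 (by positivity)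
  have h13 : 0 < δ * ε * N := by positivity
  nlinarith

end SMOOTH_

/-- SMOOTH: a growth constant and AINEQ give a regular growth. -/
theorem p_SMOOTH : T_SMOOTH := by
  intro a γ n₀ hγ hpos hineq hlim
  -- the logarithms
  have hlog : Tendsto (fun n : ℕ => 1 / (n : ℝ) * Real.log (a n)) atTop (𝓝 (Real.log γ)) := by
    have h1 := (Real.continuousAt_log hγ.ne').tendsto.comp hlim
    refine h1.congr' ?_
    filter_upwards [eventually_ge_atTop n₀] with n hn
    exact Real.log_rpow (hpos n hn) _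
  have hu : ∀ η : ℝ, 0 < η → ∃ n₁ : ℕ, ∀ n : ℕ, n₁ ≤ n →
      |(Real.log (a n) - n * Real.log γ)| ≤ η * n := by
    intro η hη
    obtain ⟨n₁, hn₁⟩ := Metric.tendsto_atTop.1 hlog η hη
    refine ⟨n₁ + 1, fun n hn => ?_⟩
    have h1 := hn₁ n (by omega)
    rw [Real.dist_eq] at h1
    have hn0 : (0 : ℝ) < n := by
      have : 0 < n := by omega
      exact_mod_cast this
    have h2 : Real.log (a n) - n * Real.log γ =
        n * (1 / (n : ℝ) * Real.log (a n) - Real.log γ) := by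
      field_simp
    rw [h2, abs_mul, abs_of_pos hn0, mul_comm η]
    exact mul_le_mul_of_nonneg_left h1.le hn0.le
  have he : ∀ n, n₀ ≤ n → γ * (a n / a (n + 1)) =
      Real.exp ((Real.log (a n) - n * Real.log γ) -
        (Real.log (a (n + 1)) - (n + 1 : ℕ) * Real.log γ)) := by
    intro n hn
    have h1 : (Real.log (a n) - n * Real.log γ) -
        (Real.log (a (n + 1)) - (n + 1 : ℕ) * Real.log γ) =
        Real.log γ + (Real.log (a n) - Real.log (a (n + 1))) := by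
      push_cast
      ring
    rw [h1, Real.exp_add, Real.exp_sub, Real.exp_log hγ, Real.exp_log (hpos n hn),
      Real.exp_log (hpos (n + 1) (by omega))]
  have hs : ∀ n : ℕ, n₀ ≤ n → γ * (a (n + 1) / a (n + 1 + 1)) ≤
      γ * (a n / a (n + 1)) + γ / ((n : ℝ) + 1) := by
    intro n hn
    have h1 := hineq n hn
    have p0 := hpos n hn
    have p1 := hpos (n + 1) (by omega)
    have p2 := hpos (n + 2) (by omega)
    have hn1 : (0 : ℝ) < (n : ℝ) + 1 := by positivity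
    have hn0 : (0 : ℝ) ≤ (n : ℝ) := by positivity
    have h2 : a (n + 1) / a (n + 2) ≤ a n / a (n + 1) + 1 / ((n : ℝ) + 1) := by
      rw [div_add_div _ _ p1.ne' hn1.ne', div_le_div_iff₀ p2 (by positivity)]
      have h3 : ((n : ℝ) + 1) * (a (n + 1) * (a (n + 1) * ((n : ℝ) + 1))) ≤
          ((n : ℝ) + 1) * ((a n * ((n : ℝ) + 1) + a (n + 1) * 1) * a (n + 2)) := by
        have h4 : ((n : ℝ) + 1) * (a (n + 1) * (a (n + 1) * ((n : ℝ) + 1))) =
            ((n : ℝ) + 1) ^ 2 * a (n + 1) ^ 2 := by ring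
        rw [h4]
        refine h1.trans ?_
        have h5 : ((n : ℝ) + 1) * ((a n * ((n : ℝ) + 1) + a (n + 1) * 1) * a (n + 2)) =
            a (n + 2) * ((n : ℝ) ^ 2 * a n + ((n : ℝ) + 1) * a (n + 1)) +
              a (n + 2) * ((2 * (n : ℝ) + 1) * a n) := by ring
        rw [h5]
        have h6 : 0 ≤ a (n + 2) * ((2 * (n : ℝ) + 1) * a n) := by positivity
        linarith
      exact le_of_mul_le_mul_left h3 hn1
    have h7 := mul_le_mul_of_nonneg_left h2 hγ.le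
    calc γ * (a (n + 1) / a (n + 1 + 1)) = γ * (a (n + 1) / a (n + 2)) := rfl
      _ ≤ γ * (a n / a (n + 1) + 1 / ((n : ℝ) + 1)) := h7
      _ = _ := by ring
  have h1 : Tendsto (fun n : ℕ => γ * (a n / a (n + 1))) atTop (𝓝 1) := by
    rw [Metric.tendsto_atTop]
    intro ε hε
    obtain ⟨m₁, hm₁⟩ := SMOOTH_.upper (u := fun n : ℕ => Real.log (a n) - n * Real.log γ)
      (e := fun n : ℕ => γ * (a n / a (n + 1))) hγ he hs hu (ε / 6) (by positivity)
    obtain ⟨m₂, hm₂⟩ := SMOOTH_.lower (u := fun n : ℕ => Real.log (a n) - n * Real.log γ)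
      (e := fun n : ℕ => γ * (a n / a (n + 1))) hγ he hs hu (ε / 6) (by positivity)
    refine ⟨max m₁ m₂, fun n hn => ?_⟩
    have b1 := hm₁ n (le_trans (le_max_left _ _) hn)
    have b2 := hm₂ n (le_trans (le_max_right _ _) hn)
    rw [Real.dist_eq, abs_lt]
    constructor <;> linarith
  have h2 : Tendsto (fun n : ℕ => γ * (γ * (a n / a (n + 1)))⁻¹) atTop (𝓝 (γ * 1⁻¹)) :=
    (h1.inv₀ one_ne_zero).const_mul γ
  rw [inv_one, mul_one] at h2
  refine h2.congr' ?_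
  filter_upwards [eventually_ge_atTop n₀] with n hn
  have p0 := hpos n hn
  have p1 := hpos (n + 1) (by omega)
  field_simp

end Pool.Agent.Pend
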