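import Pool.Agent.Pend.Targets2

/-!
# STRUCT: a large matching or many pairs of twins
-/

set_option autoImplicit false

namespace Pool.Agent.Pend

open Finset Classical

namespace STRUCT_

/-- matchings -/
def Mt {V : Type} (G : SimpleGraph V) (D : Finset V) (φ : V → V) : Prop :=
  Set.InjOn φ D ∧ (∀ v ∈ D, φ v ∉ D) ∧ ∀ v ∈ D, G.Adj v (φ v)

lemma indep {V : Type} (G : SimpleGraph V) (D : Finset V) (φ : V → V) (h : Mt G D φ)
    (hmax : ∀ D' φ', Mt G D' φ' → D'.card ≤ D.card) (x x' : V) (hx : x ∉ D ∪ D.image φ)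
    (hx' : x' ∉ D ∪ D.image φ) : ¬ G.Adj x x' := by
  intro hadj
  rw [mem_union, not_or] at hx hx'
  obtain ⟨h1, h2, h3⟩ := h
  have hne : ∀ v ∈ D, v ≠ x := by
    rintro v hv rfl
    exact hx.1 hv
  have hupd : ∀ v ∈ D, Function.update φ x x' v = φ v := fun v hv =>
    Function.update_of_ne (hne v hv) _ _
  have h4 : Mt G (insert x D) (Function.update φ x x') := by
    refine ⟨?_, ?_, ?_⟩
    · intro a ha b hb hab
      rw [mem_coe, mem_insert] at ha hb
      rcases ha with ha | ha <;> rcases hb with hb | hb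
      · rw [ha, hb]
      · rw [ha, Function.update_self, hupd b hb] at hab
        exact absurd (mem_image.mpr ⟨b, hb, hab.symm⟩) hx'.2
      · rw [hb, Function.update_self, hupd a ha] at hab
        exact absurd (mem_image.mpr ⟨a, ha, hab⟩) hx'.2
      · rw [hupd a ha, hupd b hb] at hab
        exact h1 ha hb hab
    · intro v hv
      rw [mem_insert] at hv
      rcases hv with hv | hv
      · rw [hv, Function.update_self, mem_insert, not_or]
        exact ⟨hadj.ne', hx'.1⟩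
      · rw [hupd v hv, mem_insert, not_or]
        refine ⟨?_, h2 v hv⟩
        intro he
        exact hx.2 (mem_image.mpr ⟨v, hv, he⟩)
    · intro v hv
      rw [mem_insert] at hv
      rcases hv with hv | hv
      · rw [hv, Function.update_self]
        exact hadj
      · rw [hupd v hv]
        exact h3 v hv
  have h5 := hmax _ _ h4
  rw [card_insert_of_notMem hx.1] at h5
  omega

/-- the graph `H(Z, g)` -/
def HH {V : Type} (G : SimpleGraph V) (Y Z : Finset V) (g : V → V) :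
    SimpleGraph {y // y ∈ Y} where
  Adj a b := a ≠ b ∧ (G.Adj a b ∨ (∃ z ∈ Z, g z = a ∧ G.Adj z b) ∨ ∃ z ∈ Z, g z = b ∧ G.Adj z a)
  symm := ⟨fun _ _ h => ⟨h.1.symm, by
    rcases h.2 with h1 | h1 | h1
    · exact Or.inl h1.symm
    · exact Or.inr (Or.inr h1)
    · exact Or.inr (Or.inl h1)⟩⟩
  loopless := ⟨fun _ h => h.1 rfl⟩

lemma HH_adj {V : Type} (G : SimpleGraph V) (Y Z : Finset V) (g : V → V) (a b : {y // y ∈ Y}) :
    (HH G Y Z g).Adj a b ↔ a ≠ b ∧ (G.Adj a b ∨ (∃ z ∈ Z, g z = a ∧ G.Adj z b) ∨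
      ∃ z ∈ Z, g z = b ∧ G.Adj z a) := Iff.rfl

lemma HH_minor {V : Type} (G : SimpleGraph V) (Y Z : Finset V) (g : V → V)
    (hZ : ∀ z ∈ Z, z ∉ Y) (hg : ∀ z ∈ Z, G.Adj z (g z)) : Minor (HH G Y Z g) G := by
  refine ⟨fun y => {v | v = (y : V) ∨ (v ∈ Z ∧ g v = y)}, ?_, ?_, ?_⟩
  · intro y
    rw [SimpleGraph.connected_iff_exists_forall_reachable]
    refine ⟨⟨(y : V), Or.inl rfl⟩, ?_⟩
    rintro ⟨w, hw⟩
    rcases hw with hw | ⟨hw, hw'⟩
    · subst hw
      exact SimpleGraph.Reachable.refl _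
    · apply SimpleGraph.Adj.reachable
      rw [SimpleGraph.comap_adj]
      show G.Adj (y : V) w
      rw [← hw']
      exact (hg w hw).symm
  · intro a b hab
    rw [Set.disjoint_left]
    rintro v (h1 | ⟨h1, h2⟩) (h3 | ⟨h3, h4⟩)
    · exact hab (Subtype.ext (h1.symm.trans h3))
    · exact hZ v h3 (h1 ▸ a.2)
    · exact hZ v h1 (h3 ▸ b.2)
    · exact hab (Subtype.ext (h2.symm.trans h4))
  · intro a b hab
    rcases hab.2 with h1 | ⟨z, hz, h1, h2⟩ | ⟨z, hz, h1, h2⟩
    · exact ⟨a, Or.inl rfl, b, Or.inl rfl, h1⟩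
    · exact ⟨z, Or.inr ⟨hz, h1⟩, b, Or.inl rfl, h2⟩
    · exact ⟨a, Or.inl rfl, z, Or.inr ⟨hz, h1⟩, h2.symm⟩

end STRUCT_

open STRUCT_ in
/-- STRUCT -/
theorem p_STRUCT (h1 : T_MADER) (h2 : T_CLQN) (h3 : T_TWINS) (h4 : T_MTRANS) (_h5 : T_MSUB) :
    T_STRUCT := by
  intro t s V _ G hG hV
  by_cases hbig : ∃ D φ, Mt G D φ ∧ s ≤ D.card
  · obtain ⟨D, φ, ⟨hD1, hD2, hD3⟩, hs⟩ := hbig
    obtain ⟨D', hD', hcard⟩ := exists_subset_card_eq hs
    exact ⟨D', φ, hcard, hD1.mono (by exact_mod_cast hD'), fun v hv h => hD2 v (hD' hv) (hD' h),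
      Or.inl (fun v hv => hD3 v (hD' hv))⟩
  push Not at hbig
  -- a maximal matching
  obtain ⟨D, hD, hDmax⟩ := exists_max_image
    ((univ : Finset (Finset V)).filter (fun D => ∃ φ, Mt G D φ)) card
    ⟨∅, by
      rw [mem_filter]
      refine ⟨mem_univ _, id, ?_, ?_, ?_⟩
      · intro a ha
        simp at ha
      · intro a ha
        simp at ha
      · intro a ha
        simp at ha⟩
  obtain ⟨φ, hφ⟩ := (mem_filter.mp hD).2
  have hmax : ∀ D' φ', Mt G D' φ' → D'.card ≤ D.card := fun D' φ' h =>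
    hDmax D' (mem_filter.mpr ⟨mem_univ _, φ', h⟩)
  have hDs := hbig D φ hφ
  obtain ⟨Y, hY⟩ : ∃ Y, Y = D ∪ D.image φ := ⟨_, rfl⟩
  have hind : ∀ x x', x ∉ Y → x' ∉ Y → ¬ G.Adj x x' := by
    intro x x' hx hx'
    rw [hY] at hx hx'
    exact indep G D φ hφ hmax x x' hx hx'
  have hYcard : Y.card ≤ 2 * s := by
    have e1 : Y.card ≤ D.card + (D.image φ).card := by
      rw [hY]
      exact card_union_le _ _
    have e2 := card_image_le (s := D) (f := φ)
    omega
  -- the maximal pair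
  obtain ⟨P, hP⟩ : ∃ P : Finset V → (V → V) → Prop, ∀ Z g, P Z g ↔ (∀ z ∈ Z, z ∉ Y) ∧
      (∀ z ∈ Z, G.Adj z (g z)) ∧ Z.card ≤ eo (HH G Y Z g) := ⟨_, fun _ _ => Iff.rfl⟩
  obtain ⟨Z, hZ, hZmax⟩ := exists_max_image
    ((univ : Finset (Finset V)).filter (fun Z => ∃ g, P Z g)) card
    ⟨∅, by
      rw [mem_filter]
      refine ⟨mem_univ _, id, (hP _ _).mpr ⟨?_, ?_, ?_⟩⟩
      · intro a ha
        simp at ha
      · intro a ha
        simp at ha
      · simp⟩
  obtain ⟨g, hg⟩ := (mem_filter.mp hZ).2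
  obtain ⟨hg1, hg2, hg3⟩ := (hP _ _).mp hg
  have hHG := HH_minor G Y Z g hg1 hg2
  have hH : ¬ Minor (⊤ : SimpleGraph (Fin t)) (HH G Y Z g) := fun h =>
    hG (h4 _ _ _ _ _ _ h hHG)
  have heo := h1 t {y // y ∈ Y} (HH G Y Z g) hH
  have hcl := h2 t {y // y ∈ Y} (HH G Y Z g) hH
  have hYc : Fintype.card {y // y ∈ Y} = Y.card := Fintype.card_coe Y
  rw [hYc] at heo hcl
  -- neighbourhoods are cliques
  obtain ⟨N, hN⟩ : ∃ N : V → Finset {y // y ∈ Y}, ∀ x y, y ∈ N x ↔ G.Adj x y :=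
    ⟨fun x => univ.filter (fun y => G.Adj x y), fun x y => by
      rw [mem_filter]
      exact ⟨fun h => h.2, fun h => ⟨mem_univ _, h⟩⟩⟩
  have hclique : ∀ x, x ∉ Y → x ∉ Z → (HH G Y Z g).IsClique (N x : Set {y // y ∈ Y}) := by
    intro x hxY hxZ
    by_contra hcon
    rw [SimpleGraph.isClique_iff, Set.Pairwise] at hcon
    push Not at hcon
    obtain ⟨y1, hy1, y2, hy2, hne, hna⟩ := hcon
    rw [mem_coe, hN] at hy1 hy2
    have hne' : ∀ z ∈ Z, z ≠ x := by
      rintro z hz rfl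
      exact hxZ hz
    have hupd : ∀ z ∈ Z, Function.update g x (y1 : V) z = g z := fun z hz =>
      Function.update_of_ne (hne' z hz) _ _
    have hsub : ∀ a b, (HH G Y Z g).Adj a b →
        (HH G Y (insert x Z) (Function.update g x (y1 : V))).Adj a b := by
      intro a b hab
      rw [HH_adj] at hab ⊢
      refine ⟨hab.1, ?_⟩
      rcases hab.2 with e | ⟨z, hz, e1, e2⟩ | ⟨z, hz, e1, e2⟩
      · exact Or.inl e
      · exact Or.inr (Or.inl ⟨z, mem_insert_of_mem hz, by rw [hupd z hz]; exact e1, e2⟩)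
      · exact Or.inr (Or.inr ⟨z, mem_insert_of_mem hz, by rw [hupd z hz]; exact e1, e2⟩)
    have hnew : (HH G Y (insert x Z) (Function.update g x (y1 : V))).Adj y1 y2 := by
      rw [HH_adj]
      exact ⟨hne, Or.inr (Or.inl ⟨x, mem_insert_self _ _, Function.update_self _ _ _, hy2⟩)⟩
    have hlt : eo (HH G Y Z g) <
        eo (HH G Y (insert x Z) (Function.update g x (y1 : V))) := by
      unfold eo
      apply card_lt_card
      rw [ssubset_iff_of_subset]
      · refine ⟨(y1, y2), ?_, ?_⟩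
        · rw [mem_filter]
          exact ⟨mem_univ _, hnew⟩
        · rw [mem_filter]
          intro h
          exact hna h.2
      · intro p hp
        rw [mem_filter] at hp ⊢
        exact ⟨mem_univ _, hsub _ _ hp.2⟩
    have hP' : P (insert x Z) (Function.update g x (y1 : V)) := by
      rw [hP]
      refine ⟨?_, ?_, ?_⟩
      · intro z hz
        rw [mem_insert] at hz
        rcases hz with hz | hz
        · rw [hz]
          exact hxY
        · exact hg1 z hz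
      · intro z hz
        rw [mem_insert] at hz
        rcases hz with hz | hz
        · rw [hz, Function.update_self]
          exact hy1
        · rw [hupd z hz]
          exact hg2 z hz
      · rw [card_insert_of_notMem hxZ]
        omega
    have h6 := hZmax (insert x Z) (mem_filter.mpr ⟨mem_univ _, _, hP'⟩)
    rw [card_insert_of_notMem hxZ] at h6
    omega
  -- counting
  obtain ⟨T, hTc, hT⟩ : ∃ T : Finset (Finset {y // y ∈ Y}),
      T.card ≤ 1 + 2 ^ (2 ^ t) * Y.card ∧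
      ∀ S : Finset {y // y ∈ Y}, (HH G Y Z g).IsClique (S : Set {y // y ∈ Y}) → S ∈ T := by
    refine ⟨_, hcl, fun S hS => ?_⟩
    simpa using hS
  obtain ⟨X, hX⟩ : ∃ X, X = (univ : Finset V) \ (Y ∪ Z) := ⟨_, rfl⟩
  have hXcard : Fintype.card V ≤ X.card + (Y.card + Z.card) := by
    have e1 : (univ : Finset V).card ≤ X.card + (Y ∪ Z).card := by
      rw [hX]
      have := card_le_card_sdiff_add_card (s := (univ : Finset V)) (t := Y ∪ Z)
      exact this
    have e2 := card_union_le Y Z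
    rw [card_univ] at e1
    omega
  have hmem : ∀ x ∈ X, x ∉ Y ∧ x ∉ Z := by
    intro x hx
    rw [hX, mem_sdiff, mem_union, not_or] at hx
    exact hx.2
  have hnum : T.card + 2 * s ≤ X.card := by
    have e1 : 2 ^ t * Y.card ≤ 2 ^ t * (2 * s) := Nat.mul_le_mul_left _ hYcard
    have e2 : 2 ^ (2 ^ t) * Y.card ≤ 2 ^ (2 ^ t) * (2 * s) := Nat.mul_le_mul_left _ hYcard
    have e3 : s * (4 + 2 * 2 ^ t + 2 * 2 ^ (2 ^ t)) =
        2 * s + 2 * s + 2 ^ t * (2 * s) + 2 ^ (2 ^ t) * (2 * s) := by ring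
    omega
  obtain ⟨D', ψ, hD'X, hD's, hψ, hψ'⟩ := h3 V (Finset {y // y ∈ Y}) N X T s
    (fun x hx => hT _ (hclique x (hmem x hx).1 (hmem x hx).2)) hnum
  refine ⟨D', ψ, hD's, hψ, fun v hv => (hψ' v hv).2.1, Or.inr ?_⟩
  intro v hv w
  obtain ⟨e1, _, e3⟩ := hψ' v hv
  have hvY := (hmem v (hD'X hv)).1
  have hvY' := (hmem _ e1).1
  by_cases hw : w ∈ Y
  · have e4 := hN v ⟨w, hw⟩
    have e5 := hN (ψ v) ⟨w, hw⟩
    rw [e3] at e5
    exact e4.symm.trans e5
  · exact ⟨fun h => absurd h (hind v w hvY hw), fun h => absurd h (hind _ w hvY' hw)⟩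

end Pool.Agent.Pend
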