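import Pool.Agent.Pend.Targets

/-!
# PND, target SUPM: bridge stable classes grow supermultiplicatively
-/

set_option autoImplicit false

namespace Pool.Agent.Pend

open Finset Classical

namespace SUPM_

private lemma fc {α : Type} (f g : Fintype α) (p q : α → Prop) (i : DecidablePred p)
    (j : DecidablePred q) (h : ∀ a, p a ↔ q a) :
    (@Finset.filter α p i (@Finset.univ α f)).card =
      (@Finset.filter α q j (@Finset.univ α g)).card := by
  have hfg : f = g := Subsingleton.elim f g
  subst hfg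
  have hpq : p = q := funext fun a => propext (h a)
  subst hpq
  have hij : i = j := Subsingleton.elim i j
  subst hij
  rfl

private lemma cS_card (h3 : T_TR) (C : (V : Type) → SimpleGraph V → Prop) (hC : IsoInv C)
    (V : Type) [Fintype V] (S : Finset V) : (cS C S).card = cnt C S.card := by
  have hQ : IsoInv (fun V G => G.Connected ∧ C V G) := by
    rintro V W G H ⟨e⟩ ⟨h1, h2⟩
    exact ⟨e.connected_iff.mp h1, hC V W G H ⟨e⟩ h2⟩
  have h := h3 (fun V G => G.Connected ∧ C V G) hQ V S
  unfold cS cnt cc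
  refine Eq.trans ?_ (h.trans ?_)
  · exact fc _ _ _ _ _ _ (fun K => Iff.rfl)
  · exact fc _ _ _ _ _ _ (fun K => Iff.rfl)

/-- two graphs joined by an edge -/
private def glue {V : Type} (K1 K2 : SimpleGraph V) (r x : V) (h : r ≠ x) : SimpleGraph V where
  Adj a b := K1.Adj a b ∨ K2.Adj a b ∨ (a = r ∧ b = x) ∨ (a = x ∧ b = r)
  symm := ⟨fun a b h => by
    rcases h with h | h | h | h
    · exact Or.inl h.symm
    · exact Or.inr (Or.inl h.symm)
    · exact Or.inr (Or.inr (Or.inr ⟨h.2, h.1⟩))
    · exact Or.inr (Or.inr (Or.inl ⟨h.2, h.1⟩))⟩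
  loopless := ⟨fun a ha => by
    rcases ha with ha | ha | ha | ha
    · exact ha.ne rfl
    · exact ha.ne rfl
    · exact h (ha.1.symm.trans ha.2)
    · exact h (ha.2.symm.trans ha.1)⟩

private lemma glue_in {V : Type} [Fintype V] (K1 K2 : SimpleGraph V) (r x : V) (h : r ≠ x)
    (W : Finset V) (_h1 : ∀ a b, K1.Adj a b → a ∈ W ∧ b ∈ W)
    (h2 : ∀ a b, K2.Adj a b → a ∈ Wᶜ ∧ b ∈ Wᶜ) (_hr : r ∈ W) (hx : x ∉ W) (a b : V)
    (ha : a ∈ W) (hb : b ∈ W) : (glue K1 K2 r x h).Adj a b ↔ K1.Adj a b := by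
  constructor
  · rintro (h | h | h | h)
    · exact h
    · exact absurd ha (Finset.mem_compl.mp (h2 a b h).1)
    · exact absurd (h.2 ▸ hb) hx
    · exact absurd (h.1 ▸ ha) hx
  · intro h
    exact Or.inl h

private lemma glue_out {V : Type} [Fintype V] (K1 K2 : SimpleGraph V) (r x : V) (h : r ≠ x)
    (W : Finset V) (h1 : ∀ a b, K1.Adj a b → a ∈ W ∧ b ∈ W)
    (_h2 : ∀ a b, K2.Adj a b → a ∈ Wᶜ ∧ b ∈ Wᶜ) (hr : r ∈ W) (_hx : x ∉ W) (a b : V)
    (ha : a ∉ W) (hb : b ∉ W) : (glue K1 K2 r x h).Adj a b ↔ K2.Adj a b := by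
  constructor
  · rintro (h | h | h | h)
    · exact absurd (h1 a b h).1 ha
    · exact h
    · exact absurd (h.1 ▸ hr) ha
    · exact absurd (h.2 ▸ hr) hb
  · intro h
    exact Or.inr (Or.inl h)

private lemma glue_cross {V : Type} [Fintype V] (K1 K2 : SimpleGraph V) (r x : V) (h : r ≠ x)
    (W : Finset V) (h1 : ∀ a b, K1.Adj a b → a ∈ W ∧ b ∈ W)
    (h2 : ∀ a b, K2.Adj a b → a ∈ Wᶜ ∧ b ∈ Wᶜ) (_hr : r ∈ W) (hx : x ∉ W) (a b : V)
    (ha : a ∈ W) (hb : b ∉ W) : (glue K1 K2 r x h).Adj a b ↔ a = r ∧ b = x := by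
  constructor
  · rintro (h | h | h | h)
    · exact absurd (h1 a b h).2 hb
    · exact absurd ha (Finset.mem_compl.mp (h2 a b h).1)
    · exact h
    · exact absurd (h.1 ▸ ha) hx
  · intro h
    exact Or.inr (Or.inr (Or.inl h))

private lemma glue_pnd {V : Type} [Fintype V] (K1 K2 : SimpleGraph V) (r x : V) (h : r ≠ x)
    (W : Finset V) (h1 : ∀ a b, K1.Adj a b → a ∈ W ∧ b ∈ W)
    (h2 : ∀ a b, K2.Adj a b → a ∈ Wᶜ ∧ b ∈ Wᶜ) (hr : r ∈ W) (hx : x ∉ W) :
    Pnd (glue K1 K2 r x h) W r x :=
  ⟨hr, hx, fun a ha b hb => glue_cross K1 K2 r x h W h1 h2 hr hx a b ha hb⟩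

/-- members of the class with a given pendant set -/
private lemma lower (h2 : T_PCONS) (h3 : T_TR) (C : (V : Type) → SimpleGraph V → Prop)
    (hC : BridgeStable C) (V : Type) [Fintype V] (W : Finset V) :
    cnt C W.card * (cnt C (Wᶜ).card * (W.card * (Wᶜ).card)) ≤
      ((cc C V).filter (fun G => ∃ r x, Pnd G W r x)).card := by
  rw [← cS_card h3 C hC.iso V W, ← cS_card h3 C hC.iso V Wᶜ, ← Finset.card_product,
    ← Finset.card_product, ← Finset.card_product]
  apply Finset.card_le_card_of_injOn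
    (fun p => if h : p.2.2.1 ≠ p.2.2.2 then glue p.1 p.2.1 p.2.2.1 p.2.2.2 h else ⊥)
  · rintro ⟨K1, K2, r, x⟩ hp
    rw [Finset.mem_coe, Finset.mem_product, Finset.mem_product, Finset.mem_product] at hp
    obtain ⟨hK1, hK2, hr, hx⟩ := hp
    simp only at hK1 hK2 hr hx
    have hx' : x ∉ W := Finset.mem_compl.mp hx
    have hne : r ≠ x := fun h => hx' (h ▸ hr)
    simp only [cS, Finset.mem_filter, Finset.mem_univ, true_and] at hK1 hK2
    obtain ⟨hs1, hc1, hC1⟩ := hK1
    obtain ⟨hs2, hc2, hC2⟩ := hK2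
    have hgl : (if h : r ≠ x then glue K1 K2 r x h else ⊥) = glue K1 K2 r x hne := dif_pos hne
    simp only [hgl]
    set G := glue K1 K2 r x hne with hG
    have e1 : G.induce (W : Set V) = K1.induce (W : Set V) := by
      ext a b
      exact glue_in K1 K2 r x hne W hs1 hs2 hr hx' a.1 b.1 a.2 b.2
    have e2 : G.induce ((Wᶜ : Finset V) : Set V) = K2.induce ((Wᶜ : Finset V) : Set V) := by
      ext a b
      exact glue_out K1 K2 r x hne W hs1 hs2 hr hx' a.1 b.1
        (Finset.mem_compl.mp a.2) (Finset.mem_compl.mp b.2)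
    have hpnd : Pnd G W r x := glue_pnd K1 K2 r x hne W hs1 hs2 hr hx'
    have hconn : G.Connected := by
      have h4 := h2 V G univ W r x ⟨Finset.subset_univ _, hr, Finset.mem_univ _, hx',
        fun a ha b _ hb => hpnd.2.2 a ha b hb⟩
      have h5 : (G.induce ((univ : Finset V) : Set V)).Connected := by
        rw [h4, e1, ← Finset.compl_eq_univ_sdiff, e2]
        exact ⟨hc1, hc2⟩
      rw [Finset.coe_univ] at h5
      exact (SimpleGraph.induceUnivIso G).connected_iff.mp h5
    rw [Finset.mem_coe, Finset.mem_filter]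
    refine ⟨?_, r, x, hpnd⟩
    simp only [cc, Finset.mem_filter, Finset.mem_univ, true_and]
    refine ⟨hconn, ?_⟩
    rw [hC.bridge V G W r x hconn hpnd, e1, e2]
    exact ⟨hC1, hC2⟩
  · rintro ⟨K1, K2, r, x⟩ hp ⟨K1', K2', r', x'⟩ hp' heq
    rw [Finset.mem_coe, Finset.mem_product, Finset.mem_product, Finset.mem_product] at hp hp'
    obtain ⟨hK1, hK2, hr, hx⟩ := hp
    obtain ⟨hK1', hK2', hr', hx'⟩ := hp'
    simp only at hK1 hK2 hr hx hK1' hK2' hr' hx'
    have hxn : x ∉ W := Finset.mem_compl.mp hx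
    have hxn' : x' ∉ W := Finset.mem_compl.mp hx'
    have hne : r ≠ x := fun h => hxn (h ▸ hr)
    have hne' : r' ≠ x' := fun h => hxn' (h ▸ hr')
    simp only [cS, Finset.mem_filter, Finset.mem_univ, true_and] at hK1 hK2 hK1' hK2'
    obtain ⟨hs1, -, -⟩ := hK1
    obtain ⟨hs2, -, -⟩ := hK2
    obtain ⟨hs1', -, -⟩ := hK1'
    obtain ⟨hs2', -, -⟩ := hK2'
    have hgl : glue K1 K2 r x hne = glue K1' K2' r' x' hne' := by
      have e : (if h : r ≠ x then glue K1 K2 r x h else ⊥) =
        (if h : r' ≠ x' then glue K1' K2' r' x' h else ⊥) := heq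
      rwa [dif_pos hne, dif_pos hne'] at e
    have q1 : K1 = K1' := by
      ext a b
      constructor
      · intro h
        obtain ⟨ha, hb⟩ := hs1 a b h
        rw [← glue_in K1' K2' r' x' hne' W hs1' hs2' hr' hxn' a b ha hb, ← hgl,
          glue_in K1 K2 r x hne W hs1 hs2 hr hxn a b ha hb]
        exact h
      · intro h
        obtain ⟨ha, hb⟩ := hs1' a b h
        rw [← glue_in K1 K2 r x hne W hs1 hs2 hr hxn a b ha hb, hgl,
          glue_in K1' K2' r' x' hne' W hs1' hs2' hr' hxn' a b ha hb]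
        exact h
    have q2 : K2 = K2' := by
      ext a b
      constructor
      · intro h
        obtain ⟨ha, hb⟩ := hs2 a b h
        rw [Finset.mem_compl] at ha hb
        rw [← glue_out K1' K2' r' x' hne' W hs1' hs2' hr' hxn' a b ha hb, ← hgl,
          glue_out K1 K2 r x hne W hs1 hs2 hr hxn a b ha hb]
        exact h
      · intro h
        obtain ⟨ha, hb⟩ := hs2' a b h
        rw [Finset.mem_compl] at ha hb
        rw [← glue_out K1 K2 r x hne W hs1 hs2 hr hxn a b ha hb, hgl,
          glue_out K1' K2' r' x' hne' W hs1' hs2' hr' hxn' a b ha hb]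
        exact h
    have q3 : r = r' ∧ x = x' := by
      rw [← glue_cross K1' K2' r' x' hne' W hs1' hs2' hr' hxn' r x hr hxn, ← hgl,
        glue_cross K1 K2 r x hne W hs1 hs2 hr hxn r x hr hxn]
      exact ⟨rfl, rfl⟩
    rw [q1, q2, q3.1, q3.2]

/-- few pendant sets of a given cardinality -/
private lemma upper (h1 : T_LAM) (V : Type) [Fintype V] (G : SimpleGraph V) (hG : G.Connected)
    (m : ℕ) (hN : 2 * m ≤ Fintype.card V) :
    m * ((powersetCard m (univ : Finset V)).filter (fun W => ∃ r x, Pnd G W r x)).card ≤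
      Fintype.card V := by
  set F := (powersetCard m (univ : Finset V)).filter (fun W => ∃ r x, Pnd G W r x) with hF
  have hmem : ∀ W ∈ F, W.card = m ∧ ∃ r x, Pnd G W r x := by
    intro W hW
    rw [hF, Finset.mem_filter, Finset.mem_powersetCard] at hW
    exact ⟨hW.1.2, hW.2⟩
  have hdisj : ∀ W ∈ F, ∀ W' ∈ F, W ≠ W' → Disjoint W W' := by
    intro W hW W' hW' hne
    obtain ⟨hc, r, x, hp⟩ := hmem W hW
    obtain ⟨hc', r', x', hp'⟩ := hmem W' hW'
    rcases h1 V G W W' r x r' x' hG hp hp' with h | h | h | h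
    · exact h
    · exact absurd (Finset.eq_of_subset_of_card_le h (by omega)) hne
    · exact absurd (Finset.eq_of_subset_of_card_le h (by omega)).symm hne
    · have h4 := Finset.card_union_add_card_inter W W'
      rw [h, Finset.card_univ] at h4
      have h5 : (W ∩ W').card = 0 := by omega
      rw [Finset.card_eq_zero] at h5
      exact Finset.disjoint_iff_inter_eq_empty.mpr h5
  have hb : (F.biUnion id).card = ∑ W ∈ F, W.card := by
    rw [Finset.card_biUnion]
    · rfl
    · intro W hW W' hW' hne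
      exact hdisj W hW W' hW' hne
  have hs : ∑ W ∈ F, W.card = F.card * m := by
    rw [Finset.sum_congr rfl (fun W hW => (hmem W hW).1), Finset.sum_const, smul_eq_mul]
  have hle : (F.biUnion id).card ≤ Fintype.card V := Finset.card_le_univ _
  rw [hb, hs] at hle
  linarith [mul_comm m F.card]

private lemma count (h1 : T_LAM) (h2 : T_PCONS) (h3 : T_TR)
    (C : (V : Type) → SimpleGraph V → Prop) (hC : BridgeStable C) (m n : ℕ)
    (hmn : m ≤ n) (V : Type) [Fintype V] (hcard : Fintype.card V = n + m) :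
    m * ((n + m).choose m * (cnt C m * (cnt C n * (m * n)))) ≤ (n + m) * (cc C V).card := by
  have hdouble : ∑ W ∈ powersetCard m (univ : Finset V),
      ((cc C V).filter (fun G => ∃ r x, Pnd G W r x)).card =
      ∑ G ∈ cc C V, ((powersetCard m (univ : Finset V)).filter
        (fun W => ∃ r x, Pnd G W r x)).card := by
    simp_rw [Finset.card_filter]
    rw [Finset.sum_comm]
  have hlow : (n + m).choose m * (cnt C m * (cnt C n * (m * n))) ≤
      ∑ W ∈ powersetCard m (univ : Finset V),
      ((cc C V).filter (fun G => ∃ r x, Pnd G W r x)).card := by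
    calc (n + m).choose m * (cnt C m * (cnt C n * (m * n)))
        = ∑ W ∈ powersetCard m (univ : Finset V),
          (cnt C m * (cnt C n * (m * n))) := by
          rw [Finset.sum_const, Finset.card_powersetCard, Finset.card_univ, hcard, smul_eq_mul]
      _ ≤ _ := by
          refine Finset.sum_le_sum fun W hW => ?_
          have hWc : W.card = m := (Finset.mem_powersetCard.mp hW).2
          have hWc' : (Wᶜ).card = n := by
            rw [Finset.card_compl, hcard, hWc]
            omega
          have := lower h2 h3 C hC V W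
          rwa [hWc, hWc'] at this
  have hup : m * ∑ G ∈ cc C V, ((powersetCard m (univ : Finset V)).filter
        (fun W => ∃ r x, Pnd G W r x)).card ≤ (n + m) * (cc C V).card := by
    rw [Finset.mul_sum]
    calc ∑ G ∈ cc C V, m * ((powersetCard m (univ : Finset V)).filter
          (fun W => ∃ r x, Pnd G W r x)).card
        ≤ ∑ G ∈ cc C V, (n + m) := by
          refine Finset.sum_le_sum fun G hG => ?_
          have hconn : G.Connected := by
            simp only [cc, Finset.mem_filter, Finset.mem_univ, true_and] at hG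
            exact hG.1
          have := upper h1 V G hconn m (by rw [hcard]; omega)
          rwa [hcard] at this
      _ = (n + m) * (cc C V).card := by
          rw [Finset.sum_const, smul_eq_mul, mul_comm]
  calc m * ((n + m).choose m * (cnt C m * (cnt C n * (m * n))))
      ≤ m * ∑ W ∈ powersetCard m (univ : Finset V),
      ((cc C V).filter (fun G => ∃ r x, Pnd G W r x)).card := Nat.mul_le_mul le_rfl hlow
    _ ≤ _ := by rw [hdouble]; exact hup

private lemma ineq (h1 : T_LAM) (h2 : T_PCONS) (h3 : T_TR)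
    (C : (V : Type) → SimpleGraph V → Prop) (hC : BridgeStable C) (m n : ℕ) (hm : 1 ≤ m)
    (hmn : m ≤ n) : aa C n * aa C m ≤ 2 * aa C (n + m) := by
  have h : m * ((n + m).choose m * (cnt C m * (cnt C n * (m * n)))) ≤
      (n + m) * cnt C (n + m) :=
    count h1 h2 h3 C hC m n hmn (Fin (n + m)) (Fintype.card_fin _)
  have hch : (n + m).choose m * m.factorial * n.factorial = (n + m).factorial := by
    have := Nat.add_choose_mul_factorial_mul_factorial n m
    rw [mul_assoc, mul_comm m.factorial, ← mul_assoc]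
    exact this
  have hf1 : (0 : ℝ) < (m.factorial : ℝ) := by exact_mod_cast Nat.factorial_pos m
  have hf2 : (0 : ℝ) < (n.factorial : ℝ) := by exact_mod_cast Nat.factorial_pos n
  have hf3 : (0 : ℝ) < ((n + m).factorial : ℝ) := by exact_mod_cast Nat.factorial_pos (n + m)
  have hR : (m : ℝ) * (((n + m).choose m : ℝ) * ((cnt C m : ℝ) * ((cnt C n : ℝ) * (m * n)))) ≤
      ((n : ℝ) + m) * cnt C (n + m) := by exact_mod_cast h
  have hcR : ((n + m).choose m : ℝ) * (m.factorial : ℝ) * (n.factorial : ℝ) =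
      ((n + m).factorial : ℝ) := by exact_mod_cast hch
  have hmR : (1 : ℝ) ≤ m := by exact_mod_cast hm
  have hnR : (m : ℝ) ≤ n := by exact_mod_cast hmn
  set a := (cnt C m : ℝ) / (m.factorial : ℝ) with ha
  set b := (cnt C n : ℝ) / (n.factorial : ℝ) with hb
  set c := (cnt C (n + m) : ℝ) / ((n + m).factorial : ℝ) with hc
  have ha' : (cnt C m : ℝ) = a * m.factorial := by rw [ha]; field_simp
  have hb' : (cnt C n : ℝ) = b * n.factorial := by rw [hb]; field_simp
  have hc' : (cnt C (n + m) : ℝ) = c * (n + m).factorial := by rw [hc]; field_simp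
  have ha0 : 0 ≤ a := by rw [ha]; positivity
  have hb0 : 0 ≤ b := by rw [hb]; positivity
  have hc0 : 0 ≤ c := by rw [hc]; positivity
  rw [ha', hb', hc'] at hR
  have h6 : (m : ℝ) * m * n * (a * b) * ((n + m).factorial : ℝ) ≤
      (n + m) * c * ((n + m).factorial : ℝ) := by
    calc (m : ℝ) * m * n * (a * b) * ((n + m).factorial : ℝ)
        = (m : ℝ) * (((n + m).choose m : ℝ) * ((a * m.factorial) * ((b * n.factorial) * (m * n)))) := by
          rw [← hcR]; ring
      _ ≤ ((n : ℝ) + m) * (c * (n + m).factorial) := hR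
      _ = _ := by ring
  have h7 : (m : ℝ) * m * n * (a * b) ≤ (n + m) * c := le_of_mul_le_mul_right h6 hf3
  have h8 : (n : ℝ) * (a * b) ≤ n * (2 * c) := by
    have h9 : (n : ℝ) * (a * b) ≤ (m : ℝ) * m * n * (a * b) := by
      have : (1 : ℝ) ≤ m * m := by nlinarith
      have h10 : 0 ≤ (n : ℝ) * (a * b) := by positivity
      nlinarith
    have h11 : ((n : ℝ) + m) * c ≤ n * (2 * c) := by nlinarith
    linarith
  have hn0 : (0 : ℝ) < n := by linarith
  have h12 : a * b ≤ 2 * c := le_of_mul_le_mul_left h8 hn0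
  unfold aa
  rw [← ha, ← hb, ← hc]
  linarith [mul_comm a b]

private lemma one_pos (C : (V : Type) → SimpleGraph V → Prop) (hC : BridgeStable C) :
    0 < aa C 1 := by
  have hmem : (⊥ : SimpleGraph (Fin 1)) ∈ cc C (Fin 1) := by
    simp only [cc, Finset.mem_filter, Finset.mem_univ, true_and]
    refine ⟨?_, ?_⟩
    · refine ⟨?_⟩
      intro u v
      have : u = v := Subsingleton.elim u v
      subst this
      exact SimpleGraph.Reachable.refl _
    · refine hC.iso Unit (Fin 1) ⊥ ⊥ ⟨?_⟩ hC.one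
      exact { toEquiv := Equiv.ofUnique Unit (Fin 1), map_rel_iff' := by simp }
  have hc : 0 < cnt C 1 := Finset.card_pos.mpr ⟨_, hmem⟩
  unfold aa
  have : (0 : ℝ) < (cnt C 1 : ℝ) := by exact_mod_cast hc
  positivity

end SUPM_

open SUPM_ in
theorem p_SUPM (h1 : T_LAM) (h2 : T_PCONS) (h3 : T_TR) : T_SUPM := by
  intro C hC
  have hineq : ∀ m n : ℕ, 1 ≤ m → 1 ≤ n → aa C n * aa C m ≤ 2 * aa C (n + m) := by
    intro m n hm hn
    rcases le_total m n with h | h
    · exact ineq h1 h2 h3 C hC m n hm h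
    · have := ineq h1 h2 h3 C hC n m hn h
      rw [mul_comm, add_comm n m]
      exact this
  refine ⟨?_, hineq⟩
  intro n hn
  induction n, hn using Nat.le_induction with
  | base => exact one_pos C hC
  | succ n hn ih =>
    have h4 := hineq 1 n le_rfl hn
    have h5 := one_pos C hC
    have : 0 < aa C n * aa C 1 := mul_pos ih h5
    linarith

end Pool.Agent.Pend
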