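import Pool.Agent.Pend.Targets

/-!
TLEAF: trees and leaves.
-/

set_option autoImplicit false

namespace Pool.Agent.Pend

open Finset Classical

namespace TLEAF_

variable {V : Type}

/-- a cycle does not contain a vertex with at most one neighbour -/
theorem not_mem_cycle {G : SimpleGraph V} {a u : V} (h : ∀ w, G.Adj a w → w = u) {v : V}
    (p : G.Walk v v) (hp : p.IsCycle) : a ∉ p.support := by
  intro ha
  have hr : (p.rotate a ha).IsCycle := hp.rotate ha
  have h1 : G.Adj a (p.rotate a ha).snd := (p.rotate a ha).adj_snd hr.not_nil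
  have h2 : G.Adj (p.rotate a ha).penultimate a := (p.rotate a ha).adj_penultimate hr.not_nil
  have h3 := h _ h1
  have h4 := h _ h2.symm
  exact hr.snd_ne_penultimate (h3.trans h4.symm)

theorem acyclic_one (G : SimpleGraph V) (W : Finset V) (a : V)
    (hW : (G.induce (W : Set V)).IsAcyclic) :
    (G.induce ((W.erase a : Finset V) : Set V)).IsAcyclic := by
  have hmem : ∀ x : ((W.erase a : Finset V) : Set V), x.1 ∈ (W : Set V) := fun x =>
    Finset.mem_coe.mpr (Finset.mem_of_mem_erase (Finset.mem_coe.mp x.2))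
  let f : G.induce ((W.erase a : Finset V) : Set V) →g G.induce (W : Set V) :=
    { toFun := fun x => ⟨x.1, hmem x⟩
      map_rel' := fun {x y} hxy => hxy }
  refine hW.comap f ?_
  intro x y hxy
  have h2 : (f x).1 = (f y).1 := congrArg Subtype.val hxy
  exact Subtype.ext h2

theorem acyclic_two (G : SimpleGraph V) (W : Finset V) (a u : V) (ha : a ∈ W) (hu : u ∈ W)
    (h : ∀ w ∈ W, (G.Adj a w ↔ w = u))
    (hW : (G.induce ((W.erase a : Finset V) : Set V)).IsAcyclic) :
    (G.induce (W : Set V)).IsAcyclic := by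
  intro v p hp
  have hna : (⟨a, Finset.mem_coe.mpr ha⟩ : (W : Set V)) ∉ p.support := by
    apply not_mem_cycle (u := ⟨u, Finset.mem_coe.mpr hu⟩) _ p hp
    intro w hw
    exact Subtype.ext ((h w.1 (Finset.mem_coe.mp w.2)).mp hw)
  have hs : ∀ x ∈ p.support, x ∈ {x : (W : Set V) | x ≠ ⟨a, Finset.mem_coe.mpr ha⟩} := by
    intro x hx hxa
    rw [hxa] at hx
    exact hna hx
  have hmem : ∀ x : ({x : (W : Set V) | x ≠ ⟨a, Finset.mem_coe.mpr ha⟩} : Set (W : Set V)),
      x.1.1 ∈ ((W.erase a : Finset V) : Set V) := fun x =>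
    Finset.mem_coe.mpr (Finset.mem_erase.mpr
      ⟨fun hxa => x.2 (Subtype.ext hxa), Finset.mem_coe.mp x.1.2⟩)
  let f : (G.induce (W : Set V)).induce
      {x : (W : Set V) | x ≠ ⟨a, Finset.mem_coe.mpr ha⟩} →g
      G.induce ((W.erase a : Finset V) : Set V) :=
    { toFun := fun x => ⟨x.1.1, hmem x⟩
      map_rel' := fun {x y} hxy => hxy }
  have hac : ((G.induce (W : Set V)).induce
      {x : (W : Set V) | x ≠ ⟨a, Finset.mem_coe.mpr ha⟩}).IsAcyclic := by
    refine hW.comap f ?_
    intro x y hxy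
    have h2 : (f x).1 = (f y).1 := congrArg Subtype.val hxy
    exact Subtype.ext (Subtype.ext h2)
  have hc : (p.induce _ hs).IsCycle := by
    have hm := SimpleGraph.Walk.map_induce p hs
    have hp' := hp
    rw [← hm] at hp'
    have hinj : Function.Injective (SimpleGraph.Embedding.induce (G := G.induce (W : Set V))
        {x : (W : Set V) | x ≠ ⟨a, Finset.mem_coe.mpr ha⟩}).toHom :=
      fun x y hxy => Subtype.ext hxy
    exact (SimpleGraph.Walk.isCycle_map_iff_of_injective hinj).mp hp'
  exact hac _ hc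

end TLEAF_

theorem p_TLEAF (h1 : T_PCONS) : T_TLEAF := by
  intro V _ G W a u ha hu hua h
  have hP : PndS G W {a} a u := by
    refine ⟨Finset.singleton_subset_iff.mpr ha, Finset.mem_singleton_self a, hu, ?_, ?_⟩
    · rw [Finset.mem_singleton]
      exact hua
    · intro b hb c hc _
      rw [Finset.mem_singleton] at hb
      subst hb
      rw [h c hc]
      simp
  have hc := h1 V G W {a} a u hP
  rw [Finset.sdiff_singleton_eq_erase] at hc
  have hsing : (G.induce (({a} : Finset V) : Set V)).Connected := by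
    have hne : Nonempty ((({a} : Finset V) : Set V)) := ⟨⟨a, by simp⟩⟩
    have hss : Subsingleton ((({a} : Finset V) : Set V)) := by
      refine ⟨fun x y => Subtype.ext ?_⟩
      have hx := x.2
      have hy := y.2
      rw [Finset.mem_coe, Finset.mem_singleton] at hx hy
      rw [hx, hy]
    exact SimpleGraph.Connected.of_subsingleton
  rw [SimpleGraph.isTree_iff, SimpleGraph.isTree_iff, hc]
  constructor
  · rintro ⟨⟨_, h2⟩, h3⟩
    exact ⟨h2, TLEAF_.acyclic_one G W a h3⟩
  · rintro ⟨h2, h3⟩
    exact ⟨⟨hsing, h2⟩, TLEAF_.acyclic_two G W a u ha hu h h3⟩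

end Pool.Agent.Pend
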