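import Pool.Agent.Pend.Targets

/-!
# TR: transport of counts
-/

set_option autoImplicit false

namespace Pool.Agent.Pend

open Finset Classical

theorem p_TR : T_TR := by
  intro Q hQ V _ S
  have hcard : Fintype.card ((S : Set V) : Type) = S.card := by simp
  let e : ((S : Set V) : Type) ≃ Fin S.card := Fintype.equivFinOfCardEq hcard
  let f : Fin S.card ↪ V := e.symm.toEmbedding.trans (Function.Embedding.subtype _)
  have hf : ∀ K : SimpleGraph V, K.comap f = (K.induce (S : Set V)).comap e.symm := fun K => rfl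
  have hfS : ∀ i, f i ∈ S := fun i => (e.symm i).2
  have hSf : ∀ a ∈ S, ∃ i, f i = a := by
    intro a ha
    refine ⟨e ⟨a, ha⟩, ?_⟩
    simp [f]
  have hiso : ∀ K : SimpleGraph V, Q (S : Set V) (K.induce (S : Set V)) ↔
      Q (Fin S.card) (K.comap f) := by
    intro K
    rw [hf]
    constructor
    · exact hQ _ _ _ _ ⟨(SimpleGraph.Iso.comap e.symm (K.induce (S : Set V))).symm⟩
    · exact hQ _ _ _ _ ⟨SimpleGraph.Iso.comap e.symm (K.induce (S : Set V))⟩
  apply Finset.card_nbij' (fun K => K.comap f) (fun L => L.map f)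
  · intro K hK
    simp only [Finset.coe_filter, Finset.mem_univ, true_and, Set.mem_ofPred_eq] at hK ⊢
    exact (hiso K).1 hK.2
  · intro L hL
    simp only [Finset.coe_filter, Finset.mem_univ, true_and, Set.mem_ofPred_eq] at hL ⊢
    refine ⟨?_, ?_⟩
    · intro a b hab
      rw [SimpleGraph.map_adj] at hab
      obtain ⟨u, v, _, rfl, rfl⟩ := hab
      exact ⟨hfS u, hfS v⟩
    · rw [hiso, SimpleGraph.comap_map_eq]
      exact hL
  · intro K hK
    simp only [Finset.coe_filter, Finset.mem_univ, true_and, Set.mem_ofPred_eq] at hK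
    ext a b
    rw [SimpleGraph.map_adj]
    constructor
    · rintro ⟨u, v, h, rfl, rfl⟩
      exact h
    · intro h
      obtain ⟨ha, hb⟩ := hK.1 a b h
      obtain ⟨u, rfl⟩ := hSf a ha
      obtain ⟨v, rfl⟩ := hSf b hb
      exact ⟨u, v, h, rfl, rfl⟩
  · intro L hL
    exact SimpleGraph.comap_map_eq f L

end Pool.Agent.Pend
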