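import Pool.Agent.Pend.Targets

/-! TREECUT: pendant trees can be cut off. -/

set_option autoImplicit false

namespace Pool.Agent.Pend

open Finset Classical

namespace TREECUT_

/-- removing one leaf -/
theorem leafcut {C : (V : Type) → SimpleGraph V → Prop} (hC : LeafStable C)
    {V : Type} [Fintype V] (G : SimpleGraph V) (S : Finset V) (v u : V) (hv : v ∈ S)
    (hu : u ∈ S) (hl : ∀ w ∈ S, (G.Adj v w ↔ w = u))
    (hc : (G.induce (S : Set V)).Connected) :
    C (S : Set V) (G.induce (S : Set V)) ↔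
      C ((S.erase v : Finset V) : Set V) (G.induce ((S.erase v : Finset V) : Set V)) := by
  set K : SimpleGraph (S : Set V) := G.induce (S : Set V) with hK
  set v' : (S : Set V) := ⟨v, hv⟩ with hv'
  have h1 : C (S : Set V) K ↔ C ({w | w ≠ v'} : Set (S : Set V)) (K.induce {w | w ≠ v'}) := by
    apply hC.leaf (S : Set V) K v' ⟨u, hu⟩ hc
    intro w
    have h2 := hl w w.2
    show G.Adj v w ↔ w = ⟨u, hu⟩
    rw [h2]
    exact ⟨fun e => Subtype.ext e, fun e => congrArg Subtype.val e⟩
  have e : K.induce {w | w ≠ v'} ≃g G.induce ((S.erase v : Finset V) : Set V) := by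
    refine ⟨⟨fun w => ⟨w.1.1, mem_coe.2 (mem_erase.2 ⟨fun e => w.2 (Subtype.ext e), w.1.2⟩)⟩,
      fun w => ⟨⟨w.1, (mem_erase.1 w.2).2⟩,
        fun e => (mem_erase.1 w.2).1 (congrArg Subtype.val e)⟩, fun w => rfl, fun w => rfl⟩, ?_⟩
    intro a b
    exact Iff.rfl
  rw [h1]
  exact ⟨fun h => hC.iso _ _ _ _ ⟨e⟩ h, fun h => hC.iso _ _ _ _ ⟨e.symm⟩ h⟩

end TREECUT_

/-- TREECUT -/
theorem p_TREECUT (h1 : T_PCONS) (h2 : T_TLEAF) (h3 : T_LEAF2) : T_TREECUT := by
  intro C hC V _ G S W r x
  induction hn : W.card generalizing S W with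
  | zero =>
    intro hP
    rw [card_eq_zero] at hn
    rw [hn] at hP
    exact absurd hP.2.1 (notMem_empty r)
  | succ n ih =>
    intro hP hc ht
    obtain ⟨hWS, hr, hx, hxW, hadj⟩ := hP
    have hrx : x ≠ r := fun e => hxW (e ▸ hr)
    rcases Nat.eq_zero_or_pos n with hn0 | hn0
    · have hW : W = {r} := by
        rw [hn0, zero_add] at hn
        obtain ⟨y, hy⟩ := card_eq_one.1 hn
        rw [hy, mem_singleton] at hr
        rw [hy, hr]
      have hl : ∀ w ∈ S, (G.Adj r w ↔ w = x) := by
        intro w hw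
        by_cases hwr : w = r
        · rw [hwr]
          exact ⟨fun h => absurd h (G.irrefl), fun h => absurd h.symm hrx⟩
        · have hwW : w ∉ W := by
            rw [hW, mem_singleton]
            exact hwr
          rw [hadj r hr w hw hwW]
          exact ⟨fun h => h.2, fun h => ⟨rfl, h⟩⟩
      rw [hW, sdiff_singleton_eq_erase]
      exact TREECUT_.leafcut hC G S r x (hWS hr) hx hl hc
    · obtain ⟨v, hvW, hvr, u, huW, huv, hl⟩ := h3 V G W r ht (by omega)
      have hvS : v ∈ S := hWS hvW
      have hlS : ∀ w ∈ S, (G.Adj v w ↔ w = u) := by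
        intro w hw
        by_cases hwW : w ∈ W
        · exact hl w hwW
        · rw [hadj v hvW w hw hwW]
          exact ⟨fun h => absurd h.1 hvr, fun h => absurd (h ▸ huW) hwW⟩
      rw [TREECUT_.leafcut hC G S v u hvS (hWS huW) hlS hc]
      have hP' : PndS G (S.erase v) (W.erase v) r x := by
        refine ⟨erase_subset_erase v hWS, mem_erase.2 ⟨fun e => hvr e.symm, hr⟩,
          mem_erase.2 ⟨fun e => hxW (e ▸ hvW), hx⟩, fun h => hxW (mem_of_mem_erase h), ?_⟩
        intro a ha b hb hbW
        obtain ⟨hbv, hbS⟩ := mem_erase.1 hb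
        exact hadj a (mem_of_mem_erase ha) b hbS fun h => hbW (mem_erase.2 ⟨hbv, h⟩)
      have hc' : (G.induce ((S.erase v : Finset V) : Set V)).Connected := by
        have h4 : PndS G S {v} v u := by
          refine ⟨singleton_subset_iff.2 hvS, mem_singleton_self v, hWS huW,
            fun h => huv (mem_singleton.1 h), ?_⟩
          intro a ha b hb _
          rw [mem_singleton.1 ha, hlS b hb]
          exact ⟨fun h => ⟨rfl, h⟩, fun h => h.2⟩
        have h5 := ((h1 V G S {v} v u h4).1 hc).2
        rw [sdiff_singleton_eq_erase] at h5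
        exact h5
      have ht' : (G.induce ((W.erase v : Finset V) : Set V)).IsTree :=
        (h2 V G W v u hvW huW huv hl).1 ht
      have hcard : (W.erase v).card = n := by
        rw [card_erase_of_mem hvW, hn]
        rfl
      have h6 := ih (S.erase v) (W.erase v) hcard hP' hc' ht'
      have h7 : S.erase v \ W.erase v = S \ W := by
        ext y
        simp only [mem_sdiff, mem_erase]
        constructor
        · rintro ⟨⟨h8, h9⟩, h10⟩
          exact ⟨h9, fun h => h10 ⟨h8, h⟩⟩
        · rintro ⟨h8, h9⟩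
          exact ⟨⟨fun e => h9 (e ▸ hvW), h8⟩, fun h => h9 h.2⟩
      rw [h7] at h6
      exact h6

end Pool.Agent.Pend
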