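import Pool.Agent.Pend.Targets

/-! TRU: transport of counts to `Fin`, for the whole vertex set. -/

set_option autoImplicit false

namespace Pool.Agent.Pend

open Finset Classical

/-- TRU -/
theorem p_TRU : T_TRU := by
  intro Q hQ V _
  set e : V ≃ Fin (Fintype.card V) := Fintype.equivFin V with he
  refine card_equiv e.simpleGraph fun K => ?_
  rw [mem_filter, mem_filter]
  have h1 : Nonempty (K ≃g e.simpleGraph K) := by
    refine ⟨⟨e, ?_⟩⟩
    intro a b
    show K.Adj (e.symm (e a)) (e.symm (e b)) ↔ K.Adj a b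
    rw [Equiv.symm_apply_apply, Equiv.symm_apply_apply]
  have h2 : Nonempty (e.simpleGraph K ≃g K) := h1.map fun f => f.symm
  constructor
  · rintro ⟨_, h⟩
    exact ⟨mem_univ _, hQ _ _ _ _ h1 h⟩
  · rintro ⟨_, h⟩
    exact ⟨mem_univ _, hQ _ _ _ _ h2 h⟩

end Pool.Agent.Pend
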