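import Pool.Agent.Pend.Targets2

set_option autoImplicit false

/-!
# TWINS: many elements with few values give many disjoint pairs with the same value
-/

namespace Pool.Agent.Pend

open Finset Classical

theorem p_TWINS : T_TWINS := by
  intro V _ β c X T s
  induction s generalizing X with
  | zero =>
    intro _ _
    exact ⟨∅, id, empty_subset _, rfl, by simp, fun v hv => absurd hv (by simp)⟩
  | succ s ih =>
    intro hT hcard
    obtain ⟨x, hx, y, hy, hxy, hc⟩ := Finset.exists_ne_map_eq_of_card_lt_of_maps_to
      (s := X) (t := T) (by omega) (f := c) (fun x hx => hT x hx)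
    have hX' : ((X.erase x).erase y).card + 2 = X.card := by
      have h1 := Finset.card_erase_add_one hx
      have h2 := Finset.card_erase_add_one (Finset.mem_erase.mpr ⟨hxy.symm, hy⟩)
      omega
    obtain ⟨D, φ, hD, hDs, hinj, hφ⟩ := ih ((X.erase x).erase y)
      (fun z hz => hT z (Finset.mem_of_mem_erase (Finset.mem_of_mem_erase hz))) (by omega)
    have hxD : x ∉ D := fun h => by
      have := hD h
      simp at this
    have hyD : y ∉ D := fun h => by
      have := hD h
      simp at this
    refine ⟨insert x D, Function.update φ x y, ?_, ?_, ?_, ?_⟩
    · intro z hz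
      rcases Finset.mem_insert.mp hz with rfl | hz
      · exact hx
      · exact Finset.mem_of_mem_erase (Finset.mem_of_mem_erase (hD hz))
    · rw [Finset.card_insert_of_notMem hxD, hDs]
    · have hup : ∀ z ∈ D, Function.update φ x y z = φ z := fun z hz => by
        have hzx : z ≠ x := fun h => hxD (h ▸ hz)
        exact Function.update_of_ne hzx _ _
      have hne : ∀ z ∈ D, φ z ≠ y := fun z hz h => by
        have := (hφ z hz).1
        rw [h] at this
        simp at this
      intro a ha b hb hab
      simp only [Finset.coe_insert, Set.mem_insert_iff, Finset.mem_coe] at ha hb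
      rcases ha with rfl | ha <;> rcases hb with rfl | hb
      · rfl
      · rw [Function.update_self, hup b hb] at hab
        exact absurd hab.symm (hne b hb)
      · rw [Function.update_self, hup a ha] at hab
        exact absurd hab (hne a ha)
      · rw [hup a ha, hup b hb] at hab
        exact hinj ha hb hab
    · intro v hv
      rcases Finset.mem_insert.mp hv with rfl | hv
      · rw [Function.update_self]
        exact ⟨hy, by simp [hxy.symm, hyD], hc.symm⟩
      · have hvx : v ≠ x := fun h => hxD (h ▸ hv)
        rw [Function.update_of_ne hvx]
        obtain ⟨h1, h2, h3⟩ := hφ v hv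
        simp only [Finset.mem_erase] at h1
        exact ⟨h1.2.2, by simp [h1.2.1, h2], h3⟩

end Pool.Agent.Pend
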