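import Pool.Agent.Pend.AINEQ
import Pool.Agent.Pend.ASY
import Pool.Agent.Pend.BL
import Pool.Agent.Pend.BRS
import Pool.Agent.Pend.CARDF
import Pool.Agent.Pend.CARDN
import Pool.Agent.Pend.CARDS
import Pool.Agent.Pend.CATTREE
import Pool.Agent.Pend.CIS
import Pool.Agent.Pend.CLQN
import Pool.Agent.Pend.CNTM
import Pool.Agent.Pend.CNTT
import Pool.Agent.Pend.COLG
import Pool.Agent.Pend.COLL
import Pool.Agent.Pend.DEG
import Pool.Agent.Pend.DENA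
import Pool.Agent.Pend.DENB
import Pool.Agent.Pend.DET
import Pool.Agent.Pend.DSC1
import Pool.Agent.Pend.DSC2
import Pool.Agent.Pend.DSC3
import Pool.Agent.Pend.EXI
import Pool.Agent.Pend.EXU
import Pool.Agent.Pend.FEWL
import Pool.Agent.Pend.FLO
import Pool.Agent.Pend.FUP
import Pool.Agent.Pend.GAM
import Pool.Agent.Pend.GLS
import Pool.Agent.Pend.GOODR
import Pool.Agent.Pend.GROW
import Pool.Agent.Pend.KEL
import Pool.Agent.Pend.KUR
import Pool.Agent.Pend.L1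
import Pool.Agent.Pend.L2
import Pool.Agent.Pend.L71
import Pool.Agent.Pend.LAM
import Pool.Agent.Pend.LEAF2
import Pool.Agent.Pend.LFS
import Pool.Agent.Pend.MADER
import Pool.Agent.Pend.MAIN
import Pool.Agent.Pend.MAINF
import Pool.Agent.Pend.MSUB
import Pool.Agent.Pend.MTRANS
import Pool.Agent.Pend.NP
import Pool.Agent.Pend.PCONS
import Pool.Agent.Pend.RECUR
import Pool.Agent.Pend.SMNUM
import Pool.Agent.Pend.SMOOTH
import Pool.Agent.Pend.START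
import Pool.Agent.Pend.STRUCT
import Pool.Agent.Pend.SUPM
import Pool.Agent.Pend.TLEAF
import Pool.Agent.Pend.TR
import Pool.Agent.Pend.TREECUT
import Pool.Agent.Pend.TRU
import Pool.Agent.Pend.TWINS

/-!
Pend: all unconditional statements.
-/

set_option autoImplicit false

namespace Pool.Agent.Pend

theorem a_PCONS : T_PCONS := p_PCONS
theorem a_TLEAF : T_TLEAF := p_TLEAF a_PCONS
theorem a_TREECUT : T_TREECUT := p_TREECUT a_PCONS a_TLEAF p_LEAF2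
theorem a_GLS : T_GLS := p_GLS a_TREECUT a_PCONS
theorem a_CARDS : T_CARDS := p_CARDS p_TR
theorem a_CATTREE : T_CATTREE := p_CATTREE a_TLEAF
theorem a_DEG : T_DEG := p_DEG p_KEL
theorem a_DET : T_DET := p_DET a_DEG (p_NP p_KEL) p_LAM a_PCONS
theorem a_DSC1 : T_DSC1 := p_DSC1 p_KEL
theorem a_DSC3 : T_DSC3 := p_DSC3 a_DEG
theorem a_L1 : T_L1 := p_L1 a_GLS a_CARDS
theorem a_L2 : T_L2 := p_L2 a_GLS a_CARDS
theorem a_AINEQ : T_AINEQ := p_AINEQ a_L1 a_L2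
theorem a_FEWL : T_FEWL := p_FEWL a_GLS a_CARDS p_TR
theorem a_GAM : T_GAM := p_GAM a_GLS a_CARDS
theorem a_EXI : T_EXI := p_EXI a_GLS a_CARDS (p_EXU p_LAM) p_CARDF (p_CARDN p_TR) a_CATTREE
theorem a_COLG : T_COLG := p_COLG a_GLS a_CARDS a_CATTREE p_CARDF
theorem a_COLL : T_COLL := p_COLL a_COLG p_CIS a_CATTREE a_TLEAF

theorem a_MAIN : T_MAIN := p_MAIN p_START a_DET a_DSC1 p_DSC2 a_DSC3 a_FEWL a_EXI a_COLL p_FLO
  p_FUP p_ASY a_L1 a_AINEQ a_GAM p_L71 p_SMOOTH p_GOODR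

theorem a_MAINS : T_MAINS := p_MAINS p_START a_DET a_DSC1 p_DSC2 a_DSC3 a_FEWL a_EXI a_COLL p_FLO
  p_FUP p_ASY a_L1 a_AINEQ a_GAM p_L71 p_DENA p_DENB

theorem a_MAINB : T_MAINB := p_MAINB a_MAIN p_BL (p_SUPM p_LAM a_PCONS p_TR) p_GROW

theorem a_MADER : T_MADER := p_MADER p_MTRANS p_MSUB
theorem a_CLQN : T_CLQN := p_CLQN a_MADER p_MSUB p_MTRANS
theorem a_RECUR : T_RECUR := p_RECUR (p_STRUCT a_MADER a_CLQN p_TWINS p_MTRANS p_MSUB)
  (p_CNTM a_MADER p_MTRANS) (p_CNTT p_MSUB p_MTRANS)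

theorem a_MAINF : T_MAINF := p_MAINF p_MTRANS p_MSUB a_RECUR p_SMNUM (p_BRS p_MTRANS p_MSUB)
  a_MAINB
theorem a_MAING : T_MAING := p_MAING p_MTRANS p_MSUB a_RECUR p_SMNUM (p_LFS p_MTRANS p_MSUB)
  a_MAINS

end Pool.Agent.Pend
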