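import Pool.Agent.Pend.Targets

set_option autoImplicit false

namespace Pool.Agent.Pend

open Finset Classical Filter Topology

namespace DENA_

/-- the ratios -/
noncomputable def lam (a : ℕ → ℝ) (n : ℕ) : ℝ := a n / a (n + 1)

theorem lam_pos (a : ℕ → ℝ) (n₀ : ℕ)
    (h1 : ∀ n, n₀ ≤ n → 0 < a n ∧ a n ≤ 71 / 100 * a (n + 1)) (n : ℕ) (hn : n₀ ≤ n) :
    0 < lam a n ∧ lam a n ≤ 1 := by
  have h2 := (h1 n hn).1
  have h3 := (h1 (n + 1) (by omega)).1
  refine ⟨div_pos h2 h3, ?_⟩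
  rw [lam, div_le_one h3]
  have := (h1 n hn).2
  linarith

theorem lam_step (a : ℕ → ℝ) (n₀ : ℕ)
    (h1 : ∀ n, n₀ ≤ n → 0 < a n ∧ a n ≤ 71 / 100 * a (n + 1))
    (h2 : ∀ n : ℕ, n₀ ≤ n → ((n : ℝ) + 1) ^ 2 * a (n + 1) ^ 2 ≤
      a (n + 2) * ((n : ℝ) ^ 2 * a n + ((n : ℝ) + 1) * a (n + 1))) (n : ℕ) (hn : n₀ ≤ n) :
    lam a (n + 1) ≤ lam a n + 1 / ((n : ℝ) + 1) := by
  have p0 := (h1 n hn).1
  have p1 := (h1 (n + 1) (by omega)).1
  have p2 := (h1 (n + 2) (by omega)).1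
  have h3 := h2 n hn
  have hn0 : (0 : ℝ) ≤ n := by positivity
  unfold lam
  rw [div_add_div _ _ p1.ne' (by positivity), div_le_div_iff₀ p2 (by positivity)]
  have h4 : (n : ℝ) ^ 2 * a n ≤ ((n : ℝ) + 1) ^ 2 * a n :=
    mul_le_mul_of_nonneg_right (by nlinarith) p0.le
  have h5 : ((n : ℝ) + 1) ^ 2 * a (n + 1) ^ 2 ≤
      a (n + 2) * (((n : ℝ) + 1) ^ 2 * a n + ((n : ℝ) + 1) * a (n + 1)) := by
    refine h3.trans (mul_le_mul_of_nonneg_left (by linarith) p2.le)
  have h6 : ((n : ℝ) + 1) * (a (n + 1) * (a (n + 1) * ((n : ℝ) + 1))) ≤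
      ((n : ℝ) + 1) * ((a n * ((n : ℝ) + 1) + a (n + 1) * 1) * a (n + 2)) := by
    nlinarith
  exact le_of_mul_le_mul_left h6 (by positivity)

theorem lam_far (a : ℕ → ℝ) (n₀ : ℕ)
    (h1 : ∀ n, n₀ ≤ n → 0 < a n ∧ a n ≤ 71 / 100 * a (n + 1))
    (h2 : ∀ n : ℕ, n₀ ≤ n → ((n : ℝ) + 1) ^ 2 * a (n + 1) ^ 2 ≤
      a (n + 2) * ((n : ℝ) ^ 2 * a n + ((n : ℝ) + 1) * a (n + 1))) (i m : ℕ) (hi : n₀ ≤ i)
    (hi0 : 0 < i) : lam a (i + m) ≤ lam a i + m / (i : ℝ) := by
  have hi' : (0 : ℝ) < i := by exact_mod_cast hi0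
  induction m with
  | zero => simp
  | succ m ih =>
    have h3 := lam_step a n₀ h1 h2 (i + m) (by omega)
    have h4 : 1 / (((i + m : ℕ) : ℝ) + 1) ≤ 1 / (i : ℝ) := by
      apply one_div_le_one_div_of_le hi'
      push_cast
      have : (0 : ℝ) ≤ m := by positivity
      linarith
    have e : i + (m + 1) = i + m + 1 := by omega
    rw [e]
    push_cast
    rw [add_div]
    linarith

theorem grow (a : ℕ → ℝ) (n₀ : ℕ)
    (h1 : ∀ n, n₀ ≤ n → 0 < a n ∧ a n ≤ 71 / 100 * a (n + 1)) :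
    ∃ n₁ : ℕ, ∀ n, n₁ ≤ n → 1 ≤ a n := by
  have h2 : ∀ m : ℕ, (100 / 71 : ℝ) ^ m * a n₀ ≤ a (n₀ + m) := by
    intro m
    induction m with
    | zero => simp
    | succ m ih =>
      have := (h1 (n₀ + m) (by omega)).2
      rw [pow_succ, ← add_assoc]
      linarith
  have h3 : Tendsto (fun m : ℕ => (100 / 71 : ℝ) ^ m * a n₀) atTop atTop :=
    (tendsto_pow_atTop_atTop_of_one_lt (by norm_num)).atTop_mul_const (h1 n₀ le_rfl).1
  obtain ⟨m, hm⟩ := Filter.eventually_atTop.mp (h3.eventually (eventually_ge_atTop 1))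
  refine ⟨n₀ + m, fun n hn => ?_⟩
  have h4 := hm (n - n₀) (by omega)
  have h5 := h2 (n - n₀)
  rw [show n₀ + (n - n₀) = n by omega] at h5
  linarith

theorem tele (f : ℕ → ℝ) (i m : ℕ) :
    ∑ j ∈ Finset.Ico i (i + m), (f (j + 1) - f j) = f (i + m) - f i := by
  induction m with
  | zero => simp
  | succ m ih =>
    rw [← add_assoc, Finset.sum_Ico_succ_top (by omega), ih]
    ring

theorem logs (c : ℝ) (hc : 0 < c) : ∀ᶠ n : ℕ in atTop, 60 * Real.log n + 4 ≤ c * n := by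
  have h1 := (Real.isLittleO_log_id_atTop.bound (show (0 : ℝ) < c / 120 by positivity))
  have h2 := tendsto_natCast_atTop_atTop (R := ℝ)
  filter_upwards [h2.eventually h1, h2.eventually (eventually_ge_atTop (8 / c)),
    h2.eventually (eventually_ge_atTop 1)] with n h3 h4 h5
  have h6 : |Real.log n| ≤ c / 120 * |(n : ℝ)| := by simpa using h3
  rw [abs_of_nonneg (Real.log_nonneg h5), abs_of_nonneg (by positivity)] at h6
  rw [div_le_iff₀ hc] at h4
  linarith

/-- the window is contained in an interval of integers -/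
theorem window (n i N W : ℕ) (hW : 30 * Real.log N ≤ W) (hn : n < N)
    (h1 : (n : ℝ) ≤ (i : ℝ) + 30 * Real.log n) (h2 : (i : ℝ) ≤ (n : ℝ) + 30 * Real.log n) :
    n ≤ i + W ∧ i ≤ n + W := by
  have hN : (1 : ℝ) ≤ N := by
    have : 1 ≤ N := by omega
    exact_mod_cast this
  have h3 : Real.log n ≤ Real.log N := by
    rcases Nat.eq_zero_or_pos n with h | h
    · subst h
      simp only [Nat.cast_zero, Real.log_zero]
      exact Real.log_nonneg hN
    · exact Real.log_le_log (by exact_mod_cast h) (by exact_mod_cast hn.le)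
  constructor
  · have : (n : ℝ) ≤ ((i + W : ℕ) : ℝ) := by push_cast; linarith
    exact_mod_cast this
  · have : (i : ℝ) ≤ ((n + W : ℕ) : ℝ) := by push_cast; linarith
    exact_mod_cast this

theorem count (a : ℕ → ℝ) (n₀ : ℕ)
    (h1 : ∀ n, n₀ ≤ n → 0 < a n ∧ a n ≤ 71 / 100 * a (n + 1)) (D : ℝ) (hD : 0 < D)
    (i m : ℕ) (hi : n₀ ≤ i) :
    (((Finset.Ico i (i + m)).filter (fun j => lam a j < Real.exp (-D))).card : ℝ) * D ≤
      Real.log (a (i + m)) - Real.log (a i) := by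
  rw [← tele (fun j => Real.log (a j)) i m]
  have h3 : ∀ j ∈ Finset.Ico i (i + m), 0 ≤ Real.log (a (j + 1)) - Real.log (a j) := by
    intro j hj
    rw [Finset.mem_Ico] at hj
    have h4 := (h1 j (by omega)).1
    have h5 := (h1 (j + 1) (by omega)).1
    have := Real.log_le_log h4 (show a j ≤ a (j + 1) by have := (h1 j (by omega)).2; linarith)
    linarith
  calc (((Finset.Ico i (i + m)).filter (fun j => lam a j < Real.exp (-D))).card : ℝ) * D
      = ∑ j ∈ (Finset.Ico i (i + m)).filter (fun j => lam a j < Real.exp (-D)), D := by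
        rw [Finset.sum_const, nsmul_eq_mul]
    _ ≤ ∑ j ∈ (Finset.Ico i (i + m)).filter (fun j => lam a j < Real.exp (-D)),
          (Real.log (a (j + 1)) - Real.log (a j)) := by
        apply Finset.sum_le_sum
        intro j hj
        rw [Finset.mem_filter, Finset.mem_Ico] at hj
        have h4 := (h1 j (by omega)).1
        have h5 := (h1 (j + 1) (by omega)).1
        have h6 : Real.log (lam a j) < -D :=
          (Real.log_lt_iff_lt_exp (show 0 < lam a j from div_pos h4 h5)).mpr hj.2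
        rw [lam, Real.log_div h4.ne' h5.ne'] at h6
        linarith
    _ ≤ _ := Finset.sum_le_sum_of_subset_of_nonneg (Finset.filter_subset _ _)
        (fun j hj _ => h3 j hj)

end DENA_

open DENA_ in
theorem p_DENA : T_DENA := by
  intro a n₀ K h1 h2 h3 η hη
  rcases le_or_gt 1 η with hη1 | hη1
  · refine ⟨1, one_pos, 0, fun N _ => ?_⟩
    have : (((range N).filter (fun n : ℕ => ∃ i : ℕ, (n : ℝ) ≤ (i : ℝ) + 30 * Real.log n ∧
        (i : ℝ) ≤ (n : ℝ) + 30 * Real.log n ∧ a i < 1 * a (i + 1))).card : ℝ) ≤ N := by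
      have := Finset.card_filter_le (range N) (fun n : ℕ => ∃ i : ℕ,
        (n : ℝ) ≤ (i : ℝ) + 30 * Real.log n ∧
        (i : ℝ) ≤ (n : ℝ) + 30 * Real.log n ∧ a i < 1 * a (i + 1))
      rw [Finset.card_range] at this
      exact_mod_cast this
    have h4 : (0 : ℝ) ≤ N := by positivity
    nlinarith
  set K' : ℝ := max |K| 1 with hK'
  have hK1 : 1 ≤ K' := le_max_right _ _
  have hlogK : 0 ≤ Real.log K' := Real.log_nonneg hK1
  set D : ℝ := 8 * Real.log K' / η + 1 with hD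
  have hD0 : 0 < D := by positivity
  set δ : ℝ := Real.exp (-D) / 2 with hδ
  have hδ0 : 0 < δ := by positivity
  have hδ1 : δ ≤ 1 := by
    have : Real.exp (-D) ≤ 1 := Real.exp_le_one_iff.mpr (by linarith)
    rw [hδ]; linarith
  refine ⟨δ, hδ0, ?_⟩
  obtain ⟨n₁, hn₁⟩ := grow a n₀ h1
  have E1 := logs (δ * η / 8) (by positivity)
  have E2 : ∀ᶠ N : ℕ in atTop, (8 / η) * ((n₀ : ℝ) + n₁ + 2) ≤ N :=
    (tendsto_natCast_atTop_atTop (R := ℝ)).eventually (eventually_ge_atTop _)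
  obtain ⟨N₀, hN₀⟩ := Filter.eventually_atTop.mp (E1.and E2)
  refine ⟨N₀, fun N hN => ?_⟩
  obtain ⟨e1, e2⟩ := hN₀ N hN
  have e2' : (n₀ : ℝ) + n₁ + 2 ≤ η * N / 8 := by
    rw [div_mul_eq_mul_div, div_le_iff₀ hη] at e2
    linarith
  have hN0 : (0 : ℝ) ≤ N := by positivity
  have hNpos : (1 : ℝ) ≤ N := by
    have p1 : (0 : ℝ) ≤ n₀ := by positivity
    have p2 : (0 : ℝ) ≤ n₁ := by positivity
    nlinarith
  have hlogN : 0 ≤ Real.log N := Real.log_nonneg hNpos
  set W : ℕ := ⌈30 * Real.log N⌉₊ with hW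
  have hW1 : 30 * Real.log N ≤ W := Nat.le_ceil _
  have hW2 : (W : ℝ) < 30 * Real.log N + 1 := Nat.ceil_lt_add_one (by positivity)
  set j₀ : ℕ := ⌊η * N / 8⌋₊ with hj₀
  have hj1 : (j₀ : ℝ) ≤ η * N / 8 := Nat.floor_le (by positivity)
  have hj2 : η * N / 8 < (j₀ : ℝ) + 1 := Nat.lt_floor_add_one _
  have hj3 : n₀ + n₁ + 1 ≤ j₀ := by
    have : ((n₀ + n₁ + 1 : ℕ) : ℝ) < (j₀ : ℝ) + 1 := by push_cast; linarith
    have : n₀ + n₁ + 1 < j₀ + 1 := by exact_mod_cast this
    omega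
  have hWj : 2 * (W : ℝ) < δ * j₀ := by nlinarith
  have hWj2 : W ≤ j₀ := by
    have : (W : ℝ) ≤ j₀ := by
      have : δ * (j₀ : ℝ) ≤ j₀ := by
        have : (0 : ℝ) ≤ j₀ := by positivity
        nlinarith
      have : (0 : ℝ) ≤ W := by positivity
      linarith
    exact_mod_cast this
  have hjN : 8 * j₀ ≤ N := by
    have : ((8 * j₀ : ℕ) : ℝ) ≤ N := by
      push_cast
      nlinarith
    exact_mod_cast this
  set B := (range N).filter (fun n : ℕ => ∃ i : ℕ, (n : ℝ) ≤ (i : ℝ) + 30 * Real.log n ∧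
    (i : ℝ) ≤ (n : ℝ) + 30 * Real.log n ∧ a i < δ * a (i + 1)) with hB
  set J := (Finset.Ico j₀ (j₀ + 2 * N)).filter (fun j => lam a j < Real.exp (-D)) with hJ
  have hcard : B.card ≤ 2 * j₀ + J.card := by
    have hsub : (B.filter (fun n => 2 * j₀ ≤ n)).card ≤ J.card := by
      apply Finset.card_le_card_of_injOn (fun n => n + W)
      · intro n hn
        simp only [Finset.coe_filter, Set.mem_ofPred_eq, hB, Finset.mem_filter,
          Finset.mem_range] at hn
        obtain ⟨⟨hnN, i, hi1, hi2, hi3⟩, hn2⟩ := hn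
        obtain ⟨w1, w2⟩ := window n i N W hW1 hnN hi1 hi2
        have hi : j₀ ≤ i := by omega
        have hin0 : n₀ ≤ i := by omega
        have p0 := (h1 i hin0).1
        have p1 := (h1 (i + 1) (by omega)).1
        have l1 : lam a i < δ := by
          rw [lam, div_lt_iff₀ p1]; exact hi3
        obtain ⟨m, hm⟩ : ∃ m, n + W = i + m := ⟨n + W - i, by omega⟩
        have hm2 : m ≤ 2 * W := by omega
        have l2 := lam_far a n₀ h1 h2 i m hin0 (by omega)
        have hi0 : (0 : ℝ) < i := by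
          have : 0 < i := by omega
          exact_mod_cast this
        have l3 : (m : ℝ) / i < δ := by
          rw [div_lt_iff₀ hi0]
          have q1 : (m : ℝ) ≤ 2 * W := by exact_mod_cast hm2
          have q2 : (j₀ : ℝ) ≤ i := by exact_mod_cast hi
          have q3 : δ * (j₀ : ℝ) ≤ δ * i := mul_le_mul_of_nonneg_left q2 hδ0.le
          linarith
        rw [hJ]
        simp only [Finset.coe_filter, Set.mem_ofPred_eq, Finset.mem_Ico]
        refine ⟨⟨by omega, by omega⟩, ?_⟩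
        rw [hm]
        rw [hδ] at l1 l3
        linarith
      · intro x _ y _ hxy
        simpa using hxy
    have hsplit : B ⊆ (range (2 * j₀)) ∪ B.filter (fun n => 2 * j₀ ≤ n) := by
      intro n hn
      rw [Finset.mem_union, Finset.mem_range, Finset.mem_filter]
      by_cases h : n < 2 * j₀
      · exact Or.inl h
      · exact Or.inr ⟨hn, by omega⟩
    calc B.card ≤ _ := Finset.card_le_card hsplit
      _ ≤ (range (2 * j₀)).card + (B.filter (fun n => 2 * j₀ ≤ n)).card := Finset.card_union_le _ _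
      _ ≤ 2 * j₀ + J.card := by rw [Finset.card_range]; omega
  have hJ2 : (J.card : ℝ) * D ≤ 3 * N * Real.log K' := by
    have h4 := count a n₀ h1 D hD0 j₀ (2 * N) (by omega)
    have h5 : 1 ≤ a j₀ := hn₁ j₀ (by omega)
    have h6 : 0 ≤ Real.log (a j₀) := Real.log_nonneg h5
    have h7 : Real.log (a (j₀ + 2 * N)) ≤ (j₀ + 2 * N : ℕ) * Real.log K' := by
      rw [← Real.log_pow]
      apply Real.log_le_log (h1 _ (by omega)).1
      calc a (j₀ + 2 * N) ≤ K ^ (j₀ + 2 * N) := h3 _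
        _ ≤ |K ^ (j₀ + 2 * N)| := le_abs_self _
        _ = |K| ^ (j₀ + 2 * N) := abs_pow _ _
        _ ≤ K' ^ (j₀ + 2 * N) := pow_le_pow_left₀ (abs_nonneg _) (le_max_left _ _) _
    have h8 : ((j₀ + 2 * N : ℕ) : ℝ) ≤ 3 * N := by
      have : j₀ + 2 * N ≤ 3 * N := by omega
      exact_mod_cast this
    have h9 : ((j₀ + 2 * N : ℕ) : ℝ) * Real.log K' ≤ 3 * N * Real.log K' :=
      mul_le_mul_of_nonneg_right h8 hlogK
    linarith
  have hJ3 : (J.card : ℝ) ≤ 3 / 8 * η * N := by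
    have h4 : 3 * N * Real.log K' ≤ 3 / 8 * η * N * D := by
      rw [hD]
      have : 3 / 8 * η * N * (8 * Real.log K' / η + 1) = 3 * N * Real.log K' + 3 / 8 * η * N := by
        field_simp
      rw [this]
      have : 0 ≤ 3 / 8 * η * N := by positivity
      linarith
    exact le_of_mul_le_mul_right (hJ2.trans h4) hD0
  have h5 : (B.card : ℝ) ≤ 2 * j₀ + J.card := by exact_mod_cast hcard
  nlinarith

end Pool.Agent.Pend
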