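import Mathlib

/-!
Definitions for the theorem: almost all graphs in a class of graphs which is closed under adding and
deleting leaves and has a growth constant are reconstructible (MP_552896_co).
See `Blueprint.lean.txt`.
-/

set_option autoImplicit false

namespace Pool.Agent.Pend

open Finset Classical

/-! ### hypomorphic graphs -/

/-- `G`, `H` are hypomorphic (`ψ w` is an isomorphism of `G - w` onto `H - w`, extended by
`w ↦ w`) and not isomorphic. -/
structure Hyp {V : Type} (G H : SimpleGraph V) (ψ : V → Equiv.Perm V) : Prop where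
  fix : ∀ w, ψ w w = w
  adj : ∀ w a b, a ≠ w → b ≠ w → (G.Adj a b ↔ H.Adj (ψ w a) (ψ w b))
  non : ¬ Nonempty (G ≃g H)

/-- The truncated clique lattice of `G` is reconstructible from its deck of maximal filter
deleted subsets. -/
def Rec {V : Type} [Fintype V] (G : SimpleGraph V) : Prop :=
  ∀ (W : Type) [Fintype W] (H : SimpleGraph W) (f : V ≃ W),
    (∀ v : V,
      Nonempty ({s : Finset V // s.Nonempty ∧ G.IsClique (s : Set V) ∧ v ∉ s} ≃o
        {t : Finset W // t.Nonempty ∧ H.IsClique (t : Set W) ∧ f v ∉ t})) →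
    Nonempty ({s : Finset V // s.Nonempty ∧ G.IsClique (s : Set V)} ≃o
      {t : Finset W // t.Nonempty ∧ H.IsClique (t : Set W)})

/-- `G[A]` and `H[B]` are isomorphic. -/
def Is {V W : Type} (G : SimpleGraph V) (A : Finset V) (H : SimpleGraph W) (B : Finset W) : Prop :=
  Nonempty (G.induce (A : Set V) ≃g H.induce (B : Set W))

/-! ### pendant sets -/

/-- `A` is a pendant set: `r x` is the only edge between `A` and its complement. -/
def Pnd {V : Type} (G : SimpleGraph V) (A : Finset V) (r x : V) : Prop :=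
  r ∈ A ∧ x ∉ A ∧ ∀ a ∈ A, ∀ b, b ∉ A → (G.Adj a b ↔ a = r ∧ b = x)

/-- `A` is a pendant set of `G[S]`: `r x` is the only edge between `A` and `S ∖ A`. -/
def PndS {V : Type} (G : SimpleGraph V) (S A : Finset V) (r x : V) : Prop :=
  A ⊆ S ∧ r ∈ A ∧ x ∈ S ∧ x ∉ A ∧ ∀ a ∈ A, ∀ b ∈ S, b ∉ A → (G.Adj a b ↔ a = r ∧ b = x)

/-- `v` is a leaf with the neighbour `u`. -/
def Lf {V : Type} (G : SimpleGraph V) (v u : V) : Prop := ∀ w, G.Adj v w ↔ w = u

/-- The number of leaves. -/
noncomputable def lv {V : Type} [Fintype V] (G : SimpleGraph V) : ℕ :=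
  (univ.filter (fun v => ∃ u, Lf G v u)).card

/-- The edges of `G` inside `S`, as a graph on the same vertex set. -/
def rs {V : Type} (G : SimpleGraph V) (S : Finset V) : SimpleGraph V where
  Adj a b := G.Adj a b ∧ a ∈ S ∧ b ∈ S
  symm := ⟨fun _ _ h => ⟨h.1.symm, h.2.2, h.2.1⟩⟩
  loopless := ⟨fun _ h => h.1.ne rfl⟩

/-! ### caterpillars -/

/-- `G[W]` is a caterpillar: `W` has `2 (k + 3)` vertices, `s` is an induced path with `k + 3`
vertices, its second vertex is the root `r`, every other vertex of `W` has exactly one neighbour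
in `W`, which is a vertex of the path. -/
def Cat {V : Type} (k : ℕ) (G : SimpleGraph V) (W : Finset V) (r : V) : Prop :=
  W.card = 2 * (k + 3) ∧ ∃ s : Fin (k + 3) → V, Function.Injective s ∧ (∀ i, s i ∈ W) ∧ s 1 = r ∧
    (∀ i j, G.Adj (s i) (s j) ↔ (i.val + 1 = j.val ∨ j.val + 1 = i.val)) ∧
    ∀ w ∈ W, (∀ i, s i ≠ w) → ∃ i, ∀ u ∈ W, (G.Adj w u ↔ u = s i)

/-- `W` is a good pendant set. -/
def Gd {V : Type} (k : ℕ) (G : SimpleGraph V) (W : Finset V) : Prop :=
  ∃ r x, Pnd G W r x ∧ Cat k G W r

/-- A good pendant set `W` and a pendant set `W2` disjoint from it which is isomorphic to `W`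
minus a leaf, to `W`, or to `W` plus a leaf. -/
def Col {V : Type} (k : ℕ) (G : SimpleGraph V) : Prop :=
  ∃ (W W2 : Finset V) (r x r2 x2 : V), Disjoint W W2 ∧ Pnd G W r x ∧ Cat k G W r ∧
    Pnd G W2 r2 x2 ∧
    ((∃ v ∈ W, v ≠ r ∧ (∃ u, Lf G v u) ∧ Is G W2 G (W.erase v)) ∨
      Is G W2 G W ∨
      (∃ a ∈ W2, (∃ u ∈ W2, ∀ w ∈ W2, (G.Adj a w ↔ w = u)) ∧ Is G (W2.erase a) G W))

/-- The rooted caterpillars on `W`. -/
noncomputable def FS {V : Type} [Fintype V] (k : ℕ) (W : Finset V) :
    Finset (SimpleGraph V × V) :=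
  univ.filter (fun p => (∀ a b, p.1.Adj a b → a ∈ W ∧ b ∈ W) ∧ Cat k p.1 W p.2)

/-- The number of rooted caterpillars on `2 (k + 3)` labelled vertices. -/
noncomputable def FF (k : ℕ) : ℕ := (FS k (univ : Finset (Fin (2 * (k + 3))))).card

/-! ### classes of graphs -/

/-- Closed under isomorphism. -/
def IsoInv (C : (V : Type) → SimpleGraph V → Prop) : Prop :=
  ∀ (V W : Type) (G : SimpleGraph V) (H : SimpleGraph W), Nonempty (G ≃g H) → C V G → C W H

/-- A class of graphs which is closed under isomorphism and under adding and deleting leaves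
(of connected graphs). -/
structure LeafStable (C : (V : Type) → SimpleGraph V → Prop) : Prop where
  iso : IsoInv C
  leaf : ∀ (V : Type) [Finite V] (G : SimpleGraph V) (v u : V), G.Connected → Lf G v u →
    (C V G ↔ C ({w | w ≠ v} : Set V) (G.induce {w | w ≠ v}))

/-- A class of graphs which contains the graph with one vertex, is closed under isomorphism, and
contains a connected graph with a bridge if and only if it contains the two parts. -/
structure BridgeStable (C : (V : Type) → SimpleGraph V → Prop) : Prop where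
  iso : IsoInv C
  one : C Unit ⊥
  bridge : ∀ (V : Type) [Fintype V] (G : SimpleGraph V) (A : Finset V) (r x : V), G.Connected →
    Pnd G A r x → (C V G ↔ C (A : Set V) (G.induce (A : Set V)) ∧
      C ((Aᶜ : Finset V) : Set V) (G.induce ((Aᶜ : Finset V) : Set V)))

/-- The connected members of the class with the vertex set `V`. -/
noncomputable def cc (C : (V : Type) → SimpleGraph V → Prop) (V : Type) [Fintype V] :
    Finset (SimpleGraph V) :=
  univ.filter (fun G => G.Connected ∧ C V G)

/-- The number of connected members of the class with `n` labelled vertices. -/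
noncomputable def cnt (C : (V : Type) → SimpleGraph V → Prop) (n : ℕ) : ℕ := (cc C (Fin n)).card

/-- The number of connected members with `n` labelled vertices, divided by `n!`. -/
noncomputable def aa (C : (V : Type) → SimpleGraph V → Prop) (n : ℕ) : ℝ :=
  (cnt C n : ℝ) / (n.factorial : ℝ)

/-- The connected members of the class with the vertex set `S ⊆ V`, as graphs on `V` without edges
outside `S`. -/
noncomputable def cS {V : Type} [Fintype V] (C : (V : Type) → SimpleGraph V → Prop)
    (S : Finset V) : Finset (SimpleGraph V) :=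
  univ.filter (fun K => (∀ a b, K.Adj a b → a ∈ S ∧ b ∈ S) ∧
    (K.induce (S : Set V)).Connected ∧ C (S : Set V) (K.induce (S : Set V)))

end Pool.Agent.Pend
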