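import Pool.Agent.Pend.Targets

/-!
L1: the number of leaves (project Pend, MP_552896_co).
-/

set_option autoImplicit false

namespace Pool.Agent.Pend

open Finset Classical

namespace L1_

theorem rs_singleton {V : Type} (G : SimpleGraph V) (v : V) : rs G {v} = ⊥ := by
  ext a b
  constructor
  · rintro ⟨h, ha, hb⟩
    rw [mem_singleton] at ha hb
    exact absurd h (by rw [ha, hb]; exact G.irrefl)
  · intro h
    exact absurd h (by simp)

/-- Members of the class with the leaf `v`. -/
theorem leafCount (h1 : T_GLS) (C : (V : Type) → SimpleGraph V → Prop) (hC : LeafStable C)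
    {V : Type} [Fintype V] (S : Finset V) (v : V) (hv : v ∈ S) (Q : V → SimpleGraph V → Prop) :
    ((cS C S).filter (fun G => ∃ x, PndS G S {v} v x ∧ Q x (rs G (S \ {v})))).card =
      ∑ x ∈ S \ {v}, ((cS C (S \ {v})).filter (fun K => Q x K)).card := by
  have h := h1 C hC V S {v} ⊥ v Q (by simpa using hv) (mem_singleton_self v)
    (fun a b h => absurd h (by simp)) (by
      have : Nonempty ((({v} : Finset V) : Set V)) := ⟨⟨v, by simp⟩⟩
      have : Subsingleton ((({v} : Finset V) : Set V)) := by
        constructor
        rintro ⟨a, ha⟩ ⟨b, hb⟩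
        simp only [coe_singleton, Set.mem_singleton_iff] at ha hb
        exact Subtype.ext (ha.trans hb.symm)
      exact SimpleGraph.IsTree.of_subsingleton)
  rw [← h]
  congr 1
  ext G
  simp only [mem_filter, rs_singleton, true_and]

theorem lf_iff {V : Type} [Fintype V] (G : SimpleGraph V) (v x : V) :
    Lf G v x ↔ PndS G univ {v} v x := by
  constructor
  · intro h
    have hxv : x ≠ v := fun e => by
      have := (h x).2 rfl
      rw [e] at this
      exact G.irrefl this
    refine ⟨subset_univ _, mem_singleton_self v, mem_univ _, by simpa using hxv, ?_⟩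
    intro a ha b _ _
    rw [mem_singleton] at ha
    subst ha
    rw [h b]
    exact ⟨fun e => ⟨rfl, e⟩, fun e => e.2⟩
  · rintro ⟨_, _, _, hx, h⟩ w
    by_cases hw : w = v
    · subst hw
      constructor
      · intro h'
        exact absurd h' G.irrefl
      · intro h'
        exact absurd (by simp [h']) hx
    · have := h v (mem_singleton_self v) w (mem_univ _) (by simpa using hw)
      rw [this]
      exact ⟨fun e => e.2, fun e => ⟨rfl, e⟩⟩

theorem card_leaf (h1 : T_GLS) (h2 : T_CARDS) (C : (V : Type) → SimpleGraph V → Prop)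
    (hC : LeafStable C) {V : Type} [Fintype V] (S : Finset V) (v : V) (hv : v ∈ S) :
    ((cS C S).filter (fun G => ∃ x, PndS G S {v} v x)).card = (S.card - 1) * cnt C (S.card - 1) := by
  have h := leafCount h1 C hC S v hv (fun _ _ => True)
  have hc : (S \ {v} : Finset V).card = S.card - 1 := by
    rw [card_sdiff_of_subset (by simpa using hv)]
    simp
  refine (Eq.trans (congrArg Finset.card ?_) h).trans ?_
  · ext G
    simp only [mem_filter, and_true]
  · simp only [filter_true, (h2 C hC.iso V).1, hc, sum_const, smul_eq_mul]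

theorem gen (h1 : T_GLS) (h2 : T_CARDS) (C : (V : Type) → SimpleGraph V → Prop)
    (hC : LeafStable C) {V : Type} [Fintype V] :
    ∑ G ∈ cc C V, lv G =
      Fintype.card V * ((Fintype.card V - 1) * cnt C (Fintype.card V - 1)) := by
  obtain ⟨hS, hU, -⟩ := h2 C hC.iso V
  have e1 : ∀ G ∈ cc C V, lv G = ∑ v : V, if (∃ u, Lf G v u) then 1 else 0 := by
    intro G _
    rw [lv, card_filter]
  rw [sum_congr rfl e1, sum_comm]
  have e2 : ∀ v ∈ (univ : Finset V),
      (∑ G ∈ cc C V, if (∃ u, Lf G v u) then 1 else 0) =
        (Fintype.card V - 1) * cnt C (Fintype.card V - 1) := by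
    intro v _
    rw [← card_filter, ← hU]
    have h := card_leaf h1 h2 C hC (univ : Finset V) v (mem_univ v)
    rw [card_univ] at h
    rw [← h]
    congr 1
    ext G
    simp only [mem_filter, lf_iff]
  rw [sum_congr rfl e2, sum_const, card_univ, smul_eq_mul]

end L1_

open L1_ in
theorem p_L1 (h1 : T_GLS) (h2 : T_CARDS) : T_L1 := by
  intro C hC n hn
  have h := gen h1 h2 C hC (V := Fin (n + 1))
  simp only [Fintype.card_fin, Nat.add_sub_cancel] at h
  rw [h]
  ring

end Pool.Agent.Pend
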