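import Pool.Agent.Pend.Targets
import Pool.Agent.Lib.Recon.CliquePoset

/-!
Pend, START: from truncated clique lattices to hypomorphic graphs.
-/

set_option autoImplicit false

namespace Pool.Agent.Pend

theorem p_START : T_START := by
  classical
  intro V instV G hG
  rw [Rec, not_forall] at hG
  obtain ⟨W, hG⟩ := hG
  rw [not_forall] at hG
  obtain ⟨instW, hG⟩ := hG
  rw [not_forall] at hG
  obtain ⟨H, hG⟩ := hG
  rw [not_forall] at hG
  obtain ⟨f, hG⟩ := hG
  rw [Classical.not_imp] at hG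
  obtain ⟨h1, h2⟩ := hG
  have hσ : ∀ v : V, ∃ σ : V ≃ W, σ v = f v ∧
      ∀ x y, x ≠ v → y ≠ v → (G.Adj x y ↔ H.Adj (σ x) (σ y)) :=
    fun v => Pool.Agent.Lib.Recon.cardIso_of_orderIso G H f v (h1 v).some
  choose σ hσ1 hσ2 using hσ
  refine ⟨H.comap f, fun v => (σ v).trans f.symm, ?_, ?_, ?_⟩
  · intro w
    rw [Equiv.trans_apply, hσ1, Equiv.symm_apply_apply]
  · intro w a b ha hb
    rw [hσ2 w a b ha hb, SimpleGraph.comap_adj, Equiv.trans_apply, Equiv.trans_apply,
      Equiv.apply_symm_apply, Equiv.apply_symm_apply]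
  · rintro ⟨g⟩
    apply h2
    apply Pool.Agent.Lib.Recon.orderIso_of_iso G H
    refine ⟨g.toEquiv.trans f, ?_⟩
    intro x y
    rw [← g.map_adj_iff, SimpleGraph.comap_adj]
    rfl

end Pool.Agent.Pend
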