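import Pool.Agent.Pend.Defs

/-!
Targets for the project Pend. Proofs: `Blueprint.lean.txt`.
-/

set_option autoImplicit false

namespace Pool.Agent.Pend

open Finset Classical Filter Topology

/-! ### deterministic part -/

/-- START: from truncated clique lattices to hypomorphic graphs. -/
def T_START : Prop := ∀ (V : Type) [Fintype V] (G : SimpleGraph V), ¬ Rec G →
  ∃ (H : SimpleGraph V) (ψ : V → Equiv.Perm V), Hyp G H ψ

/-- KEL: Kelly's lemma for invariant functions. -/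
def T_KEL : Prop := ∀ (V : Type) [Fintype V] (G H : SimpleGraph V) (ψ : V → Equiv.Perm V)
  (g : SimpleGraph V → Finset V → ℕ) (s : ℕ), Hyp G H ψ →
  (∀ (G1 G2 : SimpleGraph V) (S1 S2 : Finset V), Is G1 S1 G2 S2 → g G1 S1 = g G2 S2) →
  s < Fintype.card V →
  ∑ S ∈ powersetCard s (univ : Finset V), g G S = ∑ S ∈ powersetCard s (univ : Finset V), g H S

/-- DEG: the degree of the deleted vertex is reconstructible. -/
def T_DEG : Prop := ∀ (V : Type) [Fintype V] (G H : SimpleGraph V) (ψ : V → Equiv.Perm V) (v : V),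
  Hyp G H ψ → 3 ≤ Fintype.card V →
  (univ.filter (fun w => G.Adj v w)).card = (univ.filter (fun w => H.Adj v w)).card

/-- NP: the number of pendant sets of a given isomorphism type is reconstructible. -/
def T_NP : Prop := ∀ (V : Type) [Fintype V] (G H : SimpleGraph V) (ψ : V → Equiv.Perm V)
  (X : SimpleGraph V) (P : Finset V), Hyp G H ψ → 3 ≤ Fintype.card V → P.Nonempty → P ≠ univ →
  ((univ : Finset (Finset V)).filter (fun A => Is G A X P ∧ ∃ r x, Pnd G A r x)).card =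
    ((univ : Finset (Finset V)).filter (fun A => Is H A X P ∧ ∃ r x, Pnd H A r x)).card

/-- LAM: pendant sets are nested, disjoint or cover everything. -/
def T_LAM : Prop := ∀ (V : Type) [Fintype V] (G : SimpleGraph V) (A B : Finset V)
  (r x r' x' : V), G.Connected → Pnd G A r x → Pnd G B r' x' →
  Disjoint A B ∨ A ⊆ B ∨ B ⊆ A ∨ A ∪ B = univ

/-- DET: a connected graph with a good pendant set, many leaves and no collision is
reconstructible. -/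
def T_DET : Prop := ∀ (V : Type) [Fintype V] (G H : SimpleGraph V) (ψ : V → Equiv.Perm V) (k : ℕ),
  Hyp G H ψ → G.Connected → (∃ W, Gd k G W) → 2 * (k + 3) < lv G → ¬ Col k G →
  4 * (k + 3) + 2 ≤ Fintype.card V → False

/-- DSC1: the components of disconnected hypomorphic graphs. -/
def T_DSC1 : Prop := ∀ (V : Type) [Fintype V] (G H : SimpleGraph V) (ψ : V → Equiv.Perm V)
  (g : SimpleGraph V → Finset V → ℕ), Hyp G H ψ → 3 ≤ Fintype.card V → ¬ G.Connected →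
  ¬ H.Connected →
  (∀ (G1 G2 : SimpleGraph V) (S1 S2 : Finset V), Is G1 S1 G2 S2 → g G1 S1 = g G2 S2) →
  ∀ s : ℕ,
  ∑ S ∈ (powersetCard s (univ : Finset V)).filter (fun S : Finset V =>
    ∃ c : G.ConnectedComponent, c.supp = (S : Set V)), g G S =
  ∑ S ∈ (powersetCard s (univ : Finset V)).filter (fun S : Finset V =>
    ∃ c : H.ConnectedComponent, c.supp = (S : Set V)), g H S

/-- DSC2: graphs with the same components are isomorphic. -/
def T_DSC2 : Prop := ∀ (V : Type) [Fintype V] (G H : SimpleGraph V),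
  (∀ (g : SimpleGraph V → Finset V → ℕ),
    (∀ (G1 G2 : SimpleGraph V) (S1 S2 : Finset V), Is G1 S1 G2 S2 → g G1 S1 = g G2 S2) →
    ∀ s : ℕ,
    ∑ S ∈ (powersetCard s (univ : Finset V)).filter (fun S : Finset V =>
      ∃ c : G.ConnectedComponent, c.supp = (S : Set V)), g G S =
    ∑ S ∈ (powersetCard s (univ : Finset V)).filter (fun S : Finset V =>
      ∃ c : H.ConnectedComponent, c.supp = (S : Set V)), g H S) → Nonempty (G ≃g H)

/-- DSC3: connectedness is reconstructible. -/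
def T_DSC3 : Prop := ∀ (V : Type) [Fintype V] (G H : SimpleGraph V) (ψ : V → Equiv.Perm V),
  Hyp G H ψ → 3 ≤ Fintype.card V → ¬ G.Connected → ¬ H.Connected

/-! ### gluing -/

/-- TR: transport of counts to `Fin`. -/
def T_TR : Prop := ∀ (Q : (V : Type) → SimpleGraph V → Prop), IsoInv Q →
  ∀ (V : Type) [Fintype V] (S : Finset V),
  ((univ : Finset (SimpleGraph V)).filter (fun K => (∀ a b, K.Adj a b → a ∈ S ∧ b ∈ S) ∧
    Q (S : Set V) (K.induce (S : Set V)))).card =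
  ((univ : Finset (SimpleGraph (Fin S.card))).filter (fun K => Q (Fin S.card) K)).card

/-- TRU: the same for the whole vertex set. -/
def T_TRU : Prop := ∀ (Q : (V : Type) → SimpleGraph V → Prop), IsoInv Q →
  ∀ (V : Type) [Fintype V],
  ((univ : Finset (SimpleGraph V)).filter (fun K => Q V K)).card =
  ((univ : Finset (SimpleGraph (Fin (Fintype.card V)))).filter
    (fun K => Q (Fin (Fintype.card V)) K)).card

/-- PCONS: connectedness and pendant sets. -/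
def T_PCONS : Prop := ∀ (V : Type) [Fintype V] (G : SimpleGraph V) (S A : Finset V) (r x : V),
  PndS G S A r x → ((G.induce (S : Set V)).Connected ↔
    (G.induce (A : Set V)).Connected ∧ (G.induce ((S \ A : Finset V) : Set V)).Connected)

/-- TLEAF: trees and leaves. -/
def T_TLEAF : Prop := ∀ (V : Type) [Fintype V] (G : SimpleGraph V) (W : Finset V) (a u : V),
  a ∈ W → u ∈ W → u ≠ a → (∀ w ∈ W, (G.Adj a w ↔ w = u)) →
  ((G.induce (W : Set V)).IsTree ↔ (G.induce ((W.erase a : Finset V) : Set V)).IsTree)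

/-- LEAF2: a tree has a leaf different from `r`. -/
def T_LEAF2 : Prop := ∀ (V : Type) [Fintype V] (G : SimpleGraph V) (W : Finset V) (r : V),
  (G.induce (W : Set V)).IsTree → 2 ≤ W.card →
  ∃ v ∈ W, v ≠ r ∧ ∃ u ∈ W, u ≠ v ∧ ∀ w ∈ W, (G.Adj v w ↔ w = u)

/-- TREECUT: pendant trees can be cut off. -/
def T_TREECUT : Prop := ∀ (C : (V : Type) → SimpleGraph V → Prop), LeafStable C →
  ∀ (V : Type) [Fintype V] (G : SimpleGraph V) (S W : Finset V) (r x : V),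
  PndS G S W r x → (G.induce (S : Set V)).Connected → (G.induce (W : Set V)).IsTree →
  (C (S : Set V) (G.induce (S : Set V)) ↔
    C ((S \ W : Finset V) : Set V) (G.induce ((S \ W : Finset V) : Set V)))

/-- GLS: the members of the class with a given pendant tree. -/
def T_GLS : Prop := ∀ (C : (V : Type) → SimpleGraph V → Prop), LeafStable C →
  ∀ (V : Type) [Fintype V] (S W : Finset V) (T : SimpleGraph V) (r : V)
  (Q : V → SimpleGraph V → Prop), W ⊆ S → r ∈ W → (∀ a b, T.Adj a b → a ∈ W ∧ b ∈ W) →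
  (T.induce (W : Set V)).IsTree →
  ((cS C S).filter (fun G => rs G W = T ∧ ∃ x, PndS G S W r x ∧ Q x (rs G (S \ W)))).card =
    ∑ x ∈ S \ W, ((cS C (S \ W)).filter (fun K => Q x K)).card

/-- CARDS: cardinalities. -/
def T_CARDS : Prop := ∀ (C : (V : Type) → SimpleGraph V → Prop), IsoInv C →
  ∀ (V : Type) [Fintype V], (∀ S : Finset V, (cS C S).card = cnt C S.card) ∧
  cS C (univ : Finset V) = cc C V ∧ (cc C V).card = cnt C (Fintype.card V)

/-- CATTREE: caterpillars are trees. -/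
def T_CATTREE : Prop := ∀ (V : Type) [Fintype V] (k : ℕ) (G : SimpleGraph V) (W : Finset V)
  (r : V), Cat k G W r → (G.induce (W : Set V)).IsTree

/-! ### counting -/

/-- L1: the number of leaves. -/
def T_L1 : Prop := ∀ (C : (V : Type) → SimpleGraph V → Prop), LeafStable C →
  ∀ n : ℕ, 1 ≤ n → ∑ G ∈ cc C (Fin (n + 1)), lv G = (n + 1) * n * cnt C n

/-- L2: the number of pairs of leaves. -/
def T_L2 : Prop := ∀ (C : (V : Type) → SimpleGraph V → Prop), LeafStable C →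
  ∀ n : ℕ, 1 ≤ n → ∑ G ∈ cc C (Fin (n + 2)), lv G * (lv G - 1) =
    (n + 2) * (n + 1) * n ^ 2 * cnt C n

/-- AINEQ: consequence of the Cauchy-Schwarz inequality. -/
def T_AINEQ : Prop := ∀ (C : (V : Type) → SimpleGraph V → Prop), LeafStable C →
  ∀ n : ℕ, 1 ≤ n → ((n : ℝ) + 1) ^ 2 * aa C (n + 1) ^ 2 ≤
    aa C (n + 2) * ((n : ℝ) ^ 2 * aa C n + ((n : ℝ) + 1) * aa C (n + 1))

/-- FEWL: few members have few leaves. -/
def T_FEWL : Prop := ∀ (C : (V : Type) → SimpleGraph V → Prop), LeafStable C →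
  ∀ n t : ℕ, 2 ≤ n → ((cc C (Fin n)).filter (fun G => lv G ≤ t)).card * ((n + 1) * n) ≤
    (t + 1) * cnt C (n + 1)

/-- GAM: lower bound for the growth. -/
def T_GAM : Prop := ∀ (C : (V : Type) → SimpleGraph V → Prop), LeafStable C →
  ∀ n : ℕ, 2 ≤ n → 2 * (n : ℝ) * aa C n ≤ ((n : ℝ) + 2) * aa C (n + 2)

/-- EXU: an attached good pendant set is unique. -/
def T_EXU : Prop := ∀ (V : Type) [Fintype V] (k : ℕ) (G : SimpleGraph V) (W W' : Finset V)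
  (r x : V), G.Connected → Pnd G W r x → W.card = 2 * (k + 3) → 4 * (k + 3) < Fintype.card V →
  Gd k G W' → W' ≠ W → Disjoint W W' ∧ Gd k (rs G Wᶜ) W'

/-- CARDF: the number of rooted caterpillars on a set. -/
def T_CARDF : Prop := ∀ (V : Type) [Fintype V] (k : ℕ) (W : Finset V), W.card = 2 * (k + 3) →
  (FS k W).card = FF k

/-- CARDN: the number of members on `S` without good pendant sets. -/
def T_CARDN : Prop := ∀ (C : (V : Type) → SimpleGraph V → Prop), IsoInv C →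
  ∀ (V : Type) [Fintype V] (k : ℕ) (S : Finset V),
  ((cS C S).filter (fun K => ∀ W, ¬ Gd k K W)).card =
    ((cc C (Fin S.card)).filter (fun K => ∀ W, ¬ Gd k K W)).card

/-- EXI: few members have no good pendant set. -/
def T_EXI : Prop := ∀ (C : (V : Type) → SimpleGraph V → Prop), LeafStable C →
  ∀ n k : ℕ, 2 * (k + 3) < n →
  ((cc C (Fin n)).filter (fun K => ∀ W, ¬ Gd k K W)).card *
    ((n + 2 * (k + 3)).choose (2 * (k + 3)) * n * FF k) ≤ cnt C (n + 2 * (k + 3))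

/-- CIS: the number of graphs on `W2` isomorphic to a given one. -/
def T_CIS : Prop := ∀ (V : Type) [Fintype V] (W2 A : Finset V) (T : SimpleGraph V),
  ((univ : Finset (SimpleGraph V)).filter (fun T2 => (∀ a b, T2.Adj a b → a ∈ W2 ∧ b ∈ W2) ∧
    Is T2 W2 T A)).card ≤ W2.card.factorial

/-- COLG: members with two disjoint pendant trees, one of them is determined by the other. -/
def T_COLG : Prop := ∀ (C : (V : Type) → SimpleGraph V → Prop), LeafStable C →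
  ∀ (V : Type) [Fintype V] (k b : ℕ) (W W2 : Finset V)
  (Φ : SimpleGraph V → Finset (SimpleGraph V)), Disjoint W W2 → W.card = 2 * (k + 3) →
  W.card + W2.card < Fintype.card V → (∀ T, (Φ T).card ≤ b) →
  ((cc C V).filter (fun G => (∃ r x, Pnd G W r x ∧ Cat k G W r) ∧ (∃ r2 x2, Pnd G W2 r2 x2) ∧
    (G.induce (W2 : Set V)).IsTree ∧ rs G W2 ∈ Φ (rs G W))).card ≤
  FF k * b * W2.card * Fintype.card V ^ 2 * cnt C (Fintype.card V - W.card - W2.card)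

/-- COLL: few members have a collision. -/
def T_COLL : Prop := ∀ (C : (V : Type) → SimpleGraph V → Prop), LeafStable C →
  ∀ n k : ℕ, 4 * (k + 3) + 2 ≤ n →
  (((cc C (Fin n)).filter (fun G => Col k G)).card : ℝ) / (n.factorial : ℝ) ≤
    (n : ℝ) ^ 2 * (2 * ((k : ℝ) + 3) + 1) ^ 3 *
      ((FF k : ℝ) / ((2 * (k + 3)).factorial : ℝ)) *
      (aa C (n - (4 * (k + 3) - 1)) + aa C (n - 4 * (k + 3)) + aa C (n - (4 * (k + 3) + 1)))

/-- FUP: upper bound for the number of caterpillars. -/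
def T_FUP : Prop := ∀ k : ℕ, FF k * (k + 3).factorial ≤
  (2 * (k + 3)).factorial * (k + 3) ^ (k + 3)

/-- FLO: lower bound for the number of caterpillars. -/
def T_FLO : Prop := ∀ k : ℕ, (2 * (k + 3)).factorial * (k + 3) ^ (k + 3) ≤
  FF k * (k + 3).factorial * (2 * (k + 3)) ^ 2

/-! ### real analysis -/

/-- SMOOTH: a growth constant and AINEQ give a regular growth. -/
def T_SMOOTH : Prop := ∀ (a : ℕ → ℝ) (γ : ℝ) (n₀ : ℕ), 0 < γ → (∀ n, n₀ ≤ n → 0 < a n) →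
  (∀ n : ℕ, n₀ ≤ n → ((n : ℝ) + 1) ^ 2 * a (n + 1) ^ 2 ≤
    a (n + 2) * ((n : ℝ) ^ 2 * a n + ((n : ℝ) + 1) * a (n + 1))) →
  Tendsto (fun n : ℕ => a n ^ (1 / (n : ℝ))) atTop (𝓝 γ) →
  Tendsto (fun n : ℕ => a (n + 1) / a n) atTop (𝓝 γ)

/-- L71: the ratios are at least `100 / 71`. -/
def T_L71 : Prop := ∀ (a : ℕ → ℝ) (n₀ : ℕ), (∀ n, n₀ ≤ n → 0 < a n) →
  (∀ n : ℕ, n₀ ≤ n → ((n : ℝ) + 1) ^ 2 * a (n + 1) ^ 2 ≤
    a (n + 2) * ((n : ℝ) ^ 2 * a n + ((n : ℝ) + 1) * a (n + 1))) →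
  (∀ n : ℕ, n₀ ≤ n → 2 * (n : ℝ) * a n ≤ ((n : ℝ) + 2) * a (n + 2)) →
  ∃ n₁ : ℕ, ∀ n, n₁ ≤ n → a n ≤ 71 / 100 * a (n + 1)

/-- The ratios of `a` are bounded by `1 / δ` and vary little near `n`. -/
def Good (a : ℕ → ℝ) (δ : ℝ) (n : ℕ) : Prop :=
  ∀ i j : ℕ, (n : ℝ) ≤ (i : ℝ) + 30 * Real.log n → (i : ℝ) ≤ (n : ℝ) + 30 * Real.log n →
    (n : ℝ) ≤ (j : ℝ) + 30 * Real.log n → (j : ℝ) ≤ (n : ℝ) + 30 * Real.log n →
    δ * a (i + 1) ≤ a i ∧ a i * a (j + 1) ≤ Real.exp (1 / 100) * (a j * a (i + 1))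

/-- ASY: all error terms are small for a suitable `k`, if `n` is good. -/
def T_ASY : Prop := ∀ (a φ : ℕ → ℝ) (n₀ : ℕ), (∀ n, 0 ≤ a n) →
  (∀ n, n₀ ≤ n → 0 < a n ∧ a n ≤ 71 / 100 * a (n + 1)) →
  (∀ k : ℕ, φ k ≤ ((k : ℝ) + 3) ^ (k + 3) / ((k + 3).factorial : ℝ)) →
  (∀ k : ℕ, ((k : ℝ) + 3) ^ (k + 3) / ((k + 3).factorial : ℝ) / (2 * ((k : ℝ) + 3)) ^ 2 ≤ φ k) →
  ∀ δ ε : ℝ, 0 < δ → 0 < ε → ∃ n₁ : ℕ, ∀ n, n₁ ≤ n → Good a δ n → ∃ k : ℕ,
    4 * (k + 3) + 2 ≤ n ∧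
    a (n + 2 * (k + 3)) / ((n : ℝ) * φ k) + (2 * ((k : ℝ) + 3) + 1) * a (n + 1) / (n : ℝ) +
      (n : ℝ) ^ 2 * (2 * ((k : ℝ) + 3) + 1) ^ 3 * φ k *
        (a (n - (4 * (k + 3) - 1)) + a (n - 4 * (k + 3)) + a (n - (4 * (k + 3) + 1))) ≤ ε * a n

/-- GOODR: convergence of the ratios makes all large `n` good. -/
def T_GOODR : Prop := ∀ (a : ℕ → ℝ) (γ : ℝ) (n₀ : ℕ), 0 < γ → (∀ n, n₀ ≤ n → 0 < a n) →
  Tendsto (fun n : ℕ => a (n + 1) / a n) atTop (𝓝 γ) →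
  ∃ δ : ℝ, 0 < δ ∧ ∃ n₁ : ℕ, ∀ n, n₁ ≤ n → Good a δ n

/-- DENA: large ratios are rare. -/
def T_DENA : Prop := ∀ (a : ℕ → ℝ) (n₀ : ℕ) (K : ℝ),
  (∀ n, n₀ ≤ n → 0 < a n ∧ a n ≤ 71 / 100 * a (n + 1)) →
  (∀ n : ℕ, n₀ ≤ n → ((n : ℝ) + 1) ^ 2 * a (n + 1) ^ 2 ≤
    a (n + 2) * ((n : ℝ) ^ 2 * a n + ((n : ℝ) + 1) * a (n + 1))) →
  (∀ n, a n ≤ K ^ n) → ∀ η : ℝ, 0 < η → ∃ δ : ℝ, 0 < δ ∧ ∃ N₀ : ℕ, ∀ N, N₀ ≤ N →
  (((range N).filter (fun n : ℕ => ∃ i : ℕ, (n : ℝ) ≤ (i : ℝ) + 30 * Real.log n ∧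
    (i : ℝ) ≤ (n : ℝ) + 30 * Real.log n ∧ a i < δ * a (i + 1))).card : ℝ) ≤ η * N

/-- DENB: large variations of the ratios are rare. -/
def T_DENB : Prop := ∀ (a : ℕ → ℝ) (n₀ : ℕ),
  (∀ n, n₀ ≤ n → 0 < a n ∧ a n ≤ 71 / 100 * a (n + 1)) →
  (∀ n : ℕ, n₀ ≤ n → ((n : ℝ) + 1) ^ 2 * a (n + 1) ^ 2 ≤
    a (n + 2) * ((n : ℝ) ^ 2 * a n + ((n : ℝ) + 1) * a (n + 1))) →
  ∀ δ η : ℝ, 0 < δ → 0 < η → ∃ N₀ : ℕ, ∀ N, N₀ ≤ N →
  (((range N).filter (fun n : ℕ =>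
    (∀ i : ℕ, (n : ℝ) ≤ (i : ℝ) + 30 * Real.log n → (i : ℝ) ≤ (n : ℝ) + 30 * Real.log n →
      δ * a (i + 1) ≤ a i) ∧
    ∃ i j : ℕ, (n : ℝ) ≤ (i : ℝ) + 30 * Real.log n ∧ (i : ℝ) ≤ (n : ℝ) + 30 * Real.log n ∧
      (n : ℝ) ≤ (j : ℝ) + 30 * Real.log n ∧ (j : ℝ) ≤ (n : ℝ) + 30 * Real.log n ∧
      Real.exp (1 / 100) * (a j * a (i + 1)) < a i * a (j + 1))).card : ℝ) ≤ η * N

/-! ### bridge stable classes -/

/-- BL: bridge stable classes are leaf stable. -/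
def T_BL : Prop := ∀ (C : (V : Type) → SimpleGraph V → Prop), BridgeStable C → LeafStable C

/-- SUPM: bridge stable classes grow supermultiplicatively. -/
def T_SUPM : Prop := ∀ (C : (V : Type) → SimpleGraph V → Prop), BridgeStable C →
  (∀ n : ℕ, 1 ≤ n → 0 < aa C n) ∧
  ∀ m n : ℕ, 1 ≤ m → 1 ≤ n → aa C n * aa C m ≤ 2 * aa C (n + m)

/-- GROW: a supermultiplicative sequence which grows at most exponentially has a growth constant. -/
def T_GROW : Prop := ∀ (a : ℕ → ℝ) (K : ℝ), (∀ n, 1 ≤ n → 0 < a n) → (∀ n, a n ≤ K ^ n) →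
  (∀ m n : ℕ, 1 ≤ m → 1 ≤ n → a n * a m ≤ 2 * a (n + m)) →
  ∃ γ : ℝ, Tendsto (fun n : ℕ => a n ^ (1 / (n : ℝ))) atTop (𝓝 γ)

/-- MAIN: almost all members of a leaf stable class with a growth constant are reconstructible. -/
def T_MAIN : Prop := ∀ (C : (V : Type) → SimpleGraph V → Prop), LeafStable C → ∀ γ : ℝ,
  Tendsto (fun n : ℕ => aa C n ^ (1 / (n : ℝ))) atTop (𝓝 γ) →
  ∀ ε : ℝ, 0 < ε → ∃ n₀ : ℕ, ∀ n, n₀ ≤ n →
  ((univ.filter (fun G : SimpleGraph (Fin n) => C (Fin n) G ∧ ¬ Rec G)).card : ℝ) ≤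
    ε * ((cc C (Fin n)).card : ℝ)

/-- MAINS: small leaf stable classes, for almost all `n`. -/
def T_MAINS : Prop := ∀ (C : (V : Type) → SimpleGraph V → Prop), LeafStable C → ∀ K : ℝ,
  (∀ n, (cnt C n : ℝ) ≤ K ^ n * (n.factorial : ℝ)) →
  ∀ ε η : ℝ, 0 < ε → 0 < η → ∃ N₀ : ℕ, ∀ N, N₀ ≤ N →
  (((range N).filter (fun n : ℕ => ε * ((cc C (Fin n)).card : ℝ) <
    ((univ.filter (fun G : SimpleGraph (Fin n) => C (Fin n) G ∧ ¬ Rec G)).card : ℝ))).card : ℝ)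
    ≤ η * N

/-- MAINB: almost all members of a small bridge stable class are reconstructible. -/
def T_MAINB : Prop := ∀ (C : (V : Type) → SimpleGraph V → Prop), BridgeStable C → ∀ K : ℝ,
  (∀ n, (cnt C n : ℝ) ≤ K ^ n * (n.factorial : ℝ)) →
  ∀ ε : ℝ, 0 < ε → ∃ n₀ : ℕ, ∀ n, n₀ ≤ n →
  ((univ.filter (fun G : SimpleGraph (Fin n) => C (Fin n) G ∧ ¬ Rec G)).card : ℝ) ≤
    ε * ((cc C (Fin n)).card : ℝ)

end Pool.Agent.Pend
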